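import Mathlib

/-!
# Plane lattices `{(f, g) : D ∣ g c - f}`: a vector with `g` prime to `b` and small coordinates
-/

set_option autoImplicit false

namespace Pool.Agent.X2.AdicLattice

open Finset

/-- `g₂ + u g₁` is prime to `b` for some `0 ≤ u ≤ b` -/
theorem exists_coprime (g1 g2 : ℤ) (h : Int.gcd g1 g2 = 1) (b : ℕ) (hb : 2 ≤ b) :
    ∃ u : ℕ, u ≤ b ∧ Int.gcd (g2 + u * g1) b = 1 := by
  classical
  set P : Finset ℕ := b.primeFactors.filter (fun p : ℕ => ¬ ((p : ℤ) ∣ g2)) with hP
  refine ⟨∏ p ∈ P, p, ?_, ?_⟩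
  · have h1 : ∏ p ∈ P, p ≤ ∏ p ∈ b.primeFactors, p := by
      apply Finset.prod_le_prod_of_subset_of_one_le' (Finset.filter_subset _ _)
      intro p hp _
      exact (Nat.prime_of_mem_primeFactors hp).one_le
    exact h1.trans (Nat.le_of_dvd (by omega) (Nat.prod_primeFactors_dvd b))
  · by_contra hg
    obtain ⟨p, hp, hpd⟩ := Nat.exists_prime_and_dvd hg
    have h1 : (p : ℤ) ∣ g2 + (∏ p ∈ P, p : ℕ) * g1 :=
      (Int.natCast_dvd_natCast.2 hpd).trans (Int.gcd_dvd_left _ _)
    have h2 : p ∣ b := by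
      have := (Int.natCast_dvd_natCast.2 hpd).trans (Int.gcd_dvd_right (g2 + (∏ p ∈ P, p : ℕ) * g1) b)
      exact_mod_cast this
    have hpb : p ∈ b.primeFactors := Nat.mem_primeFactors.2 ⟨hp, h2, by omega⟩
    have hpp : Prime (p : ℤ) := Nat.prime_iff_prime_int.1 hp
    by_cases h3 : (p : ℤ) ∣ g2
    · have h4 : (p : ℤ) ∣ (∏ p ∈ P, p : ℕ) * g1 := by
        have := dvd_sub h1 h3
        simpa using this
      rcases hpp.dvd_or_dvd h4 with h5 | h5
      · have h6 : p ∣ ∏ q ∈ P, q := by exact_mod_cast h5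
        obtain ⟨q, hq, hpq⟩ := (Nat.Prime.prime hp).exists_mem_finset_dvd h6
        rw [hP, mem_filter] at hq
        have h7 : p = q := (Nat.prime_dvd_prime_iff_eq hp (Nat.prime_of_mem_primeFactors hq.1)).1 hpq
        rw [← h7] at hq
        exact hq.2 h3
      · have h8 : (p : ℤ) ∣ Int.gcd g1 g2 := Int.dvd_coe_gcd h5 h3
        rw [h] at h8
        have h9 : p ∣ 1 := by exact_mod_cast h8
        exact hp.one_lt.ne' (Nat.dvd_one.1 h9)
    · have h5 : p ∈ P := by
        rw [hP, mem_filter]; exact ⟨hpb, h3⟩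
      have h6 : (p : ℤ) ∣ (∏ q ∈ P, q : ℕ) := by
        exact_mod_cast Finset.dvd_prod_of_mem _ h5
      have h7 : (p : ℤ) ∣ g2 := by
        have := dvd_sub h1 (h6.mul_right g1)
        simpa using this
      exact h3 h7

/-- a nonzero vector of the lattice with coordinates at most `√D` -/
theorem exists_short (D : ℕ) (hD : 1 ≤ D) (c : ℤ) :
    ∃ f g : ℤ, (f, g) ≠ (0, 0) ∧ (D : ℤ) ∣ g * c - f ∧ max |f| |g| * max |f| |g| ≤ D := by
  have hN : 0 < Nat.sqrt D := Nat.sqrt_pos.2 hD
  obtain ⟨j, k, hk0, hkN, hjk⟩ := Real.exists_int_int_abs_mul_sub_le ((c : ℝ) / D) hN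
  refine ⟨k * c - D * j, k, ?_, ⟨j, by ring⟩, ?_⟩
  · intro h
    have : k = 0 := by
      have := congrArg Prod.snd h
      simpa using this
    omega
  · have hDR : (0 : ℝ) < D := by exact_mod_cast hD
    have h1 : |(k : ℝ) * c - D * j| ≤ D / (Nat.sqrt D + 1) := by
      have e : (k : ℝ) * c - D * j = D * (k * (c / D) - j) := by
        field_simp
      rw [e, abs_mul, abs_of_pos hDR]
      calc (D : ℝ) * |(k : ℝ) * ((c : ℝ) / D) - (j : ℝ)| ≤ D * (1 / (Nat.sqrt D + 1)) :=
            mul_le_mul_of_nonneg_left hjk hDR.le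
        _ = D / (Nat.sqrt D + 1) := by ring
    have h2 : (D : ℝ) < (Nat.sqrt D + 1) * (Nat.sqrt D + 1) := by
      exact_mod_cast Nat.lt_succ_sqrt D
    have hs1 : (0 : ℝ) < (Nat.sqrt D : ℝ) + 1 := by positivity
    have h3 : |(k : ℝ) * c - D * j| < Nat.sqrt D + 1 := by
      refine lt_of_le_of_lt h1 ?_
      rw [div_lt_iff₀ hs1]
      exact h2
    have h4 : |k * c - D * j| < (Nat.sqrt D : ℤ) + 1 := by
      exact_mod_cast h3
    have h5 : |k * c - D * j| ≤ (Nat.sqrt D : ℤ) := by omega
    have h6 : |k| ≤ (Nat.sqrt D : ℤ) := by rw [abs_of_pos hk0]; exact hkN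
    have h7 : max |k * c - D * j| |k| ≤ (Nat.sqrt D : ℤ) := max_le h5 h6
    have h8 : 0 ≤ max |k * c - D * j| |k| := le_max_of_le_left (abs_nonneg _)
    have h9 : ((Nat.sqrt D : ℤ)) * (Nat.sqrt D : ℤ) ≤ D := by exact_mod_cast Nat.sqrt_le D
    nlinarith

/-- If every nonzero vector of the lattice has size at least `L`, some vector with second coordinate
positive and prime to `b` has size at most `(b + 2) D / L`. -/
theorem exists_good (D : ℕ) (hD : 1 ≤ D) (c : ℤ) (b : ℕ) (hb : 2 ≤ b) (L : ℝ) (hL : 0 < L)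
    (hlow : ∀ f g : ℤ, (f, g) ≠ (0, 0) → (D : ℤ) ∣ g * c - f → L ≤ (max |f| |g| : ℤ)) :
    ∃ f g : ℤ, 0 < g ∧ Int.gcd g b = 1 ∧ (D : ℤ) ∣ g * c - f ∧
      (|f| : ℝ) ≤ (b + 2) * D / L ∧ (|g| : ℝ) ≤ (b + 2) * D / L := by
  classical
  have hDZ : (1 : ℤ) ≤ D := by exact_mod_cast hD
  -- a shortest vector
  have hex : ∃ m : ℕ, ∃ f g : ℤ, (f, g) ≠ (0, 0) ∧ (D : ℤ) ∣ g * c - f ∧ max |f| |g| = (m : ℤ) := by
    obtain ⟨f, g, h1, h2, -⟩ := exists_short D hD c
    refine ⟨(max |f| |g|).toNat, f, g, h1, h2, ?_⟩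
    rw [Int.toNat_of_nonneg (le_max_of_le_left (abs_nonneg _))]
  obtain ⟨f1, g1, hne, ⟨k1, hk1⟩, hm⟩ := Nat.find_spec hex
  have hmin : ∀ f g : ℤ, (f, g) ≠ (0, 0) → (D : ℤ) ∣ g * c - f → max |f1| |g1| ≤ max |f| |g| := by
    intro f g h1 h2
    by_contra h3
    rw [not_le, hm] at h3
    have h4 : (max |f| |g|).toNat < Nat.find hex := by
      have h5 : 0 ≤ max |f| |g| := le_max_of_le_left (abs_nonneg _)
      omega
    apply Nat.find_min hex h4
    exact ⟨f, g, h1, h2, by rw [Int.toNat_of_nonneg (le_max_of_le_left (abs_nonneg _))]⟩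
  set lam : ℤ := max |f1| |g1| with hlam
  have hlam0 : 0 < lam := by
    rw [hlam]
    rcases eq_or_ne f1 0 with h | h
    · have h2 : g1 ≠ 0 := by
        intro h3; exact hne (by rw [h, h3])
      exact lt_max_of_lt_right (abs_pos.2 h2)
    · exact lt_max_of_lt_left (abs_pos.2 h)
  have hlamD : lam * lam ≤ D := by
    obtain ⟨f, g, h1, h2, h3⟩ := exists_short D hD c
    have h4 := hmin f g h1 h2
    nlinarith
  -- primitivity
  have hprim : Int.gcd g1 k1 = 1 := by
    by_contra hg
    set d := Int.gcd g1 k1 with hd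
    have hd0 : d ≠ 0 := by
      intro h0
      rw [hd, Int.gcd_eq_zero_iff] at h0
      apply hne
      rw [h0.1, h0.2] at hk1
      rw [h0.1]
      have : f1 = 0 := by linarith
      rw [this]
    obtain ⟨g', hg'⟩ : (d : ℤ) ∣ g1 := Int.gcd_dvd_left _ _
    obtain ⟨k', hk'⟩ : (d : ℤ) ∣ k1 := Int.gcd_dvd_right _ _
    have hd2 : (2 : ℤ) ≤ d := by
      have : 2 ≤ d := by omega
      exact_mod_cast this
    have hf1 : f1 = d * (g' * c - D * k') := by
      have : f1 = g1 * c - D * k1 := by linarith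
      rw [this, hg', hk']; ring
    have hne' : (g' * c - D * k', g') ≠ (0, 0) := by
      intro h
      rw [Prod.mk.injEq] at h
      apply hne
      rw [hf1, h.1, hg', h.2, mul_zero]
    have h1 := hmin (g' * c - D * k') g' hne' ⟨k', by ring⟩
    have h2 : |f1| = d * |g' * c - D * k'| := by
      rw [hf1, abs_mul, abs_of_pos (by linarith : (0 : ℤ) < d)]
    have h3 : |g1| = d * |g'| := by
      rw [hg', abs_mul, abs_of_pos (by linarith : (0 : ℤ) < d)]
    have h4 : lam = d * max |g' * c - D * k'| |g'| := by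
      rw [hlam, h2, h3, mul_max_of_nonneg _ _ (by linarith)]
    nlinarith
  -- a second vector
  have hbez := Int.gcd_eq_gcd_ab g1 k1
  rw [hprim] at hbez
  set s := Int.gcdA g1 k1
  set t := Int.gcdB g1 k1
  have hdet0 : s * g1 - k1 * (-t) = 1 := by push_cast at hbez; linarith
  have hlamR : (0 : ℝ) < lam := by exact_mod_cast hlam0
  have hDR : (0 : ℝ) < D := by exact_mod_cast hD
  have hred : ∃ k2 g2 : ℤ, k2 * g1 - k1 * g2 = 1 ∧ |g2 * c - D * k2| * lam ≤ 2 * D ∧
      |g2| * lam ≤ 2 * D := by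
    rcases le_total |g1| |f1| with hcase | hcase
    · have hl : lam = |f1| := by rw [hlam, max_eq_left hcase]
      have hf0 : f1 ≠ 0 := by
        intro h; rw [h, abs_zero] at hl; omega
      set f2 := (-t) * c - D * s with hf2
      set r := f2 / f1 with hr
      refine ⟨s - r * k1, -t - r * g1, by ring_nf; ring_nf at hdet0; linarith, ?_, ?_⟩
      · have e : (-t - r * g1) * c - D * (s - r * k1) = f2 % f1 := by
          rw [Int.emod_def, ← hr]
          have : f1 = g1 * c - D * k1 := by linarith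
          rw [hf2, this]; ring
        rw [e, abs_of_nonneg (Int.emod_nonneg _ hf0)]
        have h1 : f2 % f1 < lam := by rw [hl]; exact Int.emod_lt_abs _ hf0
        nlinarith
      · have e : (-t - r * g1) * c - D * (s - r * k1) = f2 % f1 := by
          rw [Int.emod_def, ← hr]
          have : f1 = g1 * c - D * k1 := by linarith
          rw [hf2, this]; ring
        -- f1 g2 - f2' g1 = D
        have hdet : f1 * (-t - r * g1) = D + (f2 % f1) * g1 := by
          rw [← e]
          have h1 : f1 = g1 * c - D * k1 := by linarith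
          have h2 : (s - r * k1) * g1 - k1 * (-t - r * g1) = 1 := by
            ring_nf; ring_nf at hdet0; linarith
          rw [h1]
          linear_combination (D : ℤ) * h2
        have h1 : |f1 * (-t - r * g1)| ≤ D + lam * lam := by
          rw [hdet]
          calc |(D : ℤ) + (f2 % f1) * g1| ≤ |(D : ℤ)| + |(f2 % f1) * g1| := abs_add_le _ _
            _ = D + (f2 % f1) * |g1| := by
                rw [abs_of_nonneg (by linarith : (0 : ℤ) ≤ D), abs_mul,
                  abs_of_nonneg (Int.emod_nonneg _ hf0)]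
            _ ≤ D + lam * lam := by
                have h3 : f2 % f1 ≤ lam := by rw [hl]; exact (Int.emod_lt_abs _ hf0).le
                have h4 : |g1| ≤ lam := le_max_right _ _
                have h5 := Int.emod_nonneg f2 hf0
                have h6 := abs_nonneg g1
                nlinarith
        rw [abs_mul, ← hl] at h1
        rw [mul_comm]
        linarith
    · have hl : lam = |g1| := by rw [hlam, max_eq_right hcase]
      have hg0 : g1 ≠ 0 := by
        intro h; rw [h, abs_zero] at hl; omega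
      set r := (-t) / g1 with hr
      refine ⟨s - r * k1, -t - r * g1, by ring_nf; ring_nf at hdet0; linarith, ?_, ?_⟩
      · have e : -t - r * g1 = (-t) % g1 := by
          rw [Int.emod_def, ← hr]; ring
        have hdet : ((-t - r * g1) * c - D * (s - r * k1)) * g1 = f1 * ((-t) % g1) - D := by
          rw [← e]
          have h1 : f1 = g1 * c - D * k1 := by linarith
          have h2 : (s - r * k1) * g1 - k1 * (-t - r * g1) = 1 := by
            ring_nf; ring_nf at hdet0; linarith
          rw [h1]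
          linear_combination (-(D : ℤ)) * h2
        have h1 : |((-t - r * g1) * c - D * (s - r * k1)) * g1| ≤ D + lam * lam := by
          rw [hdet]
          calc |f1 * ((-t) % g1) - D| ≤ |f1 * ((-t) % g1)| + |(D : ℤ)| := abs_sub _ _
            _ = |f1| * ((-t) % g1) + D := by
                rw [abs_of_nonneg (by linarith : (0 : ℤ) ≤ D), abs_mul,
                  abs_of_nonneg (Int.emod_nonneg _ hg0)]
            _ ≤ D + lam * lam := by
                have h3 : (-t) % g1 ≤ lam := by rw [hl]; exact (Int.emod_lt_abs _ hg0).le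
                have h4 : |f1| ≤ lam := le_max_left _ _
                have h5 := Int.emod_nonneg (-t) hg0
                have h6 := abs_nonneg f1
                nlinarith
        rw [abs_mul, ← hl] at h1
        linarith
      · have e : -t - r * g1 = (-t) % g1 := by
          rw [Int.emod_def, ← hr]; ring
        rw [e, abs_of_nonneg (Int.emod_nonneg _ hg0)]
        have h3 : (-t) % g1 ≤ lam := by rw [hl]; exact (Int.emod_lt_abs _ hg0).le
        nlinarith
  obtain ⟨k2, g2, hdet, hf2, hg2⟩ := hred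
  have hcop : Int.gcd g1 g2 = 1 := by
    rw [← Int.isCoprime_iff_gcd_eq_one]
    exact ⟨k2, -k1, by linarith⟩
  obtain ⟨u, hub, hu⟩ := exists_coprime g1 g2 hcop b hb
  set f := (g2 + u * g1) * c - D * (k2 + u * k1) with hf
  have hg0 : g2 + u * g1 ≠ 0 := by
    intro h
    rw [h, Int.gcd_zero_left] at hu
    have : b = 1 := by simpa using hu
    omega
  have hfe : f = (g2 * c - D * k2) + u * f1 := by
    have h1 : f1 = g1 * c - D * k1 := by linarith
    rw [hf, h1]; ring
  have hLlam : L ≤ lam := hlow f1 g1 hne ⟨k1, hk1⟩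
  have key : ∀ z w : ℤ, |z| * lam ≤ 2 * D → |w| ≤ lam → ((|z + u * w| : ℤ) : ℝ) ≤ (b + 2) * D / L := by
    intro z w h1 h2
    have h3 : |z + u * w| * lam ≤ (b + 2) * D := by
      have h4 : |z + u * w| ≤ |z| + u * |w| := by
        calc |z + u * w| ≤ |z| + |(u : ℤ) * w| := abs_add_le _ _
          _ = |z| + u * |w| := by rw [abs_mul, abs_of_nonneg (by positivity : (0 : ℤ) ≤ u)]
      have h5 : (u : ℤ) * |w| * lam ≤ b * D := by
        have h6 : (u : ℤ) ≤ b := by exact_mod_cast hub
        have h7 : |w| * lam ≤ D := by nlinarith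
        have h8 : 0 ≤ |w| * lam := by positivity
        calc (u : ℤ) * |w| * lam = u * (|w| * lam) := by ring
          _ ≤ b * D := by
              apply mul_le_mul h6 h7 h8 (by positivity)
      nlinarith
    have h4 : (((|z + u * w| : ℤ)) : ℝ) * lam ≤ (b + 2) * D := by exact_mod_cast h3
    rw [le_div_iff₀ hL]
    have h5 : (0 : ℝ) ≤ ((|z + u * w| : ℤ) : ℝ) := by positivity
    nlinarith
  have hB1 : ((|f| : ℤ) : ℝ) ≤ (b + 2) * D / L := by
    rw [hfe]
    exact key _ _ hf2 (le_max_left _ _)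
  have hB2 : ((|g2 + u * g1| : ℤ) : ℝ) ≤ (b + 2) * D / L := key _ _ hg2 (le_max_right _ _)
  push_cast at hB1 hB2
  rcases lt_or_gt_of_ne hg0 with hneg | hpos
  · refine ⟨-f, -(g2 + u * g1), by linarith, ?_, ⟨-(k2 + u * k1), by rw [hf]; ring⟩, ?_, ?_⟩
    · rw [Int.neg_gcd]; exact hu
    · push_cast; rw [abs_neg]; exact hB1
    · push_cast; rw [abs_neg]; exact hB2
  · refine ⟨f, g2 + u * g1, hpos, hu, ⟨k2 + u * k1, by rw [hf]; ring⟩, hB1, ?_⟩
    push_cast; exact hB2

end Pool.Agent.X2.AdicLattice
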