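import Mathlib
import Pool.Agent.X2.AdicLattice
import Pool.Agent.TH629.RidM

/-!
# The `b`-adic complexity of the digits of algebraic numbers, read backwards
-/

set_option autoImplicit false

namespace Pool.Agent.X2.AdicDigits

open Finset

/-- the `k`-th digit of `x` after the point in base `b` -/
noncomputable def digit (b : ℕ) (x : ℝ) (k : ℕ) : ℤ := ⌊x * (b : ℝ) ^ k⌋ % (b : ℤ)

/-- the least `M` such that the `b`-adic expansion of some rational number `f / g` with `g > 0` prime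
to `b` and `|f|, g ≤ M` begins with the letters `c 0, c 1, …, c (n - 1)` -/
noncomputable def size (b n : ℕ) (c : ℕ → ℤ) : ℕ :=
  sInf {M : ℕ | ∃ f g : ℤ, 0 < g ∧ Int.gcd g b = 1 ∧
    (b : ℤ) ^ n ∣ g * (∑ i ∈ range n, c i * (b : ℤ) ^ i) - f ∧ |f| ≤ M ∧ g ≤ M}

/-- the `b`-adic complexity of the word `c 0, c 1, …, c (n - 1)` -/
noncomputable def adicComplexity (b n : ℕ) (c : ℕ → ℤ) : ℝ := Real.logb b (size b n c)

/-- the digits of `x` at the places `m + n, m + n - 1, …, m + 1` -/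
noncomputable def backwards (b : ℕ) (x : ℝ) (m n : ℕ) : ℕ → ℤ := fun i => digit b x (m + n - i)

lemma floor_succ {b : ℕ} (hb : 2 ≤ b) (x : ℝ) (k : ℕ) :
    ⌊x * (b : ℝ) ^ (k + 1)⌋ = b * ⌊x * (b : ℝ) ^ k⌋ + digit b x (k + 1) := by
  unfold digit
  have h1 : ⌊x * (b : ℝ) ^ (k + 1)⌋ / (b : ℤ) = ⌊x * (b : ℝ) ^ k⌋ := by
    have hbR : (0 : ℝ) < b := by positivity
    have hbZ : (0 : ℤ) < b := by positivity
    rw [Int.ediv_eq_iff_of_pos hbZ]
    set y := x * (b : ℝ) ^ k with hy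
    have e : x * (b : ℝ) ^ (k + 1) = y * b := by rw [hy]; ring
    rw [e]
    have h2 := Int.floor_le y
    have h3 := Int.lt_floor_add_one y
    constructor
    · rw [Int.le_floor]
      push_cast
      nlinarith
    · rw [Int.floor_lt]
      push_cast
      nlinarith
  have h2 := Int.mul_ediv_add_emod ⌊x * (b : ℝ) ^ (k + 1)⌋ (b : ℤ)
  rw [h1] at h2
  linarith

lemma value {b : ℕ} (hb : 2 ≤ b) (x : ℝ) (m n : ℕ) :
    ∑ i ∈ range n, backwards b x m n i * (b : ℤ) ^ i =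
      ⌊x * (b : ℝ) ^ (m + n)⌋ - (b : ℤ) ^ n * ⌊x * (b : ℝ) ^ m⌋ := by
  induction n with
  | zero => simp
  | succ n ih =>
    rw [sum_range_succ']
    have h1 : ∑ i ∈ range n, backwards b x m (n + 1) (i + 1) * (b : ℤ) ^ (i + 1) =
        b * ∑ i ∈ range n, backwards b x m n i * (b : ℤ) ^ i := by
      rw [mul_sum]
      apply sum_congr rfl
      intro i _
      unfold backwards
      rw [show m + (n + 1) - (i + 1) = m + n - i by omega]
      ring
    rw [h1, ih]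
    unfold backwards
    rw [show m + (n + 1) - 0 = (m + n) + 1 by omega, ← add_assoc, floor_succ hb x (m + n)]
    ring

/-- approximation of `b ^ m x` from a representation of the window -/
lemma approx {b : ℕ} (hb : 2 ≤ b) (x : ℝ) (m n : ℕ) (f g : ℤ) (hg : 0 < g)
    (h : (b : ℤ) ^ n ∣ g * (∑ i ∈ range n, backwards b x m n i * (b : ℤ) ^ i) - f) :
    ∃ k : ℤ, |(g : ℝ) * (b : ℝ) ^ m * x - k| ≤ 2 * (max |f| |g| : ℤ) / (b : ℝ) ^ n := by
  obtain ⟨k', hk'⟩ := h
  rw [value hb x m n] at hk'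
  have hbR : (0 : ℝ) < b := by positivity
  have hbn : (0 : ℝ) < (b : ℝ) ^ n := by positivity
  refine ⟨k' + g * ⌊x * (b : ℝ) ^ m⌋, ?_⟩
  set F := ⌊x * (b : ℝ) ^ (m + n)⌋ with hF
  set F0 := ⌊x * (b : ℝ) ^ m⌋ with hF0
  have h1 : (g : ℝ) * (F - (b : ℝ) ^ n * F0) - f = (b : ℝ) ^ n * k' := by
    exact_mod_cast hk'
  have h2 := Int.floor_le (x * (b : ℝ) ^ (m + n))
  have h3 := Int.lt_floor_add_one (x * (b : ℝ) ^ (m + n))
  rw [← hF] at h2 h3
  rw [le_div_iff₀ hbn]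
  have e : |(g : ℝ) * (b : ℝ) ^ m * x - ((k' + g * F0 : ℤ) : ℝ)| * (b : ℝ) ^ n =
      |g * (x * (b : ℝ) ^ (m + n) - F) + f| := by
    have h4 : (g * (x * (b : ℝ) ^ (m + n) - F) + f : ℝ) =
        ((g : ℝ) * (b : ℝ) ^ m * x - ((k' + g * F0 : ℤ) : ℝ)) * (b : ℝ) ^ n := by
      push_cast
      rw [pow_add]
      linarith
    rw [h4, abs_mul, abs_of_pos hbn]
  rw [e]
  have hgR : (0 : ℝ) < g := by exact_mod_cast hg
  have h5 : ((max |f| |g| : ℤ) : ℝ) = max |(f : ℝ)| |(g : ℝ)| := by push_cast; rfl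
  rw [h5]
  have h6 : |(f : ℝ)| ≤ max |(f : ℝ)| |(g : ℝ)| := le_max_left _ _
  have h7 : (g : ℝ) ≤ max |(f : ℝ)| |(g : ℝ)| := (le_abs_self _).trans (le_max_right _ _)
  calc |(g : ℝ) * (x * (b : ℝ) ^ (m + n) - F) + f|
      ≤ |(g : ℝ) * (x * (b : ℝ) ^ (m + n) - F)| + |(f : ℝ)| := abs_add_le _ _
    _ ≤ g + |(f : ℝ)| := by
        rw [abs_mul, abs_of_pos hgR]
        have : |x * (b : ℝ) ^ (m + n) - F| ≤ 1 := by
          rw [abs_le]; constructor <;> linarith
        nlinarith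
    _ ≤ 2 * max |(f : ℝ)| |(g : ℝ)| := by linarith

/-- bounds for the complexity from a lower bound `L` for the sizes of all representations -/
theorem bounds {b : ℕ} (hb : 2 ≤ b) (n : ℕ) (c : ℕ → ℤ) (L : ℝ) (hL : 0 < L) (hLb : L ≤ (b : ℝ) ^ n)
    (hlow : ∀ f g : ℤ, 0 < g → (b : ℤ) ^ n ∣ g * (∑ i ∈ range n, c i * (b : ℤ) ^ i) - f →
      L ≤ (max |f| |g| : ℤ)) :
    Real.logb b L ≤ adicComplexity b n c ∧ adicComplexity b n c ≤ n + 2 - Real.logb b L := by
  have hbR : (1 : ℝ) < b := by exact_mod_cast (by omega : 1 < b)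
  have hb0 : (0 : ℝ) < b := by linarith
  set V : ℤ := ∑ i ∈ range n, c i * (b : ℤ) ^ i with hV
  have hlow' : ∀ f g : ℤ, (f, g) ≠ (0, 0) → ((b ^ n : ℕ) : ℤ) ∣ g * V - f →
      L ≤ (max |f| |g| : ℤ) := by
    intro f g hne hdv
    push_cast at hdv
    rcases lt_trichotomy g 0 with h | h | h
    · have h1 := hlow (-f) (-g) (by linarith) (by
        have h0 := (dvd_neg (a := (b : ℤ) ^ n)).2 hdv
        have h00 : -g * V - -f = -(g * V - f) := by ring
        rw [h00]; exact h0)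
      rw [abs_neg, abs_neg] at h1
      exact h1
    · rw [h, zero_mul, zero_sub, dvd_neg] at hdv
      have hf : f ≠ 0 := by
        intro h0; exact hne (by rw [h0, h])
      have h1 : (b : ℤ) ^ n ≤ |f| := by
        exact Int.le_of_dvd (abs_pos.2 hf) ((dvd_abs _ _).2 hdv)
      have h2 : (b : ℝ) ^ n ≤ ((|f| : ℤ) : ℝ) := by exact_mod_cast h1
      have h3 : ((|f| : ℤ) : ℝ) ≤ ((max |f| |g| : ℤ) : ℝ) := by
        exact_mod_cast le_max_left _ _
      linarith
    · exact hlow f g h hdv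
  obtain ⟨f, g, hg0, hgb, hdv, hf, hg⟩ := AdicLattice.exists_good (b ^ n)
    (Nat.one_le_pow _ _ (by omega)) V b hb L hL hlow'
  push_cast at hdv hf hg
  set S : Set ℕ := {M : ℕ | ∃ f g : ℤ, 0 < g ∧ Int.gcd g b = 1 ∧
    (b : ℤ) ^ n ∣ g * (∑ i ∈ range n, c i * (b : ℤ) ^ i) - f ∧ |f| ≤ M ∧ g ≤ M} with hS
  have hmemB : (⌊((b : ℝ) + 2) * (b : ℝ) ^ n / L⌋₊) ∈ S := by
    refine ⟨f, g, hg0, hgb, hdv, ?_, ?_⟩
    · have h1 : ((f.natAbs : ℕ) : ℝ) ≤ ((b : ℝ) + 2) * (b : ℝ) ^ n / L := by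
        rw [Nat.cast_natAbs]; push_cast; exact hf
      have h2 := Nat.le_floor h1
      have h3 : |f| = (f.natAbs : ℤ) := Int.abs_eq_natAbs f
      rw [h3]; exact_mod_cast h2
    · have h1 : ((g.natAbs : ℕ) : ℝ) ≤ ((b : ℝ) + 2) * (b : ℝ) ^ n / L := by
        rw [Nat.cast_natAbs]; push_cast; exact hg
      have h2 := Nat.le_floor h1
      have h3 : g = (g.natAbs : ℤ) := by rw [← Int.abs_eq_natAbs, abs_of_pos hg0]
      rw [h3]; exact_mod_cast h2
  have hmem : size b n c ∈ S := Nat.sInf_mem ⟨_, hmemB⟩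
  obtain ⟨f', g', hg0', hgb', hdv', hf', hg'⟩ := hmem
  have hsL : L ≤ (size b n c : ℝ) := by
    have h1 := hlow f' g' hg0' hdv'
    have h2 : max |f'| |g'| ≤ (size b n c : ℤ) := by
      apply max_le hf'
      rw [abs_of_pos hg0']; exact hg'
    have h3 : ((max |f'| |g'| : ℤ) : ℝ) ≤ ((size b n c : ℤ) : ℝ) := by exact_mod_cast h2
    push_cast at h3 h1
    linarith
  have hsU : (size b n c : ℝ) ≤ ((b : ℝ) + 2) * (b : ℝ) ^ n / L := by
    have h1 : size b n c ≤ ⌊((b : ℝ) + 2) * (b : ℝ) ^ n / L⌋₊ := Nat.sInf_le hmemB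
    have h2 : (0 : ℝ) ≤ ((b : ℝ) + 2) * (b : ℝ) ^ n / L := by positivity
    exact (Nat.cast_le.2 h1).trans (Nat.floor_le h2)
  have hs0 : (0 : ℝ) < size b n c := lt_of_lt_of_le hL hsL
  unfold adicComplexity
  constructor
  · exact Real.logb_le_logb_of_le hbR hL hsL
  · calc Real.logb b (size b n c) ≤ Real.logb b (((b : ℝ) + 2) * (b : ℝ) ^ n / L) :=
          Real.logb_le_logb_of_le hbR hs0 hsU
      _ = Real.logb b ((b : ℝ) + 2) + n - Real.logb b L := by
          rw [Real.logb_div (by positivity) hL.ne', Real.logb_mul (by positivity) (by positivity),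
            Real.logb_pow, Real.logb_self_eq_one hbR, mul_one]
      _ ≤ 2 + n - Real.logb b L := by
          have h1 : Real.logb b ((b : ℝ) + 2) ≤ Real.logb b ((b : ℝ) ^ 2) := by
            apply Real.logb_le_logb_of_le hbR (by positivity)
            have : (2 : ℝ) ≤ b := by exact_mod_cast hb
            nlinarith
          rw [Real.logb_pow, Real.logb_self_eq_one hbR] at h1
          push_cast at h1
          linarith
      _ = n + 2 - Real.logb b L := by ring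

/-- badly approximable numbers: the first `n` digits in every base -/
theorem badly (x c : ℝ) (hc : 0 < c) (hx : ∀ q : ℕ, 1 ≤ q → ∀ p : ℤ, c ≤ (q : ℝ) * |q * x - p|) :
    ∃ C : ℝ, ∀ b : ℕ, 2 ≤ b → ∀ n : ℕ,
      |adicComplexity b n (backwards b x 0 n) - n / 2| ≤ C := by
  set c' : ℝ := min c 1 / 2 with hc'
  have hc'0 : 0 < c' := by
    have := lt_min hc one_pos
    positivity
  have hc'1 : c' ≤ 1 / 2 := by
    have := min_le_right c 1
    linarith
  refine ⟨2 + |Real.log c'| / (2 * Real.log 2), ?_⟩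
  intro b hb n
  have hbR : (1 : ℝ) < b := by exact_mod_cast (by omega : 1 < b)
  have hb0 : (0 : ℝ) < b := by linarith
  set L : ℝ := Real.sqrt (c' * (b : ℝ) ^ n) with hL
  have hbn : (1 : ℝ) ≤ (b : ℝ) ^ n := one_le_pow₀ hbR.le
  have hL0 : 0 < L := Real.sqrt_pos.2 (by positivity)
  have hLb : L ≤ (b : ℝ) ^ n := by
    rw [hL, Real.sqrt_le_left (by positivity)]
    nlinarith
  have hlow : ∀ f g : ℤ, 0 < g →
      (b : ℤ) ^ n ∣ g * (∑ i ∈ range n, backwards b x 0 n i * (b : ℤ) ^ i) - f →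
      L ≤ (max |f| |g| : ℤ) := by
    intro f g hg hdv
    obtain ⟨k, hk⟩ := approx hb x 0 n f g hg hdv
    rw [pow_zero, mul_one] at hk
    have h1 := hx g.toNat (by omega) k
    have hgt : ((g.toNat : ℕ) : ℝ) = (g : ℝ) := by
      have : ((g.toNat : ℕ) : ℤ) = g := Int.toNat_of_nonneg hg.le
      exact_mod_cast this
    rw [hgt] at h1
    set H : ℝ := ((max |f| |g| : ℤ) : ℝ) with hH
    have hgH : (g : ℝ) ≤ H := by
      rw [hH]
      have : g ≤ max |f| |g| := le_max_of_le_right (le_abs_self g)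
      exact_mod_cast this
    have hgR : (0 : ℝ) < g := by exact_mod_cast hg
    have hH0 : 0 < H := lt_of_lt_of_le hgR hgH
    rw [hL]
    apply Real.sqrt_le_iff.2 ⟨hH0.le, ?_⟩
    have hbn0 : (0 : ℝ) < (b : ℝ) ^ n := by positivity
    have h2 : c ≤ H * (2 * H / (b : ℝ) ^ n) := by
      calc c ≤ (g : ℝ) * |(g : ℝ) * x - k| := h1
        _ ≤ H * (2 * H / (b : ℝ) ^ n) := by
            apply mul_le_mul hgH hk (abs_nonneg _) hH0.le
    have h3 : H * (2 * H / (b : ℝ) ^ n) = 2 * H ^ 2 / (b : ℝ) ^ n := by ring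
    rw [h3, le_div_iff₀ hbn0] at h2
    have h4 : c' ≤ c / 2 := by
      have := min_le_left c 1
      rw [hc']; linarith
    nlinarith
  obtain ⟨h1, h2⟩ := bounds hb n _ L hL0 hLb hlow
  have h3 : Real.logb b L = n / 2 + Real.logb b c' / 2 := by
    rw [hL, Real.sqrt_eq_rpow, Real.logb_rpow_eq_mul_logb_of_pos (by positivity),
      Real.logb_mul hc'0.ne' (by positivity), Real.logb_pow, Real.logb_self_eq_one hbR]
    ring
  have h4 : |Real.logb b c' / 2| ≤ |Real.log c'| / (2 * Real.log 2) := by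
    unfold Real.logb
    have hl2 : 0 < Real.log 2 := Real.log_pos (by norm_num)
    have hlb : Real.log 2 ≤ Real.log b := Real.log_le_log (by norm_num) (by exact_mod_cast hb)
    have hlb0 : 0 < Real.log b := by linarith
    rw [abs_div, abs_div, abs_of_pos hlb0, abs_of_pos (by norm_num : (0 : ℝ) < 2), div_div]
    apply div_le_div_of_nonneg_left (abs_nonneg _) (by positivity)
    linarith
  rw [h3] at h1 h2
  rw [abs_le] at h4 ⊢
  constructor <;> linarith [h4.1, h4.2]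

/-- algebraic numbers: all windows -/
theorem algebraic (ξ : ℝ) (halg : IsAlgebraic ℚ ξ) (hirr : Irrational ξ) (b : ℕ) (hb : 2 ≤ b)
    (ε : ℝ) (hε : 0 < ε) :
    ∃ C : ℝ, ∀ m n : ℕ,
      |adicComplexity b n (backwards b ξ m n) - n / 2| ≤ ε * (m + n) + C := by
  classical
  obtain ⟨c, hc, hrid⟩ := Pool.Agent.TH629.RidM.ridout_meas ξ halg hirr b.primeFactors
    (fun ℓ hℓ => Nat.prime_of_mem_primeFactors hℓ) ε hε
  set c' : ℝ := min c 1 / 2 with hc'
  have hc'0 : 0 < c' := by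
    have := lt_min hc one_pos
    positivity
  have hc'1 : c' ≤ 1 / 2 := by
    have := min_le_right c 1
    linarith
  have hbR : (1 : ℝ) < b := by exact_mod_cast (by omega : 1 < b)
  have hb0 : (0 : ℝ) < b := by linarith
  refine ⟨2 + |Real.logb b c'|, ?_⟩
  intro m n
  have hbn : (1 : ℝ) ≤ (b : ℝ) ^ n := one_le_pow₀ hbR.le
  have hbn0 : (0 : ℝ) < (b : ℝ) ^ n := by positivity
  have hbm0 : (0 : ℝ) < (b : ℝ) ^ m := by positivity
  have hbm1 : (1 : ℝ) ≤ (b : ℝ) ^ m := one_le_pow₀ hbR.le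
  -- W = c' b^n / b^(m ε)
  set W : ℝ := c' * (b : ℝ) ^ n / ((b : ℝ) ^ m) ^ ε with hW
  have hbme : (1 : ℝ) ≤ ((b : ℝ) ^ m) ^ ε := Real.one_le_rpow hbm1 hε.le
  have hbme0 : (0 : ℝ) < ((b : ℝ) ^ m) ^ ε := by linarith
  have hW0 : 0 < W := by positivity
  set L : ℝ := W ^ (1 / (2 + ε)) with hL
  have hL0 : 0 < L := Real.rpow_pos_of_pos hW0 _
  have hWb : W ≤ (b : ℝ) ^ n := by
    rw [hW, div_le_iff₀ hbme0]
    nlinarith
  have hLb : L ≤ (b : ℝ) ^ n := by
    calc L ≤ ((b : ℝ) ^ n) ^ (1 / (2 + ε)) := Real.rpow_le_rpow hW0.le hWb (by positivity)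
      _ ≤ ((b : ℝ) ^ n) ^ (1 : ℝ) := by
          apply Real.rpow_le_rpow_of_exponent_le hbn
          rw [div_le_one (by positivity)]
          linarith
      _ = (b : ℝ) ^ n := Real.rpow_one _
  have hlow : ∀ f g : ℤ, 0 < g →
      (b : ℤ) ^ n ∣ g * (∑ i ∈ range n, backwards b ξ m n i * (b : ℤ) ^ i) - f →
      L ≤ (max |f| |g| : ℤ) := by
    intro f g hg hdv
    obtain ⟨k, hk⟩ := approx hb ξ m n f g hg hdv
    have hgt : ((g.toNat : ℕ) : ℝ) = (g : ℝ) := by
      have : ((g.toNat : ℕ) : ℤ) = g := Int.toNat_of_nonneg hg.le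
      exact_mod_cast this
    have hq1 : 1 ≤ g.toNat * b ^ m := by
      have h1 : 1 ≤ g.toNat := by omega
      have h2 : 1 ≤ b ^ m := Nat.one_le_pow _ _ (by omega)
      nlinarith
    have h1 := hrid (g.toNat * b ^ m) hq1 (b ^ m) (dvd_mul_left _ _) (by
      intro ℓ hℓ hd
      exact Nat.mem_primeFactors.2 ⟨hℓ, hℓ.dvd_of_dvd_pow hd, by omega⟩) k
    push_cast at h1
    rw [hgt] at h1
    set H : ℝ := ((max |f| |g| : ℤ) : ℝ) with hH
    have hgH : (g : ℝ) ≤ H := by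
      rw [hH]
      have : g ≤ max |f| |g| := le_max_of_le_right (le_abs_self g)
      exact_mod_cast this
    have hgR : (0 : ℝ) < g := by exact_mod_cast hg
    have hH0 : 0 < H := lt_of_lt_of_le hgR hgH
    have h2 : c * (b : ℝ) ^ m ≤ (H * (b : ℝ) ^ m) ^ (1 + ε) * (2 * H / (b : ℝ) ^ n) := by
      refine h1.trans ?_
      apply mul_le_mul _ hk (abs_nonneg _) (by positivity)
      apply Real.rpow_le_rpow (by positivity) _ (by positivity)
      exact mul_le_mul_of_nonneg_right hgH hbm0.le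
    have h3 : (H * (b : ℝ) ^ m) ^ (1 + ε) = H ^ (1 + ε) * ((b : ℝ) ^ m * ((b : ℝ) ^ m) ^ ε) := by
      rw [Real.mul_rpow hH0.le hbm0.le, Real.rpow_add hbm0 1 ε, Real.rpow_one]
    have h4 : c * (b : ℝ) ^ n ≤ 2 * (H ^ (1 + ε) * H) * ((b : ℝ) ^ m) ^ ε := by
      rw [h3] at h2
      have h5 : H ^ (1 + ε) * ((b : ℝ) ^ m * ((b : ℝ) ^ m) ^ ε) * (2 * H / (b : ℝ) ^ n) =
          (b : ℝ) ^ m * (2 * (H ^ (1 + ε) * H) * ((b : ℝ) ^ m) ^ ε / (b : ℝ) ^ n) := by ring
      rw [h5, mul_comm c] at h2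
      have h6 := le_of_mul_le_mul_left h2 hbm0
      rwa [le_div_iff₀ hbn0] at h6
    have h5 : H ^ (1 + ε) * H = H ^ (2 + ε) := by
      rw [show (2 + ε : ℝ) = (1 + ε) + 1 by ring, Real.rpow_add hH0 (1 + ε) 1, Real.rpow_one]
    rw [h5] at h4
    have h6 : W ≤ H ^ (2 + ε) := by
      rw [hW, div_le_iff₀ hbme0]
      have h7 : c' ≤ c / 2 := by
        have := min_le_left c 1
        rw [hc']; linarith
      nlinarith
    calc L ≤ (H ^ (2 + ε)) ^ (1 / (2 + ε)) := Real.rpow_le_rpow hW0.le h6 (by positivity)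
      _ = H := by
          rw [← Real.rpow_mul hH0.le, mul_one_div_cancel (by positivity), Real.rpow_one]
  obtain ⟨h1, h2⟩ := bounds hb n _ L hL0 hLb hlow
  have h3 : Real.logb b L = (Real.logb b c' + n - m * ε) / (2 + ε) := by
    rw [hL, Real.logb_rpow_eq_mul_logb_of_pos hW0, hW, Real.logb_div (by positivity) hbme0.ne',
      Real.logb_mul hc'0.ne' hbn0.ne', Real.logb_rpow_eq_mul_logb_of_pos hbm0, Real.logb_pow,
      Real.logb_pow, Real.logb_self_eq_one hbR]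
    ring
  have h4 : Real.logb b L ≥ n / 2 - ε * (m + n) - |Real.logb b c'| := by
    rw [h3, ge_iff_le, le_div_iff₀ (by positivity)]
    have h5 := neg_abs_le (Real.logb b c')
    have h6 := abs_nonneg (Real.logb b c')
    have hn : (0 : ℝ) ≤ n := Nat.cast_nonneg n
    have hm : (0 : ℝ) ≤ m := Nat.cast_nonneg m
    have h7 : 0 ≤ ε * |Real.logb b c'| := by positivity
    have h8 : 0 ≤ ε * n := by positivity
    have h9 : 0 ≤ ε * m := by positivity
    have h10 : 0 ≤ ε * (ε * n) := by positivity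
    have h11 : 0 ≤ ε * (ε * m) := by positivity
    nlinarith
  rw [abs_le]
  have h6 := abs_nonneg (Real.logb b c')
  constructor <;> linarith

end Pool.Agent.X2.AdicDigits
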