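import Mathlib
import Pool.Agent.TH110.Zig.Primes

/-!
# Pairs of coprime products of distinct small odd primes which are congruent modulo a large power of two
-/

set_option autoImplicit false

namespace Pool.Agent.X2.AbcH

open Finset

/-- the pigeonhole step -/
theorem comb {P : Finset ℕ} (hP : ∀ p ∈ P, p.Prime ∧ p ≠ 2) (cost : ℕ → ℝ) (h0 : ∀ p ∈ P, 0 ≤ cost p)
    (h1 : ∀ p ∈ P, cost p ≤ Real.log p) (B : ℕ) (hB : ∑ p ∈ P, Real.log p < B)
    (hbig : 3 * (B : ℝ) ^ 2 ≤ ∏ p ∈ P, (1 + Real.exp (-2 * cost p))) :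
    ∃ (U V : Finset ℕ) (m i : ℕ), U ⊆ P ∧ V ⊆ P ∧ Disjoint U V ∧ 1 ≤ m ∧ m ≤ P.card ∧
      ∏ p ∈ V, p < ∏ p ∈ U, p ∧ 2 ^ m ∣ ∏ p ∈ U, p - ∏ p ∈ V, p ∧
      ∑ p ∈ U, Real.log p < ∑ p ∈ V, Real.log p + 1 ∧
      ∑ p ∈ U, cost p + ∑ p ∈ V, cost p ≤ 2 * i + 2 ∧
      Real.exp (2 * i) * ∏ p ∈ P, (1 + Real.exp (-2 * cost p)) ≤ 2 ^ (m + 1) * (B : ℝ) ^ 2 := by
  classical
  set W : ℝ := ∏ p ∈ P, (1 + Real.exp (-2 * cost p)) with hW
  have hlog0 : ∀ p ∈ P, 0 ≤ Real.log p := fun p hp => (h0 p hp).trans (h1 p hp)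
  have hB0 : (0 : ℝ) < B := lt_of_le_of_lt (sum_nonneg hlog0) hB
  have hB1 : 0 < B := by exact_mod_cast hB0
  -- costs and sizes
  set co : Finset ℕ → ℝ := fun D => ∑ p ∈ D, cost p with hco
  set L : Finset ℕ → ℝ := fun D => ∑ p ∈ D, Real.log p with hL
  have hco0 : ∀ D ⊆ P, 0 ≤ co D := fun D hD => sum_nonneg fun p hp => h0 p (hD hp)
  have hcoL : ∀ D ⊆ P, co D ≤ L D := fun D hD => sum_le_sum fun p hp => h1 p (hD hp)
  have hLB : ∀ D ⊆ P, L D < B := fun D hD => lt_of_le_of_lt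
    (sum_le_sum_of_subset_of_nonneg hD fun p hp _ => hlog0 p hp) hB
  set f : Finset ℕ → ℕ × ℕ := fun D => (⌊co D⌋₊, ⌊L D⌋₊) with hf
  set w : Finset ℕ → ℝ := fun D => ∏ p ∈ D, Real.exp (-2 * cost p) with hw
  have hwco : ∀ D, w D = Real.exp (-2 * co D) := by
    intro D
    simp only [hw, hco]
    rw [← Real.exp_sum, ← mul_sum]
  have hWs : ∑ D ∈ P.powerset, w D = W := by
    rw [hW]
    simp only [hw]
    rw [prod_one_add]
  have hmaps : ∀ D ∈ P.powerset, f D ∈ range B ×ˢ range B := by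
    intro D hD
    rw [mem_powerset] at hD
    rw [mem_product, mem_range, mem_range]
    simp only [hf]
    have h2 := hLB D hD
    have h3 := hcoL D hD
    have h4 := hco0 D hD
    refine ⟨?_, ?_⟩
    · rw [Nat.floor_lt h4]; linarith
    · rw [Nat.floor_lt (h4.trans h3)]; exact h2
  obtain ⟨⟨i, ℓ⟩, -, hi⟩ := exists_le_sum_fiber_of_maps_to_of_nsmul_le_sum (s := P.powerset)
    (t := range B ×ˢ range B) (f := f) (w := w) (b := W / (B : ℝ) ^ 2) hmaps
    (by
      refine ⟨(0, 0), ?_⟩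
      rw [mem_product, mem_range]
      exact ⟨hB1, hB1⟩)
    (by
      rw [card_product, card_range, hWs, nsmul_eq_mul]
      push_cast
      apply le_of_eq
      field_simp)
  set C : Finset (Finset ℕ) := P.powerset.filter (fun D => f D = (i, ℓ)) with hC
  have hCprop : ∀ D ∈ C, D ⊆ P ∧ (i : ℝ) ≤ co D ∧ co D < i + 1 ∧ (ℓ : ℝ) ≤ L D ∧ L D < ℓ + 1 := by
    intro D hD
    rw [hC, mem_filter, mem_powerset] at hD
    obtain ⟨hD1, hD2⟩ := hD
    simp only [hf, Prod.mk.injEq] at hD2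
    have h4 := hco0 D hD1
    have h5 := h4.trans (hcoL D hD1)
    rw [Nat.floor_eq_iff h4, Nat.floor_eq_iff h5] at hD2
    exact ⟨hD1, hD2.1.1, hD2.1.2, hD2.2.1, hD2.2.2⟩
  have hcard : W / (B : ℝ) ^ 2 ≤ C.card * Real.exp (-2 * i) := by
    refine hi.trans ?_
    have : ∀ D ∈ C, w D ≤ Real.exp (-2 * i) := by
      intro D hD
      rw [hwco]
      apply Real.exp_le_exp.2
      have := (hCprop D hD).2.1
      linarith
    have h2 := sum_le_card_nsmul C w _ this
    rw [nsmul_eq_mul] at h2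
    exact h2
  have hcard2 : Real.exp (2 * i) * W ≤ C.card * (B : ℝ) ^ 2 := by
    rw [div_le_iff₀ (by positivity)] at hcard
    have h2 : Real.exp (2 * i) * Real.exp (-2 * (i : ℝ)) = 1 := by
      rw [← Real.exp_add]; norm_num
    calc Real.exp (2 * i) * W ≤ Real.exp (2 * i) * (C.card * Real.exp (-2 * i) * (B : ℝ) ^ 2) := by
          gcongr
      _ = C.card * (B : ℝ) ^ 2 * (Real.exp (2 * i) * Real.exp (-2 * (i : ℝ))) := by ring
      _ = _ := by rw [h2, mul_one]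
  have hC3 : 3 ≤ C.card := by
    have h2 : 1 ≤ Real.exp (2 * (i : ℝ)) := Real.one_le_exp (by positivity)
    have h3 : 3 * (B : ℝ) ^ 2 ≤ C.card * (B : ℝ) ^ 2 := by
      calc 3 * (B : ℝ) ^ 2 ≤ 1 * W := by rw [one_mul]; exact hbig
        _ ≤ Real.exp (2 * i) * W := by
            have : 0 ≤ W := le_trans (by positivity) hbig
            gcongr
        _ ≤ _ := hcard2
    have h4 := le_of_mul_le_mul_right h3 (by positivity)
    exact_mod_cast h4
  set m : ℕ := Nat.log 2 (C.card - 1) with hm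
  have hm1 : 2 ^ m ≤ C.card - 1 := Nat.pow_log_le_self 2 (by omega)
  have hm2 : C.card - 1 < 2 ^ (m + 1) := Nat.lt_pow_succ_log_self (by norm_num) _
  have hm3 : 1 ≤ m := Nat.log_pos (by norm_num) (by omega)
  have hmP : m ≤ P.card := by
    have h2 : C.card ≤ 2 ^ P.card := by
      rw [← card_powerset]
      exact card_le_card (filter_subset _ _)
    have h3 : 2 ^ m < 2 ^ P.card := by omega
    exact ((Nat.pow_lt_pow_iff_right (by norm_num)).1 h3).le
  set v : Finset ℕ → ℕ := fun D => ∏ p ∈ D, p with hv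
  have hvpos : ∀ D ⊆ P, 0 < v D := fun D hD => prod_pos fun p hp => (hP p (hD hp)).1.pos
  have hvinj : ∀ D ⊆ P, ∀ D' ⊆ P, v D = v D' → D = D' := by
    intro D hD D' hD' h
    have h2 := Nat.primeFactors_prod (s := D) fun p hp => (hP p (hD hp)).1
    have h3 := Nat.primeFactors_prod (s := D') fun p hp => (hP p (hD' hp)).1
    rw [← h2, ← h3]
    simp only [hv] at h
    rw [h]
  obtain ⟨D, hD, D', hD', hne, hmod⟩ := exists_ne_map_eq_of_card_lt_of_maps_to (s := C)
    (t := range (2 ^ m)) (f := fun D => v D % 2 ^ m) (by rw [card_range]; omega)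
    (by
      intro D _
      simp only [coe_range, Set.mem_Iio]
      exact Nat.mod_lt _ (by positivity))
  -- without loss of generality
  have key : ∀ D ∈ C, ∀ D' ∈ C, v D' < v D → v D % 2 ^ m = v D' % 2 ^ m → ∃ (U V : Finset ℕ),
      U ⊆ P ∧ V ⊆ P ∧ Disjoint U V ∧ ∏ p ∈ V, p < ∏ p ∈ U, p ∧ 2 ^ m ∣ ∏ p ∈ U, p - ∏ p ∈ V, p ∧
      ∑ p ∈ U, Real.log p < ∑ p ∈ V, Real.log p + 1 ∧
      ∑ p ∈ U, cost p + ∑ p ∈ V, cost p ≤ 2 * i + 2 := by
    intro D hD D' hD' hlt hmod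
    obtain ⟨hD1, hD2, hD3, hD4, hD5⟩ := hCprop D hD
    obtain ⟨hE1, hE2, hE3, hE4, hE5⟩ := hCprop D' hD'
    have e1 : v (D ∩ D') * v (D \ D') = v D := by
      simp only [hv]
      exact prod_inter_mul_prod_sdiff D D' _
    have e2 : v (D ∩ D') * v (D' \ D) = v D' := by
      simp only [hv]
      rw [inter_comm]
      exact prod_inter_mul_prod_sdiff D' D _
    have hg : 0 < v (D ∩ D') := hvpos _ (inter_subset_left.trans hD1)
    have hlt2 : v (D' \ D) < v (D \ D') := by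
      rw [← e1, ← e2] at hlt
      exact Nat.lt_of_mul_lt_mul_left hlt
    have hcop : Nat.Coprime (2 ^ m) (v (D ∩ D')) := by
      apply Nat.Coprime.pow_left
      apply Nat.Coprime.prod_right
      intro p hp
      have h5 := hP p (hD1 (inter_subset_left hp))
      exact (Nat.coprime_primes Nat.prime_two h5.1).2 (Ne.symm h5.2)
    have hdvd : 2 ^ m ∣ v (D \ D') - v (D' \ D) := by
      have h5 : 2 ^ m ∣ v D - v D' := by
        rw [← Nat.modEq_iff_dvd' hlt.le]
        exact hmod.symm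
      rw [← e1, ← e2, ← Nat.mul_sub] at h5
      exact hcop.dvd_of_dvd_mul_left h5
    have l1 : L (D ∩ D') + L (D \ D') = L D := by
      simp only [hL]
      exact sum_inter_add_sum_sdiff D D' _
    have l2 : L (D ∩ D') + L (D' \ D) = L D' := by
      simp only [hL]
      rw [inter_comm]
      exact sum_inter_add_sum_sdiff D' D _
    have c1 : co (D ∩ D') + co (D \ D') = co D := by
      simp only [hco]
      exact sum_inter_add_sum_sdiff D D' _
    have c2 : co (D ∩ D') + co (D' \ D) = co D' := by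
      simp only [hco]
      rw [inter_comm]
      exact sum_inter_add_sum_sdiff D' D _
    have c3 := hco0 (D ∩ D') (inter_subset_left.trans hD1)
    refine ⟨D \ D', D' \ D, sdiff_subset.trans hD1, sdiff_subset.trans hE1, disjoint_sdiff_sdiff,
      hlt2, hdvd, ?_, ?_⟩
    · show L (D \ D') < L (D' \ D) + 1
      linarith
    · show co (D \ D') + co (D' \ D) ≤ 2 * i + 2
      linarith
  have hfin : Real.exp (2 * i) * W ≤ 2 ^ (m + 1) * (B : ℝ) ^ 2 := by
    refine hcard2.trans ?_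
    have h2 : C.card ≤ 2 ^ (m + 1) := by omega
    have h3 : (C.card : ℝ) ≤ 2 ^ (m + 1) := by exact_mod_cast h2
    gcongr
  have hDP := (hCprop D hD).1
  have hDP' := (hCprop D' hD').1
  rcases lt_trichotomy (v D') (v D) with h | h | h
  · obtain ⟨U, V, h2, h3, h4, h5, h6, h7, h8⟩ := key D hD D' hD' h hmod
    exact ⟨U, V, m, i, h2, h3, h4, hm3, hmP, h5, h6, h7, h8, hfin⟩
  · exact absurd (hvinj D hDP D' hDP' h.symm) hne
  · obtain ⟨U, V, h2, h3, h4, h5, h6, h7, h8⟩ := key D' hD' D hD h hmod.symm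
    exact ⟨U, V, m, i, h2, h3, h4, hm3, hmP, h5, h6, h7, h8, hfin⟩

end Pool.Agent.X2.AbcH
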