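import Mathlib
import Pool.Agent.TH110.Zig.Primes

/-!
# The weighted number of subsets of the primes
-/

set_option autoImplicit false

namespace Pool.Agent.X2.AbcH

open Finset Filter Topology

/-- `log (1 + 1 / x²)` -/
noncomputable def f (x : ℝ) : ℝ := Real.log (1 + 1 / x ^ 2)

/-- an antiderivative of `f` -/
noncomputable def F (x : ℝ) : ℝ := x * f x + 2 * Real.arctan x

theorem f_anti {x y : ℝ} (hx : 0 < x) (h : x ≤ y) : f y ≤ f x := by
  unfold f
  apply Real.log_le_log (by positivity)
  gcongr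

theorem f_nonneg {x : ℝ} (hx : 0 < x) : 0 ≤ f x := by
  unfold f
  apply Real.log_nonneg
  have : 0 < 1 / x ^ 2 := by positivity
  linarith

theorem f_one : f 1 = Real.log 2 := by unfold f; norm_num

theorem F_one : F 1 = Real.log 2 + Real.pi / 2 := by
  unfold F
  rw [f_one, Real.arctan_one]
  ring

theorem F_deriv {x : ℝ} (hx : 0 < x) : HasDerivAt F (f x) x := by
  have h1 : HasDerivAt (fun y : ℝ => 1 + 1 / y ^ 2) (-(2 * x) / (x ^ 2) ^ 2) x := by
    have h2 : HasDerivAt (fun y : ℝ => y ^ 2) (2 * x) x := by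
      simpa using hasDerivAt_pow 2 x
    have h3 := (h2.fun_inv (by positivity)).const_add 1
    simpa [one_div] using h3
  have h2 := h1.log (by positivity)
  have h3 := ((hasDerivAt_id x).mul h2).add ((Real.hasDerivAt_arctan x).const_mul 2)
  have e : F = (id * fun y => Real.log (1 + 1 / y ^ 2)) + fun y => 2 * Real.arctan y := by
    funext y
    rfl
  rw [e]
  refine h3.congr_deriv ?_
  unfold f
  simp only [id]
  field_simp
  ring

theorem F_diff {a b : ℝ} (ha : 0 < a) (h : a ≤ b) : F b - F a ≤ f a * (b - a) := by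
  rcases h.eq_or_lt with h | h
  · rw [h]; simp
  obtain ⟨c, hc, hc2⟩ := exists_hasDerivAt_eq_slope F f h
    (fun x hx => (F_deriv (lt_of_lt_of_le ha hx.1)).continuousAt.continuousWithinAt)
    (fun x hx => F_deriv (ha.trans hx.1))
  have h2 : F b - F a = f c * (b - a) := by
    rw [hc2]
    have : b - a ≠ 0 := by linarith
    field_simp
  rw [h2]
  have h3 := f_anti ha hc.1.le
  have h4 : 0 ≤ b - a := by linarith
  exact mul_le_mul_of_nonneg_right h3 h4

/-- the grid -/
noncomputable def a (h : ℝ) (j : ℕ) : ℝ := 1 + j * h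

theorem a_pos {h : ℝ} (hh : 0 < h) (j : ℕ) : 1 ≤ a h j := by
  unfold a
  have : 0 ≤ (j : ℝ) * h := by positivity
  linarith

theorem a_succ (h : ℝ) (j : ℕ) : a h (j + 1) = a h j + h := by
  unfold a; push_cast; ring

/-- the value of the lower step function -/
noncomputable def T (h : ℝ) (J : ℕ) : ℝ := ∑ j ∈ range (J + 1), (f (a h j) - f (a h (j + 1))) * a h j

theorem T_lower {h : ℝ} (hh : 0 < h) (J : ℕ) :
    Real.log 2 + F (a h (J + 1)) - F (a h 1) - a h J * f (a h (J + 1)) ≤ T h J := by
  induction J with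
  | zero =>
    unfold T
    have e : a h 0 = 1 := by unfold a; simp
    simp only [zero_add, sum_range_one, e, f_one]
    linarith
  | succ J ih =>
    have h1 : T h (J + 1) = T h J + (f (a h (J + 1)) - f (a h (J + 2))) * a h (J + 1) := by
      unfold T
      rw [sum_range_succ _ (J + 1)]
    have h2 := F_diff (a := a h (J + 1)) (b := a h (J + 2)) (by linarith [a_pos hh (J + 1)])
      (by rw [a_succ h (J + 1)]; linarith)
    have h3 : a h (J + 2) - a h (J + 1) = h := by rw [a_succ h (J + 1)]; ring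
    rw [h3] at h2
    have h4 : a h (J + 1) = a h J + h := a_succ h J
    rw [h1]
    have h5 : f (a h (J + 1)) * h = f (a h (J + 1)) * a h (J + 1) - a h J * f (a h (J + 1)) := by
      rw [h4]; ring
    have e2 : J + 1 + 1 = J + 2 := rfl
    rw [e2]
    nlinarith

theorem exists_T {ε : ℝ} (hε : 0 < ε) : ∃ h : ℝ, 0 < h ∧ ∃ J : ℕ, Real.pi / 2 - ε ≤ T h J := by
  refine ⟨ε / 2, by positivity, ?_⟩
  set h : ℝ := ε / 2 with hh
  have hh0 : 0 < h := by positivity
  have h1 : Tendsto (fun J : ℕ => Real.arctan (a h (J + 1))) atTop (𝓝 (Real.pi / 2)) := by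
    have h2 : Tendsto (fun J : ℕ => a h (J + 1)) atTop atTop := by
      unfold a
      apply tendsto_atTop_add_const_left
      apply Tendsto.atTop_mul_const hh0
      exact tendsto_natCast_atTop_atTop.comp (tendsto_add_atTop_nat 1)
    exact (tendsto_nhds_of_tendsto_nhdsWithin Real.tendsto_arctan_atTop).comp h2
  obtain ⟨J, hJ⟩ := (h1.eventually (lt_mem_nhds (show Real.pi / 2 - ε / 4 < Real.pi / 2 by linarith))).exists
  refine ⟨J, le_trans ?_ (T_lower hh0 J)⟩
  have h2 := F_diff (a := 1) (b := a h 1) one_pos (a_pos hh0 1)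
  have h3 : a h 1 - 1 = h := by unfold a; push_cast; ring
  rw [h3, f_one, F_one] at h2
  have h4 : F (a h (J + 1)) = a h (J + 1) * f (a h (J + 1)) + 2 * Real.arctan (a h (J + 1)) := rfl
  have h5 : 0 ≤ (a h (J + 1) - a h J) * f (a h (J + 1)) := by
    apply mul_nonneg
    · rw [a_succ]; linarith
    · exact f_nonneg (by linarith [a_pos hh0 (J + 1)])
  have h6 := Real.log_two_lt_d9
  have h7 : Real.log 2 * h ≤ h := by nlinarith
  linarith

/-- the logarithm of the weight factor of a prime `x n` -/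
noncomputable def phi (x : ℝ) : ℝ := Real.log (1 + Real.exp (-2 * max 0 (Real.log x)))

theorem phi_of_le {x : ℝ} (hx : 0 < x) (h : x ≤ 1) : phi x = Real.log 2 := by
  unfold phi
  rw [max_eq_left (Real.log_nonpos hx.le h)]
  norm_num

theorem phi_of_ge {x : ℝ} (h : 1 ≤ x) : phi x = f x := by
  unfold phi f
  rw [max_eq_right (Real.log_nonneg h)]
  congr 2
  have hx : 0 < x := by linarith
  rw [neg_mul, Real.exp_neg, mul_comm, Real.exp_mul, Real.exp_log hx]
  norm_num

theorem phi_anti {x y : ℝ} (hx : 0 < x) (h : x ≤ y) : phi y ≤ phi x := by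
  unfold phi
  have h1 := Real.log_le_log hx h
  apply Real.log_le_log (by positivity)
  have h2 : max 0 (Real.log x) ≤ max 0 (Real.log y) := max_le_max le_rfl h1
  have h3 : Real.exp (-2 * max 0 (Real.log y)) ≤ Real.exp (-2 * max 0 (Real.log x)) := by
    apply Real.exp_le_exp.2
    linarith
  linarith

theorem phi_nonneg (x : ℝ) : 0 ≤ phi x := by
  unfold phi
  apply Real.log_nonneg
  have := Real.exp_pos (-2 * max 0 (Real.log x))
  linarith

/-- the lower step function -/
noncomputable def S (h : ℝ) (J : ℕ) (x : ℝ) : ℝ :=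
  ∑ j ∈ range (J + 1), if x ≤ a h j then f (a h j) - f (a h (j + 1)) else 0

theorem S_inv {h : ℝ} (hh : 0 < h) (J : ℕ) {x : ℝ} (hx : 0 < x) :
    S h J x + f (a h (J + 1)) ≤ max (phi x) (f (a h (J + 1))) := by
  have hpos : ∀ j, 0 < a h j := fun j => by linarith [a_pos hh j]
  have hge : ∀ j, x ≤ a h j → f (a h j) ≤ phi x := by
    intro j hj
    rw [← phi_of_ge (a_pos hh j)]
    exact phi_anti hx hj
  have hle : ∀ j, a h j ≤ x → phi x ≤ f (a h j) := by
    intro j hj
    rw [← phi_of_ge (a_pos hh j)]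
    exact phi_anti (hpos j) hj
  induction J with
  | zero =>
    unfold S
    simp only [zero_add, sum_range_one]
    split_ifs with h1
    · have := hge 0 h1
      rw [sub_add_cancel]
      exact this.trans (le_max_left _ _)
    · rw [zero_add]; exact le_max_right _ _
  | succ J ih =>
    have h1 : S h (J + 1) x = S h J x +
        if x ≤ a h (J + 1) then f (a h (J + 1)) - f (a h (J + 2)) else 0 := by
      unfold S
      rw [sum_range_succ _ (J + 1)]
    rw [h1]
    have e2 : J + 1 + 1 = J + 2 := rfl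
    rw [e2]
    split_ifs with h2
    · have h3 := hge (J + 1) h2
      rw [max_eq_left h3] at ih
      exact le_trans (by linarith) (le_max_left _ _)
    · have h3 := hle (J + 1) (not_le.1 h2).le
      rw [max_eq_right h3] at ih
      exact le_trans (by linarith) (le_max_right _ _)

theorem S_le {h : ℝ} (hh : 0 < h) (J : ℕ) {x : ℝ} (hx : 0 < x) : S h J x ≤ phi x := by
  have h1 := S_inv hh J hx
  have h2 : 0 ≤ f (a h (J + 1)) := f_nonneg (by linarith [a_pos hh (J + 1)])
  rcases le_total (phi x) (f (a h (J + 1))) with h3 | h3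
  · rw [max_eq_right h3] at h1
    linarith [phi_nonneg x]
  · rw [max_eq_left h3] at h1
    linarith

/-- the odd primes up to `Λ n` -/
def P (Λ n : ℕ) : Finset ℕ := (range (Λ * n + 1)).filter (fun p => p.Prime ∧ p ≠ 2)

/-- the cost of a prime -/
noncomputable def cost (n p : ℕ) : ℝ := max 0 (Real.log ((p : ℝ) / n))

theorem logW {ε : ℝ} (hε : 0 < ε) (hε1 : ε < 1) : ∃ Λ : ℕ, 1 ≤ Λ ∧ ∀ᶠ n : ℕ in atTop,
    (Real.pi / 2 - ε) * (n / Real.log n) ≤ Real.log (∏ p ∈ P Λ n, (1 + Real.exp (-2 * cost n p))) := by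
  obtain ⟨h, hh, J, hJ⟩ := exists_T (show 0 < ε / 4 by positivity)
  have hpi := Real.pi_gt_three
  have hpi4 := Real.pi_lt_four
  have hT0 : 0 < T h J := by linarith
  refine ⟨⌈a h J⌉₊, ?_, ?_⟩
  · rw [Nat.one_le_ceil_iff]; linarith [a_pos hh J]
  set Λ : ℕ := ⌈a h J⌉₊ with hΛ
  have hpnt := (Pool.Agent.TH110.Zig.pnt_window 1 (a h J) (ε / 8) one_pos (by positivity)).filter_mono
    tendsto_natCast_atTop_atTop
  rw [Filter.eventually_map] at hpnt
  have hX : Tendsto (fun n : ℕ => (n : ℝ) / Real.log n) atTop atTop := by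
    have h1 : Tendsto (fun x : ℝ => x / Real.log x) atTop atTop := by
      have h2 := Real.isLittleO_log_id_atTop
      have h3 : Tendsto (fun x : ℝ => Real.log x / x) atTop (𝓝 0) := h2.tendsto_div_nhds_zero
      have h4 : Tendsto (fun x : ℝ => Real.log x / x) atTop (𝓝[>] 0) := by
        rw [tendsto_nhdsWithin_iff]
        refine ⟨h3, ?_⟩
        filter_upwards [eventually_gt_atTop 1] with x hx
        exact div_pos (Real.log_pos hx) (by linarith)
      have h5 := h4.inv_tendsto_nhdsGT_zero
      refine h5.congr fun x => ?_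
      simp only [Pi.inv_apply, inv_div]
    exact h1.comp tendsto_natCast_atTop_atTop
  filter_upwards [hpnt, hX.eventually_ge_atTop (8 / ε), eventually_gt_atTop 1] with n hn hX1 hn1
  have hn0 : (0 : ℝ) < n := by positivity
  have hnl : 0 < Real.log n := Real.log_pos (by exact_mod_cast hn1)
  set X : ℝ := (n : ℝ) / Real.log n with hXd
  have hX0 : 0 < X := by positivity
  have hprod : Real.log (∏ p ∈ P Λ n, (1 + Real.exp (-2 * cost n p))) =
      ∑ p ∈ P Λ n, phi ((p : ℝ) / n) := by
    rw [Real.log_prod]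
    · rfl
    · intro p _
      positivity
  rw [hprod]
  -- the step function
  have hstep : ∑ p ∈ P Λ n, S h J ((p : ℝ) / n) ≤ ∑ p ∈ P Λ n, phi ((p : ℝ) / n) := by
    apply sum_le_sum
    intro p hp
    apply S_le hh
    unfold P at hp
    rw [mem_filter] at hp
    have := hp.2.1.pos
    positivity
  refine le_trans ?_ hstep
  have hcount : ∀ j ∈ range (J + 1), (1 - ε / 4) * (a h j * X) ≤
      (((P Λ n).filter (fun p : ℕ => (p : ℝ) / n ≤ a h j)).card : ℝ) := by
    intro j hj
    rw [mem_range] at hj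
    have haj := a_pos hh j
    have hajJ : a h j ≤ a h J := by
      unfold a
      have : (j : ℝ) ≤ J := by exact_mod_cast Nat.lt_succ_iff.1 hj
      nlinarith
    have h1 := hn (a h j * n) (by nlinarith) (by nlinarith)
    rw [abs_le] at h1
    have h2 : a h j * n / Real.log n = a h j * X := by rw [hXd]; ring
    rw [h2] at h1
    -- the count
    have h3 : Nat.primeCounting ⌊a h j * n⌋₊ ≤
        ((P Λ n).filter (fun p : ℕ => (p : ℝ) / n ≤ a h j)).card + 1 := by
      have e1 : Nat.primeCounting ⌊a h j * n⌋₊ =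
          ((range (⌊a h j * n⌋₊ + 1)).filter Nat.Prime).card := by
        rw [Nat.primeCounting, Nat.primeCounting', Nat.count_eq_card_filter_range]
      rw [e1]
      have e2 : (range (⌊a h j * n⌋₊ + 1)).filter Nat.Prime ⊆
          insert 2 ((P Λ n).filter (fun p : ℕ => (p : ℝ) / n ≤ a h j)) := by
        intro p hp
        rw [mem_filter, mem_range] at hp
        rw [mem_insert]
        by_cases hp2 : p = 2
        · exact Or.inl hp2
        right
        have h4 : (p : ℝ) ≤ a h j * n := by
          have h5 : (p : ℝ) ≤ ⌊a h j * n⌋₊ := by exact_mod_cast Nat.lt_succ_iff.1 hp.1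
          exact h5.trans (Nat.floor_le (by positivity))
        rw [mem_filter]
        unfold P
        rw [mem_filter, mem_range]
        refine ⟨⟨?_, hp.2, hp2⟩, ?_⟩
        · have h5 : (p : ℝ) ≤ Λ * n := by
            refine h4.trans ?_
            have h6 : a h J ≤ Λ := Nat.le_ceil _
            have h7 := hajJ.trans h6
            gcongr
          have h6 : p ≤ Λ * n := by exact_mod_cast h5
          omega
        · rw [div_le_iff₀ hn0]; exact h4
      exact (card_le_card e2).trans (card_insert_le _ _)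
    have h4 : (Nat.primeCounting ⌊a h j * n⌋₊ : ℝ) ≤
        (((P Λ n).filter (fun p : ℕ => (p : ℝ) / n ≤ a h j)).card : ℝ) + 1 := by exact_mod_cast h3
    have h5 : 1 ≤ ε / 8 * (a h j * X) := by
      have h6 : 8 / ε ≤ a h j * X := by nlinarith
      rw [div_le_iff₀ hε] at h6
      linarith
    linarith [h1.1]
  have hexch : ∑ p ∈ P Λ n, S h J ((p : ℝ) / n) = ∑ j ∈ range (J + 1),
      (f (a h j) - f (a h (j + 1))) * (((P Λ n).filter (fun p : ℕ => (p : ℝ) / n ≤ a h j)).card : ℝ) := by
    unfold S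
    rw [sum_comm]
    apply sum_congr rfl
    intro j _
    rw [← sum_filter, sum_const, nsmul_eq_mul, mul_comm]
  rw [hexch]
  have hfin : (1 - ε / 4) * X * T h J ≤ ∑ j ∈ range (J + 1),
      (f (a h j) - f (a h (j + 1))) * (((P Λ n).filter (fun p : ℕ => (p : ℝ) / n ≤ a h j)).card : ℝ) := by
    unfold T
    rw [mul_sum]
    apply sum_le_sum
    intro j hj
    have h1 := hcount j hj
    have h2 : 0 ≤ f (a h j) - f (a h (j + 1)) := by
      have := f_anti (x := a h j) (y := a h (j + 1)) (by linarith [a_pos hh j]) (by rw [a_succ]; linarith)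
      linarith
    calc (1 - ε / 4) * X * ((f (a h j) - f (a h (j + 1))) * a h j)
        = (f (a h j) - f (a h (j + 1))) * ((1 - ε / 4) * (a h j * X)) := by ring
      _ ≤ _ := mul_le_mul_of_nonneg_left h1 h2
  refine le_trans ?_ hfin
  have h1 : (1 - ε / 4) * X * (Real.pi / 2 - ε / 4) ≤ (1 - ε / 4) * X * T h J := by
    apply mul_le_mul_of_nonneg_left hJ
    apply mul_nonneg _ hX0.le
    linarith
  refine le_trans ?_ h1
  have h2 : Real.pi / 2 - ε ≤ (1 - ε / 4) * (Real.pi / 2 - ε / 4) := by nlinarith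
  calc (Real.pi / 2 - ε) * X ≤ ((1 - ε / 4) * (Real.pi / 2 - ε / 4)) * X := by gcongr
    _ = _ := by ring

end Pool.Agent.X2.AbcH
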