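import Mathlib
import Pool.Agent.X2.AbcH1
import Pool.Agent.X2.AbcH2

/-!
# The function `H` at the triples
-/

set_option autoImplicit false

namespace Pool.Agent.X2.AbcH

open Finset Filter Topology

/-- the radical -/
def gam (n : ℕ) : ℕ := ∏ p ∈ n.primeFactors, p

/-- `γ(n) / (log γ(n)) ^ ω(n)` -/
noncomputable def H (n : ℕ) : ℝ := (gam n : ℝ) / Real.log (gam n : ℝ) ^ n.primeFactors.card

theorem gam_pos (n : ℕ) : 0 < gam n := prod_pos fun _ hp => (Nat.prime_of_mem_primeFactors hp).pos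

theorem gam_mul {a b : ℕ} (h : Nat.Coprime a b) : gam (a * b) = gam a * gam b := by
  unfold gam
  rw [h.primeFactors_mul, prod_union h.disjoint_primeFactors]

theorem gam_le {n : ℕ} (hn : 0 < n) : gam n ≤ n := Nat.le_of_dvd hn (Nat.prod_primeFactors_dvd n)

theorem gam_prod {U : Finset ℕ} (hU : ∀ p ∈ U, p.Prime) : gam (∏ p ∈ U, p) = ∏ p ∈ U, p := by
  unfold gam
  rw [Nat.primeFactors_prod hU]

theorem logH_le {n : ℕ} {s y : ℝ} (hs : 0 ≤ s) (h1 : s ≤ n.primeFactors.card) (h2 : Real.log (gam n) ≤ y)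
    (h3 : s ≤ Real.log (gam n)) (h4 : 1 ≤ Real.log (gam n)) : Real.log (H n) ≤ y - s * Real.log y := by
  set x : ℝ := Real.log (gam n) with hx
  have hg : (0 : ℝ) < gam n := by exact_mod_cast gam_pos n
  have hx0 : 0 < x := by linarith
  have e : Real.log (H n) = x - n.primeFactors.card * Real.log x := by
    unfold H
    rw [Real.log_div hg.ne' (by positivity), Real.log_pow]
  rw [e]
  have hlx : 0 ≤ Real.log x := Real.log_nonneg h4
  have h5 : s * Real.log x ≤ n.primeFactors.card * Real.log x := mul_le_mul_of_nonneg_right h1 hlx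
  have h6 : Real.log y - Real.log x ≤ y / x - 1 := by
    rw [← Real.log_div (by linarith) (by linarith)]
    exact Real.log_le_sub_one_of_pos (div_pos (by linarith) hx0)
  have h7 : s * (Real.log y - Real.log x) ≤ y - x := by
    calc s * (Real.log y - Real.log x) ≤ s * (y / x - 1) := mul_le_mul_of_nonneg_left h6 hs
      _ ≤ x * (y / x - 1) := by
          apply mul_le_mul_of_nonneg_right h3
          rw [sub_nonneg, one_le_div hx0]
          exact h2
      _ = y - x := by field_simp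
  linarith

theorem one_lt_log_three : 1 < Real.log 3 := by
  rw [Real.lt_log_iff_exp_lt (by norm_num)]
  have := Real.exp_one_lt_d9
  linarith

/-- the radical of the triple -/
theorem triple {U V : Finset ℕ} (hU : ∀ p ∈ U, p.Prime ∧ p ≠ 2) (hV : ∀ p ∈ V, p.Prime ∧ p ≠ 2)
    (hd : Disjoint U V) {m : ℕ} (hm : 1 ≤ m) (hlt : ∏ p ∈ V, p < ∏ p ∈ U, p)
    (hdvd : 2 ^ m ∣ ∏ p ∈ U, p - ∏ p ∈ V, p) :
    Nat.Coprime (∏ p ∈ U, p - ∏ p ∈ V, p) (∏ p ∈ V, p) ∧
    U.card + V.card ≤
      ((∏ p ∈ U, p - ∏ p ∈ V, p) * (∏ p ∈ V, p) * (∏ p ∈ U, p)).primeFactors.card ∧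
    (∏ p ∈ U, p) * (∏ p ∈ V, p) ≤
      gam ((∏ p ∈ U, p - ∏ p ∈ V, p) * (∏ p ∈ V, p) * (∏ p ∈ U, p)) ∧
    gam ((∏ p ∈ U, p - ∏ p ∈ V, p) * (∏ p ∈ V, p) * (∏ p ∈ U, p)) * 2 ^ m ≤
      2 * (∏ p ∈ U, p) * (∏ p ∈ V, p) * (∏ p ∈ U, p) := by
  have hU' : ∀ p ∈ U, p.Prime := fun p hp => (hU p hp).1
  have hV' : ∀ p ∈ V, p.Prime := fun p hp => (hV p hp).1
  have hpfU := Nat.primeFactors_prod hU'
  have hpfV := Nat.primeFactors_prod hV'
  have hgU := gam_prod hU'
  have hgV := gam_prod hV'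
  set u : ℕ := ∏ p ∈ U, p with hu
  set v : ℕ := ∏ p ∈ V, p with hv
  have hu0 : 0 < u := prod_pos fun p hp => (hU' p hp).pos
  have hv0 : 0 < v := prod_pos fun p hp => (hV' p hp).pos
  have huv : Nat.Coprime u v := by
    rw [← Nat.disjoint_primeFactors hu0.ne' hv0.ne', hpfU, hpfV]
    exact hd
  have h1 : Nat.Coprime (u - v) v := by
    rw [Nat.coprime_sub_self_left hlt.le]
    exact huv
  have h2 : Nat.Coprime (u - v) u := by
    have e : u = v + (u - v) := by omega
    rw [e, Nat.add_sub_cancel_left]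
    rw [Nat.coprime_add_self_right]
    exact h1
  have h3 : Nat.Coprime ((u - v) * v) u := Nat.Coprime.mul_left h2 huv.symm
  refine ⟨h1, ?_, ?_, ?_⟩
  · rw [h3.primeFactors_mul, card_union_of_disjoint h3.disjoint_primeFactors, h1.primeFactors_mul,
      card_union_of_disjoint h1.disjoint_primeFactors, hpfU, hpfV]
    omega
  · rw [gam_mul h3, gam_mul h1, hgU, hgV]
    have := gam_pos (u - v)
    calc u * v = 1 * v * u := by ring
      _ ≤ _ := by gcongr; exact this
  · rw [gam_mul h3, gam_mul h1, hgU, hgV]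
    obtain ⟨r, hr⟩ := hdvd
    have hr0 : 0 < r := by
      rcases Nat.eq_zero_or_pos r with h | h
      · rw [h, mul_zero] at hr; omega
      · exact h
    have h4 : gam (u - v) ≤ 2 * r := by
      have h5 : gam (u - v) = gam (2 * r) := by
        unfold gam
        rw [hr, Nat.primeFactors_mul (by positivity) hr0.ne', Nat.primeFactors_pow _ (by omega),
          Nat.primeFactors_mul (by norm_num) hr0.ne']
      rw [h5]
      exact gam_le (by positivity)
    calc gam (u - v) * v * u * 2 ^ m ≤ (2 * r) * v * u * 2 ^ m := by gcongr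
      _ = 2 * (2 ^ m * r) * v * u := by ring
      _ ≤ 2 * u * v * u := by
          rw [← hr]
          gcongr
          omega

end Pool.Agent.X2.AbcH
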