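import Mathlib
import Pool.Agent.X2.AbcH3

/-!
# Triples with small `H`
-/

set_option autoImplicit false

namespace Pool.Agent.X2.AbcH

open Finset Filter Topology

theorem tendsto_X : Tendsto (fun n : ℕ => (n : ℝ) / Real.log n) atTop atTop := by
  have h1 : Tendsto (fun x : ℝ => x / Real.log x) atTop atTop := by
    have h2 := Real.isLittleO_log_id_atTop
    have h3 : Tendsto (fun x : ℝ => Real.log x / x) atTop (𝓝 0) := h2.tendsto_div_nhds_zero
    have h4 : Tendsto (fun x : ℝ => Real.log x / x) atTop (𝓝[>] 0) := by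
      rw [tendsto_nhdsWithin_iff]
      refine ⟨h3, ?_⟩
      filter_upwards [eventually_gt_atTop 1] with x hx
      exact div_pos (Real.log_pos hx) (by linarith)
    have h5 := h4.inv_tendsto_nhdsGT_zero
    refine h5.congr fun x => ?_
    simp only [Pi.inv_apply, inv_div]
  exact h1.comp tendsto_natCast_atTop_atTop

/-- small powers are negligible -/
theorem small_pow {δ c g : ℝ} (hδ : 0 < δ) (hc : 0 ≤ c) (hg : 0 < g) : ∀ᶠ n : ℕ in atTop,
    (n : ℝ) ^ (1 - δ) * (c + Real.log n) ≤ g * (n / Real.log n) := by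
  have h1 : ∀ᶠ x : ℝ in atTop, Real.log x ≤ x ^ (δ / 4) := by
    have h2 := (isLittleO_log_rpow_atTop (show 0 < δ / 4 by positivity)).bound (show (0 : ℝ) < 1 by norm_num)
    filter_upwards [h2, eventually_gt_atTop 1] with x hx hx1
    rw [one_mul, Real.norm_eq_abs, Real.norm_eq_abs, abs_of_pos (Real.log_pos hx1),
      abs_of_pos (by positivity)] at hx
    exact hx
  have h3 : ∀ᶠ x : ℝ in atTop, (c + 1) / g ≤ x ^ (δ / 2) :=
    (tendsto_rpow_atTop (by positivity)).eventually_ge_atTop _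
  have h4 : ∀ᶠ x : ℝ in atTop, x ^ (1 - δ) * (c + Real.log x) ≤ g * (x / Real.log x) := by
    filter_upwards [h1, h3, Real.tendsto_log_atTop.eventually_ge_atTop 1, eventually_gt_atTop 1]
      with x hx1 hx2 hx3 hx4
    have hx0 : 0 < x := by linarith
    have hl : 0 < Real.log x := by linarith
    rw [div_le_iff₀ hg] at hx2
    have e1 : x ^ (δ / 4) * x ^ (δ / 4) = x ^ (δ / 2) := by
      rw [← Real.rpow_add hx0]; ring_nf
    have e2 : x ^ (1 - δ) * (x ^ (δ / 2) * x ^ (δ / 2)) = x := by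
      rw [← Real.rpow_add hx0, ← Real.rpow_add hx0]
      have : 1 - δ + (δ / 2 + δ / 2) = 1 := by ring
      rw [this, Real.rpow_one]
    have h5 : (c + Real.log x) * Real.log x ≤ (c + 1) * x ^ (δ / 2) := by
      calc (c + Real.log x) * Real.log x ≤ ((c + 1) * Real.log x) * Real.log x := by
            apply mul_le_mul_of_nonneg_right _ hl.le
            nlinarith
        _ ≤ ((c + 1) * x ^ (δ / 4)) * x ^ (δ / 4) := by gcongr
        _ = _ := by rw [← e1]; ring
    rw [mul_div_assoc', le_div_iff₀ hl]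
    calc x ^ (1 - δ) * (c + Real.log x) * Real.log x = x ^ (1 - δ) * ((c + Real.log x) * Real.log x) := by ring
      _ ≤ x ^ (1 - δ) * ((c + 1) * x ^ (δ / 2)) := by gcongr
      _ ≤ x ^ (1 - δ) * ((x ^ (δ / 2) * g) * x ^ (δ / 2)) := by gcongr
      _ = g * (x ^ (1 - δ) * (x ^ (δ / 2) * x ^ (δ / 2))) := by ring
      _ = g * x := by rw [e2]
  exact tendsto_natCast_atTop_atTop.eventually h4

/-- logarithms are negligible -/
theorem small_log {A c d g : ℝ} (hA : 1 ≤ A) (hg : 0 < g) (hc : 0 ≤ c) : ∀ᶠ n : ℕ in atTop,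
    d + c * Real.log (A * n + 1) ≤ g * (n / Real.log n) := by
  have h1 := small_pow (δ := 1) (c := |d| + c * (Real.log (2 * A)) + 1) (g := g / (c + 1)) one_pos
    (by
      have : 0 ≤ Real.log (2 * A) := Real.log_nonneg (by linarith)
      positivity) (by positivity)
  filter_upwards [h1, eventually_ge_atTop 1] with n hn hn1
  have hn0 : (1 : ℝ) ≤ n := by exact_mod_cast hn1
  rw [sub_self, Real.rpow_zero, one_mul] at hn
  have h2 : Real.log (A * n + 1) ≤ Real.log (2 * A) + Real.log n := by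
    rw [← Real.log_mul (by positivity) (by positivity)]
    apply Real.log_le_log (by positivity)
    nlinarith
  have h3 : (c + 1) * (|d| + c * Real.log (2 * A) + 1 + Real.log n) ≤ g * (n / Real.log n) := by
    have h4 := mul_le_mul_of_nonneg_left hn (show 0 ≤ c + 1 by positivity)
    refine h4.trans (le_of_eq ?_)
    field_simp
  have h5 : 0 ≤ Real.log n := Real.log_nonneg hn0
  have h6 : 0 ≤ Real.log (2 * A) := Real.log_nonneg (by linarith)
  refine le_trans ?_ h3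
  have h7 := le_abs_self d
  have h8 := abs_nonneg d
  have h9 := mul_nonneg hc h8
  have h10 := mul_nonneg hc (mul_nonneg hc h6)
  have h11 := mul_le_mul_of_nonneg_left h2 hc
  nlinarith

/-- the maximum of `x (k - log (3 x))` -/
theorem max_ineq {x k : ℝ} (hx : 0 < x) : x * (k - Real.log (3 * x)) ≤ Real.exp (k - 1) / 3 := by
  have h1 := Real.log_le_sub_one_of_pos (show 0 < Real.exp (k - 1) / (3 * x) by positivity)
  rw [Real.log_div (by positivity) (by positivity), Real.log_exp] at h1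
  have h2 : x * (k - Real.log (3 * x)) ≤ x * (Real.exp (k - 1) / (3 * x)) :=
    mul_le_mul_of_nonneg_left (by linarith) hx.le
  refine h2.trans (le_of_eq ?_)
  field_simp

theorem card_bound {I : Finset ℕ} (hI : ∀ p ∈ I, 1 ≤ p) {Q den : ℝ} (hQ : 0 < Q) (hden : 0 < den)
    (hlogQ : Real.log Q = den) : (I.card : ℝ) ≤ (∑ p ∈ I, Real.log p) / den + Q := by
  have h1 : ((I.filter (fun p : ℕ => (p : ℝ) ≤ Q)).card : ℝ) ≤ Q := by
    have h2 : I.filter (fun p : ℕ => (p : ℝ) ≤ Q) ⊆ Icc 1 ⌊Q⌋₊ := by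
      intro p hp
      rw [mem_filter] at hp
      rw [mem_Icc]
      exact ⟨hI p hp.1, Nat.le_floor hp.2⟩
    have h3 := card_le_card h2
    rw [Nat.card_Icc, Nat.add_sub_cancel] at h3
    have h4 : ((I.filter (fun p : ℕ => (p : ℝ) ≤ Q)).card : ℝ) ≤ ⌊Q⌋₊ := by exact_mod_cast h3
    exact h4.trans (Nat.floor_le hQ.le)
  have h2 : ((I.filter (fun p : ℕ => ¬ (p : ℝ) ≤ Q)).card : ℝ) * den ≤ ∑ p ∈ I, Real.log p := by
    have h3 : ((I.filter (fun p : ℕ => ¬ (p : ℝ) ≤ Q)).card : ℝ) * den ≤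
        ∑ p ∈ I.filter (fun p : ℕ => ¬ (p : ℝ) ≤ Q), Real.log p := by
      have := card_nsmul_le_sum (I.filter (fun p : ℕ => ¬ (p : ℝ) ≤ Q)) (fun p : ℕ => Real.log p)
        den (by
          intro p hp
          rw [mem_filter, not_le] at hp
          rw [← hlogQ]
          exact Real.log_le_log hQ hp.2.le)
      rwa [nsmul_eq_mul] at this
    refine h3.trans (sum_le_sum_of_subset_of_nonneg (filter_subset _ _) ?_)
    intro p hp _
    exact Real.log_nonneg (by exact_mod_cast hI p hp)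
  have h3 : (I.card : ℝ) = ((I.filter (fun p : ℕ => (p : ℝ) ≤ Q)).card : ℝ) +
      ((I.filter (fun p : ℕ => ¬ (p : ℝ) ≤ Q)).card : ℝ) := by
    have := card_filter_add_card_filter_not (s := I) (fun p : ℕ => (p : ℝ) ≤ Q)
    exact_mod_cast this.symm
  have h4 : ((I.filter (fun p : ℕ => ¬ (p : ℝ) ≤ Q)).card : ℝ) ≤ (∑ p ∈ I, Real.log p) / den := by
    rw [le_div_iff₀ hden]
    exact h2
  rw [h3]
  linarith

theorem sd_bound {s d N n ln X K1 θ g δ Q : ℝ} (hn : 0 < n) (hln : 0 < ln) (hX : X = n / ln) (hN : 0 < N)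
    (hδ : δ < 1) (hs0 : 0 ≤ s) (hs : s ≤ 2 * N / ((1 - δ) * ln) + Q) (hQ : 0 ≤ Q) (hθ0 : 0 < θ) (hg : 0 < g)
    (hθ : θ = 2 / 3 * Real.exp (K1 / 2 - 1)) (hd : d = K1 / 2 - Real.log (3 * (N / n)))
    (hδθ : θ / (1 - δ) = θ + g / 8) (hd1 : d ≤ K1 / 2 + ln) (hq : Q * (K1 / 2 + ln) ≤ g / 8 * X) :
    s * d ≤ (θ + g / 4) * X := by
  have hX0 : 0 < X := by rw [hX]; positivity
  have hν0 : 0 < N / n := by positivity
  have hmax := max_ineq (x := N / n) (k := K1 / 2) hν0
  rw [← hd] at hmax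
  rcases le_total d 0 with h | h
  · have h1 : s * d ≤ 0 := mul_nonpos_of_nonneg_of_nonpos hs0 h
    have h2 : 0 ≤ (θ + g / 4) * X := by positivity
    linarith
  · have h1 : s * d ≤ (2 * N / ((1 - δ) * ln) + Q) * d := mul_le_mul_of_nonneg_right hs h
    have h5 : 0 < 1 - δ := by linarith
    have h2 : 2 * N / ((1 - δ) * ln) * d = 2 * X * (N / n * d) / (1 - δ) := by
      rw [hX]
      field_simp
    have h3 : 2 * X * (N / n * d) / (1 - δ) ≤ (θ + g / 8) * X := by
      rw [← hδθ]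
      have h4 : 2 * (N / n * d) ≤ θ := by rw [hθ]; linarith
      calc 2 * X * (N / n * d) / (1 - δ) = (2 * (N / n * d)) / (1 - δ) * X := by ring
        _ ≤ θ / (1 - δ) * X := by gcongr
    have h4 : Q * d ≤ g / 8 * X := (mul_le_mul_of_nonneg_left hd1 hQ).trans hq
    rw [add_mul, h2] at h1
    linarith

theorem smu_bound {s μ N ln X g δ Q C : ℝ} (hln : 0 < ln) (hX0 : 0 < X) (hN : 0 < N)
    (hδ : δ < 1) (hs : s ≤ 2 * N / ((1 - δ) * ln) + Q) (hQ : 0 ≤ Q) (hg : 0 < g)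
    (hμ0 : 0 ≤ μ) (hμN : μ ≤ N) (hμ : μ ≤ 2 * C * X) (hln2 : 64 * C / (g * (1 - δ)) ≤ ln)
    (hQX : Q ≤ g / 16 * X) : s * μ / (2 * N) ≤ g / 8 * X := by
  have hδ' : 0 < 1 - δ := by linarith
  have hden : 0 < (1 - δ) * ln := by positivity
  have h1 : s * μ / (2 * N) ≤ (2 * N / ((1 - δ) * ln) + Q) * μ / (2 * N) := by gcongr
  have h2 : (2 * N / ((1 - δ) * ln) + Q) * μ / (2 * N) = μ / ((1 - δ) * ln) + Q / 2 * (μ / N) := by
    field_simp
  have h3 : μ / N ≤ 1 := (div_le_one hN).2 hμN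
  have h5 : μ / ((1 - δ) * ln) ≤ g / 32 * X := by
    rw [div_le_iff₀ hden]
    rw [div_le_iff₀ (by positivity)] at hln2
    have h7 : 2 * C ≤ g / 32 * ((1 - δ) * ln) := by linarith
    calc μ ≤ 2 * C * X := hμ
      _ ≤ g / 32 * ((1 - δ) * ln) * X := by gcongr
      _ = _ := by ring
  have h6 : Q / 2 * (μ / N) ≤ Q / 2 := mul_le_of_le_one_right (by positivity) h3
  have h8 : 0 < g * X := by positivity
  linarith

theorem kn_bound {K K1 N s Sg L lX : ℝ} (hK0 : 0 < K) (hK1 : K < K1) (hs0 : 0 ≤ s) (hN1 : 1 < Real.log N)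
    (hll : K * L ≤ K1 * lX) (hlX : lX ≤ Real.log N) (h1 : 2 * N - 1 ≤ Sg) (h2 : Sg ≤ s * L) :
    K * N / Real.log N ≤ s * (K1 / 2) + K / 2 := by
  have h3 : K * L ≤ K1 * Real.log N := hll.trans (mul_le_mul_of_nonneg_left hlX (by linarith))
  rw [div_le_iff₀ (by linarith)]
  have h5 : K * N ≤ K * ((s * L + 1) / 2) := mul_le_mul_of_nonneg_left (by linarith) hK0.le
  have h4 : s * (K * L) ≤ s * (K1 * Real.log N) := mul_le_mul_of_nonneg_left h3 hs0
  have h6 : K / 2 ≤ K / 2 * Real.log N := le_mul_of_one_le_right (by linarith) hN1.le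
  calc K * N ≤ K * ((s * L + 1) / 2) := h5
    _ = (s * (K * L)) / 2 + K / 2 := by ring
    _ ≤ (s * (K1 * Real.log N)) / 2 + K / 2 * Real.log N := by linarith
    _ = _ := by ring

theorem ly_bound {N μ y : ℝ} (hN : 0 < N) (hμ0 : 0 ≤ μ) (hμN : μ ≤ N) (hy : 3 * N - μ ≤ y) :
    Real.log (3 * N) - μ / (2 * N) ≤ Real.log y := by
  have h1 : 0 < 3 * N - μ := by linarith
  have h2 : Real.log (3 * N - μ) ≤ Real.log y := Real.log_le_log h1 hy
  have h3 := Real.log_le_sub_one_of_pos (show 0 < 3 * N / (3 * N - μ) by positivity)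
  rw [Real.log_div (by positivity) h1.ne'] at h3
  have h4 : 3 * N / (3 * N - μ) - 1 = μ / (3 * N - μ) := by field_simp; ring
  have h5 : μ / (3 * N - μ) ≤ μ / (2 * N) := by
    apply div_le_div_of_nonneg_left hμ0 (by positivity)
    linarith
  linarith

theorem finish {lH N μ s lny K1 sd ln smu i LW l2 LL Sg KN K g X θ : ℝ}
    (hH : lH ≤ 3 * N + 1 - μ - s * lny) (h1 : s * (K1 / 2) - sd + s * ln - smu ≤ s * lny)
    (h2 : sd ≤ (θ + g / 4) * X) (h3 : smu ≤ g / 8 * X) (h4 : 2 * i + LW ≤ μ + l2 + 4 * LL)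
    (h5 : Sg ≤ s * ln + (2 * i + 2)) (h6 : 2 * N - 1 ≤ Sg) (h7 : KN ≤ s * (K1 / 2) + K / 2)
    (h8 : K / 2 + 6 + 4 * LL ≤ g / 16 * X) (h9 : (θ + 7 * g / 8) * X ≤ LW) (h10 : l2 < 1)
    (h11 : 0 < g * X) : lH < N - KN := by
  have e1 : (θ + g / 4) * X = θ * X + g * X / 4 := by ring
  have e2 : (θ + 7 * g / 8) * X = θ * X + 7 * (g * X) / 8 := by ring
  have e3 : g / 8 * X = g * X / 8 := by ring
  have e4 : g / 16 * X = g * X / 16 := by ring
  rw [e1] at h2
  rw [e2] at h9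
  rw [e3] at h3
  rw [e4] at h8
  generalize θ * X = tX at *
  generalize g * X = gX at *
  generalize s * (K1 / 2) = a1 at *
  generalize s * ln = a2 at *
  generalize s * lny = a3 at *
  linarith

/-- the primes and their costs -/
theorem primes_facts {Λ n : ℕ} (hΛ : 1 ≤ Λ) (hn : 3 < n) :
    (∀ p ∈ P Λ n, p.Prime ∧ p ≠ 2) ∧ (∀ p ∈ P Λ n, Real.log p ≤ Real.log (Λ * n)) ∧
    (∀ p ∈ P Λ n, 0 ≤ cost n p) ∧ (∀ p ∈ P Λ n, cost n p ≤ Real.log p) ∧
    (∀ p ∈ P Λ n, Real.log p ≤ Real.log n + cost n p) ∧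
    ∑ p ∈ P Λ n, Real.log p < (((Λ * n + 1) ^ 2 : ℕ) : ℝ) := by
  have hn0 : (3 : ℝ) < n := by exact_mod_cast hn
  have hnp : (0 : ℝ) < n := by linarith
  have hΛ' : (1 : ℝ) ≤ Λ := by exact_mod_cast hΛ
  have hPp : ∀ p ∈ P Λ n, p.Prime ∧ p ≠ 2 := fun p hp => by
    unfold P at hp; exact (mem_filter.1 hp).2
  have hPle : ∀ p ∈ P Λ n, (p : ℝ) ≤ Λ * n := fun p hp => by
    unfold P at hp
    have h1 := (mem_range.1 (mem_filter.1 hp).1)
    have h2 : p ≤ Λ * n := by omega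
    exact_mod_cast h2
  have hPpos : ∀ p ∈ P Λ n, (0 : ℝ) < p := fun p hp => by
    have := (hPp p hp).1.pos
    exact_mod_cast this
  have hPlog : ∀ p ∈ P Λ n, Real.log p ≤ Real.log (Λ * n) := fun p hp =>
    Real.log_le_log (hPpos p hp) (hPle p hp)
  refine ⟨hPp, hPlog, fun p _ => le_max_left _ _, ?_, ?_, ?_⟩
  · intro p hp
    unfold cost
    apply max_le
    · apply Real.log_nonneg
      exact_mod_cast (hPp p hp).1.one_lt.le
    · apply Real.log_le_log (div_pos (hPpos p hp) hnp)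
      rw [div_le_iff₀ hnp]
      have := hPpos p hp
      nlinarith
  · intro p hp
    have h1 : Real.log ((p : ℝ) / n) ≤ cost n p := le_max_right _ _
    rw [Real.log_div (hPpos p hp).ne' hnp.ne'] at h1
    linarith
  · have h1 : ∑ p ∈ P Λ n, Real.log p ≤ (P Λ n).card * Real.log (Λ * n) := by
      have := sum_le_card_nsmul (P Λ n) (fun p => Real.log p) _ hPlog
      rwa [nsmul_eq_mul] at this
    have h2 : ((P Λ n).card : ℝ) ≤ Λ * n + 1 := by
      have h3 : (P Λ n).card ≤ Λ * n + 1 := by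
        unfold P
        refine (card_filter_le _ _).trans ?_
        rw [card_range]
      exact_mod_cast h3
    have hΛn : 3 < (Λ : ℝ) * n := by nlinarith
    have h4 : Real.log (Λ * n) < Λ * n + 1 := by
      have := Real.log_le_sub_one_of_pos (show 0 < (Λ : ℝ) * n by linarith)
      linarith
    have h5 : 0 ≤ Real.log (Λ * n) := Real.log_nonneg (by linarith)
    push_cast
    calc ∑ p ∈ P Λ n, Real.log p ≤ (P Λ n).card * Real.log (Λ * n) := h1
      _ ≤ (Λ * n + 1) * Real.log (Λ * n) := by gcongr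
      _ < (Λ * n + 1) * (Λ * n + 1) := by gcongr
      _ = _ := by ring

/-- the number of the primes -/
theorem card_P {Λ n : ℕ} (hn : |(Nat.primeCounting ⌊(Λ : ℝ) * n⌋₊ : ℝ) - (Λ : ℝ) * n / Real.log n| ≤
    1 * ((Λ : ℝ) * n / Real.log n)) : ((P Λ n).card : ℝ) ≤ 2 * Λ * (n / Real.log n) := by
  rw [abs_le] at hn
  have h2 : (P Λ n).card ≤ Nat.primeCounting ⌊(Λ : ℝ) * n⌋₊ := by
    have e0 : ⌊(Λ : ℝ) * n⌋₊ = Λ * n := by
      rw [← Nat.cast_mul, Nat.floor_natCast]
    rw [e0, Nat.primeCounting, Nat.primeCounting', Nat.count_eq_card_filter_range]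
    unfold P
    apply card_le_card
    intro p hp
    rw [mem_filter] at hp ⊢
    exact ⟨hp.1, hp.2.1⟩
  have h3 : ((P Λ n).card : ℝ) ≤ Nat.primeCounting ⌊(Λ : ℝ) * n⌋₊ := by exact_mod_cast h2
  have e : (Λ : ℝ) * n / Real.log n = Λ * (n / Real.log n) := by ring
  rw [e] at hn
  linarith [hn.2]

/-- the pair of products and its properties -/
theorem data {Λ n : ℕ} (hΛ : 1 ≤ Λ) (hn : 3 < n)
    (hbig : Real.log 3 + 4 * Real.log (Λ * n + 1) ≤
      Real.log (∏ p ∈ P Λ n, (1 + Real.exp (-2 * cost n p))))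
    {Q den : ℝ} (hQ : 0 < Q) (hden : 0 < den) (hlogQ : Real.log Q = den) :
    ∃ (u v : ℕ) (s μ i Sg : ℝ), 0 < v ∧ v < u ∧ Nat.Coprime (u - v) v ∧ 0 ≤ s ∧ 0 ≤ μ ∧ 0 ≤ i ∧
      μ ≤ Real.log u ∧ μ ≤ (P Λ n).card ∧
      2 * i + Real.log (∏ p ∈ P Λ n, (1 + Real.exp (-2 * cost n p))) ≤
        μ + Real.log 2 + 4 * Real.log (Λ * n + 1) ∧
      2 * Real.log u - 1 ≤ Sg ∧ Sg ≤ 2 * Real.log u ∧ Sg ≤ s * Real.log n + (2 * i + 2) ∧
      Sg ≤ s * Real.log (Λ * n) ∧ s ≤ Sg / den + Q ∧ s ≤ Sg ∧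
      s ≤ ((u - v) * v * u).primeFactors.card ∧
      Sg ≤ Real.log (gam ((u - v) * v * u)) ∧
      Real.log (gam ((u - v) * v * u)) ≤ 3 * Real.log u + 1 - μ := by
  obtain ⟨hPp, hPlog, hcost0, hcost1, hcost2, hBlt⟩ := primes_facts hΛ hn
  have hn0 : (3 : ℝ) < n := by exact_mod_cast hn
  set Wt : ℝ := ∏ p ∈ P Λ n, (1 + Real.exp (-2 * cost n p)) with hWt
  have hWt0 : 0 < Wt := prod_pos fun p _ => by positivity
  have hPpos : ∀ p ∈ P Λ n, (0 : ℝ) < p := fun p hp => by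
    have := (hPp p hp).1.pos
    exact_mod_cast this
  have hBr : (((Λ * n + 1) ^ 2 : ℕ) : ℝ) = ((Λ : ℝ) * n + 1) ^ 2 := by push_cast; ring
  have hB0 : (0 : ℝ) < (((Λ * n + 1) ^ 2 : ℕ) : ℝ) := by positivity
  have hlogB : Real.log (((Λ * n + 1) ^ 2 : ℕ) : ℝ) = 2 * Real.log (Λ * n + 1) := by
    rw [hBr, Real.log_pow]; norm_num
  have hbig' : 3 * (((Λ * n + 1) ^ 2 : ℕ) : ℝ) ^ 2 ≤ Wt := by
    rw [← Real.log_le_log_iff (by positivity) hWt0, Real.log_mul (by norm_num) (by positivity),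
      Real.log_pow, hlogB]
    push_cast
    linarith
  obtain ⟨U, V, m, i, hUP, hVP, hUV, hm1, hmP, hlt, hdvd, hlogs, hcosts, hexp⟩ :=
    comb hPp (cost n) hcost0 hcost1 _ hBlt hbig'
  obtain ⟨hcop, hcard, hgam1, hgam2⟩ := triple (fun p hp => hPp p (hUP hp)) (fun p hp => hPp p (hVP hp))
    hUV hm1 hlt hdvd
  have hlogu : Real.log ((∏ p ∈ U, p : ℕ) : ℝ) = ∑ p ∈ U, Real.log p := by
    rw [Nat.cast_prod, Real.log_prod]
    intro p hp
    exact (hPpos p (hUP hp)).ne'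
  have hlogv : Real.log ((∏ p ∈ V, p : ℕ) : ℝ) = ∑ p ∈ V, Real.log p := by
    rw [Nat.cast_prod, Real.log_prod]
    intro p hp
    exact (hPpos p (hVP hp)).ne'
  have hv0 : 0 < ∏ p ∈ V, p := prod_pos fun p hp => (hPp p (hVP hp)).1.pos
  set Sg : ℝ := ∑ p ∈ U, Real.log p + ∑ p ∈ V, Real.log p with hSg
  have hsumle : ∀ c : ℕ → ℝ, ∀ t : ℝ, (∀ p ∈ P Λ n, Real.log p ≤ t + c p) →
      Sg ≤ ((U.card + V.card : ℕ) : ℝ) * t + (∑ p ∈ U, c p + ∑ p ∈ V, c p) := by
    intro c t hc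
    have h1 : ∑ p ∈ U, Real.log p ≤ ∑ p ∈ U, (t + c p) := sum_le_sum fun p hp => hc p (hUP hp)
    have h2 : ∑ p ∈ V, Real.log p ≤ ∑ p ∈ V, (t + c p) := sum_le_sum fun p hp => hc p (hVP hp)
    rw [sum_add_distrib, sum_const, nsmul_eq_mul] at h1 h2
    rw [hSg]
    push_cast
    linarith
  have hSg3 : Sg ≤ ((U.card + V.card : ℕ) : ℝ) * Real.log n + (2 * i + 2) :=
    (hsumle (cost n) _ hcost2).trans (by linarith)
  have hSg4 : Sg ≤ ((U.card + V.card : ℕ) : ℝ) * Real.log (Λ * n) := by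
    have := hsumle (fun _ => 0) (Real.log (Λ * n)) (fun p hp => by simpa using hPlog p hp)
    simpa using this
  have hs1 : ((U.card + V.card : ℕ) : ℝ) ≤ Sg / den + Q := by
    have h1 := card_bound (I := U ∪ V) (fun p hp => (hPp p (union_subset hUP hVP hp)).1.one_lt.le)
      hQ hden hlogQ
    rw [card_union_of_disjoint hUV, sum_union hUV] at h1
    exact h1
  have hsSg : ((U.card + V.card : ℕ) : ℝ) ≤ Sg := by
    have h1 : ∀ W : Finset ℕ, W ⊆ P Λ n → (W.card : ℝ) ≤ ∑ p ∈ W, Real.log p := by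
      intro W hW
      have := card_nsmul_le_sum W (fun p : ℕ => Real.log p) 1 (by
        intro p hp
        have h5 := hPp p (hW hp)
        have h6 : 3 ≤ p := by
          have := h5.1.two_le
          have := h5.2
          omega
        exact one_lt_log_three.le.trans (Real.log_le_log (by norm_num) (by exact_mod_cast h6)))
      rwa [nsmul_eq_mul, mul_one] at this
    have h2 := h1 U hUP
    have h3 := h1 V hVP
    rw [hSg]
    push_cast
    linarith
  clear_value Sg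
  rw [← hlogu, ← hlogv] at hSg hlogs
  set u : ℕ := ∏ p ∈ U, p with hu
  set v : ℕ := ∏ p ∈ V, p with hv
  have hu0 : 0 < u := by omega
  have hsub : 0 < u - v := by omega
  have hur : (0 : ℝ) < u := by exact_mod_cast hu0
  have hvr : (0 : ℝ) < v := by exact_mod_cast hv0
  have hl2 := Real.log_two_gt_d9
  have hl2' := Real.log_two_lt_d9
  have hvu : Real.log (v : ℝ) ≤ Real.log u := by
    apply Real.log_le_log hvr
    exact_mod_cast hlt.le
  have h2m : (2 : ℝ) ^ m ≤ u := by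
    have h1 : 2 ^ m ≤ u - v := Nat.le_of_dvd hsub hdvd
    have h2 : 2 ^ m ≤ u := by omega
    exact_mod_cast h2
  have hgA : (0 : ℝ) < gam ((u - v) * v * u) := by exact_mod_cast gam_pos _
  refine ⟨u, v, ((U.card + V.card : ℕ) : ℝ), m * Real.log 2, i, Sg, hv0, hlt, hcop, Nat.cast_nonneg _,
    by positivity, Nat.cast_nonneg _, ?_, ?_, ?_, by linarith, by linarith, hSg3, hSg4, hs1, hsSg, ?_, ?_, ?_⟩
  · have := Real.log_le_log (by positivity) h2m
    rwa [Real.log_pow] at this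
  · have h5 : (m : ℝ) ≤ (P Λ n).card := by exact_mod_cast hmP
    have h6 : (0 : ℝ) ≤ m := Nat.cast_nonneg _
    nlinarith
  · have h1 := Real.log_le_log (by positivity) hexp
    rw [Real.log_mul (by positivity) hWt0.ne', Real.log_exp, Real.log_mul (by positivity) (by positivity),
      Real.log_pow, Real.log_pow, hlogB] at h1
    push_cast at h1
    linarith
  · exact_mod_cast hcard
  · have h1 : (u : ℝ) * v ≤ gam ((u - v) * v * u) := by exact_mod_cast hgam1
    have h2 := Real.log_le_log (by positivity) h1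
    rw [Real.log_mul hur.ne' hvr.ne'] at h2
    rw [hSg]
    exact h2
  · have h1 : (gam ((u - v) * v * u) : ℝ) * 2 ^ m ≤ 2 * u * v * u := by exact_mod_cast hgam2
    have h2 := Real.log_le_log (by positivity) h1
    rw [Real.log_mul hgA.ne' (by positivity), Real.log_pow, Real.log_mul (by positivity) hur.ne',
      Real.log_mul (by positivity) hvr.ne', Real.log_mul (by norm_num) hur.ne'] at h2
    linarith

theorem loglog {K K1 Λ : ℝ} (hK0 : 0 < K) (hK1 : K < K1) (hΛ : 1 ≤ Λ) :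
    ∀ᶠ n : ℕ in atTop, K * Real.log (Λ * n) ≤ K1 * Real.log ((n : ℝ) / Real.log n) := by
  have h1 := (isLittleO_log_rpow_atTop (show (0 : ℝ) < 1 by norm_num)).comp_tendsto
    (Real.tendsto_log_atTop.comp (tendsto_natCast_atTop_atTop (R := ℝ)))
  have h2 := h1.bound (show 0 < (K1 - K) / (2 * K1) by
    have : 0 < K1 := by linarith
    have : 0 < K1 - K := by linarith
    positivity)
  have h3 := (Real.tendsto_log_atTop.comp (tendsto_natCast_atTop_atTop (R := ℝ))).eventually_ge_atTop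
    (2 * K * Real.log Λ / (K1 - K))
  filter_upwards [h2, h3, eventually_gt_atTop 3] with n hn1 hn2 hn3
  have hn0 : (3 : ℝ) < n := by exact_mod_cast hn3
  have hl1 : 1 < Real.log n := one_lt_log_three.trans (Real.log_lt_log (by norm_num) hn0)
  simp only [Function.comp_apply, Real.rpow_one] at hn1 hn2
  rw [Real.norm_eq_abs, Real.norm_eq_abs, abs_of_pos (Real.log_pos hl1), abs_of_pos (by linarith)] at hn1
  rw [Real.log_mul (by positivity) (by positivity), Real.log_div (by positivity) (by positivity)]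
  have hK1p : 0 < K1 := by linarith
  have h4 : K1 * Real.log (Real.log n) ≤ (K1 - K) / 2 * Real.log n := by
    calc K1 * Real.log (Real.log n) ≤ K1 * ((K1 - K) / (2 * K1) * Real.log n) := by gcongr
      _ = _ := by field_simp
  rw [div_le_iff₀ (by linarith)] at hn2
  nlinarith

theorem main {K : ℝ} (hK0 : 0 < K) (hK : K < 2 + 2 * Real.log (3 * Real.pi / 4)) : ∀ᶠ n : ℕ in atTop,
    ∃ a b : ℕ, 0 < a ∧ 0 < b ∧ Nat.Coprime a b ∧ (n : ℝ) / Real.log n ≤ Real.log ((a + b : ℕ) : ℝ) ∧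
      Real.log (H (a * b * (a + b))) < Real.log ((a + b : ℕ) : ℝ) -
        K * Real.log ((a + b : ℕ) : ℝ) / Real.log (Real.log ((a + b : ℕ) : ℝ)) := by
  have hpi := Real.pi_gt_three
  have hpi4 := Real.pi_lt_four
  -- the constants
  obtain ⟨K1, hK1, hK1'⟩ := exists_between hK
  set θ : ℝ := 2 / 3 * Real.exp (K1 / 2 - 1) with hθ
  have hθ0 : 0 < θ := by positivity
  have hθ1 : θ < Real.pi / 2 := by
    have h1 : Real.exp (K1 / 2 - 1) < 3 * Real.pi / 4 := by
      rw [← Real.lt_log_iff_exp_lt (by positivity)]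
      linarith
    rw [hθ]; linarith
  set g : ℝ := Real.pi / 2 - θ with hg
  have hg0 : 0 < g := by linarith
  have hg2 : g < 2 := by linarith
  set δ : ℝ := g / (8 * θ + g) with hδ
  have hδ0 : 0 < δ := by positivity
  have hδ1 : δ < 1 := by
    rw [hδ, div_lt_one (by positivity)]
    linarith
  have hδθ : θ / (1 - δ) = θ + g / 8 := by
    have h1 : 1 - δ = 8 * θ / (8 * θ + g) := by
      rw [hδ]; field_simp; ring
    rw [h1]
    field_simp
  obtain ⟨Λ, hΛ1, hlogW⟩ := logW (ε := g / 8) (by positivity) (by linarith)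
  have hΛ : (1 : ℝ) ≤ Λ := by exact_mod_cast hΛ1
  have hpnt := (Pool.Agent.TH110.Zig.pnt_window Λ Λ 1 (by positivity) one_pos).filter_mono
    tendsto_natCast_atTop_atTop
  rw [Filter.eventually_map] at hpnt
  filter_upwards [hlogW, hpnt, loglog hK0 hK1 hΛ,
    small_pow (δ := δ) (c := K1 / 2) (g := g / 8) hδ0 (by linarith) (by positivity),
    small_pow (δ := δ) (c := 0) (g := g / 16) hδ0 le_rfl (by positivity),
    small_log (A := Λ) (c := 4) (d := K / 2 + 6) (g := g / 16) hΛ (by positivity) (by norm_num),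
    small_log (A := Λ) (c := 4) (d := Real.log 3) (g := 1) hΛ one_pos (by norm_num),
    tendsto_X.eventually_ge_atTop 3, (Real.tendsto_log_atTop.comp
      (tendsto_natCast_atTop_atTop (R := ℝ))).eventually_ge_atTop (64 * Λ / (g * (1 - δ))),
    eventually_gt_atTop 3] with n hW hn hll hq1 hq2 hL1 hL2 hX3 hlogn hn3
  simp only [Function.comp_apply] at hlogn
  have hcardP := card_P (hn (Λ * n) le_rfl le_rfl)
  have hn0 : (3 : ℝ) < n := by exact_mod_cast hn3
  have hl1 : 1 < Real.log n := one_lt_log_three.trans (Real.log_lt_log (by norm_num) hn0)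
  have hnp : (0 : ℝ) < n := by linarith
  set ln : ℝ := Real.log n with hln
  set X : ℝ := (n : ℝ) / ln with hX
  have hX0 : 0 < X := by linarith
  set LW : ℝ := Real.log (∏ p ∈ P Λ n, (1 + Real.exp (-2 * cost n p))) with hLW
  have hWX : (1 + g / 16) * X ≤ LW := by
    refine le_trans ?_ hW
    have h1 : 1 + g / 16 ≤ Real.pi / 2 - g / 8 := by linarith
    exact mul_le_mul_of_nonneg_right h1 hX0.le
  have hgX : 0 < g * X := by positivity
  have hWX1 : X ≤ LW := by linarith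
  have hden : 0 < (1 - δ) * ln := mul_pos (by linarith) (by linarith)
  set Q : ℝ := (n : ℝ) ^ (1 - δ) with hQ
  have hQ0 : 0 < Q := by positivity
  have hlogQ : Real.log Q = (1 - δ) * ln := Real.log_rpow hnp _
  obtain ⟨u, v, s, μ, i, Sg, hv0, hlt, hcop, hs0, hμ0, hi0, hμN, hμP, hμ1, hSg1, hSg2, hSg3, hSg4, hs1,
    hsSg, hcard, hgA2, hy1⟩ := data hΛ1 hn3 (by linarith) hQ0 hden hlogQ
  refine ⟨u - v, v, by omega, hv0, hcop, ?_⟩
  have hadd : u - v + v = u := by omega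
  rw [hadd]
  set N : ℝ := Real.log (u : ℝ) with hN
  rw [← hLW] at hμ1
  have hl2' := Real.log_two_lt_d9
  have hNX : X ≤ N := by linarith
  refine ⟨hNX, ?_⟩
  have hN3 : 3 ≤ N := by linarith
  have hN0 : 0 < N := by linarith
  have hlN1 : 1 < Real.log N := one_lt_log_three.trans_le (Real.log_le_log (by norm_num) hN3)
  have hs2 : s ≤ 2 * N / ((1 - δ) * ln) + Q := by
    refine hs1.trans ?_
    gcongr
  have hd1 : K1 / 2 - Real.log (3 * (N / n)) ≤ K1 / 2 + ln := by
    have h1 : -ln ≤ Real.log (3 * (N / n)) := by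
      rw [hln, ← Real.log_inv]
      apply Real.log_le_log (by positivity)
      rw [inv_eq_one_div, mul_div_assoc', div_le_div_iff_of_pos_right hnp]
      linarith
    linarith
  have hsd := sd_bound hnp (by linarith) hX hN0 hδ1 hs0 hs2 hQ0.le hθ0 hg0 hθ rfl hδθ hd1 hq1
  have hQX : Q ≤ g / 16 * X := by
    rw [zero_add] at hq2
    have h1 : Q * 1 ≤ Q * ln := mul_le_mul_of_nonneg_left hl1.le hQ0.le
    linarith
  have hsμ := smu_bound (C := Λ) (by linarith) hX0 hN0 hδ1 hs2 hQ0.le hg0 hμ0 hμN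
    (hμP.trans hcardP) hlogn hQX
  have hKN := kn_bound hK0 hK1 hs0 hlN1 hll (Real.log_le_log hX0 hNX) hSg1 hSg4
  have hH := logH_le (n := (u - v) * v * u) (s := s) (y := 3 * N + 1 - μ) hs0 hcard hy1
    (hsSg.trans hgA2) (by linarith)
  have hly := ly_bound (y := 3 * N + 1 - μ) hN0 hμ0 hμN (by linarith)
  have h3N : Real.log (3 * N) = Real.log (3 * (N / n)) + ln := by
    rw [hln, ← Real.log_mul (by positivity) hnp.ne']
    congr 1
    field_simp
  have hfinal : s * (Real.log (3 * N) - μ / (2 * N)) ≤ s * Real.log (3 * N + 1 - μ) :=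
    mul_le_mul_of_nonneg_left hly hs0
  have e1 : s * (Real.log (3 * N) - μ / (2 * N)) = s * (K1 / 2) -
      s * (K1 / 2 - Real.log (3 * (N / n))) + s * ln - s * μ / (2 * N) := by
    rw [h3N]; ring
  rw [e1] at hfinal
  have hWlow : (θ + 7 * g / 8) * X ≤ LW := by
    refine le_trans (le_of_eq ?_) hW
    rw [hg]; ring
  exact finish hH hfinal hsd hsμ hμ1 hSg3 hSg1 hKN hL1 hWlow (by linarith) hgX

end Pool.Agent.X2.AbcH
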