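import Mathlib
import Pool.Agent.X2.AdicDigits

/-!
# Sums of `b`-adic complexities of reversed windows of several numbers
-/

set_option autoImplicit false

namespace Pool.Agent.X2.AdicJoint

open Finset
open Pool.Agent.X2.AdicDigits

/-- a representation of minimal size -/
lemma exists_rep {b : ℕ} (n : ℕ) (c : ℕ → ℤ) : ∃ f g : ℤ, 0 < g ∧ Int.gcd g b = 1 ∧
    (b : ℤ) ^ n ∣ g * (∑ i ∈ range n, c i * (b : ℤ) ^ i) - f ∧ |f| ≤ size b n c ∧
      g ≤ size b n c := by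
  set S : Set ℕ := {M : ℕ | ∃ f g : ℤ, 0 < g ∧ Int.gcd g b = 1 ∧
    (b : ℤ) ^ n ∣ g * (∑ i ∈ range n, c i * (b : ℤ) ^ i) - f ∧ |f| ≤ M ∧ g ≤ M} with hS
  have hne : S.Nonempty := by
    refine ⟨(∑ i ∈ range n, c i * (b : ℤ) ^ i).natAbs + 1, (∑ i ∈ range n, c i * (b : ℤ) ^ i), 1,
      one_pos, by simp, by simp, ?_, ?_⟩
    · rw [Int.abs_eq_natAbs]; push_cast; omega
    · exact_mod_cast Nat.le_add_left 1 _
  exact Nat.sInf_mem hne

lemma size_pos {b : ℕ} (n : ℕ) (c : ℕ → ℤ) : 1 ≤ size b n c := by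
  obtain ⟨f, g, hg, -, -, -, hgs⟩ := exists_rep (b := b) n c
  omega

/-- approximation with a denominator of the size of the window -/
lemma exists_approx {b : ℕ} (hb : 2 ≤ b) (x : ℝ) (m n : ℕ) : ∃ g : ℕ, 1 ≤ g ∧
    g ≤ size b n (backwards b x m n) ∧ ∃ k : ℤ,
      |(g : ℝ) * (b : ℝ) ^ m * x - k| ≤ 2 * (size b n (backwards b x m n) : ℝ) / (b : ℝ) ^ n := by
  obtain ⟨f, g, hg, -, hdv, hf, hgs⟩ := exists_rep (b := b) n (backwards b x m n)
  obtain ⟨k, hk⟩ := approx hb x m n f g hg hdv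
  have hgt : ((g.toNat : ℕ) : ℤ) = g := Int.toNat_of_nonneg hg.le
  have hgR : ((g.toNat : ℕ) : ℝ) = (g : ℝ) := by exact_mod_cast hgt
  refine ⟨g.toNat, by omega, by omega, k, ?_⟩
  rw [hgR]
  refine hk.trans ?_
  have h1 : max |f| |g| ≤ (size b n (backwards b x m n) : ℤ) := by
    apply max_le hf
    rw [abs_of_pos hg]; exact hgs
  have h2 : ((max |f| |g| : ℤ) : ℝ) ≤ (size b n (backwards b x m n) : ℝ) := by exact_mod_cast h1
  have hb0 : (0 : ℝ) < (b : ℝ) ^ n := by positivity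
  gcongr

/-- splitting off the part of `Q` composed of primes dividing `b` -/
lemma split (b : ℕ) : ∀ Q : ℕ, 0 < Q → ∃ Q1 Q2 s : ℕ, Q = Q1 * Q2 ∧ Q1 ∣ b ^ s ∧
    Nat.Coprime Q2 b := by
  intro Q
  induction Q using Nat.strong_induction_on with
  | _ Q ih =>
    intro hQ
    by_cases h : Nat.Coprime Q b
    · exact ⟨1, Q, 0, by simp, by simp, h⟩
    · have hg : 1 < Nat.gcd Q b := by
        have h1 : 0 < Nat.gcd Q b := Nat.gcd_pos_of_pos_left _ hQ
        have h2 : Nat.gcd Q b ≠ 1 := h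
        omega
      obtain ⟨Q', hQ'⟩ := Nat.gcd_dvd_left Q b
      have hQ'0 : 0 < Q' := by
        rcases Nat.eq_zero_or_pos Q' with h0 | h0
        · rw [h0, Nat.mul_zero] at hQ'; omega
        · exact h0
      have hlt : Q' < Q := by
        rw [hQ']
        nlinarith
      obtain ⟨Q1, Q2, s, h1, h2, h3⟩ := ih Q' hlt hQ'0
      refine ⟨Nat.gcd Q b * Q1, Q2, s + 1, ?_, ?_, h3⟩
      · rw [mul_assoc, ← h1]; exact hQ'
      · rw [pow_succ']
        exact Nat.mul_dvd_mul (Nat.gcd_dvd_right Q b) h2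

/-- rational numbers have bounded complexity -/
theorem rational {x : ℝ} (hx : ¬ Irrational x) (b : ℕ) (hb : 2 ≤ b) : ∃ m₀ M : ℕ,
    ∀ m n : ℕ, m₀ ≤ m → size b n (backwards b x m n) ≤ M := by
  rw [Irrational, not_not] at hx
  obtain ⟨r, rfl⟩ := hx
  obtain ⟨Q1, Q2, s, hQ, hs, hco⟩ := split b r.den r.den_pos
  refine ⟨s, Q2, fun m n hm => ?_⟩
  have hQ2 : 0 < Q2 := by
    rcases Nat.eq_zero_or_pos Q2 with h | h
    · have := r.den_pos
      rw [hQ, h, Nat.mul_zero] at this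
      omega
    · exact h
  have hQ1 : 0 < Q1 := by
    rcases Nat.eq_zero_or_pos Q1 with h | h
    · have := r.den_pos
      rw [hQ, h, Nat.zero_mul] at this
      omega
    · exact h
  obtain ⟨t, ht⟩ : Q1 ∣ b ^ m := hs.trans (pow_dvd_pow b hm)
  -- `Q2 * x * b ^ (m + n) = num * t * b ^ n`
  have hval : (Q2 : ℝ) * ((r : ℝ) * (b : ℝ) ^ (m + n)) = r.num * t * (b : ℝ) ^ n := by
    have h1 : (r : ℝ) = r.num / ((Q1 : ℝ) * Q2) := by
      have h2 : (r : ℝ) = (r.num : ℝ) / (r.den : ℝ) := by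
        exact_mod_cast (Rat.cast_def (K := ℝ) r)
      rw [h2, hQ]
      push_cast
      rfl
    have h2 : (b : ℝ) ^ m = Q1 * t := by exact_mod_cast ht
    have hQ1R : (Q1 : ℝ) ≠ 0 := by positivity
    have hQ2R : (Q2 : ℝ) ≠ 0 := by positivity
    rw [pow_add, h2, h1]
    field_simp
  set F : ℤ := ⌊(r : ℝ) * (b : ℝ) ^ (m + n)⌋ with hF
  have h1 := Int.floor_le ((r : ℝ) * (b : ℝ) ^ (m + n))
  have h2 := Int.lt_floor_add_one ((r : ℝ) * (b : ℝ) ^ (m + n))
  rw [← hF] at h1 h2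
  have hQ2R : (0 : ℝ) < Q2 := by exact_mod_cast hQ2
  -- the remainder
  set f : ℤ := (Q2 : ℤ) * F - r.num * t * (b : ℤ) ^ n with hf
  have hfR : (f : ℝ) = Q2 * (F - (r : ℝ) * (b : ℝ) ^ (m + n)) := by
    rw [hf, mul_sub, hval]
    push_cast
    ring
  have hf1 : (f : ℝ) ≤ 0 := by rw [hfR]; nlinarith
  have hf2 : (-(Q2 : ℝ)) ≤ f := by rw [hfR]; nlinarith
  have hf1' : f ≤ 0 := by exact_mod_cast hf1
  have hf2' : -(Q2 : ℤ) ≤ f := by exact_mod_cast hf2
  apply Nat.sInf_le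
  refine ⟨f, Q2, by exact_mod_cast hQ2, by rw [Int.gcd_natCast_natCast]; exact hco, ?_, ?_, le_rfl⟩
  · rw [value hb (r : ℝ) m n, ← hF, hf]
    refine ⟨r.num * t - Q2 * ⌊(r : ℝ) * (b : ℝ) ^ m⌋, ?_⟩
    ring
  · rw [abs_of_nonpos hf1']
    omega

/-- **Linear relations with `e`.** -/
theorem joint {r : ℕ} (x : Fin r → ℝ) (α : Fin r → ℤ) (γ δ : ℤ) (hγ : γ ≠ 0)
    (hrel : ∑ i, (α i : ℝ) * x i = γ * Real.exp 1 + δ)
    (hE : ∀ q : ℕ, 1 ≤ q → ∀ p : ℤ, (1 / 1000 : ℝ) ≤ (q : ℝ) * (1 + Real.log q) * |q * Real.exp 1 - p|) :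
    ∃ C : ℝ, ∀ b : ℕ, 2 ≤ b → ∀ m n : ℕ,
      ((n : ℝ) - m) / 2 - C * Real.log (m + n + 2) ≤
        ∑ i, adicComplexity b n (backwards b (x i) m n) := by
  classical
  set A : ℝ := 1 + ∑ i, |(α i : ℝ)| with hA
  have hA1 : 1 ≤ A := by
    have : 0 ≤ ∑ i, |(α i : ℝ)| := sum_nonneg fun i _ => abs_nonneg _
    linarith
  set Γ : ℝ := ((γ.natAbs : ℕ) : ℝ) with hΓ
  have hΓ1 : 1 ≤ Γ := by
    rw [hΓ]
    have : 1 ≤ γ.natAbs := Int.natAbs_pos.2 hγ
    exact_mod_cast this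
  have hlΓ : 0 ≤ Real.log Γ := Real.log_nonneg hΓ1
  set C1 : ℝ := 4000 * A * Γ * (1 + Real.log Γ) with hC1
  have hC1' : 4000 ≤ C1 := by
    rw [hC1]
    have h1 : 1 ≤ A * Γ := by nlinarith
    have h2 : 1 ≤ A * Γ * (1 + Real.log Γ) := by nlinarith
    nlinarith
  have hl2 : 0 < Real.log 2 := Real.log_pos (by norm_num)
  have hlC : 0 ≤ Real.log C1 := Real.log_nonneg (by linarith)
  refine ⟨(Real.log C1 / Real.log 2 + 1) / Real.log 2 + 1 / Real.log 2, ?_⟩
  intro b hb m n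
  have hbR : (1 : ℝ) < b := by exact_mod_cast (by omega : 1 < b)
  have hb0 : (0 : ℝ) < b := by linarith
  have hb2 : (2 : ℝ) ≤ b := by exact_mod_cast hb
  have hlb : Real.log 2 ≤ Real.log b := Real.log_le_log (by norm_num) hb2
  have hlb0 : 0 < Real.log b := by linarith
  have hlbb : Real.log b ≤ b := by
    have := Real.log_le_sub_one_of_pos hb0
    linarith
  have hm0 : (0 : ℝ) ≤ m := Nat.cast_nonneg m
  have hn0 : (0 : ℝ) ≤ n := Nat.cast_nonneg n
  have hbn0 : (0 : ℝ) < (b : ℝ) ^ n := by positivity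
  have hbm0 : (0 : ℝ) < (b : ℝ) ^ m := by positivity
  have hbm1 : (1 : ℝ) ≤ (b : ℝ) ^ m := one_le_pow₀ hbR.le
  choose g hg1 hgH k hk using fun i => exists_approx hb (x i) m n
  set H : Fin r → ℝ := fun i => (size b n (backwards b (x i) m n) : ℝ) with hH
  have hH1 : ∀ i, 1 ≤ H i := fun i => by
    simp only [hH]; exact_mod_cast size_pos n _
  have hH0 : ∀ i, 0 < H i := fun i => by have := hH1 i; linarith
  have hgH' : ∀ i, (g i : ℝ) ≤ H i := fun i => by simp only [hH]; exact_mod_cast hgH i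
  have hg1' : ∀ i, (1 : ℝ) ≤ g i := fun i => by exact_mod_cast hg1 i
  set P : ℝ := ∏ i, H i with hP
  have hP0 : 0 < P := prod_pos fun i _ => hH0 i
  have hP1 : 1 ≤ P := by
    rw [hP]
    have h1 : ∏ _i : Fin r, (1 : ℝ) ≤ ∏ i, H i :=
      prod_le_prod (fun i _ => zero_le_one) fun i _ => hH1 i
    simpa using h1
  have hsum : ∑ i, adicComplexity b n (backwards b (x i) m n) = Real.logb b P := by
    unfold adicComplexity
    rw [hP, Real.logb_prod _ _ fun i _ => (hH0 i).ne']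
  rw [hsum]
  have hlN : 0 ≤ Real.log ((m : ℝ) + n + 2) := Real.log_nonneg (by linarith)
  have hCpos : 0 ≤ (Real.log C1 / Real.log 2 + 1) / Real.log 2 + 1 / Real.log 2 := by positivity
  rcases le_or_gt ((b : ℝ) ^ (m + n)) P with hbig | hsmall
  · have h1 : ((m + n : ℕ) : ℝ) ≤ Real.logb b P := by
      rw [← Real.logb_rpow (b := (b : ℝ)) (x := ((m + n : ℕ) : ℝ)) hb0 hbR.ne', Real.rpow_natCast]
      exact Real.logb_le_logb_of_le hbR (by positivity) hbig
    push_cast at h1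
    have h2 : 0 ≤ ((Real.log C1 / Real.log 2 + 1) / Real.log 2 + 1 / Real.log 2) *
      Real.log (m + n + 2) := mul_nonneg hCpos hlN
    linarith
  set G : ℕ := ∏ i, g i with hG
  have hG1 : 1 ≤ G := Nat.one_le_iff_ne_zero.2 (prod_ne_zero_iff.2 fun i _ => by
    have := hg1 i; omega)
  have hGP : (G : ℝ) ≤ P := by
    rw [hG, hP]
    push_cast
    exact prod_le_prod (fun i _ => by positivity) fun i _ => hgH' i
  -- the linear form
  set q : ℕ := γ.natAbs * b ^ m * G with hq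
  have hq1 : 1 ≤ q := by
    have h1 : 1 ≤ γ.natAbs := Int.natAbs_pos.2 hγ
    have h2 : 1 ≤ b ^ m := Nat.one_le_pow _ _ (by omega)
    rw [hq]
    exact Nat.one_le_iff_ne_zero.2 (by positivity)
  have hqR : (q : ℝ) = Γ * (b : ℝ) ^ m * G := by rw [hq, hΓ]; push_cast; ring
  have hprod : ∀ i, (G : ℝ) = (∏ j ∈ univ.erase i, (g j : ℝ)) * g i := fun i => by
    rw [hG, prod_erase_mul _ _ (mem_univ i)]
    push_cast
    rfl
  obtain ⟨K, hK⟩ : ∃ K : ℤ, |(γ : ℝ) * (b : ℝ) ^ m * G * Real.exp 1 - K| ≤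
      2 * A * P / (b : ℝ) ^ n := by
    refine ⟨∑ i, α i * (∏ j ∈ univ.erase i, (g j : ℤ)) * k i - δ * (b : ℤ) ^ m * G, ?_⟩
    have e1 : (γ : ℝ) * (b : ℝ) ^ m * G * Real.exp 1 -
        ((∑ i, α i * (∏ j ∈ univ.erase i, (g j : ℤ)) * k i - δ * (b : ℤ) ^ m * G : ℤ) : ℝ) =
        ∑ i, (α i : ℝ) * (∏ j ∈ univ.erase i, (g j : ℝ)) * ((g i : ℝ) * (b : ℝ) ^ m * x i - k i) := by
      have e2 : ∑ i, (α i : ℝ) * (∏ j ∈ univ.erase i, (g j : ℝ)) *
          ((g i : ℝ) * (b : ℝ) ^ m * x i - k i) = (b : ℝ) ^ m * G * (∑ i, (α i : ℝ) * x i) -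
          ∑ i, (α i : ℝ) * (∏ j ∈ univ.erase i, (g j : ℝ)) * k i := by
        rw [mul_sum, ← sum_sub_distrib]
        apply sum_congr rfl
        intro i _
        rw [hprod i]
        ring
      rw [e2, hrel]
      push_cast
      ring
    rw [e1]
    calc |∑ i, (α i : ℝ) * (∏ j ∈ univ.erase i, (g j : ℝ)) * ((g i : ℝ) * (b : ℝ) ^ m * x i - k i)|
        ≤ ∑ i, |(α i : ℝ) * (∏ j ∈ univ.erase i, (g j : ℝ)) *
          ((g i : ℝ) * (b : ℝ) ^ m * x i - k i)| := abs_sum_le_sum_abs _ _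
      _ ≤ ∑ i, |(α i : ℝ)| * (2 * P / (b : ℝ) ^ n) := by
          apply sum_le_sum
          intro i _
          rw [abs_mul, abs_mul, mul_assoc]
          apply mul_le_mul_of_nonneg_left _ (abs_nonneg _)
          have h1 : 0 ≤ ∏ j ∈ univ.erase i, (g j : ℝ) := prod_nonneg fun j _ => by positivity
          rw [abs_of_nonneg h1]
          calc (∏ j ∈ univ.erase i, (g j : ℝ)) * |(g i : ℝ) * (b : ℝ) ^ m * x i - k i|
              ≤ (∏ j ∈ univ.erase i, H j) * (2 * H i / (b : ℝ) ^ n) := by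
                apply mul_le_mul _ (hk i) (abs_nonneg _)
                  (prod_nonneg fun j _ => (hH0 j).le)
                exact prod_le_prod (fun j _ => by positivity) fun j _ => hgH' j
            _ = 2 * ((∏ j ∈ univ.erase i, H j) * H i) / (b : ℝ) ^ n := by ring
            _ = 2 * P / (b : ℝ) ^ n := by rw [prod_erase_mul _ _ (mem_univ i)]
      _ = (∑ i, |(α i : ℝ)|) * (2 * P / (b : ℝ) ^ n) := by rw [sum_mul]
      _ ≤ A * (2 * P / (b : ℝ) ^ n) := by
          apply mul_le_mul_of_nonneg_right _ (by positivity)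
          linarith
      _ = 2 * A * P / (b : ℝ) ^ n := by ring
  obtain ⟨K', hK'⟩ : ∃ K' : ℤ, |(q : ℝ) * Real.exp 1 - K'| ≤ 2 * A * P / (b : ℝ) ^ n := by
    rcases le_total 0 γ with h | h
    · refine ⟨K, ?_⟩
      have h1 : Γ = (γ : ℝ) := by
        rw [hΓ, Nat.cast_natAbs, abs_of_nonneg h]
      rw [hqR, h1]
      exact hK
    · refine ⟨-K, ?_⟩
      have h1 : Γ = -(γ : ℝ) := by
        rw [hΓ, Nat.cast_natAbs, abs_of_nonpos h]
        push_cast
        ring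
      rw [hqR, h1]
      have h2 : -(γ : ℝ) * (b : ℝ) ^ m * G * Real.exp 1 - ((-K : ℤ) : ℝ) =
          -((γ : ℝ) * (b : ℝ) ^ m * G * Real.exp 1 - K) := by push_cast; ring
      rw [h2, abs_neg]
      exact hK
  have hmain := hE q hq1 K'
  have hqP : (q : ℝ) ≤ Γ * (b : ℝ) ^ m * P := by
    rw [hqR]
    exact mul_le_mul_of_nonneg_left hGP (by positivity)
  have hq1R : (1 : ℝ) ≤ q := by exact_mod_cast hq1
  have hlogq : Real.log q ≤ Real.log Γ + (2 * m + n) * Real.log b := by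
    have h1 : (q : ℝ) ≤ Γ * (b : ℝ) ^ (2 * m + n) := by
      refine hqP.trans ?_
      rw [show 2 * m + n = m + (m + n) by ring, pow_add _ m (m + n), ← mul_assoc]
      exact mul_le_mul_of_nonneg_left hsmall.le (by positivity)
    have h2 := Real.log_le_log (by linarith) h1
    rw [Real.log_mul (by positivity) (by positivity), Real.log_pow] at h2
    push_cast at h2
    exact h2
  have hD : 1 + Real.log q ≤ (1 + Real.log Γ) * (b * (2 * (m + n + 2))) := by
    have h1 : (2 * (m : ℝ) + n) * Real.log b ≤ (2 * m + n) * b :=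
      mul_le_mul_of_nonneg_left hlbb (by positivity)
    have h2 : 1 + Real.log q ≤ 1 + Real.log Γ + (2 * m + n) * b := by linarith
    refine h2.trans ?_
    have h3 : (1 : ℝ) ≤ b * (2 * (m + n + 2)) := by nlinarith
    have h4 : (1 : ℝ) + (2 * m + n) * b ≤ b * (2 * (m + n + 2)) := by nlinarith
    have h5 : Real.log Γ ≤ Real.log Γ * (b * (2 * (m + n + 2))) := le_mul_of_one_le_right hlΓ h3
    nlinarith
  have hD0 : 0 ≤ 1 + Real.log q := by
    have := Real.log_nonneg hq1R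
    linarith
  obtain ⟨X, hX⟩ : ∃ X : ℝ, X = (b : ℝ) ^ m * P ^ 2 * (C1 * (b * (m + n + 2))) := ⟨_, rfl⟩
  have hfin : (b : ℝ) ^ n ≤ X := by
    have h1 : (1 / 1000 : ℝ) ≤ (Γ * (b : ℝ) ^ m * P) * ((1 + Real.log Γ) * (b * (2 * (m + n + 2)))) *
        (2 * A * P / (b : ℝ) ^ n) := by
      refine hmain.trans ?_
      apply mul_le_mul _ hK' (abs_nonneg _) (by positivity)
      exact mul_le_mul hqP hD hD0 (by positivity)
    have h2 : (Γ * (b : ℝ) ^ m * P) * ((1 + Real.log Γ) * (b * (2 * (m + n + 2)))) *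
        (2 * A * P / (b : ℝ) ^ n) = X / 1000 / (b : ℝ) ^ n := by
      rw [hX, hC1]; ring
    rw [h2, le_div_iff₀ hbn0] at h1
    linarith
  rw [hX] at hfin
  clear_value C1 A Γ
  have hlogs := Real.logb_le_logb_of_le hbR hbn0 hfin
  have hN0 : (0 : ℝ) < (m : ℝ) + n + 2 := by linarith
  rw [Real.logb_mul (by positivity) (by positivity), Real.logb_mul (by positivity) (by positivity),
    Real.logb_mul (by positivity) (by positivity), Real.logb_mul (by positivity) (by positivity),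
    Real.logb_pow, Real.logb_pow, Real.logb_pow, Real.logb_self_eq_one hbR] at hlogs
  have h3 : Real.logb b C1 ≤ Real.log C1 / Real.log 2 := by
    unfold Real.logb
    exact div_le_div_of_nonneg_left hlC hl2 hlb
  have h4 : Real.logb b ((m : ℝ) + n + 2) ≤ Real.log (m + n + 2) / Real.log 2 := by
    unfold Real.logb
    exact div_le_div_of_nonneg_left hlN hl2 hlb
  have h5 : Real.log 2 ≤ Real.log ((m : ℝ) + n + 2) := Real.log_le_log (by norm_num) (by linarith)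
  have h6 : Real.log C1 / Real.log 2 + 1 ≤
      (Real.log C1 / Real.log 2 + 1) / Real.log 2 * Real.log (m + n + 2) := by
    rw [div_mul_eq_mul_div, le_div_iff₀ hl2]
    exact mul_le_mul_of_nonneg_left h5 (by positivity)
  have h7 : 0 ≤ Real.log C1 / Real.log 2 + 1 := by positivity
  have h8 : 0 ≤ Real.log ((m : ℝ) + n + 2) / Real.log 2 := by positivity
  have e9 : ((Real.log C1 / Real.log 2 + 1) / Real.log 2 + 1 / Real.log 2) * Real.log (m + n + 2) =
      (Real.log C1 / Real.log 2 + 1) / Real.log 2 * Real.log (m + n + 2) +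
      Real.log (m + n + 2) / Real.log 2 := by ring
  rw [e9]
  push_cast at hlogs
  linarith

end Pool.Agent.X2.AdicJoint
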