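import Mathlib
import Pool.Agent.TH915.PW.Scaled
import Pool.Agent.Y565.RG.Gen

/-!
# Exponential sums with the distances between the points of two sets in the plane
-/

set_option autoImplicit false

namespace Pool.Agent.X2.Dist

open Finset Filter
open Pool.Agent.H469R2.NK (e norm_e e_add conj_e)

/-- the distance of two points on lines at distance `H` -/
noncomputable def F (H t : ℝ) : ℝ := √(t ^ 2 + H ^ 2)

lemma F_pos {H : ℝ} (hH : H ≠ 0) (t : ℝ) : 0 < F H t := Real.sqrt_pos.2 (by positivity)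

lemma F_sq (H t : ℝ) : F H t ^ 2 = t ^ 2 + H ^ 2 := Real.sq_sqrt (by positivity)

lemma F_ge (H t : ℝ) : |H| ≤ F H t := by
  rw [F, ← Real.sqrt_sq_eq_abs]
  exact Real.sqrt_le_sqrt (by nlinarith [sq_nonneg t])

lemma F_ge' (H t : ℝ) : |t| ≤ F H t := by
  rw [F, ← Real.sqrt_sq_eq_abs]
  exact Real.sqrt_le_sqrt (by nlinarith [sq_nonneg H])

lemma deriv0 {H : ℝ} (hH : H ≠ 0) (t : ℝ) : HasDerivAt (F H) (t / F H t) t := by
  have h1 : HasDerivAt (fun t : ℝ => t ^ 2 + H ^ 2) (2 * t) t := by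
    simpa using (hasDerivAt_pow 2 t).add_const (H ^ 2)
  have h2 := h1.sqrt (by positivity)
  refine h2.congr_deriv ?_
  rw [F]
  field_simp

lemma deriv1 {H : ℝ} (hH : H ≠ 0) (t : ℝ) :
    HasDerivAt (fun t => t / F H t) (H ^ 2 / F H t ^ 3) t := by
  have h1 := (hasDerivAt_id t).div (deriv0 hH t) (F_pos hH t).ne'
  refine h1.congr_deriv ?_
  have h2 := F_pos hH t
  have h3 := F_sq H t
  simp only [id]
  field_simp
  linear_combination h3

lemma deriv2 {H : ℝ} (hH : H ≠ 0) (t : ℝ) :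
    HasDerivAt (fun t => H ^ 2 / F H t ^ 3) (-(3 * H ^ 2 * t / F H t ^ 5)) t := by
  have h0 := F_pos hH t
  have h1 := (deriv0 hH t).pow 3
  have h2 := (hasDerivAt_const t (H ^ 2)).div h1 (by simpa using h0.ne')
  refine h2.congr_deriv ?_
  simp only [Pi.pow_apply]
  field_simp
  ring

lemma mvt {f f' : ℝ → ℝ} (h : ∀ x, HasDerivAt f (f' x) x) {a b : ℝ} (hab : a < b) :
    ∃ c, a < c ∧ c < b ∧ f b - f a = f' c * (b - a) := by
  obtain ⟨c, hc, h1⟩ := exists_hasDerivAt_eq_slope f f' hab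
    (fun x _ => (h x).continuousAt.continuousWithinAt) (fun x _ => h x)
  refine ⟨c, hc.1, hc.2, ?_⟩
  rw [h1, div_mul_cancel₀]
  linarith

/-- first difference -/
noncomputable def G (H t : ℝ) : ℝ := F H (t + 1) - F H t

lemma G_diff {H : ℝ} (hH : H ≠ 0) {s t : ℝ} (hst : s < t) :
    ∃ z, s < z ∧ z < t + 1 ∧ G H t - G H s = H ^ 2 / F H z ^ 3 * (t - s) := by
  obtain ⟨c, hc1, hc2, hc3⟩ := mvt (f := G H) (f' := fun x => (x + 1) / F H (x + 1) - x / F H x)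
    (fun x => by
      have h1 := (deriv0 hH (x + 1)).comp_add_const x 1
      exact h1.sub (deriv0 hH x)) hst
  obtain ⟨z, hz1, hz2, hz3⟩ := mvt (f := fun t => t / F H t) (f' := fun t => H ^ 2 / F H t ^ 3)
    (fun x => deriv1 hH x) (show c < c + 1 by linarith)
  refine ⟨z, by linarith, by linarith, ?_⟩
  rw [hc3]
  rw [hz3]
  ring

lemma G_diff2 {H : ℝ} (hH : H ≠ 0) {s t : ℝ} (hst : s < t) :
    ∃ z, (G H (t + 1) - G H t) - (G H (s + 1) - G H s) = -(3 * H ^ 2 * z / F H z ^ 5) * (t - s) := by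
  have hG : ∀ x, HasDerivAt (G H) ((x + 1) / F H (x + 1) - x / F H x) x := fun x => by
    have h1 := (deriv0 hH (x + 1)).comp_add_const x 1
    exact h1.sub (deriv0 hH x)
  obtain ⟨c, hc1, hc2, hc3⟩ := mvt (f := fun x => G H (x + 1) - G H x)
    (f' := fun x => ((x + 1 + 1) / F H (x + 1 + 1) - (x + 1) / F H (x + 1)) -
      ((x + 1) / F H (x + 1) - x / F H x))
    (fun x => ((hG (x + 1)).comp_add_const x 1).sub (hG x)) hst
  have hD : ∀ x, HasDerivAt (fun x => (x + 1) / F H (x + 1) - x / F H x)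
      (H ^ 2 / F H (x + 1) ^ 3 - H ^ 2 / F H x ^ 3) x := fun x => by
    have h1 := (deriv1 hH (x + 1)).comp_add_const x 1
    exact h1.sub (deriv1 hH x)
  obtain ⟨d, hd1, hd2, hd3⟩ := mvt (f := fun x => (x + 1) / F H (x + 1) - x / F H x)
    (f' := fun x => H ^ 2 / F H (x + 1) ^ 3 - H ^ 2 / F H x ^ 3) hD (show c < c + 1 by linarith)
  obtain ⟨z, hz1, hz2, hz3⟩ := mvt (f := fun t => H ^ 2 / F H t ^ 3)
    (f' := fun t => -(3 * H ^ 2 * t / F H t ^ 5)) (fun x => deriv2 hH x) (show d < d + 1 by linarith)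
  refine ⟨z, ?_⟩
  rw [hc3, hd3, hz3]
  ring

lemma D2_upper {H H0 : ℝ} (h0 : 0 < H0) (hH : H0 ≤ |H|) (t : ℝ) : H ^ 2 / F H t ^ 3 ≤ 1 / H0 := by
  have h1 := F_ge H t
  have h2 : 0 < |H| := h0.trans_le hH
  have h3 : 0 < F H t := h2.trans_le h1
  rw [div_le_div_iff₀ (by positivity) h0, one_mul]
  have h4 : H ^ 2 = |H| ^ 2 := (sq_abs H).symm
  rw [h4]
  calc |H| ^ 2 * H0 ≤ F H t ^ 2 * F H t :=
        mul_le_mul (pow_le_pow_left₀ h2.le h1 2) (hH.trans h1) h0.le (by positivity)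
    _ = F H t ^ 3 := by ring

lemma D2_lower {H H0 : ℝ} (h0 : 0 < H0) (hH : H0 ≤ |H|) (hH2 : |H| ≤ 2 * H0) {t : ℝ}
    (ht : |t| ≤ 3 * H0) : 1 / (47 * H0) ≤ H ^ 2 / F H t ^ 3 := by
  have h2 : 0 < |H| := h0.trans_le hH
  have hH0 : H ≠ 0 := abs_pos.1 h2
  have h3 := F_pos hH0 t
  have h4 : F H t ^ 2 ≤ 13 * H0 ^ 2 := by
    rw [F_sq, ← sq_abs t, ← sq_abs H]
    nlinarith [pow_le_pow_left₀ (abs_nonneg t) ht 2, pow_le_pow_left₀ (abs_nonneg H) hH2 2]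
  have h5 : F H t ≤ 3.607 * H0 := by
    apply le_of_sq_le_sq _ (by positivity)
    nlinarith
  rw [div_le_div_iff₀ (by positivity) (by positivity), one_mul]
  have h6 : H0 ^ 2 ≤ H ^ 2 := by
    rw [← sq_abs H]
    exact pow_le_pow_left₀ h0.le hH 2
  calc F H t ^ 3 = F H t ^ 2 * F H t := by ring
    _ ≤ 13 * H0 ^ 2 * (3.607 * H0) := mul_le_mul h4 h5 h3.le (by positivity)
    _ ≤ H0 ^ 2 * (47 * H0) := by nlinarith [pow_pos h0 3]
    _ ≤ H ^ 2 * (47 * H0) := mul_le_mul_of_nonneg_right h6 (by positivity)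

lemma D3_bound {H H0 : ℝ} (h0 : 0 < H0) (hH : H0 ≤ |H|) (t : ℝ) :
    |-(3 * H ^ 2 * t / F H t ^ 5)| ≤ 3 / H0 ^ 2 := by
  have h2 : 0 < |H| := h0.trans_le hH
  have hH0 : H ≠ 0 := abs_pos.1 h2
  have h3 := F_pos hH0 t
  rw [abs_neg, abs_div, abs_of_pos (by positivity : 0 < F H t ^ 5), abs_mul, abs_mul,
    abs_of_pos (by norm_num : (0 : ℝ) < 3), abs_of_nonneg (sq_nonneg H),
    div_le_div_iff₀ (by positivity) (by positivity)]
  have h4 := F_ge H t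
  have h5 := F_ge' H t
  have h6 : H ^ 2 = |H| ^ 2 := (sq_abs H).symm
  rw [h6]
  calc 3 * |H| ^ 2 * |t| * H0 ^ 2 = 3 * (|H| ^ 2 * |t| * H0 ^ 2) := by ring
    _ ≤ 3 * (F H t ^ 2 * F H t * F H t ^ 2) := by
        apply mul_le_mul_of_nonneg_left _ (by norm_num)
        apply mul_le_mul _ (pow_le_pow_left₀ h0.le (hH.trans h4) 2) (by positivity) (by positivity)
        exact mul_le_mul (pow_le_pow_left₀ h2.le h4 2) h5 (abs_nonneg _) (by positivity)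
    _ = 3 * F H t ^ 5 := by ring

/-- the inner sums -/
lemma inner {H H0 θ : ℝ} {x L b c : ℕ} (h0 : 1 ≤ H0) (hH : H0 ≤ |H|) (hH2 : |H| ≤ 2 * H0)
    (hb : ∀ n < L, |((x + n : ℕ) : ℝ) - b| ≤ 2 * H0) (hc : ∀ n < L, |((x + n : ℕ) : ℝ) - c| ≤ 2 * H0)
    (hbc : b ≠ c) (hθ : 0 < θ) (hs : θ * |(b : ℝ) - c| ≤ H0 / 2) (hL : (L : ℝ) ≤ H0) :
    ‖∑ n ∈ range L, e (θ * F H (((x + n : ℕ) : ℝ) - b) - θ * F H (((x + n : ℕ) : ℝ) - c))‖ ≤
      3340 * H0 / θ * (1 / |(b : ℝ) - c|) := by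
  have h00 : 0 < H0 := by linarith
  have h2 : 0 < |H| := h00.trans_le hH
  have hH0 : H ≠ 0 := abs_pos.1 h2
  have hd : 0 < |(b : ℝ) - c| := abs_pos.2 (sub_ne_zero.2 (by exact_mod_cast hbc))
  set r := |(b : ℝ) - c| with hr
  set ψ : ℕ → ℝ := fun n => θ * F H (((x + n : ℕ) : ℝ) - b) - θ * F H (((x + n : ℕ) : ℝ) - c) with hψ
  have e1 : ∀ n : ℕ, ψ (n + 1) - ψ n = θ * (G H (((x + n : ℕ) : ℝ) - b) - G H (((x + n : ℕ) : ℝ) - c)) := by
    intro n
    simp only [hψ, G]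
    have e2 : ((x + (n + 1) : ℕ) : ℝ) - b = ((x + n : ℕ) : ℝ) - b + 1 := by push_cast; ring
    have e3 : ((x + (n + 1) : ℕ) : ℝ) - c = ((x + n : ℕ) : ℝ) - c + 1 := by push_cast; ring
    rw [e2, e3]
    ring
  have e4 : ∀ n < L, 1 / (47 * H0) * r ≤ |G H (((x + n : ℕ) : ℝ) - b) - G H (((x + n : ℕ) : ℝ) - c)| ∧
      |G H (((x + n : ℕ) : ℝ) - b) - G H (((x + n : ℕ) : ℝ) - c)| ≤ 1 / H0 * r := by
    intro n hn
    have f1 := abs_le.1 (hb n hn)
    have f2 := abs_le.1 (hc n hn)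
    rcases lt_or_gt_of_ne hbc with h | h
    · have h' : (b : ℝ) < c := by exact_mod_cast h
      obtain ⟨z, hz1, hz2, hz3⟩ := G_diff hH0
        (show ((x + n : ℕ) : ℝ) - c < ((x + n : ℕ) : ℝ) - b by linarith)
      have f3 : |z| ≤ 3 * H0 := abs_le.2 ⟨by linarith [f2.1], by linarith [f1.2]⟩
      have f4 := D2_lower h00 hH hH2 f3
      have f5 := D2_upper h00 hH z
      have f6 : ((x + n : ℕ) : ℝ) - b - (((x + n : ℕ) : ℝ) - c) = r := by
        rw [hr, abs_sub_comm, abs_of_pos (by linarith)]; ring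
      have f7 : 0 < H ^ 2 / F H z ^ 3 := lt_of_lt_of_le (by positivity) f4
      rw [hz3, f6, abs_of_pos (by positivity)]
      exact ⟨mul_le_mul_of_nonneg_right f4 hd.le, mul_le_mul_of_nonneg_right f5 hd.le⟩
    · have h' : (c : ℝ) < b := by exact_mod_cast h
      obtain ⟨z, hz1, hz2, hz3⟩ := G_diff hH0
        (show ((x + n : ℕ) : ℝ) - b < ((x + n : ℕ) : ℝ) - c by linarith)
      have f3 : |z| ≤ 3 * H0 := abs_le.2 ⟨by linarith [f1.1], by linarith [f2.2]⟩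
      have f4 := D2_lower h00 hH hH2 f3
      have f5 := D2_upper h00 hH z
      have f6 : ((x + n : ℕ) : ℝ) - c - (((x + n : ℕ) : ℝ) - b) = r := by
        rw [hr, abs_of_pos (by linarith)]; ring
      have f7 : 0 < H ^ 2 / F H z ^ 3 := lt_of_lt_of_le (by positivity) f4
      rw [abs_sub_comm, hz3, f6, abs_of_pos (by positivity)]
      exact ⟨mul_le_mul_of_nonneg_right f4 hd.le, mul_le_mul_of_nonneg_right f5 hd.le⟩
  have e5 : ∀ n : ℕ, |(G H (((x + n : ℕ) : ℝ) - b + 1) - G H (((x + n : ℕ) : ℝ) - b)) -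
      (G H (((x + n : ℕ) : ℝ) - c + 1) - G H (((x + n : ℕ) : ℝ) - c))| ≤ 3 / H0 ^ 2 * r := by
    intro n
    rcases lt_or_gt_of_ne hbc with h | h
    · have h' : (b : ℝ) < c := by exact_mod_cast h
      obtain ⟨z, hz3⟩ := G_diff2 hH0
        (show ((x + n : ℕ) : ℝ) - c < ((x + n : ℕ) : ℝ) - b by linarith)
      have f6 : ((x + n : ℕ) : ℝ) - b - (((x + n : ℕ) : ℝ) - c) = r := by
        rw [hr, abs_sub_comm, abs_of_pos (by linarith)]; ring
      rw [hz3, f6, abs_mul, abs_of_pos hd]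
      exact mul_le_mul_of_nonneg_right (D3_bound h00 hH z) hd.le
    · have h' : (c : ℝ) < b := by exact_mod_cast h
      obtain ⟨z, hz3⟩ := G_diff2 hH0
        (show ((x + n : ℕ) : ℝ) - b < ((x + n : ℕ) : ℝ) - c by linarith)
      have f6 : ((x + n : ℕ) : ℝ) - c - (((x + n : ℕ) : ℝ) - b) = r := by
        rw [hr, abs_of_pos (by linarith)]; ring
      rw [abs_sub_comm, hz3, f6, abs_mul, abs_of_pos hd]
      exact mul_le_mul_of_nonneg_right (D3_bound h00 hH z) hd.le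
  have hkl := Pool.Agent.Y565.RG.kl_var L ψ (θ * (1 / (47 * H0) * r)) (θ * (3 / H0 ^ 2 * r))
    (by positivity) (by positivity) (by
      intro n hn
      rw [e1, abs_mul, abs_of_pos hθ]
      obtain ⟨g1, g2⟩ := e4 n hn
      refine ⟨mul_le_mul_of_nonneg_left g1 hθ.le, (mul_le_mul_of_nonneg_left g2 hθ.le).trans ?_⟩
      have : θ * (1 / H0 * r) = θ * r / H0 := by ring
      rw [this, div_le_iff₀ h00]
      linarith) (by
      intro n _
      rw [e1 (n + 1), e1 n, ← mul_sub, abs_mul, abs_of_pos hθ]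
      apply mul_le_mul_of_nonneg_left _ hθ.le
      have e2 : ((x + (n + 1) : ℕ) : ℝ) - b = ((x + n : ℕ) : ℝ) - b + 1 := by push_cast; ring
      have e3 : ((x + (n + 1) : ℕ) : ℝ) - c = ((x + n : ℕ) : ℝ) - c + 1 := by push_cast; ring
      rw [e2, e3]
      have := e5 n
      rwa [show (G H (((x + n : ℕ) : ℝ) - b + 1) - G H (((x + n : ℕ) : ℝ) - c + 1)) -
        (G H (((x + n : ℕ) : ℝ) - b) - G H (((x + n : ℕ) : ℝ) - c)) =
        (G H (((x + n : ℕ) : ℝ) - b + 1) - G H (((x + n : ℕ) : ℝ) - b)) -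
      (G H (((x + n : ℕ) : ℝ) - c + 1) - G H (((x + n : ℕ) : ℝ) - c)) by ring])
  refine hkl.trans ?_
  have g1 : 1 / (2 * (θ * (1 / (47 * H0) * r))) = 23.5 * (H0 / (θ * r)) := by
    field_simp; norm_num
  have g2 : θ * (3 / H0 ^ 2 * r) / (2 * (θ * (1 / (47 * H0) * r)) ^ 2) = 3313.5 / (θ * r) := by
    field_simp; norm_num
  rw [g1, g2]
  have g3 : (L : ℝ) * (3313.5 / (θ * r)) ≤ H0 * (3313.5 / (θ * r)) :=
    mul_le_mul_of_nonneg_right hL (by positivity)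
  have g4 : 3340 * H0 / θ * (1 / r) = 3340 * (H0 / (θ * r)) := by field_simp
  have g5 : H0 * (3313.5 / (θ * r)) = 3313.5 * (H0 / (θ * r)) := by ring
  rw [g4]
  rw [g5] at g3
  have g6 : 0 < H0 / (θ * r) := by positivity
  linarith

/-- the square of a double sum -/
lemma bilinear (A B I : Finset ℕ) (hA : A ⊆ I) (Φ : ℕ → ℕ → ℝ) :
    ‖∑ a ∈ A, ∑ b ∈ B, e (Φ a b)‖ ^ 2 ≤
      A.card * ∑ b ∈ B, ∑ c ∈ B, ‖∑ a ∈ I, e (Φ a b - Φ a c)‖ := by
  have h1 : ‖∑ a ∈ A, ∑ b ∈ B, e (Φ a b)‖ ^ 2 ≤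
      A.card * ∑ a ∈ A, ‖∑ b ∈ B, e (Φ a b)‖ ^ 2 := by
    calc ‖∑ a ∈ A, ∑ b ∈ B, e (Φ a b)‖ ^ 2
        ≤ (∑ a ∈ A, ‖∑ b ∈ B, e (Φ a b)‖) ^ 2 :=
          pow_le_pow_left₀ (norm_nonneg _) (norm_sum_le _ _) 2
      _ ≤ A.card * ∑ a ∈ A, ‖∑ b ∈ B, e (Φ a b)‖ ^ 2 := sq_sum_le_card_mul_sum_sq
  refine h1.trans (mul_le_mul_of_nonneg_left ?_ (Nat.cast_nonneg _))
  calc ∑ a ∈ A, ‖∑ b ∈ B, e (Φ a b)‖ ^ 2
      ≤ ∑ a ∈ I, ‖∑ b ∈ B, e (Φ a b)‖ ^ 2 :=
        sum_le_sum_of_subset_of_nonneg hA fun _ _ _ => by positivity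
    _ = ‖∑ b ∈ B, ∑ c ∈ B, ∑ a ∈ I, e (Φ a b - Φ a c)‖ := by
        have h2 : ((∑ a ∈ I, ‖∑ b ∈ B, e (Φ a b)‖ ^ 2 : ℝ) : ℂ) =
            ∑ b ∈ B, ∑ c ∈ B, ∑ a ∈ I, e (Φ a b - Φ a c) := by
          push_cast
          have h3 : ∀ a ∈ I, ((‖∑ b ∈ B, e (Φ a b)‖ : ℂ)) ^ 2 =
              ∑ b ∈ B, ∑ c ∈ B, e (Φ a b - Φ a c) := by
            intro a _
            rw [← Complex.mul_conj', map_sum, sum_mul_sum]
            refine sum_congr rfl fun b _ => sum_congr rfl fun c _ => ?_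
            rw [conj_e, ← e_add, sub_eq_add_neg]
          rw [sum_congr rfl h3, sum_comm]
          exact sum_congr rfl fun b _ => sum_comm
        rw [← h2, Complex.norm_real, Real.norm_of_nonneg (sum_nonneg fun _ _ => by positivity)]
    _ ≤ ∑ b ∈ B, ∑ c ∈ B, ‖∑ a ∈ I, e (Φ a b - Φ a c)‖ :=
        (norm_sum_le _ _).trans (sum_le_sum fun b _ => norm_sum_le _ _)

/-- the sum of the inverses of the distances -/
lemma inv_dist (x L b : ℕ) (B : Finset ℕ) (hb : b ∈ Ico x (x + L)) (hB : B ⊆ Ico x (x + L)) :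
    ∑ c ∈ B.erase b, 1 / |(b : ℝ) - c| ≤ 2 * (1 + Real.log L) := by
  have hH : ∑ k ∈ Icc 1 L, (1 : ℝ) / k ≤ 1 + Real.log L := by
    have h1 := harmonic_le_one_add_log L
    rw [harmonic_eq_sum_Icc] at h1
    push_cast at h1
    refine le_trans (le_of_eq ?_) h1
    exact sum_congr rfl fun k _ => by rw [one_div]
  rw [mem_Ico] at hb
  rw [← sum_filter_add_sum_filter_not (B.erase b) (· < b)]
  have hA : ∑ c ∈ (B.erase b).filter (· < b), 1 / |(b : ℝ) - c| ≤ ∑ k ∈ Icc 1 L, (1 : ℝ) / k := by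
    have e1 : ∑ c ∈ (B.erase b).filter (· < b), 1 / |(b : ℝ) - c| =
        ∑ k ∈ ((B.erase b).filter (· < b)).image (fun c => b - c), (1 : ℝ) / k := by
      rw [sum_image]
      · refine sum_congr rfl fun c hc => ?_
        rw [mem_filter] at hc
        have h2 : c ≤ b := hc.2.le
        rw [Nat.cast_sub h2, abs_of_nonneg]
        have : (c : ℝ) ≤ b := by exact_mod_cast h2
        linarith
      · intro c hc d hd hcd
        rw [mem_coe, mem_filter] at hc hd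
        simp only at hcd
        omega
    rw [e1]
    apply sum_le_sum_of_subset_of_nonneg
    · intro k hk
      rw [mem_image] at hk
      obtain ⟨c, hc, rfl⟩ := hk
      rw [mem_filter, mem_erase] at hc
      have := mem_Ico.1 (hB hc.1.2)
      rw [mem_Icc]
      omega
    · intro k _ _
      positivity
  have hB2 : ∑ c ∈ (B.erase b).filter (fun c => ¬ c < b), 1 / |(b : ℝ) - c| ≤
      ∑ k ∈ Icc 1 L, (1 : ℝ) / k := by
    have e1 : ∑ c ∈ (B.erase b).filter (fun c => ¬ c < b), 1 / |(b : ℝ) - c| =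
        ∑ k ∈ ((B.erase b).filter (fun c => ¬ c < b)).image (fun c => c - b), (1 : ℝ) / k := by
      rw [sum_image]
      · refine sum_congr rfl fun c hc => ?_
        rw [mem_filter] at hc
        have h2 : b ≤ c := not_lt.1 hc.2
        rw [Nat.cast_sub h2, abs_of_nonpos]
        · rw [neg_sub]
        · have : (b : ℝ) ≤ c := by exact_mod_cast h2
          linarith
      · intro c hc d hd hcd
        rw [mem_coe, mem_filter] at hc hd
        simp only at hcd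
        omega
    rw [e1]
    apply sum_le_sum_of_subset_of_nonneg
    · intro k hk
      rw [mem_image] at hk
      obtain ⟨c, hc, rfl⟩ := hk
      rw [mem_filter, mem_erase] at hc
      have := mem_Ico.1 (hB hc.1.2)
      rw [mem_Icc]
      omega
    · intro k _ _
      positivity
  linarith

/-- two rows -/
lemma row_pair {H H0 θ : ℝ} {x x' L : ℕ} (h0 : 1 ≤ H0) (hH : H0 ≤ |H|) (hH2 : |H| ≤ 2 * H0)
    (hx : ∀ a ∈ Ico x (x + L), ∀ b ∈ Ico x' (x' + L), |(a : ℝ) - b| ≤ 2 * H0)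
    (hθ : 0 < θ) (hs : θ * L ≤ H0 / 2) (hL : (L : ℝ) ≤ H0)
    (A B : Finset ℕ) (hA : A ⊆ Ico x (x + L)) (hB : B ⊆ Ico x' (x' + L)) :
    ‖∑ a ∈ A, ∑ b ∈ B, e (θ * F H ((a : ℝ) - b))‖ ^ 2 ≤
      A.card * B.card * (H0 + 6680 * H0 / θ * (1 + Real.log L)) := by
  refine (bilinear A B _ hA (fun a b => θ * F H ((a : ℝ) - b))).trans ?_
  rw [mul_assoc]
  apply mul_le_mul_of_nonneg_left _ (Nat.cast_nonneg _)
  rw [← nsmul_eq_mul]
  apply sum_le_card_nsmul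
  intro b hb
  have hb' := hB hb
  rw [← add_sum_erase B _ hb]
  apply add_le_add
  · refine (norm_sum_le _ _).trans ?_
    rw [sum_congr rfl (fun a _ => norm_e _), sum_const, Nat.card_Ico, nsmul_eq_mul, mul_one,
      Nat.add_sub_cancel_left]
    exact hL
  · calc ∑ c ∈ B.erase b, ‖∑ a ∈ Ico x (x + L), e (θ * F H ((a : ℝ) - b) - θ * F H ((a : ℝ) - c))‖
        ≤ ∑ c ∈ B.erase b, 3340 * H0 / θ * (1 / |(b : ℝ) - c|) := by
          refine sum_le_sum fun c hc => ?_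
          rw [mem_erase] at hc
          have hc' := hB hc.2
          rw [sum_Ico_eq_sum_range, Nat.add_sub_cancel_left]
          apply inner h0 hH hH2 (fun n hn => hx _ (by rw [mem_Ico]; omega) _ hb')
            (fun n hn => hx _ (by rw [mem_Ico]; omega) _ hc') (Ne.symm hc.1) hθ _ hL
          refine le_trans (mul_le_mul_of_nonneg_left ?_ hθ.le) hs
          rw [mem_Ico] at hb' hc'
          have g1 : (b : ℝ) < x' + L := by exact_mod_cast hb'.2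
          have g2 : (x' : ℝ) ≤ b := by exact_mod_cast hb'.1
          have g3 : (c : ℝ) < x' + L := by exact_mod_cast hc'.2
          have g4 : (x' : ℝ) ≤ c := by exact_mod_cast hc'.1
          rw [abs_le]
          constructor <;> linarith
      _ = 3340 * H0 / θ * ∑ c ∈ B.erase b, (1 / |(b : ℝ) - c|) := by rw [mul_sum]
      _ ≤ 3340 * H0 / θ * (2 * (1 + Real.log L)) := by
          apply mul_le_mul_of_nonneg_left (inv_dist x' L b B hb' hB)
          have : 0 < H0 := by linarith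
          positivity
      _ = 6680 * H0 / θ * (1 + Real.log L) := by ring

/-- the distance -/
noncomputable def dist (P Q : ℕ × ℕ) : ℝ := √(((P.1 : ℝ) - Q.1) ^ 2 + ((P.2 : ℝ) - Q.2) ^ 2)

/-- the sum over a set of points, row by row -/
lemma sum_rows (E : Finset (ℕ × ℕ)) (y L : ℕ) (hE : ∀ P ∈ E, P.2 ∈ Ico y (y + L)) (f : ℕ × ℕ → ℂ) :
    ∑ P ∈ E, f P = ∑ j ∈ Ico y (y + L), ∑ a ∈ (E.filter (fun P => P.2 = j)).image Prod.fst, f (a, j) := by
  rw [← sum_fiberwise_of_maps_to hE]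
  refine sum_congr rfl fun j _ => ?_
  rw [sum_image]
  · refine sum_congr rfl fun P hP => ?_
    rw [mem_filter] at hP
    rw [← hP.2]
  · intro P hP Q hQ hPQ
    rw [mem_coe, mem_filter] at hP hQ
    exact Prod.ext hPQ (hP.2.trans hQ.2.symm)

lemma card_rows (E : Finset (ℕ × ℕ)) (y L : ℕ) (hE : ∀ P ∈ E, P.2 ∈ Ico y (y + L)) :
    E.card = ∑ j ∈ Ico y (y + L), ((E.filter (fun P => P.2 = j)).image Prod.fst).card := by
  rw [card_eq_sum_card_fiberwise hE]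
  refine sum_congr rfl fun j _ => ?_
  rw [card_image_of_injOn]
  intro P hP Q hQ hPQ
  rw [mem_coe, mem_filter] at hP hQ
  exact Prod.ext hPQ (hP.2.trans hQ.2.symm)

/-- the double sum over two separated squares -/
lemma double {H0 θ : ℝ} {x x' y y' L : ℕ} (h0 : 1 ≤ H0)
    (hy : ∀ a ∈ Ico y (y + L), ∀ b ∈ Ico y' (y' + L), H0 ≤ |(a : ℝ) - b| ∧ |(a : ℝ) - b| ≤ 2 * H0)
    (hx : ∀ a ∈ Ico x (x + L), ∀ b ∈ Ico x' (x' + L), |(a : ℝ) - b| ≤ 2 * H0)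
    (hθ : 0 < θ) (hs : θ * L ≤ H0 / 2) (hL1 : 1 ≤ L) (hL : (L : ℝ) ≤ H0)
    (E E' : Finset (ℕ × ℕ)) (hE : ∀ P ∈ E, P.1 ∈ Ico x (x + L) ∧ P.2 ∈ Ico y (y + L))
    (hE' : ∀ P ∈ E', P.1 ∈ Ico x' (x' + L) ∧ P.2 ∈ Ico y' (y' + L)) :
    ‖∑ P ∈ E, ∑ Q ∈ E', e (θ * dist P Q)‖ ^ 2 ≤
      E.card * E'.card * (L ^ 2 * (H0 + 6680 * H0 / θ * (1 + Real.log L))) := by
  set K : ℝ := H0 + 6680 * H0 / θ * (1 + Real.log L) with hK
  have hLR : (1 : ℝ) ≤ L := by exact_mod_cast hL1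
  have hK0 : 0 ≤ K := by
    have := Real.log_nonneg hLR
    have : 0 < H0 := by linarith
    positivity
  set R : ℕ → Finset ℕ := fun j => (E.filter (fun P => P.2 = j)).image Prod.fst with hR
  set R' : ℕ → Finset ℕ := fun j => (E'.filter (fun P => P.2 = j)).image Prod.fst with hR'
  have hRI : ∀ j, R j ⊆ Ico x (x + L) := by
    intro j a ha
    simp only [hR, mem_image, mem_filter] at ha
    obtain ⟨P, ⟨hP, -⟩, rfl⟩ := ha
    exact (hE P hP).1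
  have hRI' : ∀ j, R' j ⊆ Ico x' (x' + L) := by
    intro j a ha
    simp only [hR', mem_image, mem_filter] at ha
    obtain ⟨P, ⟨hP, -⟩, rfl⟩ := ha
    exact (hE' P hP).1
  have h1 : ∑ P ∈ E, ∑ Q ∈ E', e (θ * dist P Q) =
      ∑ j ∈ Ico y (y + L), ∑ k ∈ Ico y' (y' + L), ∑ a ∈ R j, ∑ b ∈ R' k,
        e (θ * F ((j : ℝ) - k) ((a : ℝ) - b)) := by
    rw [sum_rows E y L (fun P hP => (hE P hP).2) (fun P => ∑ Q ∈ E', e (θ * dist P Q))]
    refine sum_congr rfl fun j _ => ?_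
    have e1 : ∀ a : ℕ, ∑ Q ∈ E', e (θ * dist (a, j) Q) = ∑ k ∈ Ico y' (y' + L), ∑ b ∈ R' k,
        e (θ * F ((j : ℝ) - k) ((a : ℝ) - b)) := fun a =>
      sum_rows E' y' L (fun P hP => (hE' P hP).2) (fun Q => e (θ * dist (a, j) Q))
    rw [sum_congr rfl (fun a _ => e1 a)]
    exact sum_comm
  have h2 : ‖∑ P ∈ E, ∑ Q ∈ E', e (θ * dist P Q)‖ ≤
      ∑ j ∈ Ico y (y + L), ∑ k ∈ Ico y' (y' + L), √K * (√(R j).card * √(R' k).card) := by
    rw [h1]
    refine (norm_sum_le _ _).trans (sum_le_sum fun j hj => ?_)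
    refine (norm_sum_le _ _).trans (sum_le_sum fun k hk => ?_)
    obtain ⟨g1, g2⟩ := hy j hj k hk
    have g3 := row_pair h0 g1 g2 hx hθ hs hL (R j) (R' k) (hRI j) (hRI' k)
    rw [← Real.sqrt_mul (Nat.cast_nonneg _), ← Real.sqrt_mul hK0]
    apply Real.le_sqrt_of_sq_le
    refine g3.trans (le_of_eq ?_)
    ring
  have h3 : ∑ j ∈ Ico y (y + L), ∑ k ∈ Ico y' (y' + L), √K * (√(R j).card * √(R' k).card) =
      √K * ((∑ j ∈ Ico y (y + L), √(R j).card) * ∑ k ∈ Ico y' (y' + L), √(R' k).card) := by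
    rw [sum_mul_sum, mul_sum]
    refine sum_congr rfl fun j _ => ?_
    rw [mul_sum]
  have h4 : (∑ j ∈ Ico y (y + L), √(R j).card) ^ 2 ≤ L * E.card := by
    have g1 := sq_sum_le_card_mul_sum_sq (s := Ico y (y + L)) (f := fun j => √((R j).card : ℝ))
    rw [Nat.card_Ico, Nat.add_sub_cancel_left] at g1
    refine g1.trans (le_of_eq ?_)
    congr 1
    rw [card_rows E y L (fun P hP => (hE P hP).2)]
    push_cast
    exact sum_congr rfl fun j _ => Real.sq_sqrt (Nat.cast_nonneg _)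
  have h5 : (∑ j ∈ Ico y' (y' + L), √(R' j).card) ^ 2 ≤ L * E'.card := by
    have g1 := sq_sum_le_card_mul_sum_sq (s := Ico y' (y' + L)) (f := fun j => √((R' j).card : ℝ))
    rw [Nat.card_Ico, Nat.add_sub_cancel_left] at g1
    refine g1.trans (le_of_eq ?_)
    congr 1
    rw [card_rows E' y' L (fun P hP => (hE' P hP).2)]
    push_cast
    exact sum_congr rfl fun j _ => Real.sq_sqrt (Nat.cast_nonneg _)
  calc ‖∑ P ∈ E, ∑ Q ∈ E', e (θ * dist P Q)‖ ^ 2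
      ≤ (√K * ((∑ j ∈ Ico y (y + L), √(R j).card) * ∑ k ∈ Ico y' (y' + L), √(R' k).card)) ^ 2 := by
        rw [← h3]
        exact pow_le_pow_left₀ (norm_nonneg _) h2 2
    _ = K * ((∑ j ∈ Ico y (y + L), √(R j).card) ^ 2 * (∑ k ∈ Ico y' (y' + L), √(R' k).card) ^ 2) := by
        rw [mul_pow, mul_pow, Real.sq_sqrt hK0]
    _ ≤ K * ((L * E.card) * (L * E'.card)) := by
        apply mul_le_mul_of_nonneg_left _ hK0
        exact mul_le_mul h4 h5 (sq_nonneg _) (mul_nonneg (Nat.cast_nonneg _) (Nat.cast_nonneg _))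
    _ = E.card * E'.card * (L ^ 2 * K) := by ring

lemma dist_swap (P Q : ℕ × ℕ) : dist P.swap Q.swap = dist P Q := by
  unfold dist
  rw [add_comm]
  rfl

/-- the double sum over two squares that are separated in one of the two directions -/
lemma double_or {H0 θ : ℝ} {x x' y y' L : ℕ} (h0 : 1 ≤ H0)
    (hx : ∀ a ∈ Ico x (x + L), ∀ b ∈ Ico x' (x' + L), |(a : ℝ) - b| ≤ 2 * H0)
    (hy : ∀ a ∈ Ico y (y + L), ∀ b ∈ Ico y' (y' + L), |(a : ℝ) - b| ≤ 2 * H0)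
    (hor : (∀ a ∈ Ico x (x + L), ∀ b ∈ Ico x' (x' + L), H0 ≤ |(a : ℝ) - b|) ∨
      (∀ a ∈ Ico y (y + L), ∀ b ∈ Ico y' (y' + L), H0 ≤ |(a : ℝ) - b|))
    (hθ : 0 < θ) (hs : θ * L ≤ H0 / 2) (hL1 : 1 ≤ L) (hL : (L : ℝ) ≤ H0)
    (E E' : Finset (ℕ × ℕ)) (hE : ∀ P ∈ E, P.1 ∈ Ico x (x + L) ∧ P.2 ∈ Ico y (y + L))
    (hE' : ∀ P ∈ E', P.1 ∈ Ico x' (x' + L) ∧ P.2 ∈ Ico y' (y' + L)) :
    ‖∑ P ∈ E, ∑ Q ∈ E', e (θ * dist P Q)‖ ^ 2 ≤
      E.card * E'.card * (L ^ 2 * (H0 + 6680 * H0 / θ * (1 + Real.log L))) := by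
  rcases hor with h | h
  · have h1 := double (x := y) (x' := y') (y := x) (y' := x') h0
      (fun a ha b hb => ⟨h a ha b hb, hx a ha b hb⟩) hy hθ hs hL1 hL
      (E.map (Equiv.prodComm ℕ ℕ).toEmbedding) (E'.map (Equiv.prodComm ℕ ℕ).toEmbedding) (by
        intro P hP
        rw [Finset.mem_map] at hP
        obtain ⟨Q, hQ, rfl⟩ := hP
        exact ⟨(hE Q hQ).2, (hE Q hQ).1⟩) (by
        intro P hP
        rw [Finset.mem_map] at hP
        obtain ⟨Q, hQ, rfl⟩ := hP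
        exact ⟨(hE' Q hQ).2, (hE' Q hQ).1⟩)
    rw [card_map, card_map, sum_map] at h1
    refine le_trans (le_of_eq ?_) h1
    congr 2
    refine sum_congr rfl fun P _ => ?_
    rw [sum_map]
    refine sum_congr rfl fun Q _ => ?_
    congr 2
    exact (dist_swap P Q).symm
  · exact double h0 (fun a ha b hb => ⟨h a ha b hb, hy a ha b hb⟩) hx hθ hs hL1 hL E E' hE hE'

/-- two dense squares of the same size, far from each other -/
lemma select (N K : ℕ) (hN : 1 ≤ N) (hK : 23 ≤ K) (E : Finset (ℕ × ℕ))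
    (hE : ∀ P ∈ E, P.1 ∈ Icc 1 N ∧ P.2 ∈ Icc 1 N) (c : ℝ) (hcK : (K : ℝ) ^ 2 ≤ c)
    (hcard : c * (N : ℝ) ^ 3 ≤ (E.card : ℝ) ^ 2) :
    ∃ x y x' y' L D m : ℕ, 1 ≤ L ∧ L ≤ N ∧ (L : ℝ) * (K : ℝ) ^ 2 ≤ 2 * D ∧ K ≤ m ∧ m < K ^ 2 ∧
      (∀ a ∈ Ico x (x + L), ∀ b ∈ Ico x' (x' + L), |(a : ℝ) - b| ≤ (m + 1) * L) ∧
      (∀ a ∈ Ico y (y + L), ∀ b ∈ Ico y' (y' + L), |(a : ℝ) - b| ≤ (m + 1) * L) ∧
      ((∀ a ∈ Ico x (x + L), ∀ b ∈ Ico x' (x' + L), ((m : ℝ) - 1) * L ≤ |(a : ℝ) - b|) ∨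
        (∀ a ∈ Ico y (y + L), ∀ b ∈ Ico y' (y' + L), ((m : ℝ) - 1) * L ≤ |(a : ℝ) - b|)) ∧
      ∃ E₁ ⊆ E, ∃ E₂ ⊆ E,
        (∀ P ∈ E₁, P.1 ∈ Ico x (x + L) ∧ P.2 ∈ Ico y (y + L)) ∧
        (∀ P ∈ E₂, P.1 ∈ Ico x' (x' + L) ∧ P.2 ∈ Ico y' (y' + L)) ∧
        c * (D : ℝ) ^ 3 ≤ (2 * (K : ℝ) ^ 4 * E₁.card) ^ 2 ∧
        c * (D : ℝ) ^ 3 ≤ (2 * (K : ℝ) ^ 4 * E₂.card) ^ 2 := by
  have hKR : (23 : ℝ) ≤ K := by exact_mod_cast hK
  have hc0 : 0 < c := lt_of_lt_of_le (by positivity) hcK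
  set box : ℕ → ℕ → ℕ → Finset (ℕ × ℕ) := fun x y D =>
    E.filter (fun P => P.1 ∈ Ico x (x + D) ∧ P.2 ∈ Ico y (y + D)) with hbox
  set T : Finset ((ℕ × ℕ) × ℕ) := (range (N + 1) ×ˢ range (N + 1)) ×ˢ Icc 1 N with hT
  have hTne : ((1, 1), N) ∈ T := by
    simp only [hT, mem_product, mem_range, mem_Icc]
    omega
  obtain ⟨⟨⟨x, y⟩, D⟩, hmem, hmax⟩ := exists_max_image T
    (fun t => ((box t.1.1 t.1.2 t.2).card : ℝ) ^ 2 / (t.2 : ℝ) ^ 3) ⟨_, hTne⟩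
  simp only at hmax
  rw [hT, mem_product, mem_product, mem_range, mem_range, mem_Icc] at hmem
  obtain ⟨⟨hx, hy⟩, hD1, hDN⟩ := hmem
  simp only at hx hy hD1 hDN
  set S := box x y D with hS
  have hNR : (0 : ℝ) < N := by exact_mod_cast hN
  have hDR : (0 : ℝ) < D := by exact_mod_cast hD1
  have hall : box 1 1 N = E := by
    rw [hbox]
    apply filter_true_of_mem
    intro P hP
    obtain ⟨h1, h2⟩ := hE P hP
    rw [mem_Icc] at h1 h2
    rw [mem_Ico, mem_Ico]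
    omega
  have hcD : c * (D : ℝ) ^ 3 ≤ (S.card : ℝ) ^ 2 := by
    have h1 := hmax ((1, 1), N) hTne
    simp only at h1
    rw [hall] at h1
    have h2 : c ≤ (E.card : ℝ) ^ 2 / (N : ℝ) ^ 3 := by
      rw [le_div_iff₀ (by positivity)]; exact hcard
    exact (le_div_iff₀ (by positivity)).1 (h2.trans h1)
  have hS0 : 0 < S.card := by
    by_contra hcon
    have : S.card = 0 := by omega
    rw [this] at hcD
    have : 0 < c * (D : ℝ) ^ 3 := by positivity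
    norm_num at hcD
    linarith
  -- the side is large
  have hSD : (S.card : ℝ) ≤ (D : ℝ) ^ 2 := by
    have h1 : S ⊆ Ico x (x + D) ×ˢ Ico y (y + D) := by
      intro P hP
      rw [hS, hbox, mem_filter] at hP
      exact mem_product.2 hP.2
    have h2 := card_le_card h1
    rw [card_product, Nat.card_Ico, Nat.card_Ico, Nat.add_sub_cancel_left, Nat.add_sub_cancel_left] at h2
    calc (S.card : ℝ) ≤ ((D * D : ℕ) : ℝ) := by exact_mod_cast h2
      _ = (D : ℝ) ^ 2 := by push_cast; ring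
  have hDc : c ≤ D := by
    have h1 : c * (D : ℝ) ^ 3 ≤ D * (D : ℝ) ^ 3 := by
      refine hcD.trans ((pow_le_pow_left₀ (Nat.cast_nonneg _) hSD 2).trans (le_of_eq ?_))
      ring
    exact le_of_mul_le_mul_right h1 (by positivity)
  have hKD : K ^ 2 ≤ D := by
    have : ((K ^ 2 : ℕ) : ℝ) ≤ D := by push_cast; linarith
    exact_mod_cast this
  set L : ℕ := D / K ^ 2 + 1 with hL
  have hK2 : 0 < K ^ 2 := by positivity
  have hK529 : 529 ≤ K ^ 2 := by nlinarith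
  have hdiv := Nat.div_add_mod D (K ^ 2)
  have hmod := Nat.mod_lt D hK2
  have hLK : D < L * K ^ 2 := by rw [hL]; nlinarith
  have hLK2 : L * K ^ 2 ≤ 2 * D := by
    have h1 := Nat.div_mul_le_self D (K ^ 2)
    rw [hL, add_mul, one_mul]
    linarith
  have hLpos : 0 < L := Nat.succ_pos _
  have hLN : L ≤ N := by nlinarith
  have hLK2R : (L : ℝ) * (K : ℝ) ^ 2 ≤ 2 * D := by exact_mod_cast hLK2
  have hLR : (0 : ℝ) < L := by exact_mod_cast hLpos
  -- the cells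
  set idx : ℕ × ℕ → ℕ × ℕ := fun P => ((P.1 - x) / L, (P.2 - y) / L) with hidx
  set C : Finset (ℕ × ℕ) := range (K ^ 2) ×ˢ range (K ^ 2) with hC
  have hmaps : ∀ P ∈ S, idx P ∈ C := by
    intro P hP
    rw [hS, hbox, mem_filter, mem_Ico, mem_Ico] at hP
    rw [hC, hidx, mem_product, mem_range, mem_range]
    constructor
    · rw [Nat.div_lt_iff_lt_mul hLpos]
      have : P.1 - x < D := by omega
      calc P.1 - x < D := this
        _ < L * K ^ 2 := hLK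
        _ = K ^ 2 * L := by ring
    · rw [Nat.div_lt_iff_lt_mul hLpos]
      have : P.2 - y < D := by omega
      calc P.2 - y < D := this
        _ < L * K ^ 2 := hLK
        _ = K ^ 2 * L := by ring
  set fib : ℕ × ℕ → Finset (ℕ × ℕ) := fun p => S.filter (fun P => idx P = p) with hfib
  have hfibsub : ∀ p, fib p ⊆ box (x + p.1 * L) (y + p.2 * L) L := by
    intro p P hP
    rw [hfib, mem_filter, hS, hbox, mem_filter, mem_Ico, mem_Ico] at hP
    obtain ⟨⟨hPE, h1, h2⟩, h3⟩ := hP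
    rw [hbox, mem_filter, mem_Ico, mem_Ico]
    have h4 : (P.1 - x) / L = p.1 := by rw [← h3]
    have h5 : (P.2 - y) / L = p.2 := by rw [← h3]
    have h6 := Nat.div_add_mod (P.1 - x) L
    have h7 := Nat.div_add_mod (P.2 - y) L
    have h8 := Nat.mod_lt (P.1 - x) hLpos
    have h9 := Nat.mod_lt (P.2 - y) hLpos
    rw [h4] at h6
    rw [h5] at h7
    have h10 : p.1 * L = L * p.1 := by ring
    have h11 : p.2 * L = L * p.2 := by ring
    rw [h10, h11]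
    refine ⟨hPE, ?_, ?_⟩ <;> omega
  have hfibcard : ∀ p, ((fib p).card : ℝ) ^ 2 * (D : ℝ) ^ 3 ≤ (S.card : ℝ) ^ 2 * (L : ℝ) ^ 3 := by
    intro p
    rcases (fib p).eq_empty_or_nonempty with h | ⟨P, hP⟩
    · rw [h, card_empty]
      norm_num
      positivity
    · have h1 := hfibsub p hP
      rw [hbox, mem_filter, mem_Ico, mem_Ico] at h1
      obtain ⟨g1, g2⟩ := hE P h1.1
      rw [mem_Icc] at g1 g2
      have h2 := hmax ((x + p.1 * L, y + p.2 * L), L) (by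
        rw [hT, mem_product, mem_product, mem_range, mem_range, mem_Icc]
        simp only
        omega)
      simp only at h2
      have h3 : ((fib p).card : ℝ) ≤ (box (x + p.1 * L) (y + p.2 * L) L).card := by
        exact_mod_cast card_le_card (hfibsub p)
      rw [div_le_div_iff₀ (by positivity) (by positivity)] at h2
      refine le_trans (mul_le_mul_of_nonneg_right (pow_le_pow_left₀ (Nat.cast_nonneg _) h3 2) (by positivity)) h2
  set W : Finset (ℕ × ℕ) := C.filter (fun p => S.card ≤ 2 * (K ^ 2) ^ 2 * (fib p).card) with hW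
  have hcardC : C.card = (K ^ 2) ^ 2 := by
    rw [hC, card_product, card_range]; ring
  have htot : S.card = ∑ p ∈ C, (fib p).card := card_eq_sum_card_fiberwise hmaps
  have hheavy : S.card ≤ 2 * ∑ p ∈ W, (fib p).card := by
    have h1 := sum_filter_add_sum_filter_not C (fun p => S.card ≤ 2 * (K ^ 2) ^ 2 * (fib p).card)
      (fun p => (fib p).card)
    have h2 : 2 * (K ^ 2) ^ 2 * ∑ p ∈ C.filter (fun p => ¬ S.card ≤ 2 * (K ^ 2) ^ 2 * (fib p).card),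
        (fib p).card ≤ (K ^ 2) ^ 2 * S.card := by
      rw [mul_sum]
      calc _ ≤ ∑ p ∈ C.filter (fun p => ¬ S.card ≤ 2 * (K ^ 2) ^ 2 * (fib p).card), S.card := by
            apply sum_le_sum
            intro p hp
            rw [mem_filter] at hp
            omega
        _ ≤ (K ^ 2) ^ 2 * S.card := by
            rw [sum_const, smul_eq_mul]
            apply Nat.mul_le_mul_right
            rw [← hcardC]
            exact card_filter_le _ _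
    have h3 : 2 * ∑ p ∈ C.filter (fun p => ¬ S.card ≤ 2 * (K ^ 2) ^ 2 * (fib p).card),
        (fib p).card ≤ S.card := by
      have h4 : (K ^ 2) ^ 2 * (2 * ∑ p ∈ C.filter (fun p => ¬ S.card ≤ 2 * (K ^ 2) ^ 2 * (fib p).card),
        (fib p).card) ≤ (K ^ 2) ^ 2 * S.card := by
        refine le_trans (le_of_eq ?_) h2
        ring
      exact Nat.le_of_mul_le_mul_left h4 (by positivity)
    rw [← htot] at h1
    rw [hW]
    omega
  -- two separated heavy cells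
  obtain ⟨p, hp, q, hq, hpq⟩ : ∃ p ∈ W, ∃ q ∈ W, (K : ℤ) ≤ |(p.1 : ℤ) - q.1| ∨ (K : ℤ) ≤ |(p.2 : ℤ) - q.2| := by
    by_contra hcon
    push Not at hcon
    have hWne : W.Nonempty := by
      rw [nonempty_iff_ne_empty]
      intro h
      rw [h, sum_empty] at hheavy
      omega
    obtain ⟨p, hp⟩ := hWne
    have hWsub : W ⊆ Ico (p.1 - K) (p.1 + K) ×ˢ Ico (p.2 - K) (p.2 + K) := by
      intro q hq
      obtain ⟨h1, h2⟩ := hcon p hp q hq
      rw [abs_lt] at h1 h2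
      rw [mem_product, mem_Ico, mem_Ico]
      omega
    have hWcard : W.card ≤ 4 * K ^ 2 := by
      have h1 := card_le_card hWsub
      rw [card_product, Nat.card_Ico, Nat.card_Ico] at h1
      have h2 : p.1 + K - (p.1 - K) ≤ 2 * K := by omega
      have h3 : p.2 + K - (p.2 - K) ≤ 2 * K := by omega
      calc W.card ≤ _ := h1
        _ ≤ (2 * K) * (2 * K) := Nat.mul_le_mul h2 h3
        _ = 4 * K ^ 2 := by ring
    obtain ⟨q, hq, hqmax⟩ := exists_max_image W (fun p => (fib p).card) ⟨p, hp⟩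
    have h1 : ∑ p ∈ W, (fib p).card ≤ 4 * K ^ 2 * (fib q).card := by
      calc ∑ p ∈ W, (fib p).card ≤ ∑ p ∈ W, (fib q).card := sum_le_sum hqmax
        _ = W.card * (fib q).card := by rw [sum_const, smul_eq_mul]
        _ ≤ _ := Nat.mul_le_mul_right _ hWcard
    have h2 : (S.card : ℝ) ≤ 8 * (K : ℝ) ^ 2 * (fib q).card := by
      have : S.card ≤ 8 * K ^ 2 * (fib q).card := by nlinarith
      exact_mod_cast this
    have h3 := hfibcard q
    have hSR : (0 : ℝ) < S.card := by exact_mod_cast hS0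
    have h4 : (S.card : ℝ) ^ 2 ≤ (8 * (K : ℝ) ^ 2 * (fib q).card) ^ 2 :=
      pow_le_pow_left₀ hSR.le h2 2
    have h5 : (S.card : ℝ) ^ 2 * (D : ℝ) ^ 3 ≤ 64 * (K : ℝ) ^ 4 * ((S.card : ℝ) ^ 2 * (L : ℝ) ^ 3) := by
      calc (S.card : ℝ) ^ 2 * (D : ℝ) ^ 3 ≤ (8 * (K : ℝ) ^ 2 * (fib q).card) ^ 2 * (D : ℝ) ^ 3 :=
            mul_le_mul_of_nonneg_right h4 (by positivity)
        _ = 64 * (K : ℝ) ^ 4 * (((fib q).card : ℝ) ^ 2 * (D : ℝ) ^ 3) := by ring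
        _ ≤ _ := mul_le_mul_of_nonneg_left h3 (by positivity)
    have h6 : (D : ℝ) ^ 3 ≤ 64 * (K : ℝ) ^ 4 * (L : ℝ) ^ 3 := by
      have : (S.card : ℝ) ^ 2 * (D : ℝ) ^ 3 ≤ (S.card : ℝ) ^ 2 * (64 * (K : ℝ) ^ 4 * (L : ℝ) ^ 3) := by
        refine h5.trans (le_of_eq ?_)
        ring
      exact le_of_mul_le_mul_left this (by positivity)
    have h7 : ((L : ℝ) * (K : ℝ) ^ 2) ^ 3 ≤ (2 * D) ^ 3 := pow_le_pow_left₀ (by positivity) hLK2R 3
    have h8 : (D : ℝ) ^ 3 * (K : ℝ) ^ 6 ≤ 512 * (K : ℝ) ^ 4 * (D : ℝ) ^ 3 := by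
      calc (D : ℝ) ^ 3 * (K : ℝ) ^ 6 ≤ 64 * (K : ℝ) ^ 4 * (L : ℝ) ^ 3 * (K : ℝ) ^ 6 :=
            mul_le_mul_of_nonneg_right h6 (by positivity)
        _ = 64 * (K : ℝ) ^ 4 * ((L : ℝ) * (K : ℝ) ^ 2) ^ 3 := by ring
        _ ≤ 64 * (K : ℝ) ^ 4 * (2 * D) ^ 3 := mul_le_mul_of_nonneg_left h7 (by positivity)
        _ = _ := by ring
    have h9 : (K : ℝ) ^ 2 ≤ 512 := by
      have : ((D : ℝ) ^ 3 * (K : ℝ) ^ 4) * (K : ℝ) ^ 2 ≤ ((D : ℝ) ^ 3 * (K : ℝ) ^ 4) * 512 := by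
        calc _ = (D : ℝ) ^ 3 * (K : ℝ) ^ 6 := by ring
          _ ≤ _ := h8
          _ = _ := by ring
      exact le_of_mul_le_mul_left this (by positivity)
    nlinarith
  -- the conclusion
  have hcell : ∀ (z i j m : ℕ), (|(i : ℤ) - j| ≤ m) → ∀ a ∈ Ico (z + i * L) (z + i * L + L),
      ∀ b ∈ Ico (z + j * L) (z + j * L + L), |(a : ℝ) - b| ≤ (m + 1) * L ∧
        ((m : ℤ) = |(i : ℤ) - j| → ((m : ℝ) - 1) * L ≤ |(a : ℝ) - b|) := by
    intro z i j m hm a ha b hb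
    rw [mem_Ico] at ha hb
    have g1 : (z : ℝ) + i * L ≤ a := by exact_mod_cast ha.1
    have g2 : (a : ℝ) ≤ z + i * L + L := by exact_mod_cast ha.2.le
    have g3 : (z : ℝ) + j * L ≤ b := by exact_mod_cast hb.1
    have g4 : (b : ℝ) ≤ z + j * L + L := by exact_mod_cast hb.2.le
    have g5 : |(i : ℝ) - j| ≤ m := by exact_mod_cast hm
    have g6 : |((i : ℝ) - j) * L| ≤ m * L := by
      rw [abs_mul, abs_of_pos hLR]
      exact mul_le_mul_of_nonneg_right g5 hLR.le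
    rw [abs_le] at g6
    refine ⟨?_, fun h => ?_⟩
    · rw [abs_le]
      constructor <;> nlinarith
    · have g7 : (m : ℝ) = |(i : ℝ) - j| := by exact_mod_cast h
      rcases le_total 0 ((i : ℝ) - j) with h8 | h8
      · rw [abs_of_nonneg h8] at g7
        rw [g7]
        refine le_trans ?_ (le_abs_self _)
        nlinarith
      · rw [abs_of_nonpos h8] at g7
        rw [g7]
        refine le_trans ?_ (neg_le_abs _)
        nlinarith
  rw [hW, mem_filter] at hp hq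
  obtain ⟨hpC, hp2⟩ := hp
  obtain ⟨hqC, hq2⟩ := hq
  rw [hC, mem_product, mem_range, mem_range] at hpC hqC
  have hcK4 : ∀ r : ℕ, S.card ≤ 2 * (K ^ 2) ^ 2 * r → c * (D : ℝ) ^ 3 ≤ (2 * (K : ℝ) ^ 4 * r) ^ 2 := by
    intro r hr
    refine hcD.trans (pow_le_pow_left₀ (Nat.cast_nonneg _) ?_ 2)
    have : (S.card : ℝ) ≤ 2 * ((K : ℝ) ^ 2) ^ 2 * r := by exact_mod_cast hr
    refine this.trans (le_of_eq ?_)
    ring
  have hsubE : ∀ p, fib p ⊆ E := fun p => (filter_subset _ _).trans (filter_subset _ _)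
  have hin : ∀ p, ∀ P ∈ fib p, P.1 ∈ Ico (x + p.1 * L) (x + p.1 * L + L) ∧
      P.2 ∈ Ico (y + p.2 * L) (y + p.2 * L + L) := by
    intro p P hP
    have := hfibsub p hP
    rw [hbox, mem_filter] at this
    exact this.2
  set u : ℕ := ((p.1 : ℤ) - q.1).natAbs with hu
  set v : ℕ := ((p.2 : ℤ) - q.2).natAbs with hv
  have hu' : (u : ℤ) = |(p.1 : ℤ) - q.1| := by rw [hu]; exact Int.natCast_natAbs _
  have hv' : (v : ℤ) = |(p.2 : ℤ) - q.2| := by rw [hv]; exact Int.natCast_natAbs _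
  have hmK : K ≤ max u v ∧ max u v < K ^ 2 := by
    rw [← hu', ← hv'] at hpq
    constructor
    · rcases hpq with h | h
      · exact le_max_of_le_left (by exact_mod_cast h)
      · exact le_max_of_le_right (by exact_mod_cast h)
    · apply max_lt
      · have h1 := abs_lt.2 (⟨by omega, by omega⟩ : -((K ^ 2 : ℕ) : ℤ) < (p.1 : ℤ) - q.1 ∧
          (p.1 : ℤ) - q.1 < ((K ^ 2 : ℕ) : ℤ))
        rw [← hu'] at h1
        exact_mod_cast h1
      · have h1 := abs_lt.2 (⟨by omega, by omega⟩ : -((K ^ 2 : ℕ) : ℤ) < (p.2 : ℤ) - q.2 ∧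
          (p.2 : ℤ) - q.2 < ((K ^ 2 : ℕ) : ℤ))
        rw [← hv'] at h1
        exact_mod_cast h1
  have hub : |(p.1 : ℤ) - q.1| ≤ (max u v : ℕ) := by
    rw [← hu']; exact_mod_cast le_max_left u v
  have hvb : |(p.2 : ℤ) - q.2| ≤ (max u v : ℕ) := by
    rw [← hv']; exact_mod_cast le_max_right u v
  refine ⟨x + p.1 * L, y + p.2 * L, x + q.1 * L, y + q.2 * L, L, D, max u v, hLpos, hLN, hLK2R,
    hmK.1, hmK.2, fun a ha b hb => (hcell x p.1 q.1 _ hub a ha b hb).1,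
    fun a ha b hb => (hcell y p.2 q.2 _ hvb a ha b hb).1, ?_,
    fib p, hsubE p, fib q, hsubE q, hin p, hin q, hcK4 _ hp2, hcK4 _ hq2⟩
  rcases le_total v u with h | h
  · left
    intro a ha b hb
    exact (hcell x p.1 q.1 _ hub a ha b hb).2 (by rw [← hu', max_eq_left h])
  · right
    intro a ha b hb
    exact (hcell y p.2 q.2 _ hvb a ha b hb).2 (by rw [← hv', max_eq_right h])

open Pool.Agent.W147.PS (ff)

lemma le_dist1 (P Q : ℕ × ℕ) : |(P.1 : ℝ) - Q.1| ≤ dist P Q := by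
  unfold dist
  rw [← Real.sqrt_sq_eq_abs]
  exact Real.sqrt_le_sqrt (by nlinarith [sq_nonneg ((P.2 : ℝ) - Q.2)])

lemma le_dist2 (P Q : ℕ × ℕ) : |(P.2 : ℝ) - Q.2| ≤ dist P Q := by
  unfold dist
  rw [← Real.sqrt_sq_eq_abs]
  exact Real.sqrt_le_sqrt (by nlinarith [sq_nonneg ((P.1 : ℝ) - Q.1)])

/-- the theorem -/
theorem main {δ : ℝ} (hδ : 0 < δ) : ∃ κ : ℝ, 0 < κ ∧ ∀ᶠ N : ℕ in atTop,
    ∀ E : Finset (ℕ × ℕ), (∀ P ∈ E, P.1 ∈ Icc 1 N ∧ P.2 ∈ Icc 1 N) →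
    (N : ℝ) ^ (3 / 2 + δ) ≤ E.card →
    ∃ P ∈ E, ∃ Q ∈ E, ∀ q : ℕ, q.Prime → κ * ff N < |(q : ℝ) - dist P Q| := by
  set η : ℝ := min δ 1 / 20 with hη
  have hη0 : 0 < η := by
    have : 0 < min δ 1 := lt_min hδ one_pos
    positivity
  have hη1 : η ≤ 1 := by
    have : min δ 1 ≤ 1 := min_le_right _ _
    rw [hη]
    linarith
  have hη2 : 20 * η ≤ δ := by
    have : min δ 1 ≤ δ := min_le_left _ _
    rw [hη]
    linarith
  obtain ⟨κ, hκ, hc⟩ := Pool.Agent.TH915.PW.crit_scaled η hη0 hη1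
  refine ⟨κ, hκ, ?_⟩
  have hlog : ∀ᶠ x : ℝ in atTop, 1 + 6680 * (1 + Real.log x) ≤ x ^ η := by
    have e1 : Tendsto (fun x : ℝ => (1 + 6680 * (1 + Real.log x)) / x ^ η) atTop (nhds 0) := by
      have e2 : Tendsto (fun x : ℝ => Real.log x / x ^ η) atTop (nhds 0) :=
        (isLittleO_log_rpow_atTop hη0).tendsto_div_nhds_zero
      have e3 : Tendsto (fun x : ℝ => 1 / x ^ η) atTop (nhds 0) := by
        have := (tendsto_rpow_atTop hη0).inv_tendsto_atTop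
        refine this.congr fun x => ?_
        simp
      have e4 : Tendsto (fun x : ℝ => (1 + 6680) * (1 / x ^ η) + 6680 * (Real.log x / x ^ η))
          atTop (nhds ((1 + 6680) * 0 + 6680 * 0)) :=
        (e3.const_mul _).add (e2.const_mul _)
      rw [mul_zero, mul_zero, add_zero] at e4
      refine e4.congr fun x => ?_
      ring
    filter_upwards [e1.eventually (gt_mem_nhds one_pos), eventually_gt_atTop 0] with x hx hx0
    have h5 : 0 < x ^ η := Real.rpow_pos_of_pos hx0 _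
    rw [div_lt_one h5] at hx
    exact hx.le
  have hev : ∀ᶠ x : ℝ in atTop, (1 + 6680 * (1 + Real.log x) ≤ x ^ η) ∧ 32 ≤ x ^ η ∧ 1 ≤ x ∧
      (∀ (ι : Type) (s : Finset ι) (a : ι → ℝ), s.Nonempty → (∀ i ∈ s, x ^ η ≤ a i) →
        (∀ q h : ℕ, 1 ≤ q → (q : ℝ) ≤ x ^ η → 1 ≤ h → (h : ℝ) ≤ x ^ (4 * η) →
          ‖∑ i ∈ s, e ((h : ℝ) / q * a i)‖ ≤ s.card * x ^ (-(4 * η))) →
        ∃ i ∈ s, ∀ q : ℕ, q.Prime → κ * ff x < |(q : ℝ) - a i|) := by
    filter_upwards [hlog, (tendsto_rpow_atTop hη0).eventually_ge_atTop 32, eventually_ge_atTop 1, hc]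
      with x e1 e2 e3 e4
    exact ⟨e1, e2, e3, e4⟩
  filter_upwards [tendsto_natCast_atTop_atTop.eventually hev] with N hN
  obtain ⟨hN1, hN2, hN3, hN4⟩ := hN
  intro E hE hcard
  have hNn : 1 ≤ N := by exact_mod_cast hN3
  have hNR : (0 : ℝ) < N := by linarith
  have hpos : ∀ z : ℝ, 0 < (N : ℝ) ^ z := fun z => Real.rpow_pos_of_pos hNR z
  have hmono : ∀ {y z : ℝ}, y ≤ z → (N : ℝ) ^ y ≤ (N : ℝ) ^ z := fun h =>
    Real.rpow_le_rpow_of_exponent_le hN3 h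
  have hadd : ∀ y z : ℝ, (N : ℝ) ^ y * (N : ℝ) ^ z = (N : ℝ) ^ (y + z) := fun y z =>
    (Real.rpow_add hNR y z).symm
  have hnat : ∀ (y : ℝ) (n : ℕ), ((N : ℝ) ^ y) ^ n = (N : ℝ) ^ (y * n) := fun y n => by
    rw [← Real.rpow_natCast, ← Real.rpow_mul hNR.le]
  set K : ℕ := ⌊(N : ℝ) ^ (6 * η)⌋₊ with hK
  have hK1 : (K : ℝ) ≤ (N : ℝ) ^ (6 * η) := Nat.floor_le (hpos _).le
  have hK2 : (N : ℝ) ^ (6 * η) < K + 1 := Nat.lt_floor_add_one _
  have hq1 : 1 ≤ (N : ℝ) ^ (4 * η) := Real.one_le_rpow hN3 (by positivity)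
  have hq2 : 32 * (N : ℝ) ^ (4 * η) ≤ (N : ℝ) ^ (6 * η) := by
    calc 32 * (N : ℝ) ^ (4 * η) ≤ (N : ℝ) ^ η * (N : ℝ) ^ (4 * η) :=
          mul_le_mul_of_nonneg_right hN2 (hpos _).le
      _ = (N : ℝ) ^ (η + 4 * η) := hadd _ _
      _ ≤ _ := hmono (by linarith)
  have hKbig : 30 * (N : ℝ) ^ (4 * η) ≤ (K : ℝ) - 1 := by linarith
  have hK23 : 23 ≤ K := by
    have : (23 : ℝ) ≤ K := by linarith
    exact_mod_cast this
  obtain ⟨x, y, x', y', L, D, m, hL1, hLN, hLK, hKm, hmK, hdx, hdy, hor, E₁, hE₁, E₂, hE₂, hb₁, hb₂, hc₁, hc₂⟩ :=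
    select N K hNn hK23 E hE ((N : ℝ) ^ (2 * δ)) (by
      calc (K : ℝ) ^ 2 ≤ ((N : ℝ) ^ (6 * η)) ^ 2 := pow_le_pow_left₀ (Nat.cast_nonneg _) hK1 2
        _ = (N : ℝ) ^ (6 * η * (2 : ℕ)) := hnat _ _
        _ ≤ (N : ℝ) ^ (2 * δ) := hmono (by push_cast; linarith)) (by
      calc (N : ℝ) ^ (2 * δ) * (N : ℝ) ^ 3 = (N : ℝ) ^ (2 * δ) * (N : ℝ) ^ (3 : ℝ) := by
            rw [← Real.rpow_natCast]; norm_num
        _ = ((N : ℝ) ^ (3 / 2 + δ)) ^ 2 := by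
            rw [hadd, hnat]; congr 1; push_cast; ring
        _ ≤ (E.card : ℝ) ^ 2 := pow_le_pow_left₀ (hpos _).le hcard 2)
  have hLR : (1 : ℝ) ≤ L := by exact_mod_cast hL1
  have hKmR : (K : ℝ) ≤ m := by exact_mod_cast hKm
  have hmKR : (m : ℝ) ≤ (K : ℝ) ^ 2 := by exact_mod_cast hmK.le
  have hm1 : 30 * (N : ℝ) ^ (4 * η) ≤ (m : ℝ) - 1 := by linarith
  have hm2 : 30 ≤ (m : ℝ) - 1 := by linarith
  set H0 : ℝ := ((m : ℝ) - 1) * L with hH0
  have h0 : 1 ≤ H0 := by rw [hH0]; nlinarith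
  have hLH : (L : ℝ) ≤ H0 := by rw [hH0]; nlinarith
  have h2H : ((m : ℝ) + 1) * L ≤ 2 * H0 := by rw [hH0]; nlinarith
  have hH0D : H0 ≤ 2 * D := by
    refine le_trans ?_ hLK
    rw [hH0]
    nlinarith
  have hD0 : (0 : ℝ) ≤ D := Nat.cast_nonneg _
  have hfar : ∀ P ∈ E₁, ∀ Q ∈ E₂, H0 ≤ dist P Q := by
    intro P hP Q hQ
    rcases hor with h | h
    · exact (h _ (hb₁ P hP).1 _ (hb₂ Q hQ).1).trans (le_dist1 P Q)
    · exact (h _ (hb₁ P hP).2 _ (hb₂ Q hQ).2).trans (le_dist2 P Q)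
  set X : ℝ := (E₁.card : ℝ) * E₂.card with hX
  have hDpos : (0 : ℝ) < D := by
    have : 0 < (L : ℝ) * (K : ℝ) ^ 2 := by
      have : (23 : ℝ) ≤ K := by exact_mod_cast hK23
      positivity
    linarith
  have hcX : (N : ℝ) ^ (2 * δ) * (D : ℝ) ^ 3 ≤ 4 * (K : ℝ) ^ 8 * X := by
    have h1 : ((N : ℝ) ^ (2 * δ) * (D : ℝ) ^ 3) ^ 2 ≤ (4 * (K : ℝ) ^ 8 * X) ^ 2 := by
      calc ((N : ℝ) ^ (2 * δ) * (D : ℝ) ^ 3) ^ 2 =
            ((N : ℝ) ^ (2 * δ) * (D : ℝ) ^ 3) * ((N : ℝ) ^ (2 * δ) * (D : ℝ) ^ 3) := sq _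
        _ ≤ (2 * (K : ℝ) ^ 4 * E₁.card) ^ 2 * (2 * (K : ℝ) ^ 4 * E₂.card) ^ 2 :=
            mul_le_mul hc₁ hc₂ (mul_nonneg (hpos _).le (pow_nonneg hD0 3)) (sq_nonneg _)
        _ = (4 * (K : ℝ) ^ 8 * X) ^ 2 := by rw [hX]; ring
    have hX0 : 0 ≤ X := mul_nonneg (Nat.cast_nonneg _) (Nat.cast_nonneg _)
    exact le_of_sq_le_sq h1 (mul_nonneg (mul_nonneg (by norm_num) (pow_nonneg (Nat.cast_nonneg _) 8)) hX0)
  have hXpos : 0 < X := by
    by_contra hcon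
    have h1 : X ≤ 0 := not_lt.1 hcon
    have h2 : 0 < (N : ℝ) ^ (2 * δ) * (D : ℝ) ^ 3 := mul_pos (hpos _) (pow_pos hDpos 3)
    have h3 : 4 * (K : ℝ) ^ 8 * X ≤ 0 := mul_nonpos_of_nonneg_of_nonpos
      (mul_nonneg (by norm_num) (pow_nonneg (Nat.cast_nonneg _) 8)) h1
    linarith
  have hne : (E₁ ×ˢ E₂).Nonempty := by
    rw [← card_pos, card_product]
    by_contra hcon
    have h1 : E₁.card * E₂.card = 0 := by omega
    have h2 : (E₁.card : ℝ) * E₂.card = 0 := by exact_mod_cast h1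
    rw [hX, h2] at hXpos
    exact lt_irrefl _ hXpos
  have hKpos : (0 : ℝ) < 4 * (K : ℝ) ^ 8 := by
    have : (0 : ℝ) < K := by
      have : (23 : ℝ) ≤ K := by exact_mod_cast hK23
      linarith
    positivity
  have hkey : (L : ℝ) ^ 2 * (2 * D * (N : ℝ) ^ (2 * η)) ≤ X * (N : ℝ) ^ (-(8 * η)) := by
    have h1 : 4 * (K : ℝ) ^ 8 * ((L : ℝ) ^ 2 * (2 * D * (N : ℝ) ^ (2 * η))) ≤
        4 * (K : ℝ) ^ 8 * (X * (N : ℝ) ^ (-(8 * η))) := by
      calc 4 * (K : ℝ) ^ 8 * ((L : ℝ) ^ 2 * (2 * D * (N : ℝ) ^ (2 * η)))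
          = 8 * (K : ℝ) ^ 4 * (D * (N : ℝ) ^ (2 * η)) * ((L : ℝ) * (K : ℝ) ^ 2) ^ 2 := by ring
        _ ≤ 8 * (K : ℝ) ^ 4 * (D * (N : ℝ) ^ (2 * η)) * (2 * D) ^ 2 := by
            apply mul_le_mul_of_nonneg_left (pow_le_pow_left₀ (by positivity) hLK 2)
            exact mul_nonneg (mul_nonneg (by norm_num) (pow_nonneg (Nat.cast_nonneg _) 4))
              (mul_nonneg hD0 (hpos _).le)
        _ = 32 * ((K : ℝ) ^ 4 * (N : ℝ) ^ (2 * η) * (D : ℝ) ^ 3) := by ring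
        _ ≤ (N : ℝ) ^ η * ((N : ℝ) ^ (6 * η * (4 : ℕ)) * (N : ℝ) ^ (2 * η) * (D : ℝ) ^ 3) := by
            have g1 : (K : ℝ) ^ 4 ≤ (N : ℝ) ^ (6 * η * (4 : ℕ)) := by
              rw [← hnat]
              exact pow_le_pow_left₀ (Nat.cast_nonneg _) hK1 4
            apply mul_le_mul hN2 _ (by positivity) (hpos _).le
            apply mul_le_mul_of_nonneg_right _ (pow_nonneg hD0 3)
            exact mul_le_mul_of_nonneg_right g1 (hpos _).le
        _ = (N : ℝ) ^ (27 * η) * (D : ℝ) ^ 3 := by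
            rw [← mul_assoc, hadd, hadd]; congr 2; push_cast; ring
        _ ≤ ((N : ℝ) ^ (2 * δ) * (N : ℝ) ^ (-(8 * η))) * (D : ℝ) ^ 3 := by
            apply mul_le_mul_of_nonneg_right _ (pow_nonneg hD0 3)
            rw [hadd]
            exact hmono (by linarith)
        _ = ((N : ℝ) ^ (2 * δ) * (D : ℝ) ^ 3) * (N : ℝ) ^ (-(8 * η)) := by ring
        _ ≤ (4 * (K : ℝ) ^ 8 * X) * (N : ℝ) ^ (-(8 * η)) :=
            mul_le_mul_of_nonneg_right hcX (hpos _).le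
        _ = _ := by ring
    exact le_of_mul_le_mul_left h1 hKpos
  obtain ⟨i, hi, hi2⟩ := hN4 ((ℕ × ℕ) × (ℕ × ℕ)) (E₁ ×ˢ E₂) (fun i => dist i.1 i.2) hne (by
    intro i hi
    rw [mem_product] at hi
    refine le_trans ?_ (hfar _ hi.1 _ hi.2)
    calc (N : ℝ) ^ η ≤ (N : ℝ) ^ (4 * η) := hmono (by linarith)
      _ ≤ ((m : ℝ) - 1) * 1 := by linarith
      _ ≤ H0 := mul_le_mul_of_nonneg_left hLR (by linarith)) (by
    intro q h hq hqN hh hhN
    have hqR : (0 : ℝ) < q := by exact_mod_cast hq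
    have hhR : (0 : ℝ) < h := by exact_mod_cast hh
    have hq1 : (1 : ℝ) ≤ q := by exact_mod_cast hq
    have hh1 : (1 : ℝ) ≤ h := by exact_mod_cast hh
    set θ : ℝ := (h : ℝ) / q with hθ
    have hθ0 : 0 < θ := by positivity
    have hθ1 : θ ≤ (N : ℝ) ^ (4 * η) := (div_le_self hhR.le hq1).trans hhN
    have hθ2 : 1 / θ ≤ (N : ℝ) ^ η := by
      rw [hθ, one_div_div]
      exact (div_le_self hqR.le hh1).trans hqN
    have hsum : ∑ i ∈ E₁ ×ˢ E₂, e (θ * dist i.1 i.2) = ∑ P ∈ E₁, ∑ Q ∈ E₂, e (θ * dist P Q) :=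
      sum_product _ _ _
    show ‖∑ i ∈ E₁ ×ˢ E₂, e (θ * dist i.1 i.2)‖ ≤ _
    rw [hsum]
    have hd := double_or (E := E₁) (E' := E₂) (θ := θ) h0
      (fun a ha b hb => (hdx a ha b hb).trans h2H) (fun a ha b hb => (hdy a ha b hb).trans h2H) hor hθ0
      (by
        rw [hH0]
        have g1 : θ ≤ ((m : ℝ) - 1) / 2 := by linarith
        calc θ * L ≤ ((m : ℝ) - 1) / 2 * L := mul_le_mul_of_nonneg_right g1 (by linarith)
          _ = ((m : ℝ) - 1) * L / 2 := by ring) hL1 hLH hb₁ hb₂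
    have hlL : Real.log L ≤ Real.log N := Real.log_le_log (by linarith) (by exact_mod_cast hLN)
    have hlL0 : 0 ≤ Real.log L := Real.log_nonneg hLR
    have hlN0 : 0 ≤ Real.log N := Real.log_nonneg hN3
    have hNη : 1 ≤ (N : ℝ) ^ η := by linarith
    have hK' : H0 + 6680 * H0 / θ * (1 + Real.log L) ≤ 2 * D * (N : ℝ) ^ (2 * η) := by
      calc H0 + 6680 * H0 / θ * (1 + Real.log L)
          = H0 * (1 + (1 / θ) * (6680 * (1 + Real.log L))) := by field_simp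
        _ ≤ H0 * ((N : ℝ) ^ η * (1 + 6680 * (1 + Real.log N))) := by
            apply mul_le_mul_of_nonneg_left _ (by linarith)
            have g1 : (1 / θ) * (6680 * (1 + Real.log L)) ≤ (N : ℝ) ^ η * (6680 * (1 + Real.log N)) := by
              apply mul_le_mul hθ2 _ (by linarith) (hpos _).le
              linarith
            linarith
        _ ≤ H0 * ((N : ℝ) ^ η * (N : ℝ) ^ η) := by
            apply mul_le_mul_of_nonneg_left _ (by linarith)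
            exact mul_le_mul_of_nonneg_left hN1 (hpos _).le
        _ = H0 * (N : ℝ) ^ (2 * η) := by rw [hadd]; congr 2; ring
        _ ≤ 2 * D * (N : ℝ) ^ (2 * η) := mul_le_mul_of_nonneg_right hH0D (hpos _).le
    rw [card_product]
    push_cast
    rw [← sq_le_sq₀ (norm_nonneg _) (mul_nonneg hXpos.le (hpos _).le)]
    calc ‖∑ P ∈ E₁, ∑ Q ∈ E₂, e (θ * dist P Q)‖ ^ 2
        ≤ X * ((L : ℝ) ^ 2 * (2 * D * (N : ℝ) ^ (2 * η))) := by
          refine hd.trans ?_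
          apply mul_le_mul_of_nonneg_left _ hXpos.le
          exact mul_le_mul_of_nonneg_left hK' (sq_nonneg _)
      _ ≤ X * (X * (N : ℝ) ^ (-(8 * η))) := mul_le_mul_of_nonneg_left hkey hXpos.le
      _ = (X * (N : ℝ) ^ (-(4 * η))) ^ 2 := by
          rw [mul_pow, hnat]
          have : -(4 * η) * ((2 : ℕ) : ℝ) = -(8 * η) := by push_cast; ring
          rw [this]
          ring)
  rw [mem_product] at hi
  exact ⟨i.1, hE₁ hi.1, i.2, hE₂ hi.2, hi2⟩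

end Pool.Agent.X2.Dist
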