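import Mathlib

set_option autoImplicit false

namespace Pool.Agent.X2.TwoDiff

open Finset

/-- the number of the `k` in the window `(w, w + T]` with `P k` -/
noncomputable def cnt (P : ℕ → Prop) (w T : ℕ) : ℕ := {k : ℕ | w < k ∧ k ≤ w + T ∧ P k}.ncard

lemma cnt_eq (P : ℕ → Prop) [DecidablePred P] (w T : ℕ) : cnt P w T = ((Ioc w (w + T)).filter P).card := by
  unfold cnt
  rw [← Set.ncard_coe_finset]
  congr 1
  ext k
  simp [and_assoc]

/-- two sets of density more than one half in windows meet -/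
lemma meet (P Q : ℕ → Prop) (w T : ℕ) (δ : ℝ) (hP : (1 / 2 + δ) * T ≤ cnt P w T)
    (hQ : (1 / 2 + δ) * T ≤ cnt Q w T) : 2 * δ * T ≤ cnt (fun k => P k ∧ Q k) w T := by
  classical
  rw [cnt_eq] at hP hQ ⊢
  have h1 : ((Ioc w (w + T)).filter P).card + ((Ioc w (w + T)).filter Q).card ≤
      T + ((Ioc w (w + T)).filter fun k => P k ∧ Q k).card := by
    rw [← card_union_add_card_inter, ← filter_and]
    apply Nat.add_le_add_right
    refine (card_le_card (union_subset (filter_subset _ _) (filter_subset _ _))).trans ?_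
    rw [Nat.card_Ioc]
    omega
  have h2 : ((((Ioc w (w + T)).filter P).card : ℕ) : ℝ) + (((Ioc w (w + T)).filter Q).card : ℕ) ≤
      T + (((Ioc w (w + T)).filter fun k => P k ∧ Q k).card : ℕ) := by exact_mod_cast h1
  linarith

/-- reflected windows -/
lemma cnt_reflect (Q : ℕ → Prop) (k w T : ℕ) (h : w + T < k) :
    cnt (fun i => Q (k - i)) w T = cnt Q (k - w - T - 1) T := by
  classical
  rw [cnt_eq, cnt_eq]
  apply card_bij (fun i _ => k - i)
  · intro i hi
    rw [mem_filter, mem_Ioc] at hi ⊢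
    exact ⟨by omega, hi.2⟩
  · intro i hi j hj hij
    rw [mem_filter, mem_Ioc] at hi hj
    omega
  · intro l hl
    rw [mem_filter, mem_Ioc] at hl
    refine ⟨k - l, ?_, by omega⟩
    rw [mem_filter, mem_Ioc]
    have : k - (k - l) = l := by omega
    rw [this]
    exact ⟨by omega, hl.2⟩

/-- translated windows -/
lemma cnt_shift (Q : ℕ → Prop) (h w T : ℕ) :
    cnt (fun i => Q (i + h)) w T = cnt Q (w + h) T := by
  classical
  rw [cnt_eq, cnt_eq]
  apply card_bij (fun i _ => i + h)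
  · intro i hi
    rw [mem_filter, mem_Ioc] at hi ⊢
    exact ⟨by omega, hi.2⟩
  · intro i hi j hj hij
    omega
  · intro l hl
    rw [mem_filter, mem_Ioc] at hl
    refine ⟨l - h, ?_, by omega⟩
    rw [mem_filter, mem_Ioc]
    have : l - h + h = l := by omega
    rw [this]
    exact ⟨by omega, hl.2⟩

/-- the abstract theorem -/
theorem two (D : ℕ → Prop) (δ : ℝ) (M : ℕ)
    (hD : ∀ N : ℕ, 0 < N → M ∣ N → ∃ L : ℕ, ∀ T : ℕ, L ≤ T → ∀ w : ℕ,
      (1 / 2 + δ) * (T : ℝ) ≤ cnt (fun k => D (N * k)) w T)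
    (N : ℕ) (hN : 0 < N) (hMN : M ∣ N) (u v : ℕ) (hu : 0 < u) (hv : 0 < v) :
    ∃ L : ℕ, ∀ T : ℕ, L ≤ T → ∀ w : ℕ,
      (∀ k : ℕ, w + T < k → 2 * δ * T ≤ ({p : ℕ × ℕ | D p.1 ∧ D p.2 ∧
        u * p.1 + v * p.2 = N * Nat.lcm u v * k ∧ N * Nat.lcm u v * w < u * p.1 ∧
        u * p.1 ≤ N * Nat.lcm u v * (w + T)}.ncard : ℝ)) ∧
      (∀ h : ℕ, 2 * δ * T ≤ ({p : ℕ × ℕ | D p.1 ∧ D p.2 ∧
        v * p.2 = u * p.1 + N * Nat.lcm u v * h ∧ N * Nat.lcm u v * w < u * p.1 ∧
        u * p.1 ≤ N * Nat.lcm u v * (w + T)}.ncard : ℝ)) := by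
  obtain ⟨r, hr⟩ := Nat.dvd_lcm_left u v
  obtain ⟨s, hs⟩ := Nat.dvd_lcm_right u v
  have hl : 0 < Nat.lcm u v := Nat.lcm_pos hu hv
  have hr0 : 0 < r := by
    rcases Nat.eq_zero_or_pos r with h | h
    · rw [h, Nat.mul_zero] at hr; omega
    · exact h
  have hs0 : 0 < s := by
    rcases Nat.eq_zero_or_pos s with h | h
    · rw [h, Nat.mul_zero] at hs; omega
    · exact h
  obtain ⟨L1, h1⟩ := hD (N * r) (Nat.mul_pos hN hr0) (hMN.mul_right r)
  obtain ⟨L2, h2⟩ := hD (N * s) (Nat.mul_pos hN hs0) (hMN.mul_right s)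
  have e1 : ∀ i, u * (N * r * i) = N * Nat.lcm u v * i := fun i => by rw [hr]; ring
  have e2 : ∀ i, v * (N * s * i) = N * Nat.lcm u v * i := fun i => by rw [hs]; ring
  have hm : 0 < N * Nat.lcm u v := Nat.mul_pos hN hl
  refine ⟨max L1 L2, fun T hT w => ⟨fun k hk => ?_, fun h => ?_⟩⟩
  · have g1 := h1 T (le_trans (le_max_left _ _) hT) w
    have g2 := h2 T (le_trans (le_max_right _ _) hT) (k - w - T - 1)
    rw [← cnt_reflect (fun i => D (N * s * i)) k w T hk] at g2
    refine (meet _ _ w T δ g1 g2).trans ?_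
    unfold cnt
    norm_cast
    have hfin : {p : ℕ × ℕ | D p.1 ∧ D p.2 ∧
        u * p.1 + v * p.2 = N * Nat.lcm u v * k ∧ N * Nat.lcm u v * w < u * p.1 ∧
        u * p.1 ≤ N * Nat.lcm u v * (w + T)}.Finite := by
      apply Set.Finite.subset ((Set.finite_Iic (N * Nat.lcm u v * k)).prod
        (Set.finite_Iic (N * Nat.lcm u v * k)))
      rintro ⟨x, y⟩ ⟨-, -, h3, -⟩
      simp only at h3
      rw [Set.mem_prod, Set.mem_Iic, Set.mem_Iic]
      have h4 : x ≤ u * x := Nat.le_mul_of_pos_left x hu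
      have h5 : y ≤ v * y := Nat.le_mul_of_pos_left y hv
      constructor
      · change x ≤ _; omega
      · change y ≤ _; omega
    have hinj : Set.InjOn (fun i : ℕ => (N * r * i, N * s * (k - i)))
        {i : ℕ | w < i ∧ i ≤ w + T ∧ D (N * r * i) ∧ D (N * s * (k - i))} := by
      intro i _ j _ hij
      simp only [Prod.mk.injEq] at hij
      exact Nat.eq_of_mul_eq_mul_left (Nat.mul_pos hN hr0) hij.1
    rw [← hinj.ncard_image]
    apply Set.ncard_le_ncard _ hfin
    rintro _ ⟨i, ⟨hi1, hi2, hi3, hi4⟩, rfl⟩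
    refine ⟨hi3, hi4, ?_, ?_, ?_⟩
    · simp only
      rw [e1, e2, ← Nat.mul_add]
      congr 1
      omega
    · simp only
      rw [e1]
      exact Nat.mul_lt_mul_of_pos_left hi1 hm
    · simp only
      rw [e1]
      exact Nat.mul_le_mul_left _ hi2
  · have g1 := h1 T (le_trans (le_max_left _ _) hT) w
    have g2 := h2 T (le_trans (le_max_right _ _) hT) (w + h)
    rw [← cnt_shift (fun i => D (N * s * i)) h w T] at g2
    refine (meet _ _ w T δ g1 g2).trans ?_
    unfold cnt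
    norm_cast
    have hfin : {p : ℕ × ℕ | D p.1 ∧ D p.2 ∧
        v * p.2 = u * p.1 + N * Nat.lcm u v * h ∧ N * Nat.lcm u v * w < u * p.1 ∧
        u * p.1 ≤ N * Nat.lcm u v * (w + T)}.Finite := by
      apply Set.Finite.subset ((Set.finite_Iic (N * Nat.lcm u v * (w + T))).prod
        (Set.finite_Iic (N * Nat.lcm u v * (w + T) + N * Nat.lcm u v * h)))
      rintro ⟨x, y⟩ ⟨-, -, h3, -, h6⟩
      simp only at h3 h6
      rw [Set.mem_prod, Set.mem_Iic, Set.mem_Iic]
      have h4 : x ≤ u * x := Nat.le_mul_of_pos_left x hu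
      have h5 : y ≤ v * y := Nat.le_mul_of_pos_left y hv
      constructor
      · change x ≤ _; omega
      · change y ≤ _; omega
    have hinj : Set.InjOn (fun i : ℕ => (N * r * i, N * s * (i + h)))
        {i : ℕ | w < i ∧ i ≤ w + T ∧ D (N * r * i) ∧ D (N * s * (i + h))} := by
      intro i _ j _ hij
      simp only [Prod.mk.injEq] at hij
      exact Nat.eq_of_mul_eq_mul_left (Nat.mul_pos hN hr0) hij.1
    rw [← hinj.ncard_image]
    apply Set.ncard_le_ncard _ hfin
    rintro _ ⟨i, ⟨hi1, hi2, hi3, hi4⟩, rfl⟩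
    refine ⟨hi3, hi4, ?_, ?_, ?_⟩
    · simp only
      rw [e1, e2, ← Nat.mul_add]
    · simp only
      rw [e1]
      exact Nat.mul_lt_mul_of_pos_left hi1 hm
    · simp only
      rw [e1]
      exact Nat.mul_le_mul_left _ hi2

end Pool.Agent.X2.TwoDiff
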