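import Mathlib

/-!
# Palindromes with prescribed periods

Every word `f 0, …, f (n - 1)` with `f 0 = f (n - 1)` has the same set of periods as some binary
palindrome of length `n`.
-/

set_option autoImplicit false

namespace Pool.Agent.X2.HPal

/-- `d` is a period of the word `f 0, …, f (n - 1)` -/
def Per {α : Type} (f : ℕ → α) (n d : ℕ) : Prop := ∀ x, x + d < n → f x = f (x + d)

section
variable {α : Type} {f : ℕ → α}

lemma Per.mono {m n d : ℕ} (h : Per f n d) (hm : m ≤ n) : Per f m d := fun x hx => h x (by omega)

lemma per_congr {g : ℕ → α} {n d : ℕ} (h : ∀ x, x < n → f x = g x) : Per f n d ↔ Per g n d := by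
  constructor
  · intro h1 x hx
    rw [← h x (by omega), ← h (x + d) hx]
    exact h1 x hx
  · intro h1 x hx
    rw [h x (by omega), h (x + d) hx]
    exact h1 x hx

lemma per_sub {n p d : ℕ} (hd : d < p) (hn : p + d ≤ n) (hp : Per f n p) (hq : Per f n d) :
    Per f n (p - d) := by
  intro x hx
  rcases Nat.lt_or_ge (x + p) n with h | h
  · rw [hp x h]
    have h2 := hq (x + (p - d)) (by omega)
    rw [h2]
    congr 1
    omega
  · have h1 := hq (x - d) (by omega)
    rw [show x - d + d = x by omega] at h1
    have h2 := hp (x - d) (by omega)
    rw [← h1, h2]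
    congr 1
    omega

lemma per_gcd (n : ℕ) : ∀ s p d : ℕ, p + d = s → 1 ≤ p → 1 ≤ d → p + d ≤ n → Per f n p →
    Per f n d → Per f n (Nat.gcd p d) := by
  intro s
  induction s using Nat.strong_induction_on with
  | _ s ih =>
    intro p d hs hp1 hd1 hn hp hd
    rcases lt_trichotomy p d with h | h | h
    · have h1 := per_sub h (by omega) hd hp
      have h2 := ih d (by omega) p (d - p) (by omega) hp1 (by omega) (by omega) hp h1
      rwa [Nat.gcd_sub_self_right h.le] at h2
    · subst h
      rwa [Nat.gcd_self]
    · have h1 := per_sub h (by omega) hp hd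
      have h2 := ih p (by omega) (p - d) d (by omega) (by omega) hd1 (by omega) h1 hd
      rwa [Nat.gcd_sub_self_left h.le] at h2

lemma per_mul {n g : ℕ} (h : Per f n g) (c : ℕ) : ∀ y, y + c * g < n → f y = f (y + c * g) := by
  induction c with
  | zero => intro y _; simp
  | succ c ih =>
    intro y hy
    have e : y + (c + 1) * g = (y + c * g) + g := by ring
    rw [e] at hy ⊢
    rw [ih y (by omega)]
    exact h _ hy

lemma per_of_dvd {n L p g : ℕ} (hgp : g ∣ p) (hg : 1 ≤ g) (hpg : g ≤ p) (hpL : p ≤ L)
    (hp : Per f n p) (hLg : Per f L g) : Per f n g := by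
  intro x
  induction x using Nat.strong_induction_on with
  | _ x ih =>
    intro hx
    rcases Nat.lt_or_ge (x + g) L with h | h
    · exact hLg x h
    rcases Nat.lt_or_ge x p with h1 | h1
    · -- `x + g ≥ p`
      have h2 := hp (x + g - p) (by omega)
      rw [show x + g - p + p = x + g by omega] at h2
      rw [← h2]
      obtain ⟨c, hc⟩ := hgp
      have hc1 : 1 ≤ c := by
        rcases Nat.eq_zero_or_pos c with h0 | h0
        · rw [h0] at hc; omega
        · exact h0
      have h3 : (c - 1) * g = p - g := by
        rw [hc, Nat.sub_mul, one_mul, mul_comm]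
      have h4 := per_mul hLg (c - 1) (x + g - p) (by rw [h3]; omega)
      rw [h3] at h4
      rw [h4]
      congr 1
      omega
    · have h2 := ih (x - p) (by omega) (by omega)
      have h3 := hp (x - p) (by omega)
      have h4 := hp (x - p + g) (by omega)
      rw [show x - p + p = x by omega] at h3
      rw [show x - p + g + p = x + g by omega] at h4
      rw [← h3, h2, h4]

lemma per_shift {n p d : ℕ} (hpd : p < d) (hp : Per f n p) :
    Per f n d ↔ Per f (n - p) (d - p) := by
  constructor
  · intro h x hx
    have h1 := h x (by omega)
    have h2 := hp (x + (d - p)) (by omega)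
    rw [show x + (d - p) + p = x + d by omega] at h2
    rw [h1, h2]
  · intro h x hx
    have h1 := h x (by omega)
    have h2 := hp (x + (d - p)) (by omega)
    rw [show x + (d - p) + p = x + d by omega] at h2
    rw [h1, h2]

end

/-- the two extensions of `u` by constant words are not both non-primitive -/
lemma choose_letter (u : ℕ → Bool) (m p : ℕ) (hm : 1 ≤ m) (hmp : m < p) :
    ∃ a : Bool, ∀ g : ℕ, g ∣ p → g < p → ¬ Per (fun x => if x < m then u x else a) p g := by
  by_contra hcon
  push Not at hcon
  obtain ⟨g0, hg0p, hg0, h0⟩ := hcon false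
  obtain ⟨g1, hg1p, hg1, h1⟩ := hcon true
  have hhalf : ∀ g : ℕ, g ∣ p → g < p → 1 ≤ g ∧ 2 * g ≤ p := by
    intro g hg hgp
    obtain ⟨c, hc⟩ := hg
    have hg1 : 1 ≤ g := by
      rcases Nat.eq_zero_or_pos g with h | h
      · rw [h] at hc; omega
      · exact h
    refine ⟨hg1, ?_⟩
    have hc2 : 2 ≤ c := by
      rcases Nat.lt_or_ge c 2 with h | h
      · have : c = 0 ∨ c = 1 := by omega
        rcases this with h | h <;> rw [h] at hc <;> omega
      · exact h
    nlinarith
  obtain ⟨g0pos, g0half⟩ := hhalf g0 hg0p hg0
  obtain ⟨g1pos, g1half⟩ := hhalf g1 hg1p hg1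
  -- all letters at distance a multiple of the period
  have hlast : ∀ (V : ℕ → Bool) (g : ℕ), 1 ≤ g → g ∣ p → Per V p g → ∀ x, x < g →
      V x = V (p - g + x) := by
    intro V g hg hgp hV x hx
    obtain ⟨c, hc⟩ := hgp
    have hc1 : 1 ≤ c := by
      rcases Nat.eq_zero_or_pos c with h | h
      · rw [h] at hc; omega
      · exact h
    have h3 : (c - 1) * g = p - g := by
      rw [hc, Nat.sub_mul, one_mul, mul_comm]
    have hgp' : g ≤ p := Nat.le_of_dvd (by omega) ⟨c, hc⟩
    have h4 := per_mul hV (c - 1) x (by rw [h3]; omega)
    rw [h3] at h4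
    rw [h4]
    congr 1
    omega
  set V0 : ℕ → Bool := fun x => if x < m then u x else false with hV0
  set V1 : ℕ → Bool := fun x => if x < m then u x else true with hV1
  rcases Nat.lt_or_ge m g0 with hc0 | hc0
  · -- `u` vanishes
    have hu0 : u 0 = false := by
      have h2 := hlast V0 g0 g0pos hg0p h0 0 (by omega)
      simp only [hV0] at h2
      rw [if_pos (by omega), if_neg (by omega)] at h2
      exact h2
    have h2 := hlast V1 g1 g1pos hg1p h1 0 (by omega)
    simp only [hV1] at h2
    rw [if_pos (by omega), if_neg (by omega), hu0] at h2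
    exact absurd h2 (by decide)
  rcases Nat.lt_or_ge m g1 with hc1 | hc1
  · have hu0 : u 0 = true := by
      have h2 := hlast V1 g1 g1pos hg1p h1 0 (by omega)
      simp only [hV1] at h2
      rw [if_pos (by omega), if_neg (by omega)] at h2
      exact h2
    have h2 := hlast V0 g0 g0pos hg0p h0 0 (by omega)
    simp only [hV0] at h2
    rw [if_pos (by omega), if_neg (by omega), hu0] at h2
    exact absurd h2 (by decide)
  -- both at most `m`
  have e1 : u (g1 - 1) = true := by
    have h2 := hlast V1 g1 g1pos hg1p h1 (g1 - 1) (by omega)
    simp only [hV1] at h2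
    rw [if_pos (by omega), if_neg (by omega)] at h2
    exact h2
  have e0 : u (g0 - 1) = false := by
    have h2 := hlast V0 g0 g0pos hg0p h0 (g0 - 1) (by omega)
    simp only [hV0] at h2
    rw [if_pos (by omega), if_neg (by omega)] at h2
    exact h2
  have f0 := h0 (g1 - 1) (by omega)
  have f1 := h1 (g0 - 1) (by omega)
  simp only [hV0] at f0
  simp only [hV1] at f1
  rw [if_pos (by omega), e1] at f0
  rw [if_pos (by omega), e0] at f1
  rw [show g1 - 1 + g0 = g0 - 1 + g1 by omega] at f0
  by_cases h : g0 - 1 + g1 < m
  · rw [if_pos h] at f0 f1
    rw [← f1] at f0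
    exact absurd f0 (by decide)
  · rw [if_neg h] at f0
    exact absurd f0 (by decide)

theorem pal {α : Type} (n : ℕ) : ∀ f : ℕ → α, 1 ≤ n → f 0 = f (n - 1) →
    ∃ w : ℕ → Bool, (∀ i, i < n → w i = w (n - 1 - i)) ∧
      ∀ d, 1 ≤ d → d < n → (Per w n d ↔ Per f n d) := by
  induction n using Nat.strong_induction_on with
  | _ n ih =>
    intro f hn hf
    classical
    rcases Nat.lt_or_ge n 2 with h2 | h2
    · exact ⟨fun _ => false, fun _ _ => rfl, fun d h1 h3 => by omega⟩
    have hex : ∃ p, 1 ≤ p ∧ p < n ∧ Per f n p := by
      refine ⟨n - 1, by omega, by omega, ?_⟩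
      intro x hx
      have : x = 0 := by omega
      subst this
      rw [zero_add]
      exact hf
    obtain ⟨p, ⟨hp1, hpn, hp⟩, hmin⟩ : ∃ p, (1 ≤ p ∧ p < n ∧ Per f n p) ∧
        ∀ q, q < p → ¬ (1 ≤ q ∧ q < n ∧ Per f n q) :=
      ⟨Nat.find hex, Nat.find_spec hex, fun q hq => Nat.find_min hex hq⟩
    have hfm : f 0 = f (n - p - 1) := by
      have h1 := hp (n - p - 1) (by omega)
      rw [show n - p - 1 + p = n - 1 by omega] at h1
      rw [hf, h1]
    obtain ⟨u, hupal, hu⟩ := ih (n - p) (by omega) f (by omega) hfm
    set m := n - p with hm
    have hm1 : 1 ≤ m := by omega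
    rcases Nat.lt_or_ge m p with hcase | hcase
    · -- `m < p`
      obtain ⟨a, ha⟩ := choose_letter u m p hm1 hcase
      set w : ℕ → Bool := fun x => if x < m then u x else if x < p then a else u (x - p) with hw
      have w1 : ∀ x, x < m → w x = u x := fun x hx => by simp only [hw]; rw [if_pos hx]
      have w2 : ∀ x, m ≤ x → x < p → w x = a := fun x hx hx' => by
        simp only [hw]; rw [if_neg (by omega), if_pos hx']
      have w3 : ∀ x, p ≤ x → w x = u (x - p) := fun x hx => by
        simp only [hw]; rw [if_neg (by omega), if_neg (by omega)]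
      have hwp : Per w n p := by
        intro x hx
        rw [w1 x (by omega), w3 (x + p) (by omega)]
        congr 1
        omega
      have hwpal0 : ∀ i, i < m → w i = w (n - 1 - i) := by
        intro i hi
        rw [w1 i hi, w3 (n - 1 - i) (by omega), hupal i hi]
        congr 1
        omega
      refine ⟨w, ?_, ?_⟩
      · intro i hi
        rcases Nat.lt_or_ge i m with h | h
        · exact hwpal0 i h
        rcases Nat.lt_or_ge i p with h' | h'
        · rw [w2 i h h', w2 (n - 1 - i) (by omega) (by omega)]
        · have h3 := hwpal0 (n - 1 - i) (by omega)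
          rw [show n - 1 - (n - 1 - i) = i by omega] at h3
          exact h3.symm
      · intro d hd1 hdn
        rcases lt_trichotomy d p with h | h | h
        · constructor
          · intro hwd
            exfalso
            rcases Nat.lt_or_ge m d with hmd | hmd
            · -- `u` is constant
              have hall : ∀ x, x < m → u x = a := by
                intro x
                induction x using Nat.strong_induction_on with
                | _ x ihx =>
                  intro hx
                  have h3 := hwd x (by omega)
                  rw [w1 x hx] at h3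
                  rcases Nat.lt_or_ge (x + d) p with h4 | h4
                  · rw [w2 (x + d) (by omega) h4] at h3
                    exact h3
                  · rw [w3 (x + d) h4] at h3
                    rw [h3]
                    exact ihx (x + d - p) (by omega) (by omega)
              refine ha 1 (one_dvd _) (by omega) ?_
              intro x hx
              simp only
              have h5 : ∀ y, (if y < m then u y else a) = a := by
                intro y
                by_cases hy : y < m
                · rw [if_pos hy, hall y hy]
                · rw [if_neg hy]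
              rw [h5, h5]
            · have h3 := per_gcd n (p + d) p d rfl hp1 hd1 (by omega) hwp hwd
              refine ha (Nat.gcd p d) (Nat.gcd_dvd_left p d) ?_ ?_
              · exact lt_of_le_of_lt (Nat.le_of_dvd (by omega) (Nat.gcd_dvd_right p d)) h
              · refine (per_congr ?_).1 (h3.mono (by omega : p ≤ n))
                intro x hx
                by_cases hxm : x < m
                · rw [w1 x hxm, if_pos hxm]
                · rw [w2 x (by omega) hx, if_neg hxm]
          · intro hfd
            exact absurd ⟨hd1, hdn, hfd⟩ (hmin d h)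
        · subst h
          exact ⟨fun _ => hp, fun _ => hwp⟩
        · rw [per_shift h hp, per_shift h hwp, ← hu (d - p) (by omega) (by omega)]
          exact per_congr w1
    · -- `p ≤ m`
      set w : ℕ → Bool := fun x => if x < m then u x else u (x - p) with hw
      have w1 : ∀ x, x < m → w x = u x := fun x hx => by simp only [hw]; rw [if_pos hx]
      have w3 : ∀ x, m ≤ x → w x = u (x - p) := fun x hx => by
        simp only [hw]; rw [if_neg (by omega)]
      have hwp : Per w n p := by
        intro x hx
        rw [w1 x (by omega)]
        rcases Nat.lt_or_ge (x + p) m with h | h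
        · rw [w1 (x + p) h]
          exact (hu p hp1 (by omega)).2 (hp.mono (by omega)) x h
        · rw [w3 (x + p) h]
          congr 1
          omega
      have hwpal0 : ∀ i, i < m → w i = w (n - 1 - i) := by
        intro i hi
        have h3 := hwp (m - 1 - i) (by omega)
        rw [show m - 1 - i + p = n - 1 - i by omega] at h3
        rw [← h3, w1 i hi, w1 (m - 1 - i) (by omega), hupal i hi]
      refine ⟨w, ?_, ?_⟩
      · intro i hi
        rcases Nat.lt_or_ge i m with h | h
        · exact hwpal0 i h
        · have h3 := hwpal0 (n - 1 - i) (by omega)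
          rw [show n - 1 - (n - 1 - i) = i by omega] at h3
          exact h3.symm
      · intro d hd1 hdn
        rcases lt_trichotomy d p with h | h | h
        · constructor
          · intro hwd
            exfalso
            have h3 := per_gcd n (p + d) p d rfl hp1 hd1 (by omega) hwp hwd
            set g := Nat.gcd p d with hg
            have hgp : g ∣ p := Nat.gcd_dvd_left p d
            have hgd : g ≤ d := Nat.le_of_dvd (by omega) (Nat.gcd_dvd_right p d)
            have hg1 : 1 ≤ g := Nat.gcd_pos_of_pos_left _ (by omega)
            have h4 : Per u m g := (per_congr w1).1 (h3.mono (by omega))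
            have h5 : Per f m g := (hu g hg1 (by omega)).1 h4
            have h6 : Per f n g := per_of_dvd hgp hg1 (by omega) hcase hp h5
            exact hmin g (by omega) ⟨hg1, by omega, h6⟩
          · intro hfd
            exact absurd ⟨hd1, hdn, hfd⟩ (hmin d h)
        · subst h
          exact ⟨fun _ => hp, fun _ => hwp⟩
        · rw [per_shift h hp, per_shift h hwp, ← hu (d - p) (by omega) (by omega)]
          exact per_congr w1

end Pool.Agent.X2.HPal
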