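import Mathlib
import Pool.Agent.X2.HPal

namespace Pool.Agent.X2.Hertz

open Pool.Agent.X2.HPal

/-- `s` maps `[0, k)` bijectively to itself. -/
structure Bij (s : ℕ → ℤ) (k : ℕ) : Prop where
  lo : ∀ j, j < k → 0 ≤ s j
  hi : ∀ j, j < k → s j < k
  inj : ∀ i j, i < k → j < k → s i = s j → i = j

/-- the shifts `d` with `s (j + d) = s j + d`. -/
def Dp (s : ℕ → ℤ) (k d : ℕ) : Prop := 1 ≤ d ∧ d < k ∧ ∀ j, j + d < k → s (j + d) = s j + d

/-- the shifts `d` with `s (j + d) = s j - d`. -/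
def Dm (s : ℕ → ℤ) (k d : ℕ) : Prop := 1 ≤ d ∧ d < k ∧ ∀ j, j + d < k → s (j + d) = s j - d

lemma surj_of_inj (s : ℕ → ℤ) (m : ℕ) (h0 : ∀ j, j < m → 0 ≤ s j) (h1 : ∀ j, j < m → s j < m)
    (h2 : ∀ i j, i < m → j < m → s i = s j → i = j) (v : ℤ) (hv : 0 ≤ v) (hv' : v < m) :
    ∃ j, j < m ∧ s j = v := by
  classical
  have hsub : (Finset.range m).image s ⊆ Finset.Ico (0 : ℤ) m := by
    intro x hx
    obtain ⟨j, hj, rfl⟩ := Finset.mem_image.1 hx
    rw [Finset.mem_range] at hj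
    exact Finset.mem_Ico.2 ⟨h0 j hj, h1 j hj⟩
  have hcard : ((Finset.range m).image s).card = m := by
    rw [Finset.card_image_of_injOn, Finset.card_range]
    intro i hi j hj hij
    exact h2 i j (Finset.mem_range.1 hi) (Finset.mem_range.1 hj) hij
  have heq : (Finset.range m).image s = Finset.Ico (0 : ℤ) m := by
    apply Finset.eq_of_subset_of_card_le hsub
    rw [hcard, Int.card_Ico]
    simp
  have hmem : v ∈ (Finset.range m).image s := by
    rw [heq]
    exact Finset.mem_Ico.2 ⟨hv, hv'⟩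
  obtain ⟨j, hj, hjv⟩ := Finset.mem_image.1 hmem
  exact ⟨j, Finset.mem_range.1 hj, hjv⟩

lemma Bij.surj {s : ℕ → ℤ} {k : ℕ} (h : Bij s k) (v : ℤ) (hv : 0 ≤ v) (hv' : v < k) :
    ∃ j, j < k ∧ s j = v :=
  surj_of_inj s k h.lo h.hi h.inj v hv hv'

lemma Dp_low {s : ℕ → ℤ} {k d : ℕ} (h : Bij s k) (hd : Dp s k d) (j : ℕ) (hj : j + d < k) :
    s j < k - d := by
  have h1 := hd.2.2 j hj
  have h2 := h.hi (j + d) hj
  omega

lemma Dp_surj {s : ℕ → ℤ} {k d : ℕ} (h : Bij s k) (hd : Dp s k d) (v : ℤ) (hv : 0 ≤ v)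
    (hv' : v < k - d) : ∃ j, j + d < k ∧ s j = v := by
  have hd1 := hd.1
  have hd2 := hd.2.1
  obtain ⟨j, hj, hjv⟩ := surj_of_inj s (k - d) (fun j hj => h.lo j (by omega))
    (fun j hj => by have := Dp_low h hd j (by omega); omega)
    (fun i j hi hj hij => h.inj i j (by omega) (by omega) hij) v hv (by omega)
  exact ⟨j, by omega, hjv⟩

lemma Dp_high {s : ℕ → ℤ} {k d : ℕ} (h : Bij s k) (hd : Dp s k d) (j : ℕ) (hj : j < k)
    (hj' : k ≤ j + d) : k - d ≤ s j := by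
  by_contra hcon
  obtain ⟨i, hi, his⟩ := Dp_surj h hd (s j) (h.lo j hj) (by omega)
  have := h.inj i j (by omega) hj his
  omega

lemma Dp_zero {s : ℕ → ℤ} {k d : ℕ} (h : Bij s k) (hd : Dp s k d) : 2 * s 0 + 2 ≤ k := by
  have hd1 := hd.1
  have hd2 := hd.2.1
  have h1 := Dp_low h hd 0 (by omega)
  have h2 : s 0 < d := by
    by_contra hcon
    obtain ⟨i, hi, his⟩ := Dp_surj h hd (s 0 - d) (by omega) (by omega)
    have h3 := hd.2.2 i hi
    have := h.inj (i + d) 0 hi (by omega) (by omega)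
    omega
  omega

/-- the complement. -/
def cpl (s : ℕ → ℤ) (k : ℕ) : ℕ → ℤ := fun j => k - 1 - s j

lemma Bij.cpl {s : ℕ → ℤ} {k : ℕ} (h : Bij s k) : Bij (cpl s k) k where
  lo j hj := by have := h.hi j hj; unfold Hertz.cpl; omega
  hi j hj := by have := h.lo j hj; unfold Hertz.cpl; omega
  inj i j hi hj hij := h.inj i j hi hj (by unfold Hertz.cpl at hij; omega)

lemma Dp_cpl {s : ℕ → ℤ} {k d : ℕ} : Dp (cpl s k) k d ↔ Dm s k d := by
  unfold Dp Dm cpl
  constructor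
  · rintro ⟨h1, h2, h3⟩
    exact ⟨h1, h2, fun j hj => by have := h3 j hj; omega⟩
  · rintro ⟨h1, h2, h3⟩
    exact ⟨h1, h2, fun j hj => by have := h3 j hj; omega⟩

lemma Dm_cpl {s : ℕ → ℤ} {k d : ℕ} : Dm (cpl s k) k d ↔ Dp s k d := by
  unfold Dp Dm cpl
  constructor
  · rintro ⟨h1, h2, h3⟩
    exact ⟨h1, h2, fun j hj => by have := h3 j hj; omega⟩
  · rintro ⟨h1, h2, h3⟩
    exact ⟨h1, h2, fun j hj => by have := h3 j hj; omega⟩

lemma Dm_zero {s : ℕ → ℤ} {k d : ℕ} (h : Bij s k) (hd : Dm s k d) : (k : ℤ) ≤ 2 * s 0 := by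
  have h1 := Dp_zero h.cpl (Dp_cpl.2 hd)
  unfold cpl at h1
  omega

lemma not_both {s : ℕ → ℤ} {k d e : ℕ} (h : Bij s k) (hd : Dp s k d) (he : Dm s k e) : False := by
  have h1 := Dp_zero h hd
  have h2 := Dm_zero h he
  omega

lemma Dp_add {s : ℕ → ℤ} {k d e : ℕ} (hd : Dp s k d) (he : Dp s k e) (hde : d + e < k) :
    Dp s k (d + e) := by
  refine ⟨by have := hd.1; omega, hde, fun j hj => ?_⟩
  have h1 := hd.2.2 j (by omega)
  have h2 := he.2.2 (j + d) (by omega)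
  rw [← add_assoc, h2, h1]
  push_cast
  ring

/-- two overlapping occurrences of `s` in `p` have value offset `± d`. -/
lemma overlap {s p : ℕ → ℤ} {k n t d : ℕ} (h : Bij s k)
    (hp : ∀ i j, i < n → j < n → p i = p j → i = j) (hd1 : 1 ≤ d) (hdk : d < k)
    (htn : t + d + k ≤ n) (c c' : ℤ) (h1 : ∀ j, j < k → p (t + j) = s j + c)
    (h2 : ∀ j, j < k → p (t + d + j) = s j + c') : Dp s k d ∨ Dm s k d := by
  classical
  have hrel : ∀ j, j + d < k → s (j + d) = s j + (c' - c) := by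
    intro j hj
    have e1 := h1 (j + d) hj
    have e2 := h2 j (by omega)
    rw [show t + (j + d) = t + d + j by omega] at e1
    omega
  have hset : (Finset.range (k - d)).image (fun j => s j + c') =
      Finset.Ico (max c c') (min c c' + k) := by
    ext v
    rw [Finset.mem_image, Finset.mem_Ico]
    constructor
    · rintro ⟨j, hj, rfl⟩
      rw [Finset.mem_range] at hj
      have e1 := hrel j (by omega)
      have e2 := h.lo j (by omega)
      have e3 := h.hi j (by omega)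
      have e4 := h.lo (j + d) (by omega)
      have e5 := h.hi (j + d) (by omega)
      constructor
      · rw [max_le_iff]
        constructor <;> omega
      · rw [← sub_lt_iff_lt_add, lt_min_iff]
        constructor <;> omega
    · rintro ⟨hv1, hv2⟩
      rw [max_le_iff] at hv1
      rw [← sub_lt_iff_lt_add, lt_min_iff] at hv2
      obtain ⟨i, hi, his⟩ := h.surj (v - c) (by omega) (by omega)
      obtain ⟨j, hj, hjs⟩ := h.surj (v - c') (by omega) (by omega)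
      have e1 := h1 i hi
      have e2 := h2 j hj
      have e3 := hp (t + i) (t + d + j) (by omega) (by omega) (by omega)
      exact ⟨j, Finset.mem_range.2 (by omega), by omega⟩
  have hcard : ((Finset.range (k - d)).image (fun j => s j + c')).card = k - d := by
    rw [Finset.card_image_of_injOn, Finset.card_range]
    intro i hi j hj hij
    have hi' := Finset.mem_range.1 hi
    have hj' := Finset.mem_range.1 hj
    exact h.inj i j (by omega) (by omega) (by simpa using hij)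
  rw [hset, Int.card_Ico] at hcard
  rcases le_total c c' with hc | hc
  · rw [max_eq_right hc, min_eq_left hc] at hcard
    left
    refine ⟨hd1, hdk, fun j hj => ?_⟩
    rw [hrel j hj]
    omega
  · rw [max_eq_left hc, min_eq_right hc] at hcard
    right
    refine ⟨hd1, hdk, fun j hj => ?_⟩
    rw [hrel j hj]
    omega

/-- the values of a permutation as an integer valued function. -/
def ev {k : ℕ} (σ : Equiv.Perm (Fin k)) (j : ℕ) : ℤ := if h : j < k then ((σ ⟨j, h⟩ : ℕ) : ℤ) else -1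

lemma ev_of {k : ℕ} (σ : Equiv.Perm (Fin k)) (j : ℕ) (h : j < k) :
    ev σ j = ((σ ⟨j, h⟩ : ℕ) : ℤ) := by
  unfold ev
  rw [dif_pos h]

lemma bij_ev {k : ℕ} (σ : Equiv.Perm (Fin k)) : Bij (ev σ) k where
  lo j hj := by rw [ev_of σ j hj]; positivity
  hi j hj := by rw [ev_of σ j hj]; exact_mod_cast (σ ⟨j, hj⟩).2
  inj i j hi hj hij := by
    rw [ev_of σ i hi, ev_of σ j hj] at hij
    have h1 : (σ ⟨i, hi⟩ : ℕ) = σ ⟨j, hj⟩ := by exact_mod_cast hij
    have h2 := σ.injective (Fin.ext h1)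
    exact congrArg Fin.val h2

/-- an occurrence at position `t`. -/
def OccAt {k n : ℕ} (σ : Equiv.Perm (Fin k)) (π : Equiv.Perm (Fin n)) (t : ℕ) : Prop :=
  t + k ≤ n ∧ ∃ c : ℤ, ∀ j, j < k → ev π (t + j) = ev σ j + c

open Classical in
/-- the permutations with occurrences of `σ` at all `t ∈ T`. -/
noncomputable def NS {k : ℕ} (σ : Equiv.Perm (Fin k)) (n : ℕ) (T : Finset ℕ) :
    Finset (Equiv.Perm (Fin n)) :=
  Finset.univ.filter fun π => ∀ t, t ∈ T → OccAt σ π t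

/-- `σ⁻¹ ∘ τ` on natural numbers. -/
def qq {k : ℕ} (σ τ : Equiv.Perm (Fin k)) (j : ℕ) : ℕ :=
  if h : j < k then (σ.symm (τ ⟨j, h⟩) : ℕ) else j

lemma qq_of {k : ℕ} (σ τ : Equiv.Perm (Fin k)) (j : ℕ) (h : j < k) :
    qq σ τ j = (σ.symm (τ ⟨j, h⟩) : ℕ) := by
  unfold qq
  rw [dif_pos h]

lemma qq_lt {k : ℕ} (σ τ : Equiv.Perm (Fin k)) (j : ℕ) (h : j < k) : qq σ τ j < k := by
  rw [qq_of σ τ j h]
  exact (σ.symm (τ ⟨j, h⟩)).2

lemma ev_qq {k : ℕ} (σ τ : Equiv.Perm (Fin k)) (j : ℕ) (h : j < k) :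
    ev σ (qq σ τ j) = ev τ j := by
  rw [ev_of σ _ (qq_lt σ τ j h), ev_of τ j h]
  have : (⟨qq σ τ j, qq_lt σ τ j h⟩ : Fin k) = σ.symm (τ ⟨j, h⟩) := Fin.ext (qq_of σ τ j h)
  rw [this, Equiv.apply_symm_apply]

lemma qq_qq {k : ℕ} (σ τ : Equiv.Perm (Fin k)) (j : ℕ) (h : j < k) :
    qq τ σ (qq σ τ j) = j := by
  have h1 := qq_lt σ τ j h
  have h2 := qq_lt τ σ _ h1
  apply (bij_ev τ).inj _ _ h2 h
  rw [ev_qq τ σ _ h1, ev_qq σ τ j h]

lemma qq_shift {k : ℕ} (σ τ : Equiv.Perm (Fin k)) (d : ℕ) (hσ : Dp (ev σ) k d)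
    (hτ : Dp (ev τ) k d) (j : ℕ) (hj : j + d < k) : qq σ τ (j + d) = qq σ τ j + d := by
  have h1 := ev_qq σ τ j (by omega)
  have h2 := ev_qq σ τ (j + d) hj
  have h3 := hτ.2.2 j hj
  have h4 := Dp_low (bij_ev τ) hτ j hj
  have h5 := (bij_ev τ).lo j (by omega)
  obtain ⟨i, hi, his⟩ := Dp_surj (bij_ev σ) hσ (ev τ j) h5 h4
  have h6 := (bij_ev σ).inj i (qq σ τ j) (by omega) (qq_lt σ τ j (by omega)) (by rw [his, h1])
  have h7 := hσ.2.2 i hi
  apply (bij_ev σ).inj _ _ (qq_lt σ τ _ hj) (by omega)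
  rw [h2, ← h6, h7, his, h3]

/-- the condition on the set of start positions. -/
def Good {k : ℕ} (σ : Equiv.Perm (Fin k)) (T : Finset ℕ) : Prop :=
  ∀ t t', t ∈ T → t' ∈ T → t < t' → t' < t + k → Dp (ev σ) k (t' - t)

open Classical in
/-- the rearrangement of the positions. -/
noncomputable def rr {k : ℕ} (σ τ : Equiv.Perm (Fin k)) (T : Finset ℕ) (x : ℕ) : ℕ :=
  if h : ∃ t, t ∈ T ∧ t ≤ x ∧ x < t + k then h.choose + qq σ τ (x - h.choose) else x

lemma rr_win {k : ℕ} (σ τ : Equiv.Perm (Fin k)) (T : Finset ℕ) (hσ : Good σ T) (hτ : Good τ T)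
    (t j : ℕ) (ht : t ∈ T) (hj : j < k) : rr σ τ T (t + j) = t + qq σ τ j := by
  have h : ∃ t', t' ∈ T ∧ t' ≤ t + j ∧ t + j < t' + k := ⟨t, ht, by omega, by omega⟩
  unfold rr
  rw [dif_pos h]
  obtain ⟨h1, h2, h3⟩ := h.choose_spec
  set t' := h.choose with ht'
  clear_value t'
  rcases lt_trichotomy t' t with hlt | heq | hgt
  · have h4 := qq_shift σ τ (t - t') (hσ t' t h1 ht hlt (by omega)) (hτ t' t h1 ht hlt (by omega))
      j (by omega)
    rw [show t + j - t' = j + (t - t') by omega, h4]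
    omega
  · subst heq
    rw [Nat.add_sub_cancel_left]
  · have h4 := qq_shift σ τ (t' - t) (hσ t t' ht h1 hgt (by omega)) (hτ t t' ht h1 hgt (by omega))
      (t + j - t') (by omega)
    rw [show t + j - t' + (t' - t) = j by omega] at h4
    rw [h4]
    omega

lemma rr_rr {k : ℕ} (σ τ : Equiv.Perm (Fin k)) (T : Finset ℕ) (hσ : Good σ T) (hτ : Good τ T)
    (x : ℕ) : rr τ σ T (rr σ τ T x) = x := by
  by_cases h : ∃ t, t ∈ T ∧ t ≤ x ∧ x < t + k
  · obtain ⟨t, ht, h1, h2⟩ := h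
    obtain ⟨j, rfl⟩ : ∃ j, x = t + j := ⟨x - t, by omega⟩
    have hj : j < k := by omega
    rw [rr_win σ τ T hσ hτ t j ht hj, rr_win τ σ T hτ hσ t _ ht (qq_lt σ τ j hj), qq_qq σ τ j hj]
  · have h1 : rr σ τ T x = x := by unfold rr; rw [dif_neg h]
    have h2 : rr τ σ T x = x := by unfold rr; rw [dif_neg h]
    rw [h1, h2]

lemma rr_lt {k n : ℕ} (σ τ : Equiv.Perm (Fin k)) (T : Finset ℕ) (hσ : Good σ T) (hτ : Good τ T)
    (hT : ∀ t, t ∈ T → t + k ≤ n) (x : ℕ) (hx : x < n) : rr σ τ T x < n := by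
  by_cases h : ∃ t, t ∈ T ∧ t ≤ x ∧ x < t + k
  · obtain ⟨t, ht, h1, h2⟩ := h
    obtain ⟨j, rfl⟩ : ∃ j, x = t + j := ⟨x - t, by omega⟩
    have hj : j < k := by omega
    rw [rr_win σ τ T hσ hτ t j ht hj]
    have := qq_lt σ τ j hj
    have := hT t ht
    omega
  · have h1 : rr σ τ T x = x := by unfold rr; rw [dif_neg h]
    rw [h1]
    exact hx

/-- the rearrangement as a permutation. -/
noncomputable def rho {k n : ℕ} (σ τ : Equiv.Perm (Fin k)) (T : Finset ℕ) (hσ : Good σ T)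
    (hτ : Good τ T) (hT : ∀ t, t ∈ T → t + k ≤ n) : Equiv.Perm (Fin n) where
  toFun x := ⟨rr σ τ T x, rr_lt σ τ T hσ hτ hT x x.2⟩
  invFun x := ⟨rr τ σ T x, rr_lt τ σ T hτ hσ hT x x.2⟩
  left_inv x := Fin.ext (rr_rr σ τ T hσ hτ x)
  right_inv x := Fin.ext (rr_rr τ σ T hτ hσ x)

lemma card_le {k n : ℕ} (σ τ : Equiv.Perm (Fin k)) (T : Finset ℕ) (hσ : Good σ T)
    (hτ : Good τ T) (hT : ∀ t, t ∈ T → t + k ≤ n) : (NS σ n T).card ≤ (NS τ n T).card := by
  classical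
  apply Finset.card_le_card_of_injOn (fun π => (rho σ τ T hσ hτ hT).trans π)
  · intro π hπ
    unfold NS at hπ ⊢
    simp only [Finset.coe_filter, Finset.mem_univ, true_and, Set.mem_ofPred_eq] at hπ ⊢
    intro t ht
    obtain ⟨h1, c, hc⟩ := hπ t ht
    refine ⟨h1, c, fun j hj => ?_⟩
    rw [← ev_qq σ τ j hj, ← hc _ (qq_lt σ τ j hj)]
    rw [ev_of _ (t + j) (by omega), ev_of π _ (by have := qq_lt σ τ j hj; omega)]
    rw [Equiv.trans_apply]
    have : (rho σ τ T hσ hτ hT) ⟨t + j, by omega⟩ =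
        ⟨t + qq σ τ j, by have := qq_lt σ τ j hj; omega⟩ :=
      Fin.ext (rr_win σ τ T hσ hτ t j ht hj)
    rw [this]
  · intro π _ π' _ h
    simp only at h
    ext x
    have h1 := congrArg (fun e => e ((rho σ τ T hσ hτ hT).symm x)) h
    simp only [Equiv.trans_apply, Equiv.apply_symm_apply] at h1
    rw [h1]

lemma good_of_mem {k n : ℕ} (σ : Equiv.Perm (Fin k)) (T : Finset ℕ)
    (hm : ∀ d, ¬ Dm (ev σ) k d) (π : Equiv.Perm (Fin n)) (hπ : ∀ t, t ∈ T → OccAt σ π t) :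
    Good σ T := by
  intro t t' ht ht' h1 h2
  obtain ⟨h3, c, hc⟩ := hπ t ht
  obtain ⟨h4, c', hc'⟩ := hπ t' ht'
  obtain ⟨d, rfl⟩ : ∃ d, t' = t + d := ⟨t' - t, by omega⟩
  rw [Nat.add_sub_cancel_left]
  rcases overlap (bij_ev σ) (bij_ev π).inj (by omega) (by omega) (by omega) c c' hc hc' with h | h
  · exact h
  · exact absurd h (hm d)

/-- the key equality of the counts. -/
lemma card_eq {k n : ℕ} (σ τ : Equiv.Perm (Fin k)) (T : Finset ℕ)
    (hσm : ∀ d, ¬ Dm (ev σ) k d) (hτm : ∀ d, ¬ Dm (ev τ) k d)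
    (hiff : (∀ t, t ∈ T → t + k ≤ n) → (Good σ T ↔ Good τ T)) :
    (NS σ n T).card = (NS τ n T).card := by
  classical
  by_cases hT : ∀ t, t ∈ T → t + k ≤ n
  · replace hiff := hiff hT
    by_cases hG : Good σ T
    · exact le_antisymm (card_le σ τ T hG (hiff.1 hG) hT) (card_le τ σ T (hiff.1 hG) hG hT)
    · have h1 : NS σ n T = ∅ := by
        unfold NS
        rw [Finset.filter_eq_empty_iff]
        intro π _ hπ
        exact hG (good_of_mem σ T hσm π hπ)
      have h2 : NS τ n T = ∅ := by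
        unfold NS
        rw [Finset.filter_eq_empty_iff]
        intro π _ hπ
        exact hG (hiff.2 (good_of_mem τ T hτm π hπ))
      rw [h1, h2]
  · push Not at hT
    obtain ⟨t, ht, hlt⟩ := hT
    have h1 : NS σ n T = ∅ := by
      unfold NS
      rw [Finset.filter_eq_empty_iff]
      intro π _ hπ
      have := (hπ t ht).1
      omega
    have h2 : NS τ n T = ∅ := by
      unfold NS
      rw [Finset.filter_eq_empty_iff]
      intro π _ hπ
      have := (hπ t ht).1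
      omega
    rw [h1, h2]

end Pool.Agent.X2.Hertz
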