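import Mathlib
import Pool.Agent.X2.Hertz

namespace Pool.Agent.X2.Hertz

/-- `σ`, viewed as a Hertzsprung pattern, occurs in `π`. -/
def Occurs {k n : ℕ} (σ : Equiv.Perm (Fin k)) (π : Equiv.Perm (Fin n)) : Prop :=
  ∃ (i : ℕ) (d : ℤ), ∀ j : Fin k, ∃ h : i + j < n, ((π ⟨i + j, h⟩ : ℕ) : ℤ) = ((σ j : ℕ) : ℤ) + d

/-- The number of permutations of length `n` avoiding `σ`. -/
noncomputable def avoid {k : ℕ} (σ : Equiv.Perm (Fin k)) (n : ℕ) : ℕ :=
  Nat.card {π : Equiv.Perm (Fin n) // ¬ Occurs σ π}

lemma occurs_iff {k n : ℕ} (hk : 1 ≤ k) (σ : Equiv.Perm (Fin k)) (π : Equiv.Perm (Fin n)) :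
    Occurs σ π ↔ ∃ t, t ∈ Finset.range n ∧ OccAt σ π t := by
  constructor
  · rintro ⟨t, c, h⟩
    obtain ⟨h1, _⟩ := h ⟨k - 1, by omega⟩
    simp only at h1
    refine ⟨t, Finset.mem_range.2 (by omega), by omega, c, fun j hj => ?_⟩
    obtain ⟨h2, h3⟩ := h ⟨j, hj⟩
    simp only at h2 h3
    rw [ev_of π _ h2, ev_of σ _ hj]
    exact h3
  · rintro ⟨t, _, h1, c, hc⟩
    refine ⟨t, c, fun j => ⟨by have := j.2; omega, ?_⟩⟩
    have h2 := hc j j.2
    rw [ev_of π _ (by have := j.2; omega), ev_of σ _ j.2] at h2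
    exact h2

lemma avoid_eq {k : ℕ} (hk : 1 ≤ k) (σ : Equiv.Perm (Fin k)) (n : ℕ) :
    (avoid σ n : ℤ) =
      ∑ T ∈ (Finset.range n).powerset, (-1 : ℤ) ^ T.card * ((NS σ n T).card : ℤ) := by
  classical
  have h1 := Finset.inclusion_exclusion_card_inf_compl (Finset.range n)
    (fun t => (Finset.univ : Finset (Equiv.Perm (Fin n))).filter fun π => OccAt σ π t)
  have h2 : (avoid σ n : ℤ) = ((((Finset.range n).inf fun t =>
      ((Finset.univ : Finset (Equiv.Perm (Fin n))).filter fun π => OccAt σ π t)ᶜ).card : ℕ) : ℤ) := by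
    unfold avoid
    rw [Nat.card_eq_fintype_card, Fintype.card_subtype]
    congr 2
    ext π
    rw [Finset.mem_inf]
    simp only [Finset.mem_filter, Finset.mem_univ, true_and, Finset.mem_compl]
    rw [occurs_iff hk]
    push Not
    rfl
  rw [h2, h1]
  apply Finset.sum_congr rfl
  intro T _
  congr 3
  ext π
  rw [Finset.mem_inf]
  unfold NS
  simp only [Finset.mem_filter, Finset.mem_univ, true_and]

lemma good_congr {k : ℕ} (σ τ : Equiv.Perm (Fin k)) (T : Finset ℕ)
    (h : ∀ t t', t ∈ T → t' ∈ T → t < t' → t' < t + k →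
      (Dp (ev σ) k (t' - t) ↔ Dp (ev τ) k (t' - t))) : Good σ T ↔ Good τ T := by
  unfold Good
  constructor
  · intro hg t t' ht ht' h1 h2
    exact (h t t' ht ht' h1 h2).1 (hg t t' ht ht' h1 h2)
  · intro hg t t' ht ht' h1 h2
    exact (h t t' ht ht' h1 h2).2 (hg t t' ht ht' h1 h2)

lemma avoid_congr {k : ℕ} (hk : 1 ≤ k) (σ τ : Equiv.Perm (Fin k))
    (hσm : ∀ d, ¬ Dm (ev σ) k d) (hτm : ∀ d, ¬ Dm (ev τ) k d)
    (h : ∀ d, Dp (ev σ) k d ↔ Dp (ev τ) k d) (n : ℕ) : avoid σ n = avoid τ n := by
  have h1 : (avoid σ n : ℤ) = avoid τ n := by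
    rw [avoid_eq hk, avoid_eq hk]
    apply Finset.sum_congr rfl
    intro T _
    rw [card_eq σ τ T hσm hτm (fun _ => good_congr σ τ T fun t t' _ _ _ _ => h _)]
  exact_mod_cast h1

/-- two overlapping copies. -/
lemma exists_two {k d : ℕ} (σ : Equiv.Perm (Fin k)) (hd : Dp (ev σ) k d) :
    ∃ π : Equiv.Perm (Fin (k + d)), OccAt σ π 0 ∧ OccAt σ π d := by
  have hd1 := hd.1
  have hd2 := hd.2.1
  set f : ℕ → ℤ := fun x => if x < k then ev σ x else ev σ (x - d) + d with hf
  have f1 : ∀ x, x < k → f x = ev σ x := fun x hx => by simp only [hf]; rw [if_pos hx]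
  have f2 : ∀ x, d ≤ x → x < k + d → f x = ev σ (x - d) + d := by
    intro x hx hx'
    by_cases h : x < k
    · rw [f1 x h]
      have := hd.2.2 (x - d) (by omega)
      rw [show x - d + d = x by omega] at this
      exact this
    · simp only [hf]
      rw [if_neg h]
  have hlo : ∀ x, x < k + d → 0 ≤ f x := by
    intro x hx
    by_cases h : x < k
    · rw [f1 x h]
      exact (bij_ev σ).lo x h
    · rw [f2 x (by omega) hx]
      have := (bij_ev σ).lo (x - d) (by omega)
      omega
  have hhi : ∀ x, x < k + d → f x < k + d := by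
    intro x hx
    by_cases h : x < k
    · rw [f1 x h]
      have := (bij_ev σ).hi x h
      omega
    · rw [f2 x (by omega) hx]
      have := (bij_ev σ).hi (x - d) (by omega)
      omega
  have hinj0 : ∀ x y, x < k → k ≤ y → y < k + d → f x ≠ f y := by
    intro x y hx hy hy' heq
    rw [f1 x hx, f2 y (by omega) hy'] at heq
    have h1 := Dp_high (bij_ev σ) hd (y - d) (by omega) (by omega)
    have h2 := (bij_ev σ).hi x hx
    omega
  have hinj : ∀ x y, x < k + d → y < k + d → f x = f y → x = y := by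
    intro x y hx hy heq
    by_cases h : x < k
    · by_cases h' : y < k
      · rw [f1 x h, f1 y h'] at heq
        exact (bij_ev σ).inj x y h h' heq
      · exact absurd heq (hinj0 x y h (by omega) hy)
    · by_cases h' : y < k
      · exact absurd heq.symm (hinj0 y x h' (by omega) hx)
      · rw [f2 x (by omega) hx, f2 y (by omega) hy] at heq
        have := (bij_ev σ).inj (x - d) (y - d) (by omega) (by omega) (by omega)
        omega
  let g : Fin (k + d) → Fin (k + d) := fun x => ⟨(f x).toNat, by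
    have h1 := hlo x x.2
    have h2 := hhi x x.2
    omega⟩
  have hg : Function.Injective g := by
    intro x y hxy
    have h1 : (f x).toNat = (f y).toNat := congrArg Fin.val hxy
    have h2 := hlo x x.2
    have h3 := hlo y y.2
    exact Fin.ext (hinj x y x.2 y.2 (by omega))
  have hgb : Function.Bijective g := Finite.injective_iff_bijective.1 hg
  have hev : ∀ x, x < k + d → ev (Equiv.ofBijective g hgb) x = f x := by
    intro x hx
    rw [ev_of _ x hx]
    have h1 : ((Equiv.ofBijective g hgb ⟨x, hx⟩ : Fin (k + d)) : ℕ) = (f x).toNat := rfl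
    rw [h1]
    exact Int.toNat_of_nonneg (hlo x hx)
  refine ⟨Equiv.ofBijective g hgb, ⟨by omega, 0, fun j hj => ?_⟩, ⟨by omega, d, fun j hj => ?_⟩⟩
  · rw [zero_add, hev j (by omega), f1 j hj, add_zero]
  · rw [hev (d + j) (by omega), f2 (d + j) (by omega) (by omega), Nat.add_sub_cancel_left]

lemma avoid_ne {k : ℕ} (hk : 1 ≤ k) (σ τ : Equiv.Perm (Fin k))
    (hσm : ∀ d, ¬ Dm (ev σ) k d) (hτm : ∀ d, ¬ Dm (ev τ) k d) (d : ℕ)
    (hd : Dp (ev σ) k d) (hd' : ¬ Dp (ev τ) k d)
    (hmin : ∀ e, e < d → (Dp (ev σ) k e ↔ Dp (ev τ) k e)) :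
    avoid σ (k + d) ≠ avoid τ (k + d) := by
  classical
  have hd1 := hd.1
  have hd2 := hd.2.1
  intro heq
  have h1 : (avoid σ (k + d) : ℤ) - avoid τ (k + d) = 0 := by rw [heq]; ring
  rw [avoid_eq hk, avoid_eq hk, ← Finset.sum_sub_distrib] at h1
  rw [Finset.sum_eq_single ({0, d} : Finset ℕ)] at h1
  · have h2 : (NS τ (k + d) {0, d}).card = 0 := by
      rw [Finset.card_eq_zero]
      unfold NS
      rw [Finset.filter_eq_empty_iff]
      intro π _ hπ
      have h3 := good_of_mem τ {0, d} hτm π hπ 0 d (by simp) (by simp) (by omega) (by omega)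
      exact hd' h3
    have h3 : 0 < (NS σ (k + d) {0, d}).card := by
      rw [Finset.card_pos]
      obtain ⟨π, hπ0, hπd⟩ := exists_two σ hd
      refine ⟨π, ?_⟩
      unfold NS
      rw [Finset.mem_filter]
      refine ⟨Finset.mem_univ _, fun t ht => ?_⟩
      rw [Finset.mem_insert, Finset.mem_singleton] at ht
      rcases ht with rfl | rfl
      · exact hπ0
      · exact hπd
    rw [Finset.card_pair (by omega), h2] at h1
    rw [Nat.cast_zero, mul_zero, sub_zero, show ((-1 : ℤ) ^ 2) = 1 by norm_num, one_mul] at h1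
    omega
  · intro T hT hne
    rw [card_eq σ τ T hσm hτm ?_, sub_self]
    intro hle
    -- `Good σ T ↔ Good τ T`
    by_cases h0d : 0 ∈ T ∧ d ∈ T
    · -- both fail or ...
      constructor
      · intro hg
        exfalso
        -- there is a third element
        have hx : ∃ x, x ∈ T ∧ x ≠ 0 ∧ x ≠ d := by
          by_contra hcon
          push Not at hcon
          apply hne
          ext x
          rw [Finset.mem_insert, Finset.mem_singleton]
          constructor
          · intro hx
            by_cases h : x = 0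
            · exact Or.inl h
            · exact Or.inr (hcon x hx h)
          · rintro (rfl | rfl)
            · exact h0d.1
            · exact h0d.2
        obtain ⟨x, hx, hx0, hxd⟩ := hx
        have hxle := hle x hx
        have h1 := hg 0 x h0d.1 hx (by omega) (by omega)
        have h2 := hg x d hx h0d.2 (by omega) (by omega)
        rw [Nat.sub_zero] at h1
        have h3 := Dp_add ((hmin x (by omega)).1 h1) ((hmin (d - x) (by omega)).1 h2) (by omega)
        rw [show x + (d - x) = d by omega] at h3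
        exact hd' h3
      · intro hg
        exfalso
        exact hd' (hg 0 d h0d.1 h0d.2 (by omega) (by omega))
    · apply good_congr
      intro t t' ht ht' h1 h2
      have h3 := hle t ht
      have h4 := hle t' ht'
      apply hmin
      by_contra hcon
      have h5 : t = 0 := by omega
      have h6 : t' = d := by omega
      subst h5
      subst h6
      exact h0d ⟨ht, ht'⟩
  · intro h
    exfalso
    apply h
    rw [Finset.mem_powerset]
    intro x hx
    rw [Finset.mem_insert, Finset.mem_singleton] at hx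
    rw [Finset.mem_range]
    omega

end Pool.Agent.X2.Hertz
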