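import Mathlib
import Pool.Agent.X2.HertzCount

namespace Pool.Agent.X2.Hertz

open Pool.Agent.X2.HPal

lemma ev_rev {k : ℕ} (σ : Equiv.Perm (Fin k)) (j : ℕ) (hj : j < k) :
    ev (Fin.revPerm * σ) j = k - 1 - ev σ j := by
  rw [ev_of _ j hj, ev_of σ j hj, Equiv.Perm.mul_apply, Fin.revPerm_apply, Fin.val_rev]
  have := (σ ⟨j, hj⟩).2
  omega

lemma rev_rev {k : ℕ} (σ : Equiv.Perm (Fin k)) : Fin.revPerm * (Fin.revPerm * σ) = σ := by
  ext x
  simp [Equiv.Perm.mul_apply]

lemma occurs_rev_mp {k n : ℕ} (σ : Equiv.Perm (Fin k)) (π : Equiv.Perm (Fin n))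
    (h : Occurs σ π) : Occurs (Fin.revPerm * σ) (Fin.revPerm * π) := by
  obtain ⟨i, d, hd⟩ := h
  refine ⟨i, n - k - d, fun j => ?_⟩
  obtain ⟨h1, h2⟩ := hd j
  refine ⟨h1, ?_⟩
  rw [Equiv.Perm.mul_apply, Equiv.Perm.mul_apply, Fin.revPerm_apply, Fin.revPerm_apply,
    Fin.val_rev, Fin.val_rev]
  have h3 := (σ j).2
  have h4 := (π ⟨i + j, h1⟩).2
  omega

lemma occurs_rev {k n : ℕ} (σ : Equiv.Perm (Fin k)) (π : Equiv.Perm (Fin n)) :
    Occurs (Fin.revPerm * σ) (Fin.revPerm * π) ↔ Occurs σ π := by
  constructor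
  · intro h
    have := occurs_rev_mp _ _ h
    rwa [rev_rev, rev_rev] at this
  · exact occurs_rev_mp σ π

lemma avoid_rev {k : ℕ} (σ : Equiv.Perm (Fin k)) : avoid (Fin.revPerm * σ) = avoid σ := by
  funext n
  unfold avoid
  apply Nat.card_congr
  exact (Equiv.subtypeEquiv (Equiv.mulLeft (Fin.revPerm : Equiv.Perm (Fin n)))
    (fun π => not_congr (occurs_rev σ π).symm)).symm

/-- all self-overlap shifts. -/
def E {k : ℕ} (σ : Equiv.Perm (Fin k)) : Set ℕ := {d | Dp (ev σ) k d ∨ Dm (ev σ) k d}

lemma Dp_congr {s s' : ℕ → ℤ} {k d : ℕ} (h : ∀ j, j < k → s j = s' j) : Dp s k d ↔ Dp s' k d := by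
  unfold Dp
  constructor
  · rintro ⟨h1, h2, h3⟩
    exact ⟨h1, h2, fun j hj => by
      rw [← h (j + d) hj, ← h j (by omega)]; exact h3 j hj⟩
  · rintro ⟨h1, h2, h3⟩
    exact ⟨h1, h2, fun j hj => by
      rw [h (j + d) hj, h j (by omega)]; exact h3 j hj⟩

lemma Dm_congr {s s' : ℕ → ℤ} {k d : ℕ} (h : ∀ j, j < k → s j = s' j) : Dm s k d ↔ Dm s' k d := by
  unfold Dm
  constructor
  · rintro ⟨h1, h2, h3⟩
    exact ⟨h1, h2, fun j hj => by
      rw [← h (j + d) hj, ← h j (by omega)]; exact h3 j hj⟩
  · rintro ⟨h1, h2, h3⟩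
    exact ⟨h1, h2, fun j hj => by
      rw [h (j + d) hj, h j (by omega)]; exact h3 j hj⟩

lemma Dp_rev {k d : ℕ} (σ : Equiv.Perm (Fin k)) :
    Dp (ev (Fin.revPerm * σ)) k d ↔ Dm (ev σ) k d := by
  rw [← Dp_cpl]
  exact Dp_congr fun j hj => ev_rev σ j hj

lemma Dm_rev {k d : ℕ} (σ : Equiv.Perm (Fin k)) :
    Dm (ev (Fin.revPerm * σ)) k d ↔ Dp (ev σ) k d := by
  rw [← Dm_cpl]
  exact Dm_congr fun j hj => ev_rev σ j hj

lemma normal {k : ℕ} (σ : Equiv.Perm (Fin k)) : ∃ σ' : Equiv.Perm (Fin k),
    avoid σ' = avoid σ ∧ (∀ d, ¬ Dm (ev σ') k d) ∧ (∀ d, Dp (ev σ') k d ↔ d ∈ E σ) := by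
  by_cases h : ∃ d, Dm (ev σ) k d
  · obtain ⟨e, he⟩ := h
    refine ⟨Fin.revPerm * σ, avoid_rev σ, fun d hd => ?_, fun d => ?_⟩
    · rw [Dm_rev] at hd
      exact not_both (bij_ev σ) hd he
    · rw [Dp_rev]
      constructor
      · intro hd
        exact Or.inr hd
      · rintro (hd | hd)
        · exact absurd he fun he => not_both (bij_ev σ) hd he
        · exact hd
  · push Not at h
    refine ⟨σ, rfl, h, fun d => ?_⟩
    constructor
    · intro hd
      exact Or.inl hd
    · rintro (hd | hd)
      · exact hd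
      · exact absurd hd (h d)

/-- two patterns of the same length are Wilf equivalent iff they have the same overlap shifts. -/
theorem avoid_iff {k : ℕ} (hk : 1 ≤ k) (σ τ : Equiv.Perm (Fin k)) :
    avoid σ = avoid τ ↔ E σ = E τ := by
  classical
  obtain ⟨σ', h1, h2, h3⟩ := normal σ
  obtain ⟨τ', g1, g2, g3⟩ := normal τ
  rw [← h1, ← g1]
  constructor
  · intro h
    by_contra hcon
    have hex : ∃ d, ¬ (d ∈ E σ ↔ d ∈ E τ) := by
      by_contra hno
      push Not at hno
      exact hcon (Set.ext hno)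
    obtain ⟨d, hd, hmin⟩ : ∃ d, ¬ (d ∈ E σ ↔ d ∈ E τ) ∧ ∀ e, e < d → (d ∈ E σ ↔ d ∈ E τ) ∨
        (e ∈ E σ ↔ e ∈ E τ) := by
      refine ⟨Nat.find hex, Nat.find_spec hex, fun e he => Or.inr ?_⟩
      have := Nat.find_min hex he
      push Not at this
      by_contra hc
      exact Nat.find_min hex he hc
    have hmin' : ∀ e, e < d → (e ∈ E σ ↔ e ∈ E τ) := fun e he => (hmin e he).resolve_left hd
    by_cases hdσ : d ∈ E σ
    · have hdτ : d ∉ E τ := fun hc => hd ⟨fun _ => hc, fun _ => hdσ⟩
      exact avoid_ne hk σ' τ' h2 g2 d ((h3 d).2 hdσ) (fun hc => hdτ ((g3 d).1 hc))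
        (fun e he => by rw [h3, g3]; exact hmin' e he) (congrFun h _)
    · have hdτ : d ∈ E τ := by
        by_contra hc
        exact hd ⟨fun hx => absurd hx hdσ, fun hx => absurd hx hc⟩
      exact avoid_ne hk τ' σ' g2 h2 d ((g3 d).2 hdτ) (fun hc => hdσ ((h3 d).1 hc))
        (fun e he => by rw [h3, g3]; exact (hmin' e he).symm) (congrFun h.symm _)
  · intro h
    funext n
    apply avoid_congr hk σ' τ' h2 g2
    intro d
    rw [h3, g3, h]

/-- the partial sums. -/
def SS (s : ℕ → ℤ) (x : ℕ) : ℤ := ∑ i ∈ Finset.range x, (s i - i)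

lemma SS_succ (s : ℕ → ℤ) (x : ℕ) : SS s (x + 1) = SS s x + (s x - x) := by
  unfold SS
  rw [Finset.sum_range_succ]

lemma SS_of_bij {s : ℕ → ℤ} {m : ℕ} (h0 : ∀ j, j < m → 0 ≤ s j) (h1 : ∀ j, j < m → s j < m)
    (h2 : ∀ i j, i < m → j < m → s i = s j → i = j) : SS s m = 0 := by
  classical
  unfold SS
  rw [Finset.sum_sub_distrib, sub_eq_zero]
  have himg : (Finset.range m).image s = (Finset.range m).image (fun i : ℕ => (i : ℤ)) := by
    ext v
    rw [Finset.mem_image, Finset.mem_image]
    constructor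
    · rintro ⟨j, hj, rfl⟩
      rw [Finset.mem_range] at hj
      refine ⟨(s j).toNat, Finset.mem_range.2 ?_, ?_⟩
      · have := h0 j hj
        have := h1 j hj
        omega
      · exact Int.toNat_of_nonneg (h0 j hj)
    · rintro ⟨j, hj, rfl⟩
      rw [Finset.mem_range] at hj
      obtain ⟨i, hi, his⟩ := surj_of_inj s m h0 h1 h2 (j : ℤ) (by omega) (by omega)
      exact ⟨i, Finset.mem_range.2 hi, his⟩
  have e1 : ∑ i ∈ Finset.range m, s i = ∑ v ∈ (Finset.range m).image s, v := by
    rw [Finset.sum_image]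
    intro i hi j hj hij
    exact h2 i j (Finset.mem_range.1 hi) (Finset.mem_range.1 hj) hij
  have e2 : ∑ i ∈ Finset.range m, (i : ℤ) =
      ∑ v ∈ (Finset.range m).image (fun i : ℕ => (i : ℤ)), v := by
    rw [Finset.sum_image]
    intro i _ j _ hij
    have hij' : (i : ℤ) = (j : ℤ) := hij
    exact_mod_cast hij'
  rw [e1, e2, himg]

lemma Per_SS {s : ℕ → ℤ} {k d : ℕ} (h : Bij s k) (hd1 : 1 ≤ d) (hdk : d < k) :
    Per (SS s) (k + 1) d ↔ Dp s k d := by
  constructor
  · intro hp
    refine ⟨hd1, hdk, fun j hj => ?_⟩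
    have h1 := hp j (by omega)
    have h2 := hp (j + 1) (by omega)
    rw [show j + 1 + d = j + d + 1 by omega, SS_succ, SS_succ] at h2
    push_cast at h2
    omega
  · intro hD
    have hk0 : SS s k = 0 := SS_of_bij h.lo h.hi h.inj
    have hkd : SS s (k - d) = 0 := SS_of_bij (fun j hj => h.lo j (by omega))
      (fun j hj => by have := Dp_low h hD j (by omega); omega)
      (fun i j hi hj hij => h.inj i j (by omega) (by omega) hij)
    have hconst : ∀ x, x + d ≤ k → SS s (x + d) = SS s x + SS s d := by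
      intro x
      induction x with
      | zero =>
        intro _
        have : SS s 0 = 0 := by unfold SS; simp
        rw [this, zero_add, zero_add]
      | succ x ih =>
        intro hx
        have h1 := ih (by omega)
        have h2 := hD.2.2 x (by omega)
        rw [show x + 1 + d = x + d + 1 by omega, SS_succ, SS_succ, h1, h2]
        push_cast
        ring
    have h0 : SS s d = 0 := by
      have h1 := hconst (k - d) (by omega)
      rw [show k - d + d = k by omega, hk0, hkd] at h1
      omega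
    intro x hx
    rw [hconst x (by omega), h0, add_zero]

theorem E_to_word {k : ℕ} (σ : Equiv.Perm (Fin k)) : ∃ w : ℕ → Bool,
    (∀ i, i ≤ k → w i = w (k - i)) ∧ ∀ d, 1 ≤ d → d < k → (Per w (k + 1) d ↔ d ∈ E σ) := by
  obtain ⟨σ', -, -, h3⟩ := normal σ
  have hb := bij_ev σ'
  have h0 : SS (ev σ') 0 = SS (ev σ') (k + 1 - 1) := by
    rw [Nat.add_sub_cancel, SS_of_bij hb.lo hb.hi hb.inj]
    unfold SS
    simp
  obtain ⟨w, hw1, hw2⟩ := pal (k + 1) (SS (ev σ')) (by omega) h0
  refine ⟨w, fun i hi => ?_, fun d hd1 hd2 => ?_⟩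
  · have := hw1 i (by omega)
    rw [show k + 1 - 1 - i = k - i by omega] at this
    exact this
  · rw [hw2 d hd1 (by omega), Per_SS hb hd1 hd2, h3]

theorem word_to_E {k : ℕ} (hk : 3 ≤ k) (w : ℕ → Bool) (hw : ∀ i, i ≤ k → w i = w (k - i)) :
    ∃ σ : Equiv.Perm (Fin k), ∀ d, 1 ≤ d → d < k → (Per w (k + 1) d ↔ d ∈ E σ) := by
  classical
  wlog hw0 : w 0 = false with H
  · have hw0' : w 0 = true := by simpa using hw0
    obtain ⟨σ, hσ⟩ := H hk (fun i => !(w i)) (fun i hi => by rw [hw i hi])
      (by rw [hw0']; rfl)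
    refine ⟨σ, fun d hd1 hd2 => ?_⟩
    rw [← hσ d hd1 hd2]
    unfold Per
    constructor
    · intro h x hx
      simp only
      rw [h x hx]
    · intro h x hx
      have := h x hx
      simp only at this
      exact Bool.not_inj this
  have hwk : w k = false := by
    have := hw k le_rfl
    rw [Nat.sub_self] at this
    rw [this, hw0]
  -- the largest `c ≤ x` with `w c = false`
  set cc : ℕ → ℕ := fun x => Nat.findGreatest (fun c => w c = false) x with hcc
  have cle : ∀ x, cc x ≤ x := fun x => Nat.findGreatest_le x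
  have cspec : ∀ x, w (cc x) = false := fun x =>
    Nat.findGreatest_spec (P := fun c => w c = false) (Nat.zero_le x) hw0
  have cmax : ∀ x y, y ≤ x → w y = false → y ≤ cc x := fun x y hy hwy =>
    Nat.le_findGreatest hy hwy
  clear_value cc
  set f : ℕ → ℕ := fun x => if w (x + 1) = true then x + 1 else cc x with hf
  have f1 : ∀ x, w (x + 1) = true → f x = x + 1 := fun x hx => by simp only [hf]; rw [if_pos hx]
  have f2 : ∀ x, w (x + 1) = false → f x = cc x := fun x hx => by
    simp only [hf]; rw [if_neg (by rw [hx]; decide)]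
  have ftf : ∀ x, w (x + 1) = true ∨ w (x + 1) = false := fun x => by
    cases w (x + 1) <;> simp
  clear_value f
  have flt : ∀ x, x < k → f x < k := by
    intro x hx
    rcases ftf x with h | h
    · rw [f1 x h]
      by_contra hcon
      have : x + 1 = k := by omega
      rw [this, hwk] at h
      exact absurd h (by decide)
    · rw [f2 x h]
      have := cle x
      omega
  have finj0 : ∀ x y, x < y → f x ≠ f y := by
    intro x y hxy heq
    rcases ftf x with h | h <;> rcases ftf y with h' | h'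
    · rw [f1 x h, f1 y h'] at heq
      omega
    · rw [f1 x h, f2 y h'] at heq
      rw [heq, cspec y] at h
      exact absurd h (by decide)
    · rw [f2 x h, f1 y h'] at heq
      rw [← heq, cspec x] at h'
      exact absurd h' (by decide)
    · rw [f2 x h, f2 y h'] at heq
      have h1 := cmax y (x + 1) (by omega) h
      have h2 := cle x
      omega
  have finj : ∀ x y, f x = f y → x = y := by
    intro x y heq
    rcases lt_trichotomy x y with h | h | h
    · exact absurd heq (finj0 x y h)
    · exact h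
    · exact absurd heq.symm (finj0 y x h)
  let g : Fin k → Fin k := fun x => ⟨f x, flt x x.2⟩
  have hg : Function.Injective g := by
    intro x y hxy
    exact Fin.ext (finj x y (congrArg Fin.val hxy))
  have hgb : Function.Bijective g := Finite.injective_iff_bijective.1 hg
  have hev : ∀ x, x < k → ev (Equiv.ofBijective g hgb) x = f x := by
    intro x hx
    rw [ev_of _ x hx]
    rfl
  refine ⟨Equiv.ofBijective g hgb, fun d hd1 hd2 => ?_⟩
  set σ := Equiv.ofBijective g hgb with hσ
  clear_value σ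
  have hnm : ∀ e, ¬ Dm (ev σ) k e := by
    intro e he
    have h1 := Dm_zero (bij_ev σ) he
    rw [hev 0 (by omega)] at h1
    have h2 : f 0 ≤ 1 := by
      rcases ftf 0 with h | h
      · rw [f1 0 h]
      · rw [f2 0 h]
        have := cle 0
        omega
    omega
  constructor
  · intro hp
    left
    refine ⟨hd1, hd2, fun x hx => ?_⟩
    rw [hev x (by omega), hev (x + d) hx]
    have h1 := hp (x + 1) (by omega)
    rcases ftf x with h | h
    · rw [f1 x h, f1 (x + d) (by rw [show x + d + 1 = x + 1 + d by omega, ← h1, h])]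
      push_cast
      ring
    · rw [f2 x h, f2 (x + d) (by rw [show x + d + 1 = x + 1 + d by omega, ← h1, h])]
      have h2 : cc (x + d) = cc x + d := by
        apply le_antisymm
        · by_contra hcon
          have h3 := cle (x + d)
          have h4 := hp (cc (x + d) - d) (by omega)
          rw [show cc (x + d) - d + d = cc (x + d) by omega, cspec] at h4
          have h5 := cmax x (cc (x + d) - d) (by omega) h4
          omega
        · apply cmax
          · have := cle x
            omega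
          · have h3 := cle x
            rw [← hp (cc x) (by omega), cspec]
      rw [h2]
      push_cast
      ring
  · rintro (hD | hD)
    · have h1 : ∀ y, 1 ≤ y → y + d ≤ k → w y = w (y + d) := by
        intro y hy1 hy2
        obtain ⟨x, rfl⟩ : ∃ x, y = x + 1 := ⟨y - 1, by omega⟩
        have h2 := hD.2.2 x (by omega)
        rw [hev x (by omega), hev (x + d) (by omega)] at h2
        have c1 := cle x
        have c2 := cle (x + d)
        rw [show x + 1 + d = x + d + 1 by omega]
        rcases ftf x with h | h <;> rcases ftf (x + d) with h' | h'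
        · rw [h, h']
        · rw [f1 x h, f2 _ h'] at h2
          omega
        · rw [f2 x h, f1 _ h'] at h2
          omega
        · rw [h, h']
      intro x hx
      rcases Nat.eq_zero_or_pos x with h0 | h0
      · subst h0
        rw [zero_add]
        have e1 := hw 0 (by omega)
        have e2 := hw d (by omega)
        have e3 := h1 (k - d) (by omega) (by omega)
        rw [show k - d + d = k by omega] at e3
        rw [Nat.sub_zero] at e1
        rw [e1, e2, e3]
      · exact h1 x h0 (by omega)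
    · exact absurd hD (hnm d)

end Pool.Agent.X2.Hertz
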