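import Mathlib
import Pool.Agent.X2.AdicJoint
import Pool.Agent.W472.AC.EMeas2

/-!
# Sums of `b`-adic complexities of reversed windows: relations of degree one with the powers of `e`
-/

set_option autoImplicit false

namespace Pool.Agent.X2.AdicRel

open Finset
open Pool.Agent.X2.AdicDigits
open Pool.Agent.X2.AdicJoint
open Pool.Agent.W472.AC (Meas)

/-- **Relations of degree one with numbers which have a measure of linear independence.** -/
theorem joint {r D : ℕ} (x : Fin r → ℝ) (y : Fin (D + 1) → ℝ) {w c : ℝ} (hw : 0 ≤ w) (hc : 0 < c)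
    (hy : Meas y w c) (A0 : Fin (D + 1) → ℤ) (A : Fin r → Fin (D + 1) → ℤ)
    (hrel : ∑ s, ((A0 s : ℝ) + ∑ i, x i * A i s) * y s = 0)
    (hv : ∃ s, (A0 s : ℝ) + ∑ i, x i * A i s ≠ 0) :
    ∃ C : ℝ, ∀ b : ℕ, 2 ≤ b → ∀ m n : ℕ,
      ((n : ℝ) - w * m) / (w + 1) - C ≤ ∑ i, adicComplexity b n (backwards b (x i) m n) := by
  classical
  obtain ⟨s0, hs0⟩ := hv
  obtain ⟨v, hvdef⟩ : ∃ v : Fin (D + 1) → ℝ, ∀ s, v s = (A0 s : ℝ) + ∑ i, x i * A i s :=
    ⟨_, fun s => rfl⟩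
  have hv0 : 0 < |v s0| := by rw [hvdef]; exact abs_pos.2 hs0
  obtain ⟨M, hM⟩ : ∃ M : ℝ, M = 1 + ∑ s, (|(A0 s : ℝ)| + ∑ i, |(A i s : ℝ)|) := ⟨_, rfl⟩
  have hM1 : 1 ≤ M := by
    rw [hM]
    have : 0 ≤ ∑ s, (|(A0 s : ℝ)| + ∑ i, |(A i s : ℝ)|) :=
      sum_nonneg fun s _ => add_nonneg (abs_nonneg _) (sum_nonneg fun i _ => abs_nonneg _)
    linarith
  have hMs : ∀ s, |(A0 s : ℝ)| + ∑ i, |(A i s : ℝ)| ≤ M := by
    intro s
    rw [hM]
    have := single_le_sum (f := fun s => |(A0 s : ℝ)| + ∑ i, |(A i s : ℝ)|)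
      (fun s _ => add_nonneg (abs_nonneg _) (sum_nonneg fun i _ => abs_nonneg _)) (mem_univ s)
    linarith
  have hMA : ∀ s, ∑ i, |(A i s : ℝ)| ≤ M := fun s => by
    have := hMs s
    have := abs_nonneg (A0 s : ℝ)
    linarith
  obtain ⟨Xb, hXb⟩ : ∃ Xb : ℝ, Xb = 1 + ∑ i, |x i| := ⟨_, rfl⟩
  have hXb1 : 1 ≤ Xb := by
    rw [hXb]
    have : 0 ≤ ∑ i, |x i| := sum_nonneg fun i _ => abs_nonneg _
    linarith
  have hxX : ∀ i, |x i| ≤ Xb := by
    intro i
    rw [hXb]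
    have := single_le_sum (f := fun i => |x i|) (fun i _ => abs_nonneg _) (mem_univ i)
    linarith
  have hvM : ∀ s, |v s| ≤ M * Xb := by
    intro s
    rw [hvdef]
    calc |(A0 s : ℝ) + ∑ i, x i * A i s| ≤ |(A0 s : ℝ)| + ∑ i, |x i * A i s| :=
          (abs_add_le _ _).trans (add_le_add le_rfl (abs_sum_le_sum_abs _ _))
      _ ≤ |(A0 s : ℝ)| * Xb + ∑ i, |(A i s : ℝ)| * Xb := by
          apply add_le_add (le_mul_of_one_le_right (abs_nonneg _) hXb1)
          apply sum_le_sum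
          intro i _
          rw [abs_mul, mul_comm]
          exact mul_le_mul_of_nonneg_left (hxX i) (abs_nonneg _)
      _ = (|(A0 s : ℝ)| + ∑ i, |(A i s : ℝ)|) * Xb := by rw [← sum_mul, add_mul]
      _ ≤ M * Xb := mul_le_mul_of_nonneg_right (hMs s) (by linarith)
  obtain ⟨Y, hY⟩ : ∃ Y : ℝ, Y = 1 + ∑ s, |y s| := ⟨_, rfl⟩
  have hY1 : 1 ≤ Y := by
    rw [hY]
    have : 0 ≤ ∑ s, |y s| := sum_nonneg fun i _ => abs_nonneg _
    linarith
  obtain ⟨c1, hc1⟩ : ∃ c1 : ℝ, c1 = min (1 / 2) (|v s0| / (4 * M)) := ⟨_, rfl⟩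
  have hc10 : 0 < c1 := by
    rw [hc1]; exact lt_min (by norm_num) (by positivity)
  have hc1h : c1 ≤ 1 / 2 := by rw [hc1]; exact min_le_left _ _
  have hc1v : c1 ≤ |v s0| / (4 * M) := by rw [hc1]; exact min_le_right _ _
  obtain ⟨C2, hC2⟩ : ∃ C2 : ℝ, C2 = (2 * M * Xb) ^ w * (2 * M * Y) / c := ⟨_, rfl⟩
  have hC20 : 0 < C2 := by
    rw [hC2]
    positivity
  have hl2 : 0 < Real.log 2 := Real.log_pos (by norm_num)
  refine ⟨|Real.log c1| / Real.log 2 + |Real.log C2| / Real.log 2, ?_⟩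
  intro b hb m n
  have hbR : (1 : ℝ) < b := by exact_mod_cast (by omega : 1 < b)
  have hb0 : (0 : ℝ) < b := by linarith
  have hb2 : (2 : ℝ) ≤ b := by exact_mod_cast hb
  have hlb : Real.log 2 ≤ Real.log b := Real.log_le_log (by norm_num) hb2
  have hlb0 : 0 < Real.log b := by linarith
  have hlogb : ∀ z : ℝ, |Real.logb b z| ≤ |Real.log z| / Real.log 2 := by
    intro z
    unfold Real.logb
    rw [abs_div, abs_of_pos hlb0]
    exact div_le_div_of_nonneg_left (abs_nonneg _) hl2 hlb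
  have hm0 : (0 : ℝ) ≤ m := Nat.cast_nonneg m
  have hn0 : (0 : ℝ) ≤ n := Nat.cast_nonneg n
  have hbn0 : (0 : ℝ) < (b : ℝ) ^ n := by positivity
  have hbm0 : (0 : ℝ) < (b : ℝ) ^ m := by positivity
  have hbm1 : (1 : ℝ) ≤ (b : ℝ) ^ m := one_le_pow₀ hbR.le
  choose g hg1 hgH k hk using fun i => exists_approx hb (x i) m n
  set H : Fin r → ℝ := fun i => (size b n (backwards b (x i) m n) : ℝ) with hH
  have hH1 : ∀ i, 1 ≤ H i := fun i => by
    simp only [hH]; exact_mod_cast size_pos n _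
  have hH0 : ∀ i, 0 < H i := fun i => by have := hH1 i; linarith
  have hgH' : ∀ i, (g i : ℝ) ≤ H i := fun i => by simp only [hH]; exact_mod_cast hgH i
  have hg1' : ∀ i, (1 : ℝ) ≤ g i := fun i => by exact_mod_cast hg1 i
  set P : ℝ := ∏ i, H i with hP
  have hP0 : 0 < P := prod_pos fun i _ => hH0 i
  have hP1 : 1 ≤ P := by
    rw [hP]
    have h1 : ∏ _i : Fin r, (1 : ℝ) ≤ ∏ i, H i :=
      prod_le_prod (fun i _ => zero_le_one) fun i _ => hH1 i
    simpa using h1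
  have hsum : ∑ i, adicComplexity b n (backwards b (x i) m n) = Real.logb b P := by
    unfold adicComplexity
    rw [hP, Real.logb_prod _ _ fun i _ => (hH0 i).ne']
  rw [hsum]
  have hq0 : 0 ≤ |Real.log c1| / Real.log 2 := by positivity
  have hq1 : 0 ≤ |Real.log C2| / Real.log 2 := by positivity
  rcases le_or_gt (c1 * (b : ℝ) ^ n) P with hbig | hsmall
  · have h1 := Real.logb_le_logb_of_le hbR (by positivity) hbig
    rw [Real.logb_mul hc10.ne' hbn0.ne', Real.logb_pow, Real.logb_self_eq_one hbR] at h1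
    have h2 := neg_abs_le (Real.logb b c1)
    have h3 := hlogb c1
    have h4 : ((n : ℝ) - w * m) / (w + 1) ≤ n := by
      rw [div_le_iff₀ (by linarith)]
      nlinarith [mul_nonneg hw hm0, mul_nonneg hw hn0]
    linarith
  set G : ℕ := ∏ i, g i with hG
  have hG1 : 1 ≤ G := Nat.one_le_iff_ne_zero.2 (prod_ne_zero_iff.2 fun i _ => by
    have := hg1 i; omega)
  have hG1R : (1 : ℝ) ≤ G := by exact_mod_cast hG1
  have hGP : (G : ℝ) ≤ P := by
    rw [hG, hP]
    push_cast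
    exact prod_le_prod (fun i _ => by positivity) fun i _ => hgH' i
  have hprod : ∀ i, (G : ℝ) = (∏ j ∈ univ.erase i, (g j : ℝ)) * g i := fun i => by
    rw [hG, prod_erase_mul _ _ (mem_univ i)]
    push_cast
    rfl
  -- the coefficients
  obtain ⟨a, ha⟩ : ∃ a : Fin (D + 1) → ℤ, ∀ s, a s = (b : ℤ) ^ m * G * A0 s +
      ∑ i, (∏ j ∈ univ.erase i, (g j : ℤ)) * k i * A i s := ⟨_, fun s => rfl⟩
  obtain ⟨R, hR⟩ : ∃ R : Fin (D + 1) → ℝ, ∀ s, R s = ∑ i, (∏ j ∈ univ.erase i, (g j : ℝ)) *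
      ((g i : ℝ) * (b : ℝ) ^ m * x i - k i) * A i s := ⟨_, fun s => rfl⟩
  have haR : ∀ s, (a s : ℝ) = (b : ℝ) ^ m * G * v s - R s := by
    intro s
    rw [ha, hR, hvdef]
    push_cast
    have e2 : ∑ i, (∏ j ∈ univ.erase i, (g j : ℝ)) * ((g i : ℝ) * (b : ℝ) ^ m * x i - k i) * A i s =
        (b : ℝ) ^ m * G * ∑ i, x i * A i s -
          ∑ i, (∏ j ∈ univ.erase i, (g j : ℝ)) * k i * A i s := by
      rw [mul_sum, ← sum_sub_distrib]
      apply sum_congr rfl
      intro i _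
      rw [hprod i]
      ring
    rw [e2]
    ring
  have hRb : ∀ s, |R s| ≤ 2 * P / (b : ℝ) ^ n * M := by
    intro s
    rw [hR]
    calc |∑ i, (∏ j ∈ univ.erase i, (g j : ℝ)) * ((g i : ℝ) * (b : ℝ) ^ m * x i - k i) * A i s|
        ≤ ∑ i, |(∏ j ∈ univ.erase i, (g j : ℝ)) * ((g i : ℝ) * (b : ℝ) ^ m * x i - k i) * A i s| :=
          abs_sum_le_sum_abs _ _
      _ ≤ ∑ i, (2 * P / (b : ℝ) ^ n) * |(A i s : ℝ)| := by
          apply sum_le_sum
          intro i _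
          rw [abs_mul, abs_mul]
          apply mul_le_mul_of_nonneg_right _ (abs_nonneg _)
          have h1 : 0 ≤ ∏ j ∈ univ.erase i, (g j : ℝ) := prod_nonneg fun j _ => by positivity
          rw [abs_of_nonneg h1]
          calc (∏ j ∈ univ.erase i, (g j : ℝ)) * |(g i : ℝ) * (b : ℝ) ^ m * x i - k i|
              ≤ (∏ j ∈ univ.erase i, H j) * (2 * H i / (b : ℝ) ^ n) := by
                apply mul_le_mul _ (hk i) (abs_nonneg _)
                  (prod_nonneg fun j _ => (hH0 j).le)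
                exact prod_le_prod (fun j _ => by positivity) fun j _ => hgH' j
            _ = 2 * ((∏ j ∈ univ.erase i, H j) * H i) / (b : ℝ) ^ n := by ring
            _ = 2 * P / (b : ℝ) ^ n := by rw [prod_erase_mul _ _ (mem_univ i)]
      _ = (2 * P / (b : ℝ) ^ n) * ∑ i, |(A i s : ℝ)| := by rw [mul_sum]
      _ ≤ 2 * P / (b : ℝ) ^ n * M := mul_le_mul_of_nonneg_left (hMA s) (by positivity)
  have hPb : P / (b : ℝ) ^ n < c1 := by
    rw [div_lt_iff₀ hbn0]; exact hsmall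
  have hane : a ≠ 0 := by
    intro h0
    have h1 : (a s0 : ℝ) = 0 := by rw [h0]; simp
    rw [haR] at h1
    have h2 : |R s0| = (b : ℝ) ^ m * G * |v s0| := by
      have h3 : R s0 = (b : ℝ) ^ m * G * v s0 := by linarith
      rw [h3, abs_mul, abs_of_nonneg (by positivity)]
    have h4 : |v s0| ≤ (b : ℝ) ^ m * G * |v s0| := by
      apply le_mul_of_one_le_left (abs_nonneg _)
      calc (1 : ℝ) = 1 * 1 := by ring
        _ ≤ (b : ℝ) ^ m * G := mul_le_mul hbm1 hG1R zero_le_one (by positivity)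
    have h5 := hRb s0
    have h6 : 2 * P / (b : ℝ) ^ n * M < 2 * c1 * M := by
      rw [mul_div_assoc]
      apply mul_lt_mul_of_pos_right _ (by linarith)
      linarith
    have h7 : 2 * c1 * M ≤ |v s0| / 2 := by
      have h8 := mul_le_mul_of_nonneg_right hc1v (show 0 ≤ 4 * M by linarith)
      rw [div_mul_cancel₀ _ (by positivity)] at h8
      linarith
    linarith
  obtain ⟨Ht, hHt⟩ : ∃ Ht : ℝ, Ht = (2 * M * Xb) * ((b : ℝ) ^ m * P) := ⟨_, rfl⟩
  have hbP1 : 1 ≤ (b : ℝ) ^ m * P := by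
    calc (1 : ℝ) = 1 * 1 := by ring
      _ ≤ (b : ℝ) ^ m * P := mul_le_mul hbm1 hP1 zero_le_one (by positivity)
  have hMX : 1 ≤ M * Xb := by
    calc (1 : ℝ) = 1 * 1 := by ring
      _ ≤ M * Xb := mul_le_mul hM1 hXb1 zero_le_one (by linarith)
  have hHt1 : 1 ≤ Ht := by
    rw [hHt]
    nlinarith
  have haH : ∀ s, |(a s : ℝ)| ≤ Ht := by
    intro s
    rw [haR, hHt]
    have h1 : |(b : ℝ) ^ m * G * v s - R s| ≤ (b : ℝ) ^ m * G * |v s| + |R s| := by
      refine (abs_sub _ _).trans ?_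
      rw [abs_mul, abs_of_nonneg (show 0 ≤ (b : ℝ) ^ m * (G : ℝ) by positivity)]
    have h2 : (b : ℝ) ^ m * G * |v s| ≤ (b : ℝ) ^ m * P * (M * Xb) := by
      apply mul_le_mul _ (hvM s) (abs_nonneg _) (by positivity)
      exact mul_le_mul_of_nonneg_left hGP hbm0.le
    have h3 : |R s| ≤ (b : ℝ) ^ m * P * (M * Xb) := by
      refine (hRb s).trans ?_
      have h4 : 2 * P / (b : ℝ) ^ n ≤ 1 := by
        rw [mul_div_assoc]; linarith
      calc 2 * P / (b : ℝ) ^ n * M ≤ 1 * M := mul_le_mul_of_nonneg_right h4 (by linarith)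
        _ ≤ 1 * (M * Xb) := by
            rw [one_mul, one_mul]; exact le_mul_of_one_le_right (by linarith) hXb1
        _ ≤ (b : ℝ) ^ m * P * (M * Xb) := mul_le_mul_of_nonneg_right hbP1 (by linarith)
    linarith
  have hform : |∑ s, (a s : ℝ) * y s| ≤ 2 * M * Y * P / (b : ℝ) ^ n := by
    have h1 : ∑ s, (a s : ℝ) * y s = -∑ s, R s * y s := by
      have h2 : ∑ s, v s * y s = 0 := by
        rw [← hrel]
        exact sum_congr rfl fun s _ => by rw [hvdef]
      calc ∑ s, (a s : ℝ) * y s = (b : ℝ) ^ m * G * (∑ s, v s * y s) - ∑ s, R s * y s := by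
            rw [mul_sum, ← sum_sub_distrib]
            exact sum_congr rfl fun s _ => by rw [haR]; ring
        _ = _ := by rw [h2]; ring
    rw [h1, abs_neg]
    calc |∑ s, R s * y s| ≤ ∑ s, |R s * y s| := abs_sum_le_sum_abs _ _
      _ ≤ ∑ s, (2 * P / (b : ℝ) ^ n * M) * |y s| := by
          apply sum_le_sum
          intro s _
          rw [abs_mul]
          exact mul_le_mul_of_nonneg_right (hRb s) (abs_nonneg _)
      _ = (2 * P / (b : ℝ) ^ n * M) * ∑ s, |y s| := by rw [mul_sum]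
      _ ≤ (2 * P / (b : ℝ) ^ n * M) * Y := by
          apply mul_le_mul_of_nonneg_left _ (by positivity)
          rw [hY]; linarith
      _ = 2 * M * Y * P / (b : ℝ) ^ n := by ring
  have hmain := hy a hane Ht hHt1 haH
  have hfin : (b : ℝ) ^ n ≤ C2 * (((b : ℝ) ^ m) ^ w * P ^ (w + 1)) := by
    have h1 : c ≤ Ht ^ w * (2 * M * Y * P / (b : ℝ) ^ n) :=
      hmain.trans (mul_le_mul_of_nonneg_left hform (Real.rpow_nonneg (by linarith) _))
    have h0 : Ht ^ w = (2 * M * Xb) ^ w * (((b : ℝ) ^ m) ^ w * P ^ w) := by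
      rw [hHt, Real.mul_rpow (x := 2 * M * Xb) (by positivity) (by positivity),
        Real.mul_rpow (x := (b : ℝ) ^ m) (by positivity) (by positivity)]
    rw [h0, ← mul_div_assoc, le_div_iff₀ hbn0] at h1
    have h2 : P ^ (w + 1) = P ^ w * P := by rw [Real.rpow_add_one hP0.ne']
    rw [hC2, h2]
    rw [div_mul_eq_mul_div, le_div_iff₀ hc]
    calc (b : ℝ) ^ n * c = c * (b : ℝ) ^ n := by ring
      _ ≤ _ := h1
      _ = _ := by ring
  have hlogs := Real.logb_le_logb_of_le hbR hbn0 hfin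
  have hbmw : 0 < ((b : ℝ) ^ m) ^ w := Real.rpow_pos_of_pos hbm0 _
  have hPw : 0 < P ^ (w + 1) := Real.rpow_pos_of_pos hP0 _
  rw [Real.logb_mul hC20.ne' (by positivity), Real.logb_mul hbmw.ne' hPw.ne',
    Real.logb_rpow_eq_mul_logb_of_pos hbm0, Real.logb_rpow_eq_mul_logb_of_pos hP0,
    Real.logb_pow, Real.logb_pow, Real.logb_self_eq_one hbR] at hlogs
  have h3 := le_abs_self (Real.logb b C2)
  have h4 := hlogb C2
  have h5 : ((n : ℝ) - w * m) / (w + 1) ≤ Real.logb b P + |Real.log C2| / Real.log 2 := by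
    rw [div_le_iff₀ (by linarith)]
    have h6 : 0 ≤ w * (|Real.log C2| / Real.log 2) := mul_nonneg hw hq1
    nlinarith
  linarith

end Pool.Agent.X2.AdicRel
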