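import Mathlib
import Pool.Agent.TH419.FS.RidPow

set_option autoImplicit false

/-!
Ridout's theorem for `n₀ c ^ i - m b ^ ν` with a variable multiplier `n₀` (adapted from
`Pool.Agent.TH419.FS.RidPow`, where `n₀` is fixed).
-/

namespace Pool.Agent.X2.RidMul

open Finset
open Pool.Agent.W180.RR Pool.Agent.TH419.FS

/-- Ridout's theorem for the numbers `n₀ c ^ i - m b ^ ν` with a variable multiplier `n₀` -/
theorem ridout_mul {b c : ℕ} (hb : 2 ≤ b) (hc : 2 ≤ c) (hbc : b.Coprime c) (η : ℝ) (hη : 0 < η) :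
    ∃ κ : ℝ, 0 < κ ∧ ∀ (n0 ν i : ℕ) (m : ℤ), 1 ≤ n0 → (b : ℝ) ^ ν ≤ n0 * (c : ℝ) ^ i →
      (n0 : ℤ) * c ^ i ≠ m * b ^ ν →
      κ * (b : ℝ) ^ ν ≤ n0 * ((n0 * (c : ℝ) ^ i) ^ η * |n0 * (c : ℝ) ^ i - m * (b : ℝ) ^ ν|) := by
  classical
  let S : Finset ℕ := b.primeFactors ∪ c.primeFactors
  have hSb : ∀ ℓ ∈ b.primeFactors, ℓ.Prime := fun ℓ hℓ => Nat.prime_of_mem_primeFactors hℓ
  have hSc : ∀ ℓ ∈ c.primeFactors, ℓ.Prime := fun ℓ hℓ => Nat.prime_of_mem_primeFactors hℓ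
  have hS : ∀ ℓ ∈ S, ℓ.Prime := fun ℓ hℓ => by
    rcases Finset.mem_union.1 hℓ with h | h
    · exact hSb ℓ h
    · exact hSc ℓ h
  have hdisj : Disjoint b.primeFactors c.primeFactors := hbc.disjoint_primeFactors
  have hfact : ∀ i : S, Fact (i.1).Prime := fun i => ⟨hS i.1 i.2⟩
  let fs : S → AbsoluteValue ℚ ℝ := fun i =>
    haveI := hfact i
    Rat.AbsoluteValue.padic i.1
  have hfs : ∀ (i : S) (x : ℚ), fs i x = (padicNorm i.1 x : ℝ) := fun i x => rfl
  let f0 : AbsoluteValue ℚ ℝ := Rat.AbsoluteValue.real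
  have hf0 : ∀ x : ℚ, f0 x = |(x : ℝ)| := fun x => by
    simp [f0, Rat.AbsoluteValue.real_eq_abs]
  -- the targets
  let ξ : S → ℚ := fun i => if i.1 ∈ b.primeFactors then 1 else -1
  set g : Polynomial ℤ := Polynomial.X * (Polynomial.X ^ 2 - 1) with hg
  have hmon : g.Monic := by
    rw [hg]
    refine Polynomial.monic_X.mul ?_
    exact Polynomial.monic_X_pow_sub_C (1 : ℤ) (by norm_num)
  have hdeg : 0 < g.natDegree := by
    have h1 : (Polynomial.X ^ 2 - 1 : Polynomial ℤ).Monic :=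
      Polynomial.monic_X_pow_sub_C (1 : ℤ) (by norm_num)
    rw [hg, Polynomial.monic_X.natDegree_mul h1, Polynomial.natDegree_X]; omega
  obtain ⟨C0, hC0, hR⟩ := ridout f0 fs (fun i => by
      haveI := hfact i
      exact padic_na i.1)
    (fun i n => by
      haveI := hfact i
      rw [hfs]; exact_mod_cast padicNorm.of_int n)
    (fun n hn => by
      rw [hf0]
      simp_rw [hfs]
      rw [Finset.prod_coe_sort S (fun ℓ => (padicNorm ℓ (n : ℚ) : ℝ))]
      exact_mod_cast prod_ge S hS n hn)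
    g hmon hdeg 0 ξ (by rw [hg]; simp) (by
      intro i
      by_cases h : i.1 ∈ b.primeFactors <;> simp [ξ, h, hg]) η hη
  set C1 : ℝ := (1 + η) * Real.log 3 + C0 with hC1
  refine ⟨min 1 (Real.exp (-C1)), by positivity, fun n0 ν i m hn0 hνi hne => ?_⟩
  have hbR : (1 : ℝ) < b := by exact_mod_cast (by omega : 1 < b)
  have hcR : (1 : ℝ) < c := by exact_mod_cast (by omega : 1 < c)
  have hn0R : (1 : ℝ) ≤ n0 := by exact_mod_cast hn0
  have hbν : (0 : ℝ) < (b : ℝ) ^ ν := by positivity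
  have hci1 : (1 : ℝ) ≤ (c : ℝ) ^ i := one_le_pow₀ hcR.le
  have hci0 : (0 : ℝ) < (c : ℝ) ^ i := by linarith
  have hX1 : (1 : ℝ) ≤ n0 * (c : ℝ) ^ i := by nlinarith
  have hX0 : (0 : ℝ) < n0 * (c : ℝ) ^ i := by linarith
  have hcη : (1 : ℝ) ≤ (n0 * (c : ℝ) ^ i) ^ η := Real.one_le_rpow hX1 hη.le
  rcases le_or_gt ((b : ℝ) ^ ν) |n0 * (c : ℝ) ^ i - m * (b : ℝ) ^ ν| with hbig | hsmall
  · have h0 : min 1 (Real.exp (-C1)) * (b : ℝ) ^ ν ≤ 1 * (b : ℝ) ^ ν :=
      mul_le_mul_of_nonneg_right (min_le_left _ _) hbν.le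
    have h1 : 1 * |n0 * (c : ℝ) ^ i - m * (b : ℝ) ^ ν| ≤
        (n0 * (c : ℝ) ^ i) ^ η * |n0 * (c : ℝ) ^ i - m * (b : ℝ) ^ ν| :=
      mul_le_mul_of_nonneg_right hcη (abs_nonneg _)
    have h2 : 0 ≤ (n0 * (c : ℝ) ^ i) ^ η * |n0 * (c : ℝ) ^ i - m * (b : ℝ) ^ ν| := by positivity
    nlinarith
  refine (mul_le_mul_of_nonneg_right (min_le_right _ _) hbν.le).trans ?_
  -- the two integers
  set p : ℤ := (n0 : ℤ) * c ^ i with hp
  set q : ℤ := m * b ^ ν with hq
  have hpR : (p : ℝ) = n0 * (c : ℝ) ^ i := by rw [hp]; push_cast; ring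
  have hqR : (q : ℝ) = m * (b : ℝ) ^ ν := by rw [hq]; push_cast; ring
  rw [← hpR, ← hqR] at hsmall ⊢
  have hp1 : (b : ℝ) ^ ν ≤ p := by
    rw [hpR]; exact hνi
  have hp0R : (0 : ℝ) < p := lt_of_lt_of_le hbν hp1
  have hp0 : p ≠ 0 := by
    intro h; rw [h] at hp0R; simp at hp0R
  have hpq : (p : ℝ) - q ≠ 0 := by
    rw [sub_ne_zero]; exact_mod_cast hne
  have hq0 : q ≠ 0 := by
    intro h
    rw [h] at hsmall
    simp only [Int.cast_zero, sub_zero] at hsmall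
    rw [abs_of_pos hp0R] at hsmall
    linarith
  have hqle : |(q : ℝ)| ≤ 2 * p := by
    have h1 : (q : ℝ) = p - (p - q) := by ring
    rw [h1]
    refine (abs_sub _ _).trans ?_
    rw [abs_of_pos hp0R]; linarith
  have hm0 : m ≠ 0 := by
    rintro rfl; exact hq0 (by rw [hq]; ring)
  -- coprime versions
  set d : ℤ := (Int.gcd p q : ℤ) with hd
  have hdn : Int.gcd p q ≠ 0 := by
    rw [Ne, Int.gcd_eq_zero_iff]; exact fun h => hp0 h.1
  have hd0 : 0 < d := by rw [hd]; exact_mod_cast Nat.pos_of_ne_zero hdn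
  obtain ⟨p', hp'⟩ : d ∣ p := Int.gcd_dvd_left _ _
  obtain ⟨q', hq'⟩ : d ∣ q := Int.gcd_dvd_right _ _
  set g1 : ℤ := (Int.gcd (p' - q') (p' + q') : ℤ) with hg1
  have hp'0 : p' ≠ 0 := by
    rintro rfl; exact hp0 (by rw [hp', mul_zero])
  have hg1n : Int.gcd (p' - q') (p' + q') ≠ 0 := by
    rw [Ne, Int.gcd_eq_zero_iff]
    rintro ⟨h1, h2⟩
    exact hp'0 (by omega)
  have hg10 : 0 < g1 := by rw [hg1]; exact_mod_cast Nat.pos_of_ne_zero hg1n
  obtain ⟨P, hP⟩ : g1 ∣ p' - q' := Int.gcd_dvd_left _ _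
  obtain ⟨Q, hQ⟩ : g1 ∣ p' + q' := Int.gcd_dvd_right _ _
  have hcop : IsCoprime P Q := by
    rw [Int.isCoprime_iff_gcd_eq_one]
    have h1 : Int.gcd (p' - q') (p' + q') = Int.gcd (g1 * P) (g1 * Q) := by rw [← hP, ← hQ]
    rw [Int.gcd_mul_left] at h1
    have h2 : g1.natAbs = Int.gcd (p' - q') (p' + q') := by rw [hg1]; simp
    rw [h2] at h1
    exact (Nat.eq_of_mul_eq_mul_left (Nat.pos_of_ne_zero hg1n) (by rw [← h1, mul_one])).symm
  -- the common factor
  set D : ℤ := g1 * d with hD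
  have hD0 : 0 < D := mul_pos hg10 hd0
  have hDR : (0 : ℝ) < D := by exact_mod_cast hD0
  have e1 : D * P = p - q := by rw [hD, hp', hq']; linear_combination (-d) * hP
  have e2 : D * Q = p + q := by rw [hD, hp', hq']; linear_combination (-d) * hQ
  have e3 : D * (P + Q) = 2 * p := by linear_combination e1 + e2
  have e4 : D * (P - Q) = -2 * q := by linear_combination e1 - e2
  have hP0 : P ≠ 0 := by
    rintro rfl
    rw [mul_zero] at e1
    exact hpq (by rw [sub_eq_zero]; exact_mod_cast (sub_eq_zero.1 e1.symm))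
  have hZ : ∀ j : S, (P : ℚ) - ξ j * Q ≠ 0 := by
    intro j
    by_cases h : j.1 ∈ b.primeFactors
    · simp only [ξ, h, if_true, one_mul]
      intro h0
      have h1 : P - Q = 0 := by exact_mod_cast h0
      rw [h1, mul_zero] at e4
      exact hq0 (by omega)
    · simp only [ξ, h, if_false, neg_mul, one_mul, sub_neg_eq_add]
      intro h0
      have h1 : P + Q = 0 := by exact_mod_cast h0
      rw [h1, mul_zero] at e3
      exact hp0 (by omega)
  have hR1 := hR P Q hcop (by rw [zero_mul, sub_zero]; exact_mod_cast hP0) hZ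
  rw [zero_mul, sub_zero, hf0] at hR1
  have hHH1 : 1 ≤ HH P Q := HH_ge_one (Or.inl hP0)
  have hHH0 : 0 < HH P Q := by linarith
  have habs : ∀ x : ℝ, |x| * D = |D * x| := fun x => by rw [abs_mul, abs_of_pos hDR, mul_comm]
  have hHH : HH P Q ≤ 3 * p / D := by
    unfold HH
    rw [le_div_iff₀ hDR, max_mul_of_nonneg _ _ hDR.le]
    have f1 : |(P : ℝ)| * D = |(p : ℝ) - q| := by
      rw [habs]
      congr 1
      exact_mod_cast e1
    have f2 : |(Q : ℝ)| * D = |(p : ℝ) + q| := by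
      rw [habs]
      congr 1
      exact_mod_cast e2
    rw [f1, f2]
    refine max_le ((abs_sub _ _).trans ?_) ((abs_add_le _ _).trans ?_) <;>
      (rw [abs_of_pos hp0R]; linarith)
  have hPabs : |((P : ℚ) : ℝ)| = |(p : ℝ) - q| / D := by
    rw [eq_div_iff hDR.ne', habs]
    congr 1
    exact_mod_cast e1
  -- the finite places
  set pz : ℝ := ∏ j : S, fs j ((P : ℚ) - ξ j * Q) with hpz
  have hpz0 : 0 < pz := Finset.prod_pos fun j _ => (fs j).pos (hZ j)
  have hsum : ∑ j : S, -Real.log (fs j ((P : ℚ) - ξ j * Q)) = -Real.log pz := by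
    rw [hpz, Real.log_prod (fun j _ => ((fs j).pos (hZ j)).ne'), Finset.sum_neg_distrib]
  have hprodD : 1 ≤ (D : ℝ) * ∏ j : S, fs j (D : ℚ) := by
    have h1 := prod_ge S hS D hD0.ne'
    rw [abs_of_pos hDR] at h1
    simp_rw [hfs]
    rw [Finset.prod_coe_sort S (fun ℓ => (padicNorm ℓ (D : ℚ) : ℝ))]
    exact h1
  have hmain : (∏ j : S, fs j (D : ℚ)) * pz ≤ ((c : ℝ) ^ i * (b : ℝ) ^ ν)⁻¹ := by
    rw [hpz, ← Finset.prod_mul_distrib]
    have h1 : ∀ j : S, fs j (D : ℚ) * fs j ((P : ℚ) - ξ j * Q) ≤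
        (if j.1 ∈ b.primeFactors then (padicNorm j.1 ((((b ^ ν : ℕ) : ℕ) : ℚ) * m) : ℝ) else
          (padicNorm j.1 ((((c ^ i : ℕ) : ℕ) : ℚ) * (n0 : ℤ)) : ℝ)) := by
      intro j
      haveI := hfact j
      rw [← map_mul]
      by_cases h : j.1 ∈ b.primeFactors
      · simp only [ξ, h, if_true, one_mul]
        have h2 : (D : ℚ) * ((P : ℚ) - Q) = (-2 : ℤ) * ((((b ^ ν : ℕ) : ℕ) : ℚ) * m) := by
          have : ((D * (P - Q) : ℤ) : ℚ) = ((-2 * q : ℤ) : ℚ) := by rw [e4]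
          push_cast at this
          rw [this, hq]; push_cast; ring
        rw [h2, map_mul, hfs, hfs]
        have h3 : (padicNorm j.1 ((-2 : ℤ) : ℚ) : ℝ) ≤ 1 := by exact_mod_cast padicNorm.of_int _
        have h4 : (0 : ℝ) ≤ (padicNorm j.1 ((((b ^ ν : ℕ) : ℕ) : ℚ) * m) : ℝ) := by
          exact_mod_cast padicNorm.nonneg _
        exact (mul_le_mul_of_nonneg_right h3 h4).trans (one_mul _).le
      · simp only [ξ, h, if_false, neg_mul, one_mul, sub_neg_eq_add]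
        have h2 : (D : ℚ) * ((P : ℚ) + Q) = (2 : ℤ) * ((((c ^ i : ℕ) : ℕ) : ℚ) * (n0 : ℤ)) := by
          have : ((D * (P + Q) : ℤ) : ℚ) = ((2 * p : ℤ) : ℚ) := by rw [e3]
          push_cast at this
          rw [this, hp]; push_cast; ring
        rw [h2, map_mul, hfs, hfs]
        have h3 : (padicNorm j.1 ((2 : ℤ) : ℚ) : ℝ) ≤ 1 := by exact_mod_cast padicNorm.of_int _
        have h4 : (0 : ℝ) ≤ (padicNorm j.1 ((((c ^ i : ℕ) : ℕ) : ℚ) * (n0 : ℤ)) : ℝ) := by
          exact_mod_cast padicNorm.nonneg _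
        exact (mul_le_mul_of_nonneg_right h3 h4).trans (one_mul _).le
    refine (Finset.prod_le_prod (fun j _ => mul_nonneg (apply_nonneg _ _) (apply_nonneg _ _))
      fun j _ => h1 j).trans ?_
    rw [Finset.prod_coe_sort S (fun ℓ => (if ℓ ∈ b.primeFactors then
      (padicNorm ℓ ((((b ^ ν : ℕ) : ℕ) : ℚ) * m) : ℝ) else
          (padicNorm ℓ ((((c ^ i : ℕ) : ℕ) : ℚ) * (n0 : ℤ)) : ℝ))), Finset.prod_union hdisj]
    rw [Finset.prod_congr rfl (fun ℓ hℓ => if_pos hℓ),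
      Finset.prod_congr (s₁ := c.primeFactors) rfl (fun ℓ hℓ => if_neg (fun h =>
        (Finset.disjoint_left.1 hdisj h) hℓ))]
    have hkey : ∀ (a : ℕ) (r : ℕ) (z : ℤ), 2 ≤ a → z ≠ 0 →
        ∏ ℓ ∈ a.primeFactors, (padicNorm ℓ ((((a ^ r : ℕ) : ℕ) : ℚ) * z) : ℝ) ≤ ((a : ℝ) ^ r)⁻¹ := by
      intro a r z ha hz
      rcases Nat.eq_zero_or_pos r with rfl | hr
      · rw [pow_zero, pow_zero, inv_one]
        refine Finset.prod_le_one (fun ℓ _ => by exact_mod_cast padicNorm.nonneg _) fun ℓ hℓ => ?_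
        haveI : Fact ℓ.Prime := ⟨Nat.prime_of_mem_primeFactors hℓ⟩
        rw [Nat.cast_one, one_mul]
        exact_mod_cast padicNorm.of_int z
      · have h5 := prod_padic_pow_le a.primeFactors (fun ℓ hℓ => Nat.prime_of_mem_primeFactors hℓ)
          (a ^ r) (by positivity) (Nat.primeFactors_pow a hr.ne').symm z hz
        have h6 : (0 : ℝ) < (a : ℝ) ^ r := by positivity
        rw [le_inv_comm₀ ?_ h6]
        · rw [le_inv_comm₀ h6 ?_]
          · rw [← mul_le_mul_iff_right₀ h6]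
            push_cast at h5 ⊢
            rw [mul_inv_cancel₀ h6.ne']
            exact h5
          · refine Finset.prod_pos fun ℓ hℓ => ?_
            haveI : Fact ℓ.Prime := ⟨Nat.prime_of_mem_primeFactors hℓ⟩
            have h7 : padicNorm ℓ ((((a ^ r : ℕ) : ℕ) : ℚ) * z) ≠ 0 := padicNorm.nonzero (by
              have : a ≠ 0 := by omega
              have : (z : ℚ) ≠ 0 := by exact_mod_cast hz
              positivity)
            have h8 : 0 ≤ padicNorm ℓ ((((a ^ r : ℕ) : ℕ) : ℚ) * z) := padicNorm.nonneg _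
            exact_mod_cast lt_of_le_of_ne h8 h7.symm
        · refine Finset.prod_pos fun ℓ hℓ => ?_
          haveI : Fact ℓ.Prime := ⟨Nat.prime_of_mem_primeFactors hℓ⟩
          have h7 : padicNorm ℓ ((((a ^ r : ℕ) : ℕ) : ℚ) * z) ≠ 0 := padicNorm.nonzero (by
            have : a ≠ 0 := by omega
            have : (z : ℚ) ≠ 0 := by exact_mod_cast hz
            positivity)
          have h8 : 0 ≤ padicNorm ℓ ((((a ^ r : ℕ) : ℕ) : ℚ) * z) := padicNorm.nonneg _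
          exact_mod_cast lt_of_le_of_ne h8 h7.symm
    have k1 := hkey b ν m hb hm0
    have k2 := hkey c i (n0 : ℤ) hc (by exact_mod_cast (by omega : n0 ≠ 0))
    rw [mul_inv, mul_comm]
    refine mul_le_mul k2 k1 (Finset.prod_nonneg fun ℓ _ => by exact_mod_cast padicNorm.nonneg _)
      (by positivity)
  have hpzle : (c : ℝ) ^ i * (b : ℝ) ^ ν * pz ≤ D := by
    have hX : (0 : ℝ) < (c : ℝ) ^ i * (b : ℝ) ^ ν := by positivity
    have h1 : pz ≤ D * ((∏ j : S, fs j (D : ℚ)) * pz) := by nlinarith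
    have h2 : D * ((∏ j : S, fs j (D : ℚ)) * pz) ≤ D * ((c : ℝ) ^ i * (b : ℝ) ^ ν)⁻¹ :=
      mul_le_mul_of_nonneg_left hmain hDR.le
    have h3 : pz ≤ D * ((c : ℝ) ^ i * (b : ℝ) ^ ν)⁻¹ := h1.trans h2
    calc (c : ℝ) ^ i * (b : ℝ) ^ ν * pz
        ≤ (c : ℝ) ^ i * (b : ℝ) ^ ν * (D * ((c : ℝ) ^ i * (b : ℝ) ^ ν)⁻¹) :=
          mul_le_mul_of_nonneg_left h3 hX.le
      _ = D := by field_simp
  -- logarithms
  have hdpos : 0 < |(p : ℝ) - q| := abs_pos.2 hpq
  rw [hsum, hPabs, Real.log_div (by positivity) hHH0.ne', Real.log_div hdpos.ne' hDR.ne'] at hR1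
  have hl1 : Real.log ((c : ℝ) ^ i * (b : ℝ) ^ ν * pz) ≤ Real.log D :=
    Real.log_le_log (by positivity) hpzle
  rw [Real.log_mul (by positivity) hpz0.ne', Real.log_mul (by positivity) (by positivity)] at hl1
  have hl2 : Real.log (HH P Q) ≤ Real.log 3 + Real.log (p : ℝ) := by
    have h1 : HH P Q ≤ 3 * (p : ℝ) := by
      refine hHH.trans ?_
      have hD1 : (1 : ℝ) ≤ D := by exact_mod_cast hD0
      exact div_le_self (by positivity) hD1
    have h2 := Real.log_le_log hHH0 h1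
    rwa [Real.log_mul (by positivity) (by positivity)] at h2
  have hl3 : 0 ≤ Real.log (HH P Q) := Real.log_nonneg hHH1
  have hl4 : Real.log (p : ℝ) = Real.log n0 + Real.log ((c : ℝ) ^ i) := by
    rw [hpR, Real.log_mul (by positivity) (by positivity)]
  -- conclusion
  have hfin : Real.log ((b : ℝ) ^ ν) - C1 ≤
      Real.log n0 + (η * Real.log (p : ℝ) + Real.log |(p : ℝ) - q|) := by
    have h1 : (1 + η) * Real.log (HH P Q) ≤ (1 + η) * (Real.log 3 + Real.log (p : ℝ)) :=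
      mul_le_mul_of_nonneg_left hl2 (by linarith)
    rw [hC1]
    nlinarith
  clear_value C1
  have h1 : Real.exp (Real.log ((b : ℝ) ^ ν) - C1) ≤
      Real.exp (Real.log n0 + (η * Real.log (p : ℝ) + Real.log |(p : ℝ) - q|)) :=
    Real.exp_le_exp.2 hfin
  have k1 : Real.exp (Real.log ((b : ℝ) ^ ν) - C1) = Real.exp (-C1) * (b : ℝ) ^ ν := by
    rw [sub_eq_add_neg, add_comm, Real.exp_add, Real.exp_log hbν]
  have k2 : Real.exp (Real.log n0 + (η * Real.log (p : ℝ) + Real.log |(p : ℝ) - q|)) =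
      n0 * ((p : ℝ) ^ η * |(p : ℝ) - q|) := by
    rw [Real.exp_add, Real.exp_add, Real.exp_log hdpos, mul_comm η,
      ← Real.rpow_def_of_pos hp0R, Real.exp_log (by positivity)]
  rw [k1, k2] at h1
  exact h1

end Pool.Agent.X2.RidMul
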