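import Mathlib
import Pool.Agent.X2.AdicDigits
import Pool.Agent.X2.RidMul

/-!
# The `b`-adic complexity of windows of digits of `u c ^ n` in base `b`
-/

set_option autoImplicit false

namespace Pool.Agent.X2.AdicPowers

open Finset
open Pool.Agent.X2.AdicDigits (size adicComplexity bounds)

/-- the `i`-th digit of `N` in base `b`, counted from the right, starting with `i = 0` -/
def digit (b N i : ℕ) : ℕ := N / b ^ i % b

/-- the digits of `N` at the places `s, s + 1, …` -/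
def window (b N s : ℕ) : ℕ → ℤ := fun i => (digit b N (s + i) : ℤ)

lemma value (b N s k : ℕ) :
    ∑ i ∈ range k, window b N s i * (b : ℤ) ^ i = ((N / b ^ s % b ^ k : ℕ) : ℤ) := by
  induction k with
  | zero => simp [Nat.mod_one]
  | succ k ih =>
    rw [sum_range_succ, ih]
    unfold window digit
    have h1 : N / b ^ s % b ^ (k + 1) = N / b ^ s % b ^ k + b ^ k * (N / b ^ s / b ^ k % b) := by
      rw [pow_succ, Nat.mod_mul]
    rw [h1, Nat.div_div_eq_div_mul, ← pow_add]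
    push_cast
    ring

/-- lower bound for the size of a representation -/
lemma low {b c : ℕ} (hb : 2 ≤ b) (hc : 2 ≤ c) (hbc : b.Coprime c) (u : ℕ) (hu : 1 ≤ u) (η κ : ℝ)
    (hη : 0 < η) (hκ1 : κ ≤ 1)
    (hR : ∀ (n0 ν i : ℕ) (m : ℤ), 1 ≤ n0 → (b : ℝ) ^ ν ≤ n0 * (c : ℝ) ^ i →
      (n0 : ℤ) * c ^ i ≠ m * b ^ ν →
      κ * (b : ℝ) ^ ν ≤ n0 * ((n0 * (c : ℝ) ^ i) ^ η * |n0 * (c : ℝ) ^ i - m * (b : ℝ) ^ ν|))
    (n s k : ℕ) (hk : b ^ (s + k) ≤ u * c ^ n) (f g : ℤ) (hg : 0 < g)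
    (hdv : (b : ℤ) ^ k ∣ g * (∑ i ∈ range k, window b (u * c ^ n) s i * (b : ℤ) ^ i) - f) :
    κ * (b : ℝ) ^ k ≤ 2 * u * (u * (c : ℝ) ^ n) ^ η * ((max |f| |g| : ℤ) : ℝ) ^ (2 + η) := by
  set N := u * c ^ n with hN
  rw [value] at hdv
  obtain ⟨l', hl'⟩ := hdv
  -- the quotient
  set A := N / b ^ s with hA
  have hAk : (A : ℤ) = ((A % b ^ k : ℕ) : ℤ) + (b : ℤ) ^ k * ((A / b ^ k : ℕ) : ℤ) := by
    have := Nat.mod_add_div A (b ^ k)
    exact_mod_cast this.symm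
  have hNr : (N : ℤ) = ((N % b ^ s : ℕ) : ℤ) + (b : ℤ) ^ s * (A : ℤ) := by
    have := Nat.mod_add_div N (b ^ s)
    exact_mod_cast this.symm
  set r := N % b ^ s with hr
  have hrlt : r < b ^ s := Nat.mod_lt _ (by positivity)
  set l : ℤ := l' + g * ((A / b ^ k : ℕ) : ℤ) with hl
  have key : g * N - l * (b : ℤ) ^ (s + k) = g * r + f * (b : ℤ) ^ s := by
    rw [hNr, hAk, hl, pow_add]
    linear_combination (b : ℤ) ^ s * hl'
  set H : ℝ := ((max |f| |g| : ℤ) : ℝ) with hH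
  have hgR : (0 : ℝ) < g := by exact_mod_cast hg
  have hg1 : (1 : ℝ) ≤ g := by exact_mod_cast hg
  have hgH : (g : ℝ) ≤ H := by
    rw [hH]
    have : g ≤ max |f| |g| := le_max_of_le_right (le_abs_self g)
    exact_mod_cast this
  have hfH : |(f : ℝ)| ≤ H := by
    rw [hH]
    have : |f| ≤ max |f| |g| := le_max_left _ _
    exact_mod_cast this
  have hH1 : 1 ≤ H := hg1.trans hgH
  have hH0 : 0 < H := by linarith
  have hbR : (1 : ℝ) < b := by exact_mod_cast (by omega : 1 < b)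
  have hcR : (1 : ℝ) < c := by exact_mod_cast (by omega : 1 < c)
  have huR : (1 : ℝ) ≤ u := by exact_mod_cast hu
  have hcn : (1 : ℝ) ≤ (c : ℝ) ^ n := one_le_pow₀ hcR.le
  have hX1 : (1 : ℝ) ≤ u * (c : ℝ) ^ n := by nlinarith
  have hX0 : (0 : ℝ) < u * (c : ℝ) ^ n := by linarith
  have hXη : (1 : ℝ) ≤ (u * (c : ℝ) ^ n) ^ η := Real.one_le_rpow hX1 hη.le
  have hbs : (0 : ℝ) < (b : ℝ) ^ s := by positivity
  have hbk : (0 : ℝ) < (b : ℝ) ^ k := by positivity
  have hHη : (1 : ℝ) ≤ H ^ η := Real.one_le_rpow hH1 hη.le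
  have hH2 : H ^ (2 + η) = H * H * H ^ η := by
    rw [Real.rpow_add hH0, Real.rpow_two]; ring
  -- the multiplier
  set n0 : ℕ := g.toNat * u with hn0
  have hgt : ((g.toNat : ℕ) : ℤ) = g := Int.toNat_of_nonneg hg.le
  have hn0Z : (n0 : ℤ) = g * u := by rw [hn0]; push_cast; rw [hgt]
  have hn0R : (n0 : ℝ) = g * u := by exact_mod_cast hn0Z
  have hn01 : 1 ≤ n0 := by
    have h1 : 1 ≤ g.toNat := by omega
    rw [hn0]; nlinarith
  by_cases heq : (n0 : ℤ) * c ^ n = l * b ^ (s + k)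
  · -- divisibility
    have h1 : (b : ℤ) ^ (s + k) ∣ (n0 : ℤ) * c ^ n := ⟨l, by rw [heq]; ring⟩
    have h2 : b ^ (s + k) ∣ n0 * c ^ n := by exact_mod_cast h1
    have h3 : Nat.Coprime (b ^ (s + k)) (c ^ n) := Nat.Coprime.pow _ _ hbc
    have h4 : b ^ (s + k) ∣ n0 := h3.dvd_of_dvd_mul_right h2
    have h5 : b ^ (s + k) ≤ n0 := Nat.le_of_dvd (by omega) h4
    have h6 : (b : ℝ) ^ (s + k) ≤ g * u := by rw [← hn0R]; exact_mod_cast h5
    have h7 : (b : ℝ) ^ k ≤ (b : ℝ) ^ (s + k) := pow_le_pow_right₀ hbR.le (by omega)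
    have h8 : (b : ℝ) ^ k ≤ u * H := by nlinarith
    calc κ * (b : ℝ) ^ k ≤ 1 * (u * H) := mul_le_mul hκ1 h8 hbk.le zero_le_one
      _ ≤ 2 * u * (u * (c : ℝ) ^ n) ^ η * H ^ (2 + η) := by
          rw [hH2]
          have e1 : (u : ℝ) * H ≤ (u * H) * ((u * (c : ℝ) ^ n) ^ η * (H * H ^ η)) := by
            apply le_mul_of_one_le_right (by positivity)
            have : 1 ≤ H * H ^ η := by nlinarith
            nlinarith
          have e2 : 2 * (u : ℝ) * (u * (c : ℝ) ^ n) ^ η * (H * H * H ^ η) =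
              2 * ((u * H) * ((u * (c : ℝ) ^ n) ^ η * (H * H ^ η))) := by ring
          rw [e2]
          have e3 : 0 ≤ (u * H) * ((u * (c : ℝ) ^ n) ^ η * (H * H ^ η)) := by positivity
          linarith
  · have h1 : (b : ℝ) ^ (s + k) ≤ n0 * (c : ℝ) ^ n := by
      have h2 : (b : ℝ) ^ (s + k) ≤ u * (c : ℝ) ^ n := by exact_mod_cast hk
      rw [hn0R]
      nlinarith
    have h2 := hR n0 (s + k) n l hn01 h1 heq
    have h3 : |(n0 : ℝ) * (c : ℝ) ^ n - l * (b : ℝ) ^ (s + k)| ≤ 2 * H * (b : ℝ) ^ s := by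
      have e1 : (n0 : ℝ) * (c : ℝ) ^ n - l * (b : ℝ) ^ (s + k) = g * r + f * (b : ℝ) ^ s := by
        have h4 : ((g * N - l * (b : ℤ) ^ (s + k) : ℤ) : ℝ) = ((g * r + f * (b : ℤ) ^ s : ℤ) : ℝ) := by
          rw [key]
        rw [hN] at h4
        push_cast at h4
        rw [hn0R]
        linarith
      rw [e1]
      calc |(g : ℝ) * r + f * (b : ℝ) ^ s| ≤ |(g : ℝ) * r| + |f * (b : ℝ) ^ s| := abs_add_le _ _
        _ = g * r + |(f : ℝ)| * (b : ℝ) ^ s := by
            rw [abs_mul, abs_mul, abs_of_pos hgR, abs_of_nonneg (Nat.cast_nonneg r),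
              abs_of_pos hbs]
        _ ≤ 2 * H * (b : ℝ) ^ s := by
            have h5 : (r : ℝ) ≤ (b : ℝ) ^ s := by exact_mod_cast hrlt.le
            have h6 : (0 : ℝ) ≤ r := Nat.cast_nonneg r
            have h7 : (g : ℝ) * r ≤ H * (b : ℝ) ^ s := mul_le_mul hgH h5 h6 hH0.le
            have h8 : |(f : ℝ)| * (b : ℝ) ^ s ≤ H * (b : ℝ) ^ s :=
              mul_le_mul_of_nonneg_right hfH hbs.le
            linarith
    clear_value n0 r l H
    have hu0 : (0 : ℝ) ≤ u := by linarith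
    have hn0H : (n0 : ℝ) ≤ u * H := by
      rw [hn0R, mul_comm]
      exact mul_le_mul_of_nonneg_left hgH hu0
    have hn00 : (0 : ℝ) < n0 := Nat.cast_pos.2 (by omega)
    have hcn0 : (0 : ℝ) < (c : ℝ) ^ n := by linarith
    have h4 : (n0 * (c : ℝ) ^ n) ^ η ≤ (u * (c : ℝ) ^ n) ^ η * H ^ η := by
      rw [← Real.mul_rpow hX0.le hH0.le]
      apply Real.rpow_le_rpow (by positivity) _ hη.le
      calc (n0 : ℝ) * (c : ℝ) ^ n ≤ (u * H) * (c : ℝ) ^ n :=
            mul_le_mul_of_nonneg_right hn0H hcn0.le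
        _ = u * (c : ℝ) ^ n * H := by ring
    have h5 : κ * (b : ℝ) ^ (s + k) ≤
        (u * H) * (((u * (c : ℝ) ^ n) ^ η * H ^ η) * (2 * H * (b : ℝ) ^ s)) := by
      refine h2.trans ?_
      apply mul_le_mul hn0H _ (by positivity) (by positivity)
      exact mul_le_mul h4 h3 (abs_nonneg _) (by positivity)
    have h6 : κ * (b : ℝ) ^ (s + k) = (b : ℝ) ^ s * (κ * (b : ℝ) ^ k) := by rw [pow_add]; ring
    have h7 : (u * H) * (((u * (c : ℝ) ^ n) ^ η * H ^ η) * (2 * H * (b : ℝ) ^ s)) =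
        (b : ℝ) ^ s * (2 * u * (u * (c : ℝ) ^ n) ^ η * (H * H * H ^ η)) := by ring
    rw [h6, h7] at h5
    rw [hH2]
    exact le_of_mul_le_mul_left h5 hbs

/-- the complexity of the windows of `u c ^ n` -/
theorem powers {b c : ℕ} (hb : 2 ≤ b) (hc : 2 ≤ c) (hbc : b.Coprime c) (u : ℕ) (hu : 1 ≤ u)
    (ε : ℝ) (hε : 0 < ε) :
    ∃ C : ℝ, ∀ n s k : ℕ, b ^ (s + k) ≤ u * c ^ n →
      |adicComplexity b k (window b (u * c ^ n) s) - k / 2| ≤ ε * n + C := by
  have hbR : (1 : ℝ) < b := by exact_mod_cast (by omega : 1 < b)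
  have hcR : (1 : ℝ) < c := by exact_mod_cast (by omega : 1 < c)
  have hb0 : (0 : ℝ) < b := by linarith
  have huR : (1 : ℝ) ≤ u := by exact_mod_cast hu
  set T := Real.logb b c with hT
  have hT0 : 0 < T := Real.logb_pos hbR hcR
  set η : ℝ := ε / T with hη
  have hη0 : 0 < η := by positivity
  obtain ⟨κ0, hκ0, hR0⟩ := RidMul.ridout_mul hb hc hbc η hη0
  set κ : ℝ := min κ0 1 with hκ
  have hκpos : 0 < κ := lt_min hκ0 one_pos
  have hκ1 : κ ≤ 1 := min_le_right _ _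
  have hR : ∀ (n0 ν i : ℕ) (m : ℤ), 1 ≤ n0 → (b : ℝ) ^ ν ≤ n0 * (c : ℝ) ^ i →
      (n0 : ℤ) * c ^ i ≠ m * b ^ ν →
      κ * (b : ℝ) ^ ν ≤ n0 * ((n0 * (c : ℝ) ^ i) ^ η * |n0 * (c : ℝ) ^ i - m * (b : ℝ) ^ ν|) := by
    intro n0 ν i m h1 h2 h3
    refine le_trans ?_ (hR0 n0 ν i m h1 h2 h3)
    exact mul_le_mul_of_nonneg_right (min_le_left _ _) (by positivity)
  set U := Real.logb b u with hU
  have hU0 : 0 ≤ U := Real.logb_nonneg hbR huR
  set K0 : ℝ := |Real.logb b κ| + Real.logb b (2 * u) + 2 * η * U with hK0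
  refine ⟨2 + K0, ?_⟩
  intro n s k hk
  have hcn : (1 : ℝ) ≤ (c : ℝ) ^ n := one_le_pow₀ hcR.le
  have hX1 : (1 : ℝ) ≤ u * (c : ℝ) ^ n := by nlinarith
  have hX0 : (0 : ℝ) < u * (c : ℝ) ^ n := by linarith
  have hXη : (1 : ℝ) ≤ (u * (c : ℝ) ^ n) ^ η := Real.one_le_rpow hX1 hη0.le
  have hbk : (1 : ℝ) ≤ (b : ℝ) ^ k := one_le_pow₀ hbR.le
  have hbk0 : (0 : ℝ) < (b : ℝ) ^ k := by positivity
  set Y : ℝ := 2 * u * (u * (c : ℝ) ^ n) ^ η with hY
  have hY1 : 1 ≤ Y := by rw [hY]; nlinarith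
  have hY0 : 0 < Y := by linarith
  set W : ℝ := κ * (b : ℝ) ^ k / Y with hW
  have hW0 : 0 < W := by positivity
  have hWb : W ≤ (b : ℝ) ^ k := by
    rw [hW, div_le_iff₀ hY0]
    nlinarith
  set L : ℝ := W ^ (1 / (2 + η)) with hL
  have hL0 : 0 < L := Real.rpow_pos_of_pos hW0 _
  have hLb : L ≤ (b : ℝ) ^ k := by
    calc L ≤ ((b : ℝ) ^ k) ^ (1 / (2 + η)) := Real.rpow_le_rpow hW0.le hWb (by positivity)
      _ ≤ ((b : ℝ) ^ k) ^ (1 : ℝ) := by
          apply Real.rpow_le_rpow_of_exponent_le hbk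
          rw [div_le_one (by positivity)]
          linarith
      _ = (b : ℝ) ^ k := Real.rpow_one _
  have hlow : ∀ f g : ℤ, 0 < g →
      (b : ℤ) ^ k ∣ g * (∑ i ∈ range k, window b (u * c ^ n) s i * (b : ℤ) ^ i) - f →
      L ≤ (max |f| |g| : ℤ) := by
    intro f g hg hdv
    have h1 := low hb hc hbc u hu η κ hη0 hκ1 hR n s k hk f g hg hdv
    set H : ℝ := ((max |f| |g| : ℤ) : ℝ) with hH
    have hH0 : 0 < H := by
      have h2 : (0 : ℤ) < max |f| |g| := lt_max_of_lt_right (abs_pos.2 hg.ne')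
      rw [hH]
      exact Int.cast_pos.2 h2
    have h2 : W ≤ H ^ (2 + η) := by
      rw [hW, div_le_iff₀ hY0, hY]
      linarith
    calc L ≤ (H ^ (2 + η)) ^ (1 / (2 + η)) := Real.rpow_le_rpow hW0.le h2 (by positivity)
      _ = H := by
          rw [← Real.rpow_mul hH0.le, mul_one_div_cancel (by positivity), Real.rpow_one]
  obtain ⟨h1, h2⟩ := bounds hb k _ L hL0 hLb hlow
  -- the logarithm of L
  have hlX : Real.logb b (u * (c : ℝ) ^ n) = U + n * T := by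
    rw [Real.logb_mul (by positivity) (by positivity), Real.logb_pow]
  have hlY : Real.logb b Y = Real.logb b (2 * u) + η * (U + n * T) := by
    rw [hY, Real.logb_mul (by positivity) (by positivity),
      Real.logb_rpow_eq_mul_logb_of_pos hX0, hlX]
  have h3 : Real.logb b L = (Real.logb b κ + k - Real.logb b Y) / (2 + η) := by
    rw [hL, Real.logb_rpow_eq_mul_logb_of_pos hW0, hW, Real.logb_div (by positivity) hY0.ne',
      Real.logb_mul hκpos.ne' hbk0.ne', Real.logb_pow, Real.logb_self_eq_one hbR]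
    ring
  have hkX : (k : ℝ) ≤ U + n * T := by
    have h4 : (b : ℝ) ^ (s + k) ≤ u * (c : ℝ) ^ n := by exact_mod_cast hk
    have h5 := Real.logb_le_logb_of_le hbR (by positivity) h4
    rw [hlX, Real.logb_pow, Real.logb_self_eq_one hbR] at h5
    push_cast at h5
    have h6 : (0 : ℝ) ≤ s := Nat.cast_nonneg s
    linarith
  have hηT : η * T = ε := by rw [hη]; field_simp
  have h4 : Real.logb b L ≥ k / 2 - ε * n - K0 := by
    rw [h3, hlY, ge_iff_le, le_div_iff₀ (by positivity), hK0]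
    have h5 := neg_abs_le (Real.logb b κ)
    have h6 := abs_nonneg (Real.logb b κ)
    have hn : (0 : ℝ) ≤ n := Nat.cast_nonneg n
    have h2u : 0 ≤ Real.logb b (2 * u) := Real.logb_nonneg hbR (by linarith)
    have h7 : 0 ≤ η * |Real.logb b κ| := by positivity
    have h8 : 0 ≤ ε * n := by positivity
    have h9 : 0 ≤ η * (ε * n) := by positivity
    have h10 : 0 ≤ η * Real.logb b (2 * u) := by positivity
    have h11 : 0 ≤ η * U := by positivity
    have h12 : 0 ≤ η * (η * U) := by positivity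
    have h13 : η * k ≤ η * (U + n * T) := mul_le_mul_of_nonneg_left hkX hη0.le
    have h14 : η * (U + n * T) = η * U + ε * n := by rw [mul_add, ← hηT]; ring
    rw [h14] at h13 ⊢
    nlinarith
  rw [abs_le]
  have h6 : 0 ≤ K0 := by
    have h2u : 0 ≤ Real.logb b (2 * u) := Real.logb_nonneg hbR (by linarith)
    positivity
  constructor <;> linarith

end Pool.Agent.X2.AdicPowers
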