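import Mathlib
import Pool.Agent.TH915.PW.Scaled
import Pool.Agent.H469R2.NK.KL

/-!
# Record prime gaps around the geometric means of the elements of two dense sets
-/

set_option autoImplicit false

namespace Pool.Agent.X2.GeoMean

open Finset Filter
open Pool.Agent.H469R2.NK (e norm_e e_add conj_e)
open Pool.Agent.W147.PS (ff)

/-- the square of a bilinear sum -/
lemma bilinear (A B I : Finset ℕ) (hA : A ⊆ I) (θ : ℝ) (u : ℕ → ℝ) :
    ‖∑ a ∈ A, ∑ b ∈ B, e (θ * (u a * u b))‖ ^ 2 ≤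
      A.card * ∑ b ∈ B, ∑ c ∈ B, ‖∑ a ∈ I, e (θ * (u b - u c) * u a)‖ := by
  have h1 : ‖∑ a ∈ A, ∑ b ∈ B, e (θ * (u a * u b))‖ ^ 2 ≤
      A.card * ∑ a ∈ A, ‖∑ b ∈ B, e (θ * (u a * u b))‖ ^ 2 := by
    calc ‖∑ a ∈ A, ∑ b ∈ B, e (θ * (u a * u b))‖ ^ 2
        ≤ (∑ a ∈ A, ‖∑ b ∈ B, e (θ * (u a * u b))‖) ^ 2 :=
          pow_le_pow_left₀ (norm_nonneg _) (norm_sum_le _ _) 2
      _ ≤ A.card * ∑ a ∈ A, ‖∑ b ∈ B, e (θ * (u a * u b))‖ ^ 2 := by
          have := sq_sum_le_card_mul_sum_sq (s := A)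
            (f := fun a => ‖∑ b ∈ B, e (θ * (u a * u b))‖)
          exact this
  refine h1.trans (mul_le_mul_of_nonneg_left ?_ (Nat.cast_nonneg _))
  calc ∑ a ∈ A, ‖∑ b ∈ B, e (θ * (u a * u b))‖ ^ 2
      ≤ ∑ a ∈ I, ‖∑ b ∈ B, e (θ * (u a * u b))‖ ^ 2 :=
        sum_le_sum_of_subset_of_nonneg hA fun _ _ _ => by positivity
    _ = ‖∑ b ∈ B, ∑ c ∈ B, ∑ a ∈ I, e (θ * (u b - u c) * u a)‖ := by
        have h2 : ((∑ a ∈ I, ‖∑ b ∈ B, e (θ * (u a * u b))‖ ^ 2 : ℝ) : ℂ) =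
            ∑ b ∈ B, ∑ c ∈ B, ∑ a ∈ I, e (θ * (u b - u c) * u a) := by
          push_cast
          have h3 : ∀ a ∈ I, ((‖∑ b ∈ B, e (θ * (u a * u b))‖ : ℂ)) ^ 2 =
              ∑ b ∈ B, ∑ c ∈ B, e (θ * (u b - u c) * u a) := by
            intro a _
            rw [← Complex.mul_conj', map_sum, sum_mul_sum]
            refine sum_congr rfl fun b _ => sum_congr rfl fun c _ => ?_
            rw [conj_e, ← e_add]
            congr 1
            ring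
          rw [sum_congr rfl h3, sum_comm]
          exact sum_congr rfl fun b _ => sum_comm
        rw [← h2, Complex.norm_real, Real.norm_of_nonneg (sum_nonneg fun _ _ => by positivity)]
    _ ≤ ∑ b ∈ B, ∑ c ∈ B, ‖∑ a ∈ I, e (θ * (u b - u c) * u a)‖ :=
        (norm_sum_le _ _).trans (sum_le_sum fun b _ => norm_sum_le _ _)

/-- differences of a power, upper bound -/
lemma pw_le {γ x y : ℝ} (h0 : 0 < γ) (h1 : γ < 1) (hy : 0 < y) (hxy : y ≤ x) :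
    x ^ γ - y ^ γ ≤ γ * (x - y) * y ^ (γ - 1) := by
  have hx : 0 < x := hy.trans_le hxy
  have h2 : x = y * (1 + (x - y) / y) := by field_simp; ring
  have h3 : -1 ≤ (x - y) / y := by
    have : 0 ≤ (x - y) / y := div_nonneg (by linarith) hy.le
    linarith
  have h4 := rpow_one_add_le_one_add_mul_self h3 h0.le h1.le
  have h5 : x ^ γ = y ^ γ * (1 + (x - y) / y) ^ γ := by
    rw [← Real.mul_rpow hy.le (by linarith), ← h2]
  have h6 : y ^ γ = y ^ (γ - 1) * y := by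
    rw [← Real.rpow_add_one hy.ne']; congr 1; ring
  rw [h5]
  calc y ^ γ * (1 + (x - y) / y) ^ γ - y ^ γ
      ≤ y ^ γ * (1 + γ * ((x - y) / y)) - y ^ γ := by
        have := mul_le_mul_of_nonneg_left h4 (Real.rpow_nonneg hy.le γ)
        linarith
    _ = γ * (x - y) * y ^ (γ - 1) := by
        rw [h6]; field_simp; ring

/-- differences of a power, lower bound -/
lemma pw_ge {γ x y : ℝ} (h0 : 0 < γ) (h1 : γ < 1) (hy : 0 < y) (hxy : y ≤ x) :
    γ * (x - y) * x ^ (γ - 1) ≤ x ^ γ - y ^ γ := by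
  have hx : 0 < x := hy.trans_le hxy
  have h2 : y = x * (1 + -((x - y) / x)) := by field_simp; ring
  have h3 : -1 ≤ -((x - y) / x) := by
    have : (x - y) / x ≤ 1 := (div_le_one hx).2 (by linarith)
    linarith
  have h4 := rpow_one_add_le_one_add_mul_self h3 h0.le h1.le
  have h5 : y ^ γ = x ^ γ * (1 + -((x - y) / x)) ^ γ := by
    rw [← Real.mul_rpow hx.le (by linarith), ← h2]
  have h6 : x ^ γ = x ^ (γ - 1) * x := by
    rw [← Real.rpow_add_one hx.ne']; congr 1; ring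
  rw [h5]
  calc γ * (x - y) * x ^ (γ - 1)
      = x ^ γ - x ^ γ * (1 + γ * -((x - y) / x)) := by
        rw [h6]; field_simp; ring
    _ ≤ x ^ γ - x ^ γ * (1 + -((x - y) / x)) ^ γ := by
        have := mul_le_mul_of_nonneg_left h4 (Real.rpow_nonneg hx.le γ)
        linarith

/-- the inner sums -/
lemma inner_sum (N : ℕ) (hN : 1 ≤ N) {γ : ℝ} (h0 : 0 < γ) (h1 : γ < 1) (t : ℝ) (ht : 0 < t)
    (ht1 : t * (N : ℝ) ^ (γ - 1) ≤ 1 / 2) :
    ‖∑ a ∈ Ioc N (2 * N), e (t * (a : ℝ) ^ γ)‖ ≤ 6 / (γ * t * (N : ℝ) ^ (γ - 1)) := by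
  have hNR : (0 : ℝ) < N := by exact_mod_cast hN
  have hN1 : (1 : ℝ) ≤ N := by exact_mod_cast hN
  have hs0 : 0 < (N : ℝ) ^ (γ - 1) := Real.rpow_pos_of_pos hNR _
  have h2 : ∑ a ∈ Ioc N (2 * N), e (t * (a : ℝ) ^ γ) =
      ∑ n ∈ range N, e (t * ((N + 1 + n : ℕ) : ℝ) ^ γ) := by
    have h2 : Ioc N (2 * N) = Ico (N + 1) (N + 1 + N) := by
      ext a; rw [mem_Ioc, mem_Ico]; omega
    rw [h2, sum_Ico_eq_sum_range, Nat.add_sub_cancel_left]
  rw [h2]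
  have hup : ∀ n : ℕ, ((N + 1 + (n + 1) : ℕ) : ℝ) ^ γ - ((N + 1 + n : ℕ) : ℝ) ^ γ ≤
      γ * ((N + 1 + n : ℕ) : ℝ) ^ (γ - 1) := by
    intro n
    have := pw_le h0 h1 (x := ((N + 1 + (n + 1) : ℕ) : ℝ)) (y := ((N + 1 + n : ℕ) : ℝ)) (by positivity)
      (by push_cast; linarith)
    refine this.trans (le_of_eq ?_)
    push_cast
    ring
  have hlo : ∀ n : ℕ, γ * ((N + 1 + (n + 1) : ℕ) : ℝ) ^ (γ - 1) ≤
      ((N + 1 + (n + 1) : ℕ) : ℝ) ^ γ - ((N + 1 + n : ℕ) : ℝ) ^ γ := by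
    intro n
    have := pw_ge h0 h1 (x := ((N + 1 + (n + 1) : ℕ) : ℝ)) (y := ((N + 1 + n : ℕ) : ℝ)) (by positivity)
      (by push_cast; linarith)
    refine le_trans (le_of_eq ?_) this
    push_cast
    ring
  have hmN : ∀ k : ℕ, N ≤ k → (k : ℝ) ^ (γ - 1) ≤ (N : ℝ) ^ (γ - 1) := by
    intro k hk
    exact Real.rpow_le_rpow_of_nonpos hNR (by exact_mod_cast hk) (by linarith)
  have hm3 : ∀ k : ℕ, 1 ≤ k → k ≤ 3 * N → (N : ℝ) ^ (γ - 1) / 3 ≤ (k : ℝ) ^ (γ - 1) := by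
    intro k hk1 hk
    have hk0 : (0 : ℝ) < k := by exact_mod_cast hk1
    have e1 : ((3 * N : ℕ) : ℝ) ^ (γ - 1) ≤ (k : ℝ) ^ (γ - 1) :=
      Real.rpow_le_rpow_of_nonpos hk0 (by exact_mod_cast hk) (by linarith)
    refine le_trans ?_ e1
    push_cast
    rw [Real.mul_rpow (by norm_num) hNR.le]
    have e2 : (3 : ℝ) ^ (-1 : ℝ) ≤ (3 : ℝ) ^ (γ - 1) :=
      Real.rpow_le_rpow_of_exponent_le (by norm_num) (by linarith)
    have e3 : (3 : ℝ) ^ (-1 : ℝ) = 1 / 3 := by rw [Real.rpow_neg_one]; norm_num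
    rw [e3] at e2
    have := mul_le_mul_of_nonneg_right e2 hs0.le
    linarith
  have hθ : 0 < γ * t * (N : ℝ) ^ (γ - 1) / 3 := by positivity
  have hθ2 : γ * t * (N : ℝ) ^ (γ - 1) ≤ 1 / 2 := by
    have e1 : γ * (t * (N : ℝ) ^ (γ - 1)) ≤ 1 * (t * (N : ℝ) ^ (γ - 1)) :=
      mul_le_mul_of_nonneg_right h1.le (by positivity)
    linarith
  have h := Pool.Agent.H469R2.NK.kusmin_landau_anti
    (fun n => t * ((N + 1 + n : ℕ) : ℝ) ^ γ) N hθ (by
      intro n hn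
      show _
      rw [← mul_sub]
      have e1 := hlo n
      have e2 := hm3 (N + 1 + (n + 1)) (by omega) (by omega)
      have e3 : γ * ((N : ℝ) ^ (γ - 1) / 3) ≤ γ * ((N + 1 + (n + 1) : ℕ) : ℝ) ^ (γ - 1) :=
        mul_le_mul_of_nonneg_left e2 h0.le
      have e4 := mul_le_mul_of_nonneg_left (e3.trans e1) ht.le
      linarith) (by
      intro n hn
      show _
      rw [← mul_sub]
      have e1 := hup n
      have e2 := hmN (N + 1 + n) (by omega)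
      have e3 : γ * ((N + 1 + n : ℕ) : ℝ) ^ (γ - 1) ≤ γ * (N : ℝ) ^ (γ - 1) :=
        mul_le_mul_of_nonneg_left e2 h0.le
      have e4 := mul_le_mul_of_nonneg_left (e1.trans e3) ht.le
      linarith) (by
      intro n hn
      show _
      rw [← mul_sub, ← mul_sub]
      have e1 := hup (n + 1)
      have e2 := hlo n
      exact mul_le_mul_of_nonneg_left (e1.trans e2) ht.le)
  refine h.trans (le_of_eq ?_)
  field_simp
  ring

/-- the sum of the inverses of the distances -/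
lemma inv_dist (N : ℕ) (b : ℕ) (B : Finset ℕ) (hb : b ∈ Ioc N (2 * N)) (hB : B ⊆ Ioc N (2 * N)) :
    ∑ c ∈ B.erase b, 1 / |(b : ℝ) - c| ≤ 2 * (1 + Real.log N) := by
  have hH : ∑ k ∈ Icc 1 N, (1 : ℝ) / k ≤ 1 + Real.log N := by
    have h1 := harmonic_le_one_add_log N
    rw [harmonic_eq_sum_Icc] at h1
    push_cast at h1
    refine le_trans (le_of_eq ?_) h1
    exact sum_congr rfl fun k _ => by rw [one_div]
  rw [mem_Ioc] at hb
  have hsplit : B.erase b = (B.erase b).filter (· < b) ∪ (B.erase b).filter (fun c => ¬ c < b) :=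
    (filter_union_filter_not_eq _ _).symm
  rw [← sum_filter_add_sum_filter_not (B.erase b) (· < b)]
  have hA : ∑ c ∈ (B.erase b).filter (· < b), 1 / |(b : ℝ) - c| ≤ ∑ k ∈ Icc 1 N, (1 : ℝ) / k := by
    have e1 : ∑ c ∈ (B.erase b).filter (· < b), 1 / |(b : ℝ) - c| =
        ∑ k ∈ ((B.erase b).filter (· < b)).image (fun c => b - c), (1 : ℝ) / k := by
      rw [sum_image]
      · refine sum_congr rfl fun c hc => ?_
        rw [mem_filter] at hc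
        have h2 : c ≤ b := hc.2.le
        rw [Nat.cast_sub h2, abs_of_nonneg]
        have : (c : ℝ) ≤ b := by exact_mod_cast h2
        linarith
      · intro c hc d hd hcd
        rw [mem_coe, mem_filter] at hc hd
        simp only at hcd
        omega
    rw [e1]
    apply sum_le_sum_of_subset_of_nonneg
    · intro k hk
      rw [mem_image] at hk
      obtain ⟨c, hc, rfl⟩ := hk
      rw [mem_filter, mem_erase] at hc
      have := mem_Ioc.1 (hB hc.1.2)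
      rw [mem_Icc]
      omega
    · intro k _ _
      positivity
  have hB2 : ∑ c ∈ (B.erase b).filter (fun c => ¬ c < b), 1 / |(b : ℝ) - c| ≤
      ∑ k ∈ Icc 1 N, (1 : ℝ) / k := by
    have e1 : ∑ c ∈ (B.erase b).filter (fun c => ¬ c < b), 1 / |(b : ℝ) - c| =
        ∑ k ∈ ((B.erase b).filter (fun c => ¬ c < b)).image (fun c => c - b), (1 : ℝ) / k := by
      rw [sum_image]
      · refine sum_congr rfl fun c hc => ?_
        rw [mem_filter] at hc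
        have h2 : b ≤ c := not_lt.1 hc.2
        rw [Nat.cast_sub h2, abs_of_nonpos]
        · rw [neg_sub]
        · have : (b : ℝ) ≤ c := by exact_mod_cast h2
          linarith
      · intro c hc d hd hcd
        rw [mem_coe, mem_filter] at hc hd
        simp only at hcd
        omega
    rw [e1]
    apply sum_le_sum_of_subset_of_nonneg
    · intro k hk
      rw [mem_image] at hk
      obtain ⟨c, hc, rfl⟩ := hk
      rw [mem_filter, mem_erase] at hc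
      have := mem_Ioc.1 (hB hc.1.2)
      rw [mem_Icc]
      omega
    · intro k _ _
      positivity
  linarith

/-- inner sums for two elements of a short block -/
lemma pair_sum (N : ℕ) (hN : 1 ≤ N) {γ : ℝ} (h0 : 0 < γ) (h1 : γ < 1) {θ : ℝ} (hθ : 0 < θ)
    {b c : ℕ} (hb : b ∈ Ioc N (2 * N)) (hc : c ∈ Ioc N (2 * N)) (hbc : b ≠ c)
    (hs : θ * |(b : ℝ) - c| * (N : ℝ) ^ (2 * γ - 2) ≤ 1 / 2) :
    ‖∑ a ∈ Ioc N (2 * N), e (θ * ((b : ℝ) ^ γ - (c : ℝ) ^ γ) * (a : ℝ) ^ γ)‖ ≤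
      12 * (N : ℝ) ^ (2 - 2 * γ) / (γ ^ 2 * θ) * (1 / |(b : ℝ) - c|) := by
  wlog hlt : c < b generalizing b c with H
  · have hlt' : b < c := by omega
    have h := H hc hb (Ne.symm hbc) (by rw [abs_sub_comm]; exact hs) hlt'
    rw [abs_sub_comm] at h
    refine le_trans (le_of_eq ?_) h
    rw [← Complex.norm_conj, map_sum]
    congr 1
    refine sum_congr rfl fun a _ => ?_
    rw [conj_e]
    congr 1
    ring
  rw [mem_Ioc] at hb hc
  have hNR : (0 : ℝ) < N := by exact_mod_cast hN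
  have hcR : (0 : ℝ) < c := by exact_mod_cast (by omega : 0 < c)
  have hbR : (0 : ℝ) < b := by exact_mod_cast (by omega : 0 < b)
  have hcb : (c : ℝ) < b := by exact_mod_cast hlt
  have hup := pw_le h0 h1 hcR hcb.le
  have hlo := pw_ge h0 h1 hcR hcb.le
  have hd0 : 0 < (b : ℝ) - c := by linarith
  rw [abs_of_pos hd0] at hs ⊢
  have hP : 0 < (N : ℝ) ^ (γ - 1) := Real.rpow_pos_of_pos hNR _
  have hPP : (N : ℝ) ^ (γ - 1) * (N : ℝ) ^ (γ - 1) = (N : ℝ) ^ (2 * γ - 2) := by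
    rw [← Real.rpow_add hNR]; congr 1; ring
  have hc1 : (c : ℝ) ^ (γ - 1) ≤ (N : ℝ) ^ (γ - 1) :=
    Real.rpow_le_rpow_of_nonpos hNR (by exact_mod_cast hc.1.le) (by linarith)
  have hb1 : (N : ℝ) ^ (γ - 1) / 2 ≤ (b : ℝ) ^ (γ - 1) := by
    have e1 : ((2 * N : ℕ) : ℝ) ^ (γ - 1) ≤ (b : ℝ) ^ (γ - 1) :=
      Real.rpow_le_rpow_of_nonpos hbR (by exact_mod_cast hb.2) (by linarith)
    refine le_trans ?_ e1
    push_cast
    rw [Real.mul_rpow (by norm_num) hNR.le]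
    have e2 : (2 : ℝ) ^ (-1 : ℝ) ≤ (2 : ℝ) ^ (γ - 1) :=
      Real.rpow_le_rpow_of_exponent_le (by norm_num) (by linarith)
    have e3 : (2 : ℝ) ^ (-1 : ℝ) = 1 / 2 := by rw [Real.rpow_neg_one]; norm_num
    rw [e3] at e2
    have := mul_le_mul_of_nonneg_right e2 hP.le
    linarith
  have hlow : γ * ((b : ℝ) - c) * ((N : ℝ) ^ (γ - 1) / 2) ≤ (b : ℝ) ^ γ - (c : ℝ) ^ γ :=
    (mul_le_mul_of_nonneg_left hb1 (by positivity)).trans hlo
  have hupp : (b : ℝ) ^ γ - (c : ℝ) ^ γ ≤ ((b : ℝ) - c) * (N : ℝ) ^ (γ - 1) := by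
    refine hup.trans ?_
    have e1 : γ * ((b : ℝ) - c) * (c : ℝ) ^ (γ - 1) ≤ γ * ((b : ℝ) - c) * (N : ℝ) ^ (γ - 1) :=
      mul_le_mul_of_nonneg_left hc1 (by positivity)
    refine e1.trans ?_
    have e2 : γ * (((b : ℝ) - c) * (N : ℝ) ^ (γ - 1)) ≤ 1 * (((b : ℝ) - c) * (N : ℝ) ^ (γ - 1)) :=
      mul_le_mul_of_nonneg_right h1.le (by positivity)
    linarith
  have hd : 0 < (b : ℝ) ^ γ - (c : ℝ) ^ γ := lt_of_lt_of_le (by positivity) hlow
  have ht : 0 < θ * ((b : ℝ) ^ γ - (c : ℝ) ^ γ) := by positivity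
  have h := inner_sum N hN h0 h1 _ ht (by
    calc θ * ((b : ℝ) ^ γ - (c : ℝ) ^ γ) * (N : ℝ) ^ (γ - 1)
        ≤ θ * (((b : ℝ) - c) * (N : ℝ) ^ (γ - 1)) * (N : ℝ) ^ (γ - 1) := by
          apply mul_le_mul_of_nonneg_right _ hP.le
          exact mul_le_mul_of_nonneg_left hupp hθ.le
      _ = θ * ((b : ℝ) - c) * ((N : ℝ) ^ (γ - 1) * (N : ℝ) ^ (γ - 1)) := by ring
      _ = θ * ((b : ℝ) - c) * (N : ℝ) ^ (2 * γ - 2) := by rw [hPP]
      _ ≤ 1 / 2 := hs)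
  refine h.trans ?_
  have hQ : (N : ℝ) ^ (2 - 2 * γ) = 1 / (N : ℝ) ^ (2 * γ - 2) := by
    rw [one_div, ← Real.rpow_neg hNR.le]; congr 1; ring
  rw [hQ, ← hPP]
  rw [show 12 * (1 / ((N : ℝ) ^ (γ - 1) * (N : ℝ) ^ (γ - 1))) / (γ ^ 2 * θ) * (1 / ((b : ℝ) - c)) =
    6 / (γ * (θ * (γ * ((b : ℝ) - c) * ((N : ℝ) ^ (γ - 1) / 2))) * (N : ℝ) ^ (γ - 1)) by
      field_simp; ring]
  apply div_le_div_of_nonneg_left (by norm_num) (by positivity)
  apply mul_le_mul_of_nonneg_right _ hP.le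
  apply mul_le_mul_of_nonneg_left _ h0.le
  exact mul_le_mul_of_nonneg_left hlow hθ.le

/-- the double sum over `A × B'`, squared -/
lemma double_sum (N : ℕ) (hN : 1 ≤ N) {γ : ℝ} (h0 : 0 < γ) (h1 : γ < 1) {θ L : ℝ} (hθ : 0 < θ)
    (A B : Finset ℕ) (hA : A ⊆ Ioc N (2 * N)) (hB : B ⊆ Ioc N (2 * N))
    (hL : ∀ b ∈ B, ∀ c ∈ B, |(b : ℝ) - c| ≤ L)
    (hs : θ * L * (N : ℝ) ^ (2 * γ - 2) ≤ 1 / 2) :
    ‖∑ a ∈ A, ∑ b ∈ B, e (θ * ((a : ℝ) ^ γ * (b : ℝ) ^ γ))‖ ^ 2 ≤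
      A.card * B.card * (N + 24 * (N : ℝ) ^ (2 - 2 * γ) * (1 + Real.log N) / (γ ^ 2 * θ)) := by
  have hNR : (0 : ℝ) < N := by exact_mod_cast hN
  have h2 := bilinear A B (Ioc N (2 * N)) hA θ (fun n => (n : ℝ) ^ γ)
  refine h2.trans ?_
  rw [mul_assoc]
  apply mul_le_mul_of_nonneg_left _ (Nat.cast_nonneg _)
  rw [← nsmul_eq_mul]
  apply sum_le_card_nsmul
  intro b hb
  rw [← add_sum_erase B _ hb]
  apply add_le_add
  · refine (norm_sum_le _ _).trans ?_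
    rw [sum_congr rfl (fun a _ => norm_e _)]
    rw [sum_const, Nat.card_Ioc]
    rw [nsmul_eq_mul, mul_one]
    exact_mod_cast (by omega : 2 * N - N ≤ N)
  · calc ∑ c ∈ B.erase b, ‖∑ a ∈ Ioc N (2 * N), e (θ * ((b : ℝ) ^ γ - (c : ℝ) ^ γ) * (a : ℝ) ^ γ)‖
        ≤ ∑ c ∈ B.erase b, 12 * (N : ℝ) ^ (2 - 2 * γ) / (γ ^ 2 * θ) * (1 / |(b : ℝ) - c|) := by
          refine sum_le_sum fun c hc => ?_
          rw [mem_erase] at hc
          refine pair_sum N hN h0 h1 hθ (hB hb) (hB hc.2) (Ne.symm hc.1) ?_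
          refine le_trans ?_ hs
          apply mul_le_mul_of_nonneg_right _ (Real.rpow_nonneg hNR.le _)
          exact mul_le_mul_of_nonneg_left (hL b hb c hc.2) hθ.le
      _ = 12 * (N : ℝ) ^ (2 - 2 * γ) / (γ ^ 2 * θ) * ∑ c ∈ B.erase b, (1 / |(b : ℝ) - c|) := by
          rw [mul_sum]
      _ ≤ 12 * (N : ℝ) ^ (2 - 2 * γ) / (γ ^ 2 * θ) * (2 * (1 + Real.log N)) := by
          apply mul_le_mul_of_nonneg_left (inv_dist N b B (hB hb) hB)
          positivity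
      _ = 24 * (N : ℝ) ^ (2 - 2 * γ) * (1 + Real.log N) / (γ ^ 2 * θ) := by ring

/-- a dense part of a set in a short interval -/
lemma block (N L : ℕ) (hL : 1 ≤ L) (B : Finset ℕ) (hB : B ⊆ Ioc N (2 * N)) :
    ∃ B' ⊆ B, B.card ≤ (2 * N / L + 1) * B'.card ∧ ∀ b ∈ B', ∀ c ∈ B', |(b : ℝ) - c| ≤ L := by
  have hmaps : ∀ b ∈ B, b / L ∈ range (2 * N / L + 1) := by
    intro b hb
    have := mem_Ioc.1 (hB hb)
    rw [mem_range]
    have : b / L ≤ 2 * N / L := Nat.div_le_div_right this.2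
    omega
  obtain ⟨j, hj, hcard⟩ : ∃ j ∈ range (2 * N / L + 1),
      B.card ≤ (2 * N / L + 1) * (B.filter (fun b => b / L = j)).card := by
    by_contra hcon
    push Not at hcon
    have h1 := card_eq_sum_card_fiberwise hmaps
    have h2 : (2 * N / L + 1) * B.card = ∑ j ∈ range (2 * N / L + 1),
        (2 * N / L + 1) * (B.filter (fun b => b / L = j)).card := by
      rw [← mul_sum, ← h1]
    have h3 : ∑ j ∈ range (2 * N / L + 1),
        (2 * N / L + 1) * (B.filter (fun b => b / L = j)).card <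
        ∑ j ∈ range (2 * N / L + 1), B.card :=
      sum_lt_sum_of_nonempty ⟨0, by simp⟩ hcon
    rw [sum_const, card_range, smul_eq_mul] at h3
    omega
  refine ⟨B.filter (fun b => b / L = j), filter_subset _ _, hcard, ?_⟩
  intro b hb c hc
  rw [mem_filter] at hb hc
  have e1 := Nat.div_add_mod b L
  have e2 := Nat.div_add_mod c L
  have e3 := Nat.mod_lt b (by omega : 0 < L)
  have e4 := Nat.mod_lt c (by omega : 0 < L)
  rw [hb.2] at e1
  rw [hc.2] at e2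
  have f1 : (b : ℝ) = L * j + (b % L : ℕ) := by exact_mod_cast e1.symm
  have f2 : (c : ℝ) = L * j + (c % L : ℕ) := by exact_mod_cast e2.symm
  have f3 : ((b % L : ℕ) : ℝ) ≤ L := by exact_mod_cast e3.le
  have f4 : ((c % L : ℕ) : ℝ) ≤ L := by exact_mod_cast e4.le
  have f5 : (0 : ℝ) ≤ ((b % L : ℕ) : ℝ) := Nat.cast_nonneg _
  have f6 : (0 : ℝ) ≤ ((c % L : ℕ) : ℝ) := Nat.cast_nonneg _
  rw [abs_le]
  constructor <;> linarith

/-- the theorem -/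
theorem main {γ δ : ℝ} (h0 : 0 < γ) (h1 : γ < 1) (hδ : 0 < δ) : ∃ κ : ℝ, 0 < κ ∧ ∀ᶠ N : ℕ in atTop,
    ∀ A B : Finset ℕ, A ⊆ Ioc N (2 * N) → B ⊆ Ioc N (2 * N) →
    (N : ℝ) ^ (max (2 * γ) (2 - 2 * γ) + δ) ≤ (A.card : ℝ) * B.card →
    ∃ a ∈ A, ∃ b ∈ B, ∀ q : ℕ, q.Prime → κ * ff N < |(q : ℝ) - ((a : ℝ) * b) ^ γ| := by
  set μ : ℝ := min 1 (2 - 2 * γ) with hμ
  set lam : ℝ := max (2 * γ) (2 - 2 * γ) with hlam
  set ν : ℝ := max 1 (2 - 2 * γ) with hν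
  have hrel : lam - 1 + μ = ν := by
    rcases le_total (2 * γ) 1 with h | h
    · rw [hμ, hlam, hν, min_eq_left (by linarith), max_eq_right (by linarith), max_eq_right (by linarith)]
      ring
    · rw [hμ, hlam, hν, min_eq_right (by linarith), max_eq_left (by linarith), max_eq_left (by linarith)]
      ring
  have hμ0 : 0 < μ := lt_min (by norm_num) (by linarith)
  have hμ1 : μ ≤ 1 := min_le_left _ _
  have hμ2 : μ ≤ 2 - 2 * γ := min_le_right _ _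
  have hν1 : 1 ≤ ν := le_max_left _ _
  have hν2 : 2 - 2 * γ ≤ ν := le_max_right _ _
  set η : ℝ := min (min (δ / 17) γ) (min (μ / 6) 1) with hη
  have hη0 : 0 < η := by
    rw [hη]
    exact lt_min (lt_min (by positivity) h0) (lt_min (by positivity) one_pos)
  have hη1 : η ≤ 1 := (min_le_right _ _).trans (min_le_right _ _)
  have hη2 : η ≤ μ / 6 := (min_le_right _ _).trans (min_le_left _ _)
  have hη3 : η ≤ δ / 17 := (min_le_left _ _).trans (min_le_left _ _)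
  have hη4 : η ≤ γ := (min_le_left _ _).trans (min_le_right _ _)
  set ℓ : ℝ := μ - 5 * η with hℓ
  have hℓ0 : 0 < ℓ := by rw [hℓ]; linarith
  have hℓ1 : ℓ ≤ 1 := by rw [hℓ]; linarith
  obtain ⟨κ, hκ, hc⟩ := Pool.Agent.TH915.PW.crit_scaled η hη0 hη1
  refine ⟨κ, hκ, ?_⟩
  have hγ2 : 0 < γ ^ 2 := by positivity
  -- asymptotic facts
  have hlog : ∀ᶠ x : ℝ in atTop, 1 + 24 / γ ^ 2 * (1 + Real.log x) ≤ x ^ η := by
    have e1 : Tendsto (fun x : ℝ => (1 + 24 / γ ^ 2 * (1 + Real.log x)) / x ^ η) atTop (nhds 0) := by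
      have e2 : Tendsto (fun x : ℝ => Real.log x / x ^ η) atTop (nhds 0) :=
        (isLittleO_log_rpow_atTop hη0).tendsto_div_nhds_zero
      have e3 : Tendsto (fun x : ℝ => 1 / x ^ η) atTop (nhds 0) := by
        have := (tendsto_rpow_atTop hη0).inv_tendsto_atTop
        refine this.congr fun x => ?_
        simp
      have e4 : Tendsto (fun x : ℝ => (1 + 24 / γ ^ 2) * (1 / x ^ η) + 24 / γ ^ 2 * (Real.log x / x ^ η))
          atTop (nhds ((1 + 24 / γ ^ 2) * 0 + 24 / γ ^ 2 * 0)) :=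
        (e3.const_mul _).add (e2.const_mul _)
      rw [mul_zero, mul_zero, add_zero] at e4
      refine e4.congr fun x => ?_
      ring
    filter_upwards [e1.eventually (gt_mem_nhds one_pos), eventually_gt_atTop 0] with x hx hx0
    have h5 : 0 < x ^ η := Real.rpow_pos_of_pos hx0 _
    rw [div_lt_one h5] at hx
    exact hx.le
  have hev : ∀ᶠ x : ℝ in atTop, (1 + 24 / γ ^ 2 * (1 + Real.log x) ≤ x ^ η) ∧ 5 ≤ x ^ η ∧ 1 ≤ x ∧
      (∀ (ι : Type) (s : Finset ι) (a : ι → ℝ), s.Nonempty → (∀ i ∈ s, x ^ η ≤ a i) →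
        (∀ q h : ℕ, 1 ≤ q → (q : ℝ) ≤ x ^ η → 1 ≤ h → (h : ℝ) ≤ x ^ (4 * η) →
          ‖∑ i ∈ s, e ((h : ℝ) / q * a i)‖ ≤ s.card * x ^ (-(4 * η))) →
        ∃ i ∈ s, ∀ q : ℕ, q.Prime → κ * ff x < |(q : ℝ) - a i|) := by
    filter_upwards [hlog, (tendsto_rpow_atTop hη0).eventually_ge_atTop 5, eventually_ge_atTop 1, hc]
      with x e1 e2 e3 e4
    exact ⟨e1, e2, e3, e4⟩
  filter_upwards [tendsto_natCast_atTop_atTop.eventually hev] with N hN
  obtain ⟨hN1, hN2, hN3, hN4⟩ := hN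
  intro A B hA hB hcard
  have hNn : 1 ≤ N := by exact_mod_cast hN3
  have hNR : (0 : ℝ) < N := by linarith
  have hpos : ∀ z : ℝ, 0 < (N : ℝ) ^ z := fun z => Real.rpow_pos_of_pos hNR z
  have hmono : ∀ {y z : ℝ}, y ≤ z → (N : ℝ) ^ y ≤ (N : ℝ) ^ z := fun h =>
    Real.rpow_le_rpow_of_exponent_le hN3 h
  have hadd : ∀ y z : ℝ, (N : ℝ) ^ y * (N : ℝ) ^ z = (N : ℝ) ^ (y + z) := fun y z =>
    (Real.rpow_add hNR y z).symm
  -- the block
  set L : ℕ := ⌊(N : ℝ) ^ ℓ⌋₊ with hLdef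
  have hNl1 : 1 ≤ (N : ℝ) ^ ℓ := Real.one_le_rpow hN3 hℓ0.le
  have hL1 : 1 ≤ L := Nat.le_floor (by rw [Nat.cast_one]; exact hNl1)
  have hL2 : (L : ℝ) ≤ (N : ℝ) ^ ℓ := Nat.floor_le (by positivity)
  have hL3 : (N : ℝ) ^ ℓ / 2 ≤ L := by
    have e1 := Nat.lt_floor_add_one ((N : ℝ) ^ ℓ)
    rw [← hLdef] at e1
    have e2 : (1 : ℝ) ≤ L := by exact_mod_cast hL1
    linarith
  obtain ⟨B', hB', hBc, hBL⟩ := block N L hL1 B hB
  have hLR : (0 : ℝ) < L := by exact_mod_cast hL1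
  have hcnt : ((2 * N / L + 1 : ℕ) : ℝ) ≤ (N : ℝ) ^ (1 - ℓ + η) := by
    push_cast
    have e1 : ((2 * N / L : ℕ) : ℝ) ≤ 2 * N / L := by
      have := @Nat.cast_div_le ℝ _ _ _ (2 * N) L
      push_cast at this
      exact this
    have e2 : (2 * N / L : ℝ) ≤ 4 * (N : ℝ) ^ (1 - ℓ) := by
      rw [div_le_iff₀ hLR]
      have e3 : (N : ℝ) ^ (1 - ℓ) * (N : ℝ) ^ ℓ = N := by
        rw [hadd]; rw [show 1 - ℓ + ℓ = 1 by ring, Real.rpow_one]
      have e4 : 4 * (N : ℝ) ^ (1 - ℓ) * ((N : ℝ) ^ ℓ / 2) ≤ 4 * (N : ℝ) ^ (1 - ℓ) * L :=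
        mul_le_mul_of_nonneg_left hL3 (by positivity)
      nlinarith
    have e5 : 1 ≤ (N : ℝ) ^ (1 - ℓ) := Real.one_le_rpow hN3 (by linarith)
    calc ((2 * N / L : ℕ) : ℝ) + 1 ≤ 5 * (N : ℝ) ^ (1 - ℓ) := by linarith
      _ ≤ (N : ℝ) ^ η * (N : ℝ) ^ (1 - ℓ) := mul_le_mul_of_nonneg_right hN2 (hpos _).le
      _ = (N : ℝ) ^ (1 - ℓ + η) := by rw [hadd]; congr 1; ring
  have hBcR : (B.card : ℝ) ≤ (N : ℝ) ^ (1 - ℓ + η) * B'.card := by
    calc (B.card : ℝ) ≤ ((2 * N / L + 1 : ℕ) : ℝ) * B'.card := by exact_mod_cast hBc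
      _ ≤ _ := mul_le_mul_of_nonneg_right hcnt (Nat.cast_nonneg _)
  -- the size of A × B'
  have hx : (N : ℝ) ^ (ν + 10 * η) ≤ (A.card : ℝ) * B'.card := by
    have e1 : (N : ℝ) ^ (lam + δ) ≤ (N : ℝ) ^ (1 - ℓ + η) * ((A.card : ℝ) * B'.card) := by
      calc (N : ℝ) ^ (lam + δ) ≤ (A.card : ℝ) * B.card := hcard
        _ ≤ (A.card : ℝ) * ((N : ℝ) ^ (1 - ℓ + η) * B'.card) :=
          mul_le_mul_of_nonneg_left hBcR (Nat.cast_nonneg _)
        _ = _ := by ring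
    have e2 : (N : ℝ) ^ (1 - ℓ + η) * (N : ℝ) ^ (ν + 10 * η) ≤ (N : ℝ) ^ (lam + δ) := by
      rw [hadd]
      apply hmono
      rw [hℓ]
      linarith
    exact le_of_mul_le_mul_left (e2.trans e1) (hpos _)
  have hx0 : (0 : ℝ) < (A.card : ℝ) * B'.card := (hpos _).trans_le hx
  have hne : (A ×ˢ B').Nonempty := by
    rw [← card_pos, card_product]
    by_contra hcon
    have : A.card * B'.card = 0 := by omega
    have : (A.card : ℝ) * B'.card = 0 := by exact_mod_cast this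
    linarith
  obtain ⟨i, hi, hi2⟩ := hN4 (ℕ × ℕ) (A ×ˢ B') (fun i => ((i.1 : ℝ) * i.2) ^ γ) hne (by
    intro i hi
    rw [mem_product] at hi
    have f1 := mem_Ioc.1 (hA hi.1)
    have f2 := mem_Ioc.1 (hB (hB' hi.2))
    have f3 : (N : ℝ) ≤ i.1 := by exact_mod_cast f1.1.le
    have f4 : (N : ℝ) ≤ i.2 := by exact_mod_cast f2.1.le
    show (N : ℝ) ^ η ≤ ((i.1 : ℝ) * i.2) ^ γ
    rw [Real.mul_rpow (Nat.cast_nonneg _) (Nat.cast_nonneg _)]
    calc (N : ℝ) ^ η ≤ (N : ℝ) ^ (γ + γ) := hmono (by linarith)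
      _ = (N : ℝ) ^ γ * (N : ℝ) ^ γ := (hadd _ _).symm
      _ ≤ (i.1 : ℝ) ^ γ * (i.2 : ℝ) ^ γ :=
        mul_le_mul (Real.rpow_le_rpow hNR.le f3 h0.le) (Real.rpow_le_rpow hNR.le f4 h0.le) (hpos _).le
          (by positivity)) (by
    intro q h hq hqN hh hhN
    have hqR : (0 : ℝ) < q := by exact_mod_cast hq
    have hhR : (0 : ℝ) < h := by exact_mod_cast hh
    have hq1 : (1 : ℝ) ≤ q := by exact_mod_cast hq
    have hh1 : (1 : ℝ) ≤ h := by exact_mod_cast hh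
    set θ : ℝ := (h : ℝ) / q with hθ
    have hθ0 : 0 < θ := by positivity
    have hθ1 : θ ≤ (N : ℝ) ^ (4 * η) := by
      refine le_trans ?_ hhN
      exact div_le_self hhR.le hq1
    have hθ2 : 1 / θ ≤ (N : ℝ) ^ η := by
      rw [hθ, one_div_div]
      exact (div_le_self hqR.le hh1).trans hqN
    have hsum : ∑ i ∈ A ×ˢ B', e (θ * ((i.1 : ℝ) * i.2) ^ γ) =
        ∑ a ∈ A, ∑ b ∈ B', e (θ * ((a : ℝ) ^ γ * (b : ℝ) ^ γ)) := by
      rw [sum_product]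
      refine sum_congr rfl fun a _ => sum_congr rfl fun b _ => ?_
      rw [Real.mul_rpow (Nat.cast_nonneg _) (Nat.cast_nonneg _)]
    show ‖∑ i ∈ A ×ˢ B', e (θ * ((i.1 : ℝ) * i.2) ^ γ)‖ ≤ _
    rw [hsum]
    have hs : θ * L * (N : ℝ) ^ (2 * γ - 2) ≤ 1 / 2 := by
      calc θ * L * (N : ℝ) ^ (2 * γ - 2)
          ≤ (N : ℝ) ^ (4 * η) * (N : ℝ) ^ ℓ * (N : ℝ) ^ (2 * γ - 2) := by
            apply mul_le_mul_of_nonneg_right _ (hpos _).le
            exact mul_le_mul hθ1 hL2 hLR.le (hpos _).le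
        _ = (N : ℝ) ^ (4 * η + ℓ + (2 * γ - 2)) := by rw [hadd, hadd]
        _ ≤ (N : ℝ) ^ (-η) := hmono (by rw [hℓ]; linarith)
        _ ≤ 1 / 2 := by
            rw [Real.rpow_neg hNR.le, ← one_div]
            apply one_div_le_one_div_of_le (by norm_num)
            linarith
    have hd := double_sum N hNn h0 h1 hθ0 A B' hA (hB'.trans hB) hBL hs
    have hK : (N : ℝ) + 24 * (N : ℝ) ^ (2 - 2 * γ) * (1 + Real.log N) / (γ ^ 2 * θ) ≤
        (N : ℝ) ^ (ν + 2 * η) := by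
      have hlN : 0 ≤ Real.log N := Real.log_nonneg hN3
      have e1 : 24 * (N : ℝ) ^ (2 - 2 * γ) * (1 + Real.log N) / (γ ^ 2 * θ) =
          (24 / γ ^ 2 * (1 + Real.log N)) * ((N : ℝ) ^ (2 - 2 * γ) * (1 / θ)) := by
        field_simp
      have e2 : (N : ℝ) ^ (2 - 2 * γ) * (1 / θ) ≤ (N : ℝ) ^ (ν + η) := by
        calc (N : ℝ) ^ (2 - 2 * γ) * (1 / θ) ≤ (N : ℝ) ^ (2 - 2 * γ) * (N : ℝ) ^ η :=
              mul_le_mul_of_nonneg_left hθ2 (hpos _).le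
          _ = (N : ℝ) ^ (2 - 2 * γ + η) := hadd _ _
          _ ≤ _ := hmono (by linarith)
      have e3 : (N : ℝ) ≤ (N : ℝ) ^ (ν + η) := by
        conv_lhs => rw [← Real.rpow_one (N : ℝ)]
        exact hmono (by linarith)
      rw [e1]
      calc (N : ℝ) + (24 / γ ^ 2 * (1 + Real.log N)) * ((N : ℝ) ^ (2 - 2 * γ) * (1 / θ))
          ≤ (N : ℝ) ^ (ν + η) + (24 / γ ^ 2 * (1 + Real.log N)) * (N : ℝ) ^ (ν + η) :=
            add_le_add e3 (mul_le_mul_of_nonneg_left e2 (by positivity))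
        _ = (1 + 24 / γ ^ 2 * (1 + Real.log N)) * (N : ℝ) ^ (ν + η) := by ring
        _ ≤ (N : ℝ) ^ η * (N : ℝ) ^ (ν + η) := mul_le_mul_of_nonneg_right hN1 (hpos _).le
        _ = (N : ℝ) ^ (ν + 2 * η) := by rw [hadd]; congr 1; ring
    rw [card_product]
    push_cast
    rw [← sq_le_sq₀ (norm_nonneg _) (by positivity)]
    calc ‖∑ a ∈ A, ∑ b ∈ B', e (θ * ((a : ℝ) ^ γ * (b : ℝ) ^ γ))‖ ^ 2
        ≤ (A.card : ℝ) * B'.card * (N : ℝ) ^ (ν + 2 * η) :=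
          hd.trans (mul_le_mul_of_nonneg_left hK hx0.le)
      _ = (A.card : ℝ) * B'.card * ((N : ℝ) ^ (ν + 10 * η) * (N : ℝ) ^ (-(8 * η))) := by
          rw [hadd]; congr 2; ring
      _ ≤ (A.card : ℝ) * B'.card * (((A.card : ℝ) * B'.card) * (N : ℝ) ^ (-(8 * η))) := by
          apply mul_le_mul_of_nonneg_left _ hx0.le
          exact mul_le_mul_of_nonneg_right hx (hpos _).le
      _ = ((A.card : ℝ) * B'.card * (N : ℝ) ^ (-(4 * η))) ^ 2 := by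
          rw [mul_pow, ← Real.rpow_natCast ((N : ℝ) ^ (-(4 * η))) 2, ← Real.rpow_mul hNR.le,
            show -(4 * η) * ((2 : ℕ) : ℝ) = -(8 * η) by push_cast; ring]
          ring)
  rw [mem_product] at hi
  exact ⟨i.1, hi.1, i.2, hB' hi.2, hi2⟩

end Pool.Agent.X2.GeoMean
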