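import Mathlib
import Pool.Agent.X2.AdicJoint
import Pool.Agent.TH286.GT.All

/-!
# Joint `b`-adic complexity of the reversed windows of a tuple of algebraic numbers
-/

set_option autoImplicit false

namespace Pool.Agent.X2.AdicTuple

open Finset Filter Topology
open Pool.Agent.TH286.GT

/-- the lattice matrix -/
def Bd (T : ℕ) (b m : ℕ) : Matrix (Fin (T + 1)) (Fin (T + 1)) ℤ :=
  Matrix.diagonal (Fin.cons ((b : ℤ) ^ m) fun _ => 1)

/-- the numbers `lam` -/
def lamb (O : Type) [CommRing O] (T b : ℕ) (_v : Fin 1) : Fin (T + 1) → O :=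
  Fin.cons (b : O) fun _ => 1

lemma bet_lamb (O : Type) [CommRing O] {T b : ℕ} (m : ℕ) :
    bet (lamb O T b) (fun _ => m) = Fin.cons ((b : O) ^ m) fun _ => 1 := by
  funext l
  unfold bet lamb
  rw [Fin.prod_univ_one]
  induction l using Fin.cases with
  | zero => rw [Fin.cons_zero, Fin.cons_zero]
  | succ i => rw [Fin.cons_succ, Fin.cons_succ, one_pow]

lemma det_Bd (T b m : ℕ) : (Bd T b m).det = (b : ℤ) ^ m := by
  unfold Bd
  rw [Matrix.det_diagonal, Fin.prod_univ_succ]
  simp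

lemma lat_Bd (O : Type) [CommRing O] {T b : ℕ} (hb : 2 ≤ b) (m : ℕ) :
    Lat (1 : Matrix (Fin (T + 1)) (Fin (T + 1)) O) (bet (lamb O T b) (fun _ => m)) (Bd T b m) := by
  refine ⟨?_, ?_⟩
  · rw [det_Bd]
    exact pow_ne_zero _ (by exact_mod_cast (by omega : b ≠ 0))
  · rw [one_mul, mul_one]
    unfold Bd
    rw [Matrix.diagonal_map (map_zero _)]
    congr 1
    rw [bet_lamb]
    funext l
    induction l using Fin.cases with
    | zero => simp
    | succ i => simp

/-- the matrix of the forms -/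
def M0 {O : Type} [CommRing O] {T : ℕ} (a : O) (d : Fin T → O) :
    Matrix (Fin (T + 1)) (Fin (T + 1)) O :=
  fun i j => Fin.cases (motive := fun _ => O) (Fin.cases (motive := fun _ => O) 1 (fun _ => 0) j)
    (fun i' => Fin.cases (motive := fun _ => O) (d i') (fun j' => if i' = j' then -a else 0) j) i

@[simp] lemma M0_00 {O : Type} [CommRing O] {T : ℕ} (a : O) (d : Fin T → O) :
    M0 a d 0 0 = 1 := rfl
@[simp] lemma M0_0s {O : Type} [CommRing O] {T : ℕ} (a : O) (d : Fin T → O) (j : Fin T) :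
    M0 a d 0 j.succ = 0 := rfl
@[simp] lemma M0_s0 {O : Type} [CommRing O] {T : ℕ} (a : O) (d : Fin T → O) (i : Fin T) :
    M0 a d i.succ 0 = d i := rfl
@[simp] lemma M0_ss {O : Type} [CommRing O] {T : ℕ} (a : O) (d : Fin T → O) (i j : Fin T) :
    M0 a d i.succ j.succ = if i = j then -a else 0 := rfl

lemma det_M0 {O : Type} [CommRing O] {T : ℕ} (a : O) (d : Fin T → O) :
    (M0 a d).det = (-a) ^ T := by
  rw [← Matrix.det_transpose, Matrix.det_of_isUpperTriangular, Fin.prod_univ_succ]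
  · simp [Matrix.transpose_apply]
  · intro i j hij
    simp only [id] at hij
    rw [Matrix.transpose_apply]
    induction i using Fin.cases with
    | zero => exact absurd hij (Fin.not_lt_zero _)
    | succ i =>
      induction j using Fin.cases with
      | zero => rfl
      | succ j =>
        rw [M0_ss, if_neg]
        rintro rfl
        exact lt_irrefl _ hij

/-- the subspace theorem for simultaneous approximations with denominators `g b ^ m` -/
theorem sub_seq (b : ℕ) (hb : 2 ≤ b) (T : ℕ) (ξ : Fin T → ℝ) (hξ : ∀ i, IsAlgebraic ℚ (ξ i))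
    (hind : ∀ (y0 : ℤ) (y : Fin T → ℤ), (y0 : ℝ) + ∑ i, (y i : ℝ) * ξ i = 0 → y0 = 0 ∧ y = 0)
    (ε K : ℝ) (hε : 0 < ε) (hK : 0 ≤ K) (m n : ℕ → ℕ) (hn : Tendsto n atTop atTop)
    (hm : ∀ t, (m t : ℝ) ≤ K * n t)
    (g : ℕ → ℕ) (p : ℕ → Fin T → ℤ) (H : ℕ → ℝ) (hg1 : ∀ t, 1 ≤ g t) (hgH : ∀ t, (g t : ℝ) ≤ H t)
    (hp : ∀ t i, |(g t : ℝ) * (b : ℝ) ^ m t * ξ i - p t i| ≤ 2 * H t / (b : ℝ) ^ n t)
    (hH : ∀ t, (T + 1) * Real.log (H t) ≤ (T - (T + 1) * ε) * n t * Real.log b) : False := by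
  have hb0 : (0 : ℝ) < b := by exact_mod_cast (by omega : 0 < b)
  have hb1 : (1 : ℝ) < b := by exact_mod_cast (by omega : 1 < b)
  set Lb : ℝ := Real.log b with hLb
  have hLb0 : 0 < Lb := Real.log_pos hb1
  have hH1 : ∀ t, 1 ≤ H t := fun t => by
    have h1 : (1 : ℝ) ≤ g t := by exact_mod_cast hg1 t
    exact h1.trans (hgH t)
  have hH0 : ∀ t, 0 < H t := fun t => by have := hH1 t; linarith
  -- the number field
  set F : IntermediateField ℚ ℝ := IntermediateField.adjoin ℚ (Set.range ξ) with hFdef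
  have hF : FiniteDimensional ℚ F := by
    apply IntermediateField.finiteDimensional_adjoin
    rintro x ⟨i, rfl⟩
    exact (hξ i).isIntegral
  have : NumberField F := { to_charZero := inferInstance, to_finiteDimensional := hF }
  let c : Fin T → F := fun i => ⟨ξ i, IntermediateField.subset_adjoin ℚ _ ⟨i, rfl⟩⟩
  obtain ⟨Nn, hNn⟩ := IsLocalization.exist_integer_multiples_of_finite
    (nonZeroDivisors (NumberField.RingOfIntegers F)) c
  have hN0 : (Nn : NumberField.RingOfIntegers F) ≠ 0 := nonZeroDivisors.ne_zero Nn.2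
  have hN' : ∀ i, ∃ M : NumberField.RingOfIntegers F,
      algebraMap (NumberField.RingOfIntegers F) F M
        = algebraMap (NumberField.RingOfIntegers F) F (Nn : NumberField.RingOfIntegers F)
          * c i := by
    intro i
    obtain ⟨M, hM⟩ := hNn i
    refine ⟨M, ?_⟩
    rw [hM, Algebra.smul_def]
  choose d hd using hN'
  have hinj : Function.Injective (algebraMap (NumberField.RingOfIntegers F) F) :=
    IsFractionRing.injective _ _
  set ψ : NumberField.RingOfIntegers F →+* ℝ :=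
    (algebraMap F ℝ).comp (algebraMap (NumberField.RingOfIntegers F) F) with hψ
  set φ : NumberField.RingOfIntegers F →+* ℂ := Complex.ofRealHom.comp ψ with hφ
  set ν : ℝ := ψ (Nn : NumberField.RingOfIntegers F) with hν
  have hν0 : ν ≠ 0 := by
    intro h
    apply hN0
    apply hinj
    rw [map_zero]
    apply (algebraMap F ℝ).injective
    rw [map_zero]
    exact h
  have hνp : 0 < |ν| := abs_pos.2 hν0
  set lν : ℝ := Real.log |ν| with hlν
  have hψd : ∀ i, ψ (d i) = ν * ξ i := by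
    intro i
    have h1 := congrArg (algebraMap F ℝ) (hd i)
    rw [map_mul] at h1
    exact h1
  have hl2 : 0 < Real.log 2 := Real.log_pos (by norm_num)
  set γ : ℝ := ε * Lb / 2 with hγ
  have hγ0 : 0 < γ := by positivity
  -- the tail
  obtain ⟨t0, ht0⟩ : ∃ t0, ∀ t, t0 ≤ t → (1 : ℝ) ≤ n t ∧
      T * (|lν| + Real.log 2) ≤ ε * Lb / 2 * n t := by
    have h1 : Tendsto (fun t => (n t : ℝ)) atTop atTop :=
      tendsto_natCast_atTop_atTop.comp hn
    have h2 : ∀ᶠ t in atTop, (1 : ℝ) ≤ n t := h1.eventually (eventually_ge_atTop 1)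
    have h3 : ∀ᶠ t in atTop, T * (|lν| + Real.log 2) / (ε * Lb / 2) ≤ n t :=
      h1.eventually (eventually_ge_atTop _)
    obtain ⟨t0, ht0⟩ := eventually_atTop.1 (h2.and h3)
    refine ⟨t0, fun t ht => ⟨(ht0 t ht).1, ?_⟩⟩
    have h4 := (ht0 t ht).2
    rw [div_le_iff₀ (by positivity)] at h4
    linarith
  -- the data
  let x : ℕ → Fin (T + 1) → ℤ := fun t =>
    Fin.cons ((g (t + t0) : ℤ) * (b : ℤ) ^ m (t + t0)) (fun i => p (t + t0) i)
  have hx0 : ∀ t, x t 0 = (g (t + t0) : ℤ) * (b : ℤ) ^ m (t + t0) := fun t => rfl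
  have hxs : ∀ t i, x t (Fin.succ i) = p (t + t0) i := fun t i => rfl
  let A : ℕ → Fin (T + 1) → ℝ := fun t =>
    Fin.cons (H (t + t0) * (b : ℝ) ^ m (t + t0))
      (fun _ => |ν| * (2 * H (t + t0) / (b : ℝ) ^ n (t + t0)))
  have hA0 : ∀ t, A t 0 = H (t + t0) * (b : ℝ) ^ m (t + t0) := fun t => rfl
  have hAs : ∀ t i, A t (Fin.succ i) = |ν| * (2 * H (t + t0) / (b : ℝ) ^ n (t + t0)) := fun t i => rfl
  set C : ℝ := 1 + K * Lb + 2 * Lb + |lν| + Real.log 2 with hC
  have hC1 : 1 ≤ C := by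
    have : 0 ≤ K * Lb := by positivity
    have := abs_nonneg lν
    linarith
  have hlogdet : ∀ t, Real.log |((Bd T b (m (t + t0))).det : ℝ)| = m (t + t0) * Lb := by
    intro t
    rw [det_Bd]
    push_cast
    rw [abs_of_pos (pow_pos hb0 _), Real.log_pow]
  have hlogA0 : ∀ t, Real.log (A t 0) = Real.log (H (t + t0)) + m (t + t0) * Lb := by
    intro t
    rw [hA0, Real.log_mul (hH0 _).ne' (by positivity), Real.log_pow]
  have hlogAs : ∀ t i, Real.log (A t (Fin.succ i)) =
      lν + Real.log 2 + Real.log (H (t + t0)) - n (t + t0) * Lb := by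
    intro t i
    have h1 := (hH0 (t + t0)).ne'
    rw [hAs, Real.log_mul hνp.ne' (by positivity), Real.log_div (by positivity) (by positivity),
      Real.log_mul (by norm_num) h1, Real.log_pow]
    ring
  have hlogH : ∀ t, 0 ≤ Real.log (H t) ∧ Real.log (H t) ≤ n t * Lb := by
    intro t
    refine ⟨Real.log_nonneg (hH1 t), ?_⟩
    have h1 := hH t
    have hT : (0 : ℝ) ≤ T := Nat.cast_nonneg _
    have hnL : 0 ≤ n t * Lb := by positivity
    have h2 : (T - (T + 1) * ε) * n t * Lb ≤ (T + 1) * (n t * Lb) := by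
      have h3 : 0 ≤ (T + 1) * ε * (n t * Lb) := by positivity
      nlinarith
    have h3 : (T + 1) * Real.log (H t) ≤ (T + 1) * (n t * Lb) := h1.trans h2
    exact le_of_mul_le_mul_left h3 (by positivity)
  have hsize : ∀ t, SizeO C γ ((n (t + t0) : ℕ) : ℝ) (Bd T b (m (t + t0))) (A t) := by
    intro t
    obtain ⟨h1, h2⟩ := ht0 (t + t0) (Nat.le_add_left _ _)
    obtain ⟨hl0, hl1⟩ := hlogH (t + t0)
    have hmK := hm (t + t0)
    have hnn : (0 : ℝ) ≤ n (t + t0) := by linarith
    have hmL : (m (t + t0) : ℝ) * Lb ≤ K * Lb * n (t + t0) := by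
      have := mul_le_mul_of_nonneg_right hmK hLb0.le
      linarith
    have hmL0 : 0 ≤ (m (t + t0) : ℝ) * Lb := by positivity
    have e1 : 0 ≤ K * Lb * n (t + t0) := by positivity
    have e2 : 0 ≤ Lb * n (t + t0) := by positivity
    have e3 : |lν| ≤ |lν| * n (t + t0) := le_mul_of_one_le_right (abs_nonneg _) h1
    have e4 : Real.log 2 ≤ Real.log 2 * n (t + t0) := le_mul_of_one_le_right hl2.le h1
    have hCn : C * n (t + t0) = n (t + t0) + K * Lb * n (t + t0) + 2 * (Lb * n (t + t0)) +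
        |lν| * n (t + t0) + Real.log 2 * n (t + t0) := by rw [hC]; ring
    refine ⟨?_, ?_, ?_, ?_⟩
    · rw [hlogdet, hCn]
      have := abs_nonneg lν
      linarith
    · intro l
      have := hH0 (t + t0)
      induction l using Fin.cases with
      | zero => rw [hA0]; positivity
      | succ i => rw [hAs]; positivity
    · intro l
      induction l using Fin.cases with
      | zero =>
        rw [hlogA0, abs_of_nonneg (by linarith), hCn]
        have := abs_nonneg lν
        linarith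
      | succ i =>
        rw [hlogAs, abs_le, hCn]
        have e7 := neg_abs_le lν
        have e8 := le_abs_self lν
        constructor <;> linarith
    · rw [hlogdet, Fin.sum_univ_succ, hlogA0]
      simp only [hlogAs]
      rw [Finset.sum_const, Finset.card_univ, Fintype.card_fin, nsmul_eq_mul]
      have h3 := hH (t + t0)
      have h4 : (T : ℝ) * lν ≤ T * |lν| := mul_le_mul_of_nonneg_left (le_abs_self _) (Nat.cast_nonneg _)
      have h5 : ε * Lb * n (t + t0) ≤ (T + 1) * ε * (Lb * n (t + t0)) := by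
        have : 0 ≤ (T : ℝ) * ε * (Lb * n (t + t0)) := by positivity
        nlinarith
      rw [hγ]
      nlinarith
  have hsol : ∀ t, SolO φ (M0 (Nn : NumberField.RingOfIntegers F) d) (Bd T b (m (t + t0))) (A t) (x t) := by
    intro t
    refine ⟨?_, ?_⟩
    · intro l
      have hre : ∀ z, ‖φ z‖ = |ψ z| := by
        intro z
        rw [hφ, RingHom.comp_apply, Complex.ofRealHom_eq_coe, Complex.norm_real, Real.norm_eq_abs]
      rw [hre, map_sum]
      induction l using Fin.cases with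
      | zero =>
        rw [Fin.sum_univ_succ, hA0]
        simp only [M0_00, M0_0s, zero_mul, map_zero, sum_const_zero, add_zero, one_mul, map_intCast, hx0]
        push_cast
        rw [abs_of_nonneg (by positivity)]
        exact mul_le_mul_of_nonneg_right (hgH _) (by positivity)
      | succ i =>
        rw [Fin.sum_univ_succ, hAs]
        simp only [M0_s0, M0_ss, map_mul, map_intCast, hxs, hx0, hψd]
        rw [Finset.sum_eq_single i]
        · rw [if_pos rfl, map_neg, ← hν]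
          push_cast
          have h1 : ν * ξ i * ((g (t + t0) : ℝ) * (b : ℝ) ^ m (t + t0)) + -ν * (p (t + t0) i : ℝ) =
              ν * ((g (t + t0) : ℝ) * (b : ℝ) ^ m (t + t0) * ξ i - p (t + t0) i) := by ring
          rw [h1, abs_mul]
          exact mul_le_mul_of_nonneg_left (hp (t + t0) i) (abs_nonneg _)
        · intro j _ hj
          rw [if_neg (Ne.symm hj), map_zero, zero_mul]
        · intro h; exact absurd (Finset.mem_univ i) h
    · refine ⟨Fin.cons (g (t + t0) : ℤ) (p (t + t0)), ?_⟩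
      funext l
      unfold Bd
      rw [Matrix.mulVec_diagonal]
      induction l using Fin.cases with
      | zero => rw [hx0, Fin.cons_zero, Fin.cons_zero, mul_comm]
      | succ i => rw [hxs, Fin.cons_succ, Fin.cons_succ, one_mul]
  have hdata : DataO φ (M0 (Nn : NumberField.RingOfIntegers F) d)
      (1 : Matrix (Fin (T + 1)) (Fin (T + 1)) (NumberField.RingOfIntegers F))
      (lamb (NumberField.RingOfIntegers F) T b) := by
    refine ⟨?_, ?_, ?_, ?_⟩
    · rw [det_M0]
      exact pow_ne_zero _ (neg_ne_zero.2 hN0)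
    · intro i j
      rw [hφ, RingHom.comp_apply, Complex.ofRealHom_eq_coe, Complex.ofReal_im]
    · rw [Matrix.det_one]; exact one_ne_zero
    · intro v l
      unfold lamb
      induction l using Fin.cases with
      | zero =>
        rw [Fin.cons_zero]
        exact_mod_cast (by omega : b ≠ 0)
      | succ i =>
        rw [Fin.cons_succ]
        exact one_ne_zero
  have hNt : Tendsto (fun t => ((n (t + t0) : ℕ) : ℝ)) atTop atTop :=
    tendsto_natCast_atTop_atTop.comp (hn.comp (tendsto_add_atTop_nat t0))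
  have hxne : ∀ t, x t ≠ 0 := by
    intro t h
    have h1 := congrFun h 0
    rw [hx0] at h1
    have h2 : (g (t + t0) : ℤ) ≠ 0 := by
      have := hg1 (t + t0)
      omega
    exact absurd h1 (mul_ne_zero h2 (pow_ne_zero _ (by exact_mod_cast (by omega : b ≠ 0))))
  obtain ⟨y, hy0, hy⟩ := subspaceO (NumberField.RingOfIntegers F) φ (T + 1) 1 (by omega)
    (M0 (Nn : NumberField.RingOfIntegers F) d) 1 (lamb (NumberField.RingOfIntegers F) T b)
    hdata C γ hC1 hγ0 (fun t => ((n (t + t0) : ℕ) : ℝ)) hNt (fun t => fun _ => m (t + t0))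
    (fun t => Bd T b (m (t + t0))) (fun t => lat_Bd _ hb (m (t + t0))) A hsize x hxne hsol
  -- the relation
  have hbound : ∃ᶠ t in atTop, |(y 0 : ℝ) + ∑ i : Fin T, (y (Fin.succ i) : ℝ) * ξ i| ≤
      (∑ i : Fin T, |(y (Fin.succ i) : ℝ)|) * (2 * Real.exp (-(γ * n (t + t0)))) := by
    refine hy.mono fun t ht => ?_
    rw [Fin.sum_univ_succ] at ht
    have h1 : ((y 0 * x t 0 + ∑ i : Fin T, y (Fin.succ i) * x t (Fin.succ i) : ℤ) : ℝ) = 0 := by
      rw [ht]; simp
    push_cast at h1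
    simp only [hx0, hxs] at h1
    push_cast at h1
    set q : ℝ := (g (t + t0) : ℝ) * (b : ℝ) ^ m (t + t0) with hq
    have hq1 : 1 ≤ q := by
      have e1 : (1 : ℝ) ≤ g (t + t0) := by exact_mod_cast hg1 (t + t0)
      have e2 : (1 : ℝ) ≤ (b : ℝ) ^ m (t + t0) := one_le_pow₀ hb1.le
      calc (1 : ℝ) = 1 * 1 := by ring
        _ ≤ q := mul_le_mul e1 e2 zero_le_one (by linarith)
    have hq0 : 0 < q := by linarith
    have h2 : q * ((y 0 : ℝ) + ∑ i : Fin T, (y (Fin.succ i) : ℝ) * ξ i) =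
        ∑ i : Fin T, (y (Fin.succ i) : ℝ) * (q * ξ i - p (t + t0) i) := by
      have e1 : ∑ i : Fin T, (y (Fin.succ i) : ℝ) * (q * ξ i - p (t + t0) i) =
          q * ∑ i : Fin T, (y (Fin.succ i) : ℝ) * ξ i -
            ∑ i : Fin T, (y (Fin.succ i) : ℝ) * p (t + t0) i := by
        rw [mul_sum, ← sum_sub_distrib]
        exact sum_congr rfl fun i _ => by ring
      rw [e1]
      linarith
    have hsmall : 2 * H (t + t0) / (b : ℝ) ^ n (t + t0) ≤ 2 * Real.exp (-(γ * n (t + t0))) := by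
      have e1 : H (t + t0) / (b : ℝ) ^ n (t + t0) ≤ Real.exp (-(γ * n (t + t0))) := by
        rw [← Real.exp_log (hH0 (t + t0)), ← Real.rpow_natCast, Real.rpow_def_of_pos hb0,
          ← Real.exp_sub]
        apply Real.exp_le_exp.2
        have e2 := hH (t + t0)
        have e3 : (0 : ℝ) ≤ n (t + t0) := Nat.cast_nonneg _
        have e4 : (0 : ℝ) ≤ T := Nat.cast_nonneg _
        have e5 : 0 ≤ Lb * n (t + t0) := by positivity
        have e6 : (T + 1) * (Real.log (H (t + t0)) - Lb * n (t + t0)) ≤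
            (T + 1) * (-(γ * n (t + t0))) := by
          rw [hγ]
          have e7 : 0 ≤ ((T : ℝ) + 1) * (ε / 2 * (Lb * n (t + t0))) := by positivity
          nlinarith
        exact le_of_mul_le_mul_left e6 (by positivity)
      calc 2 * H (t + t0) / (b : ℝ) ^ n (t + t0) = 2 * (H (t + t0) / (b : ℝ) ^ n (t + t0)) := by ring
        _ ≤ _ := by linarith
    calc |(y 0 : ℝ) + ∑ i : Fin T, (y (Fin.succ i) : ℝ) * ξ i|
        ≤ q * |(y 0 : ℝ) + ∑ i : Fin T, (y (Fin.succ i) : ℝ) * ξ i| :=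
          le_mul_of_one_le_left (abs_nonneg _) hq1
      _ = |∑ i : Fin T, (y (Fin.succ i) : ℝ) * (q * ξ i - p (t + t0) i)| := by
          rw [← h2, abs_mul, abs_of_pos hq0]
      _ ≤ ∑ i : Fin T, |(y (Fin.succ i) : ℝ) * (q * ξ i - p (t + t0) i)| := abs_sum_le_sum_abs _ _
      _ ≤ ∑ i : Fin T, |(y (Fin.succ i) : ℝ)| * (2 * Real.exp (-(γ * n (t + t0)))) := by
          apply sum_le_sum
          intro i _
          rw [abs_mul]
          exact mul_le_mul_of_nonneg_left ((hp (t + t0) i).trans hsmall) (abs_nonneg _)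
      _ = _ := by rw [sum_mul]
  have hzero : (y 0 : ℝ) + ∑ i : Fin T, (y (Fin.succ i) : ℝ) * ξ i = 0 := by
    by_contra hne
    have hpos : 0 < |(y 0 : ℝ) + ∑ i : Fin T, (y (Fin.succ i) : ℝ) * ξ i| := abs_pos.2 hne
    have hlim : Tendsto (fun t => (∑ i : Fin T, |(y (Fin.succ i) : ℝ)|) *
        (2 * Real.exp (-(γ * n (t + t0))))) atTop (nhds 0) := by
      have e1 : Tendsto (fun t => γ * ((n (t + t0) : ℕ) : ℝ)) atTop atTop :=
        Tendsto.const_mul_atTop hγ0 hNt
      have e2 : Tendsto (fun t => Real.exp (-(γ * n (t + t0)))) atTop (nhds 0) :=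
        Real.tendsto_exp_neg_atTop_nhds_zero.comp e1
      have e3 := (e2.const_mul 2).const_mul (∑ i : Fin T, |(y (Fin.succ i) : ℝ)|)
      simpa using e3
    have h1 := hlim.eventually (gt_mem_nhds hpos)
    obtain ⟨t, ht1, ht2⟩ := (hbound.and_eventually h1).exists
    linarith
  obtain ⟨h1, h2⟩ := hind (y 0) (fun i => y (Fin.succ i)) hzero
  apply hy0
  funext l
  induction l using Fin.cases with
  | zero => exact h1
  | succ i => exact congrFun h2 i

/-- the main theorem -/
theorem main (b : ℕ) (hb : 2 ≤ b) (T : ℕ) (ξ : Fin T → ℝ) (hξ : ∀ i, IsAlgebraic ℚ (ξ i))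
    (hind : LinearIndependent ℚ (Matrix.vecCons (1 : ℝ) ξ)) (ε K : ℝ) (hε : 0 < ε) :
    ∃ n₀ : ℕ, ∀ m n : ℕ, n₀ ≤ n → (m : ℝ) ≤ K * n → ∀ M : ℕ, (∃ (f : Fin T → ℤ) (g : ℤ), 0 < g ∧
      Int.gcd g b = 1 ∧ (∀ i, (b : ℤ) ^ n ∣ g * (∑ j ∈ range n,
        Pool.Agent.X2.AdicDigits.backwards b (ξ i) m n j * (b : ℤ) ^ j) - f i) ∧
      (∀ i, |f i| ≤ M) ∧ g ≤ M) → ((T : ℝ) / (T + 1) - ε) * n ≤ Real.logb b M := by
  have hb0 : (0 : ℝ) < b := by exact_mod_cast (by omega : 0 < b)
  have hb1 : (1 : ℝ) < b := by exact_mod_cast (by omega : 1 < b)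
  have hLb0 : 0 < Real.log b := Real.log_pos hb1
  have hind' : ∀ (y0 : ℤ) (y : Fin T → ℤ), (y0 : ℝ) + ∑ i, (y i : ℝ) * ξ i = 0 →
      y0 = 0 ∧ y = 0 := by
    intro y0 y hy
    rw [Fintype.linearIndependent_iff] at hind
    have h1 := hind (Fin.cons (y0 : ℚ) fun i => (y i : ℚ)) (by
      rw [Fin.sum_univ_succ]
      simp only [Fin.cons_zero, Fin.cons_succ, Matrix.cons_val_zero, Matrix.cons_val_succ,
        Rat.smul_def]
      push_cast
      rw [mul_one]
      exact hy)
    refine ⟨?_, ?_⟩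
    · have := h1 0
      rw [Fin.cons_zero] at this
      exact_mod_cast this
    · funext i
      have := h1 i.succ
      rw [Fin.cons_succ] at this
      exact_mod_cast this
  by_contra hcon
  push Not at hcon
  have hcon' : ∀ t : ℕ, ∃ (m n M : ℕ) (f : Fin T → ℤ) (g : ℤ), t ≤ n ∧ (m : ℝ) ≤ K * n ∧ 0 < g ∧
      (∀ i, (b : ℤ) ^ n ∣ g * (∑ j ∈ range n,
        Pool.Agent.X2.AdicDigits.backwards b (ξ i) m n j * (b : ℤ) ^ j) - f i) ∧
      (∀ i, |f i| ≤ M) ∧ g ≤ M ∧ Real.logb b M < ((T : ℝ) / (T + 1) - ε) * n := by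
    intro t
    obtain ⟨m, n, hn, hm, M, ⟨f, g, h1, h2, h3, h4, h5⟩, h6⟩ := hcon t
    exact ⟨m, n, M, f, g, hn, hm, h1, h3, h4, h5, h6⟩
  choose m n M f g hn hm hg hdv hf hgM hM using hcon'
  have hk : ∀ t i, ∃ k : ℤ, |(g t : ℝ) * (b : ℝ) ^ m t * ξ i - k| ≤ 2 * (M t : ℝ) / (b : ℝ) ^ n t := by
    intro t i
    obtain ⟨k, hk⟩ := Pool.Agent.X2.AdicDigits.approx hb (ξ i) (m t) (n t) (f t i) (g t) (hg t) (hdv t i)
    refine ⟨k, hk.trans ?_⟩
    have h1 : max |f t i| |g t| ≤ (M t : ℤ) := by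
      apply max_le (hf t i)
      rw [abs_of_pos (hg t)]; exact hgM t
    have h2 : ((max |f t i| |g t| : ℤ) : ℝ) ≤ (M t : ℝ) := by exact_mod_cast h1
    have hb0 : (0 : ℝ) < (b : ℝ) ^ n t := by positivity
    gcongr
  choose k hk using hk
  have hgt : ∀ t, (((g t).toNat : ℕ) : ℤ) = g t := fun t => Int.toNat_of_nonneg (hg t).le
  have hgR : ∀ t, (((g t).toNat : ℕ) : ℝ) = (g t : ℝ) := fun t => by exact_mod_cast hgt t
  have hK0 : ∀ t, (m t : ℝ) ≤ max K 0 * n t := fun t =>
    (hm t).trans (mul_le_mul_of_nonneg_right (le_max_left _ _) (Nat.cast_nonneg _))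
  refine sub_seq b hb T ξ hξ hind' ε (max K 0) hε (le_max_right _ _) m n
    (tendsto_atTop_mono hn tendsto_id) hK0 (fun t => (g t).toNat) k (fun t => (M t : ℝ))
    (fun t => by have := hg t; omega) (fun t => ?_) (fun t i => ?_) (fun t => ?_)
  · rw [hgR]
    exact_mod_cast hgM t
  · rw [hgR]
    exact hk t i
  · have h1 := hM t
    have hT : (0 : ℝ) < (T : ℝ) + 1 := by positivity
    rw [Real.logb, div_lt_iff₀ hLb0] at h1
    have h2 := mul_lt_mul_of_pos_left h1 hT
    have h3 : ((T : ℝ) + 1) * (((T : ℝ) / (T + 1) - ε) * n t * Real.log b) =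
        (T - (T + 1) * ε) * n t * Real.log b := by
      field_simp
    rw [h3] at h2
    exact h2.le

end Pool.Agent.X2.AdicTuple
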