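import Mathlib
import Pool.Agent.X2.AdicPowers
import Pool.Agent.X2.AdicJoint

/-!
# The `(a c)`-adic complexity of windows of digits of `u c ^ i` in base `a c`
-/

set_option autoImplicit false

namespace Pool.Agent.X2.AdicMixed

open Finset
open Pool.Agent.X2.AdicDigits (size adicComplexity bounds)
open Pool.Agent.X2.AdicPowers (digit window value)

/-- the two cases for a representation -/
lemma low {a c : ℕ} (ha : 2 ≤ a) (hc : 2 ≤ c) (hac : a.Coprime c) (u : ℕ) (hu : 1 ≤ u) (η κ : ℝ)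
    (hη : 0 < η)
    (hR : ∀ (n0 ν i : ℕ) (m : ℤ), 1 ≤ n0 → (a : ℝ) ^ ν ≤ n0 * (c : ℝ) ^ i →
      (n0 : ℤ) * c ^ i ≠ m * a ^ ν →
      κ * (a : ℝ) ^ ν ≤ n0 * ((n0 * (c : ℝ) ^ i) ^ η * |n0 * (c : ℝ) ^ i - m * (a : ℝ) ^ ν|))
    (i s k : ℕ) (hik : s + k ≤ i) (hk : (a * c) ^ (s + k) ≤ u * c ^ i) (f g : ℤ) (hg : 0 < g)
    (hdv : ((a * c : ℕ) : ℤ) ^ k ∣
      g * (∑ j ∈ range k, window (a * c) (u * c ^ i) s j * ((a * c : ℕ) : ℤ) ^ j) - f) :
    (a : ℤ) ^ (s + k) ∣ g * u ∨
    (κ * ((a * c : ℕ) : ℝ) ^ k ≤ 2 * u * (u * (c : ℝ) ^ i) ^ η * ((max |f| |g| : ℤ) : ℝ) ^ (2 + η) ∧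
      (c : ℝ) ^ k ≤ 2 * ((max |f| |g| : ℤ) : ℝ) * (a : ℝ) ^ s) := by
  set b := a * c with hb
  set N := u * c ^ i with hN
  rw [value] at hdv
  obtain ⟨l', hl'⟩ := hdv
  set A := N / b ^ s with hA
  have hAk : (A : ℤ) = ((A % b ^ k : ℕ) : ℤ) + (b : ℤ) ^ k * ((A / b ^ k : ℕ) : ℤ) := by
    have := Nat.mod_add_div A (b ^ k)
    exact_mod_cast this.symm
  have hNr : (N : ℤ) = ((N % b ^ s : ℕ) : ℤ) + (b : ℤ) ^ s * (A : ℤ) := by
    have := Nat.mod_add_div N (b ^ s)
    exact_mod_cast this.symm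
  set r := N % b ^ s with hr
  have hb1 : 1 ≤ b := by rw [hb]; nlinarith
  have hrlt : r < b ^ s := Nat.mod_lt _ (by positivity)
  set l : ℤ := l' + g * ((A / b ^ k : ℕ) : ℤ) with hl
  have key : g * N - l * (b : ℤ) ^ (s + k) = g * r + f * (b : ℤ) ^ s := by
    rw [hNr, hAk, hl, pow_add]
    linear_combination (b : ℤ) ^ s * hl'
  set H : ℝ := ((max |f| |g| : ℤ) : ℝ) with hH
  have hgR : (0 : ℝ) < g := by exact_mod_cast hg
  have hg1 : (1 : ℝ) ≤ g := by exact_mod_cast hg
  have hgH : (g : ℝ) ≤ H := by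
    rw [hH]
    have : g ≤ max |f| |g| := le_max_of_le_right (le_abs_self g)
    exact_mod_cast this
  have hfH : |(f : ℝ)| ≤ H := by
    rw [hH]
    have : |f| ≤ max |f| |g| := le_max_left _ _
    exact_mod_cast this
  have hH1 : 1 ≤ H := hg1.trans hgH
  have hH0 : 0 < H := by linarith
  have haR : (1 : ℝ) < a := by exact_mod_cast (by omega : 1 < a)
  have hcR : (1 : ℝ) < c := by exact_mod_cast (by omega : 1 < c)
  have hbR : (b : ℝ) = a * c := by rw [hb]; push_cast; ring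
  have huR : (1 : ℝ) ≤ u := by exact_mod_cast hu
  have hci : (1 : ℝ) ≤ (c : ℝ) ^ i := one_le_pow₀ hcR.le
  have hX1 : (1 : ℝ) ≤ u * (c : ℝ) ^ i := by nlinarith
  have hX0 : (0 : ℝ) < u * (c : ℝ) ^ i := by linarith
  have hH2 : H ^ (2 + η) = H * H * H ^ η := by
    rw [Real.rpow_add hH0, Real.rpow_two]; ring
  -- the multiplier
  set n0 : ℕ := g.toNat * u with hn0
  have hgt : ((g.toNat : ℕ) : ℤ) = g := Int.toNat_of_nonneg hg.le
  have hn0Z : (n0 : ℤ) = g * u := by rw [hn0]; push_cast; rw [hgt]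
  have hn0R : (n0 : ℝ) = g * u := by exact_mod_cast hn0Z
  have hn01 : 1 ≤ n0 := by
    have h1 : 1 ≤ g.toNat := by omega
    rw [hn0]; nlinarith
  obtain ⟨i', hi'⟩ : ∃ i', i = (s + k) + i' := ⟨i - (s + k), by omega⟩
  by_cases heq : (n0 : ℤ) * c ^ i' = l * a ^ (s + k)
  · left
    have h1 : (a : ℤ) ^ (s + k) ∣ (n0 : ℤ) * c ^ i' := ⟨l, by rw [heq]; ring⟩
    have h3 : IsCoprime ((a : ℤ) ^ (s + k)) ((c : ℤ) ^ i') :=
      IsCoprime.pow (by exact_mod_cast hac)
    have h4 := h3.dvd_of_dvd_mul_right h1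
    rwa [hn0Z] at h4
  · right
    have has0 : (0 : ℝ) < (a : ℝ) ^ (s + k) := by positivity
    have hcs0 : (0 : ℝ) < (c : ℝ) ^ (s + k) := by positivity
    have hck0 : (0 : ℝ) < (c : ℝ) ^ k := by positivity
    have hck1 : (1 : ℝ) ≤ (c : ℝ) ^ (s + k) := one_le_pow₀ hcR.le
    have hasn : (0 : ℝ) < (a : ℝ) ^ s := by positivity
    have hci' : (c : ℝ) ^ i = (c : ℝ) ^ (s + k) * (c : ℝ) ^ i' := by rw [hi', pow_add]
    have hci'0 : (0 : ℝ) < (c : ℝ) ^ i' := by positivity
    have hci'1 : (1 : ℝ) ≤ (c : ℝ) ^ i' := one_le_pow₀ hcR.le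
    have h1 : (a : ℝ) ^ (s + k) ≤ n0 * (c : ℝ) ^ i' := by
      have h2 : ((a : ℝ) * c) ^ (s + k) ≤ u * (c : ℝ) ^ i := by
        rw [hN, hb] at hk
        exact_mod_cast hk
      rw [mul_pow, hci'] at h2
      have h3 : (a : ℝ) ^ (s + k) ≤ u * (c : ℝ) ^ i' := by
        have h4 : (c : ℝ) ^ (s + k) * (a : ℝ) ^ (s + k) ≤
            (c : ℝ) ^ (s + k) * (u * (c : ℝ) ^ i') := by linarith
        exact le_of_mul_le_mul_left h4 hcs0
      rw [hn0R]
      have : (u : ℝ) * (c : ℝ) ^ i' ≤ g * (u * (c : ℝ) ^ i') :=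
        le_mul_of_one_le_left (by positivity) hg1
      linarith
    have h2 := hR n0 (s + k) i' l hn01 h1 heq
    have h3 : (c : ℝ) ^ k * |(n0 : ℝ) * (c : ℝ) ^ i' - l * (a : ℝ) ^ (s + k)| ≤
        2 * H * (a : ℝ) ^ s := by
      have e1 : (c : ℝ) ^ (s + k) * ((n0 : ℝ) * (c : ℝ) ^ i' - l * (a : ℝ) ^ (s + k)) =
          g * r + f * (b : ℝ) ^ s := by
        have h4 : ((g * N - l * (b : ℤ) ^ (s + k) : ℤ) : ℝ) = ((g * r + f * (b : ℤ) ^ s : ℤ) : ℝ) := by
          rw [key]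
        rw [hN] at h4
        push_cast at h4
        rw [hbR] at h4 ⊢
        rw [mul_pow (a : ℝ) (c : ℝ) (s + k), hci'] at h4
        rw [hn0R, ← h4]
        ring
      have e2 : (c : ℝ) ^ (s + k) * |(n0 : ℝ) * (c : ℝ) ^ i' - l * (a : ℝ) ^ (s + k)| ≤
          2 * H * (b : ℝ) ^ s := by
        rw [← abs_of_pos hcs0, ← abs_mul, e1]
        have hbs : (0 : ℝ) < (b : ℝ) ^ s := by positivity
        calc |(g : ℝ) * r + f * (b : ℝ) ^ s| ≤ |(g : ℝ) * r| + |f * (b : ℝ) ^ s| := abs_add_le _ _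
          _ = g * r + |(f : ℝ)| * (b : ℝ) ^ s := by
              rw [abs_mul, abs_mul, abs_of_pos hgR, abs_of_nonneg (Nat.cast_nonneg r),
                abs_of_pos hbs]
          _ ≤ 2 * H * (b : ℝ) ^ s := by
              have h5 : (r : ℝ) ≤ (b : ℝ) ^ s := by exact_mod_cast hrlt.le
              have h6 : (0 : ℝ) ≤ r := Nat.cast_nonneg r
              have h7 : (g : ℝ) * r ≤ H * (b : ℝ) ^ s := mul_le_mul hgH h5 h6 hH0.le
              have h8 : |(f : ℝ)| * (b : ℝ) ^ s ≤ H * (b : ℝ) ^ s :=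
                mul_le_mul_of_nonneg_right hfH hbs.le
              linarith
      have hcs' : (0 : ℝ) < (c : ℝ) ^ s := by positivity
      rw [hbR, mul_pow, show (c : ℝ) ^ (s + k) = (c : ℝ) ^ s * (c : ℝ) ^ k from pow_add _ _ _] at e2
      have e3 : (c : ℝ) ^ s * ((c : ℝ) ^ k * |(n0 : ℝ) * (c : ℝ) ^ i' - l * (a : ℝ) ^ (s + k)|) ≤
          (c : ℝ) ^ s * (2 * H * (a : ℝ) ^ s) := by
        linarith
      exact le_of_mul_le_mul_left e3 hcs'
    have habs1 : (1 : ℝ) ≤ |(n0 : ℝ) * (c : ℝ) ^ i' - l * (a : ℝ) ^ (s + k)| := by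
      have e1 : (1 : ℤ) ≤ |(n0 : ℤ) * c ^ i' - l * a ^ (s + k)| :=
        Int.one_le_abs (sub_ne_zero.2 heq)
      exact_mod_cast e1
    refine ⟨?_, ?_⟩
    · set D : ℝ := |(n0 : ℝ) * (c : ℝ) ^ i' - l * (a : ℝ) ^ (s + k)| with hD
      clear_value D
      have hD0 : 0 ≤ D := by linarith
      have hn0H : (n0 : ℝ) ≤ u * H := by
        rw [hn0R, mul_comm]
        exact mul_le_mul_of_nonneg_left hgH (by linarith)
      have hn00 : (0 : ℝ) < n0 := Nat.cast_pos.2 (by omega)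
      have h4 : (n0 * (c : ℝ) ^ i') ^ η ≤ (u * (c : ℝ) ^ i) ^ η * H ^ η := by
        rw [← Real.mul_rpow hX0.le hH0.le]
        apply Real.rpow_le_rpow (by positivity) _ hη.le
        calc (n0 : ℝ) * (c : ℝ) ^ i' ≤ (u * H) * (c : ℝ) ^ i := by
              apply mul_le_mul hn0H _ hci'0.le (by positivity)
              rw [hci']
              exact le_mul_of_one_le_left hci'0.le hck1
          _ = u * (c : ℝ) ^ i * H := by ring
      have h5 : κ * (a : ℝ) ^ (s + k) ≤ (u * H) * (((u * (c : ℝ) ^ i) ^ η * H ^ η) * D) := by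
        refine h2.trans ?_
        apply mul_le_mul hn0H _ (by positivity) (by positivity)
        exact mul_le_mul_of_nonneg_right h4 hD0
      have h6 : (c : ℝ) ^ k * (κ * (a : ℝ) ^ (s + k)) ≤
          (u * H) * (((u * (c : ℝ) ^ i) ^ η * H ^ η) * (2 * H * (a : ℝ) ^ s)) := by
        calc (c : ℝ) ^ k * (κ * (a : ℝ) ^ (s + k))
            ≤ (c : ℝ) ^ k * ((u * H) * (((u * (c : ℝ) ^ i) ^ η * H ^ η) * D)) :=
              mul_le_mul_of_nonneg_left h5 hck0.le
          _ = (u * H) * (((u * (c : ℝ) ^ i) ^ η * H ^ η) * ((c : ℝ) ^ k * D)) := by ring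
          _ ≤ _ := by
              apply mul_le_mul_of_nonneg_left _ (by positivity)
              exact mul_le_mul_of_nonneg_left h3 (by positivity)
      have h7 : (a : ℝ) ^ s * (κ * (b : ℝ) ^ k) ≤
          (a : ℝ) ^ s * (2 * u * (u * (c : ℝ) ^ i) ^ η * (H * H * H ^ η)) := by
        rw [hbR, mul_pow]
        rw [pow_add] at h6
        linarith
      rw [hH2]
      exact le_of_mul_le_mul_left h7 hasn
    · calc (c : ℝ) ^ k ≤ (c : ℝ) ^ k * |(n0 : ℝ) * (c : ℝ) ^ i' - l * (a : ℝ) ^ (s + k)| :=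
          le_mul_of_one_le_right hck0.le habs1
        _ ≤ _ := h3

/-- the complexity of the windows of `u c ^ i` in base `a c` -/
theorem mixed {a c : ℕ} (ha : 2 ≤ a) (hc : 2 ≤ c) (hac : a.Coprime c) (u : ℕ) (hu : 1 ≤ u)
    (ε : ℝ) (hε : 0 < ε) :
    ∃ C : ℝ, ∀ i s k : ℕ, s + k ≤ i → (a * c) ^ (s + k) ≤ u * c ^ i →
      |adicComplexity (a * c) k (window (a * c) (u * c ^ i) s) -
        max ((k : ℝ) / 2) (k * Real.logb (a * c) c - s * Real.logb (a * c) a)| ≤ ε * i + C := by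
  have haR : (1 : ℝ) < a := by exact_mod_cast (by omega : 1 < a)
  have hcR : (1 : ℝ) < c := by exact_mod_cast (by omega : 1 < c)
  set b := a * c with hbdef
  have hb4 : 4 ≤ b := by rw [hbdef]; nlinarith
  have hbRd : (b : ℝ) = a * c := by rw [hbdef]; push_cast; ring
  have hbR : (1 : ℝ) < b := by exact_mod_cast (by omega : 1 < b)
  have hb0 : (0 : ℝ) < b := by linarith
  have huR : (1 : ℝ) ≤ u := by exact_mod_cast hu
  rw [← hbRd]
  set Ta := Real.logb b a with hTa
  set Tc := Real.logb b c with hTc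
  have hTc0 : 0 < Tc := Real.logb_pos hbR hcR
  have hTa0 : 0 < Ta := Real.logb_pos hbR haR
  have hsumT : Ta + Tc = 1 := by
    rw [hTa, hTc, ← Real.logb_mul (by positivity) (by positivity), ← hbRd,
      Real.logb_self_eq_one hbR]
  set η : ℝ := ε / Tc with hη
  have hη0 : 0 < η := by positivity
  obtain ⟨κ0, hκ0, hR0⟩ := RidMul.ridout_mul ha hc hac η hη0
  set κ : ℝ := min κ0 1 with hκ
  have hκpos : 0 < κ := lt_min hκ0 one_pos
  have hκ1 : κ ≤ 1 := min_le_right _ _
  have hR : ∀ (n0 ν i : ℕ) (m : ℤ), 1 ≤ n0 → (a : ℝ) ^ ν ≤ n0 * (c : ℝ) ^ i →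
      (n0 : ℤ) * c ^ i ≠ m * a ^ ν →
      κ * (a : ℝ) ^ ν ≤ n0 * ((n0 * (c : ℝ) ^ i) ^ η * |n0 * (c : ℝ) ^ i - m * (a : ℝ) ^ ν|) := by
    intro n0 ν i m h1 h2 h3
    refine le_trans ?_ (hR0 n0 ν i m h1 h2 h3)
    exact mul_le_mul_of_nonneg_right (min_le_left _ _) (by positivity)
  set U := Real.logb b u with hU
  have hU0 : 0 ≤ U := Real.logb_nonneg hbR huR
  set K0 : ℝ := |Real.logb b κ| + Real.logb b (2 * u) + 2 * η * U with hK0
  have h2u : 0 ≤ Real.logb b (2 * u) := Real.logb_nonneg hbR (by linarith)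
  have hK00 : 0 ≤ K0 := by positivity
  have hl2 : 0 ≤ Real.logb b 2 := Real.logb_nonneg hbR (by norm_num)
  have hTau : 0 ≤ U / Ta := by positivity
  refine ⟨2 + K0 + U + Real.logb b 2 + U / Ta, ?_⟩
  intro i s k hik hk
  have hi0 : (0 : ℝ) ≤ i := Nat.cast_nonneg i
  have hεi : 0 ≤ ε * i := by positivity
  have hk0 : (0 : ℝ) ≤ k := Nat.cast_nonneg k
  have hs0 : (0 : ℝ) ≤ s := Nat.cast_nonneg s
  have hcn : (1 : ℝ) ≤ (c : ℝ) ^ i := one_le_pow₀ hcR.le
  have hX1 : (1 : ℝ) ≤ u * (c : ℝ) ^ i := by nlinarith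
  have hX0 : (0 : ℝ) < u * (c : ℝ) ^ i := by linarith
  have hXη : (1 : ℝ) ≤ (u * (c : ℝ) ^ i) ^ η := Real.one_le_rpow hX1 hη0.le
  have hbk : (1 : ℝ) ≤ (b : ℝ) ^ k := one_le_pow₀ hbR.le
  have hbk0 : (0 : ℝ) < (b : ℝ) ^ k := by positivity
  set Y : ℝ := 2 * u * (u * (c : ℝ) ^ i) ^ η with hY
  have hY1 : 1 ≤ Y := by rw [hY]; nlinarith
  have hY0 : 0 < Y := by linarith
  set W : ℝ := κ * (b : ℝ) ^ k / Y with hW
  have hW0 : 0 < W := by positivity
  have hWb : W ≤ (b : ℝ) ^ k := by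
    rw [hW, div_le_iff₀ hY0]
    nlinarith
  set L1 : ℝ := W ^ (1 / (2 + η)) with hL1
  have hL10 : 0 < L1 := Real.rpow_pos_of_pos hW0 _
  have hL1b : L1 ≤ (b : ℝ) ^ k := by
    calc L1 ≤ ((b : ℝ) ^ k) ^ (1 / (2 + η)) := Real.rpow_le_rpow hW0.le hWb (by positivity)
      _ ≤ ((b : ℝ) ^ k) ^ (1 : ℝ) := by
          apply Real.rpow_le_rpow_of_exponent_le hbk
          rw [div_le_one (by positivity)]
          linarith
      _ = (b : ℝ) ^ k := Real.rpow_one _
  have hWH : ∀ H : ℝ, 0 < H → κ * (b : ℝ) ^ k ≤ 2 * u * (u * (c : ℝ) ^ i) ^ η * H ^ (2 + η) →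
      L1 ≤ H := by
    intro H hH0 h1
    have h2 : W ≤ H ^ (2 + η) := by
      rw [hW, div_le_iff₀ hY0, hY]
      linarith
    calc L1 ≤ (H ^ (2 + η)) ^ (1 / (2 + η)) := Real.rpow_le_rpow hW0.le h2 (by positivity)
      _ = H := by
          rw [← Real.rpow_mul hH0.le, mul_one_div_cancel (by positivity), Real.rpow_one]
  -- the logarithm of L1
  have hlX : Real.logb b (u * (c : ℝ) ^ i) = U + i * Tc := by
    rw [Real.logb_mul (by positivity) (by positivity), Real.logb_pow]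
  have hlY : Real.logb b Y = Real.logb b (2 * u) + η * (U + i * Tc) := by
    rw [hY, Real.logb_mul (by positivity) (by positivity),
      Real.logb_rpow_eq_mul_logb_of_pos hX0, hlX]
  have h3 : Real.logb b L1 = (Real.logb b κ + k - Real.logb b Y) / (2 + η) := by
    rw [hL1, Real.logb_rpow_eq_mul_logb_of_pos hW0, hW, Real.logb_div (by positivity) hY0.ne',
      Real.logb_mul hκpos.ne' hbk0.ne', Real.logb_pow, Real.logb_self_eq_one hbR]
    ring
  have hkX : (k : ℝ) ≤ U + i * Tc := by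
    have h4 : (b : ℝ) ^ (s + k) ≤ u * (c : ℝ) ^ i := by exact_mod_cast hk
    have h5 := Real.logb_le_logb_of_le hbR (by positivity) h4
    rw [hlX, Real.logb_pow, Real.logb_self_eq_one hbR] at h5
    push_cast at h5
    linarith
  have hηT : η * Tc = ε := by rw [hη]; field_simp
  have h4 : Real.logb b L1 ≥ k / 2 - ε * i - K0 := by
    rw [h3, hlY, ge_iff_le, le_div_iff₀ (by positivity), hK0]
    have h5 := neg_abs_le (Real.logb b κ)
    have h6 := abs_nonneg (Real.logb b κ)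
    have h7 : 0 ≤ η * |Real.logb b κ| := by positivity
    have h9 : 0 ≤ η * (ε * i) := by positivity
    have h10 : 0 ≤ η * Real.logb b (2 * u) := by positivity
    have h11 : 0 ≤ η * U := by positivity
    have h12 : 0 ≤ η * (η * U) := by positivity
    have h13 : η * k ≤ η * (U + i * Tc) := mul_le_mul_of_nonneg_left hkX hη0.le
    have h14 : η * (U + i * Tc) = η * U + ε * i := by rw [mul_add, ← hηT]; ring
    rw [h14] at h13 ⊢
    nlinarith
  -- the lower bound for all vectors of the lattice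
  set L2 : ℝ := (a : ℝ) ^ (s + k) / u with hL2
  have hL20 : 0 < L2 := by positivity
  set L : ℝ := min L1 L2 with hL
  have hL0 : 0 < L := lt_min hL10 hL20
  have hLb : L ≤ (b : ℝ) ^ k := (min_le_left _ _).trans hL1b
  have hlow : ∀ f g : ℤ, 0 < g →
      (b : ℤ) ^ k ∣ g * (∑ j ∈ range k, window b (u * c ^ i) s j * (b : ℤ) ^ j) - f →
      L ≤ (max |f| |g| : ℤ) := by
    intro f g hg hdv
    set H : ℝ := ((max |f| |g| : ℤ) : ℝ) with hH
    have hH0 : 0 < H := by
      have h2 : (0 : ℤ) < max |f| |g| := lt_max_of_lt_right (abs_pos.2 hg.ne')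
      rw [hH]
      exact Int.cast_pos.2 h2
    rcases low ha hc hac u hu η κ hη0 hR i s k hik hk f g hg hdv with h | ⟨h, -⟩
    · refine (min_le_right _ _).trans ?_
      rw [hL2, div_le_iff₀ (by linarith)]
      have h1 : (a : ℤ) ^ (s + k) ≤ g * u :=
        Int.le_of_dvd (by positivity) h
      have h2 : (a : ℝ) ^ (s + k) ≤ g * u := by exact_mod_cast h1
      have h3 : (g : ℝ) ≤ H := by
        rw [hH]
        have : g ≤ max |f| |g| := le_max_of_le_right (le_abs_self g)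
        exact_mod_cast this
      have h4 := mul_le_mul_of_nonneg_right h3 (show (0 : ℝ) ≤ u by linarith)
      linarith
    · exact (min_le_left _ _).trans (hWH H hH0 h)
  obtain ⟨-, hupper⟩ := bounds (by omega) k _ L hL0 hLb hlow
  -- the target
  set M : ℝ := max ((k : ℝ) / 2) (k * Tc - s * Ta) with hM
  have hup : adicComplexity b k (window b (u * c ^ i) s) ≤ M + (ε * i + (2 + K0 + U)) := by
    rcases min_choice L1 L2 with h | h
    · rw [hL, h] at hupper
      have h5 : (k : ℝ) / 2 ≤ M := le_max_left _ _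
      linarith
    · rw [hL, h] at hupper
      have h5 : k * Tc - s * Ta ≤ M := le_max_right _ _
      have h6 : Real.logb b L2 = (s + k) * Ta - U := by
        rw [hL2, Real.logb_div (by positivity) (by positivity), Real.logb_pow]
        push_cast
        ring
      rw [h6] at hupper
      have h7 : (k : ℝ) = k * (Ta + Tc) := by rw [hsumT, mul_one]
      nlinarith
  -- the lower bound for the complexity
  have hdn : M ≤ adicComplexity b k (window b (u * c ^ i) s) +
      (ε * i + (K0 + Real.logb b 2 + U / Ta)) := by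
    obtain ⟨f, g, hg, hco, hdv, hfs, hgs⟩ :=
      Pool.Agent.X2.AdicJoint.exists_rep (b := b) k (window b (u * c ^ i) s)
    set Z : ℝ := (size b k (window b (u * c ^ i) s) : ℝ) with hZ
    have hH : ((max |f| |g| : ℤ) : ℝ) ≤ Z := by
      have h1 : max |f| |g| ≤ (size b k (window b (u * c ^ i) s) : ℤ) := by
        apply max_le hfs
        rw [abs_of_pos hg]; exact hgs
      rw [hZ]
      exact_mod_cast h1
    have hH0 : (0 : ℝ) < ((max |f| |g| : ℤ) : ℝ) := by
      have h2 : (0 : ℤ) < max |f| |g| := lt_max_of_lt_right (abs_pos.2 hg.ne')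
      exact Int.cast_pos.2 h2
    have hZ0 : 0 < Z := hH0.trans_le hH
    have hZ1 : 1 ≤ Z := by
      have h1 : (1 : ℤ) ≤ size b k (window b (u * c ^ i) s) := by omega
      rw [hZ]
      exact_mod_cast h1
    have hcx : adicComplexity b k (window b (u * c ^ i) s) = Real.logb b Z := rfl
    have hcx0 : 0 ≤ Real.logb b Z := Real.logb_nonneg hbR hZ1
    rw [hcx]
    rcases low ha hc hac u hu η κ hη0 hR i s k hik hk f g hg hdv with h | ⟨h, h'⟩
    · -- the exponent is bounded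
      have h1 : IsCoprime ((a : ℤ) ^ (s + k)) g := by
        apply IsCoprime.pow_left
        rw [Int.isCoprime_iff_gcd_eq_one, Int.gcd_comm]
        have h2 : Int.gcd g a ∣ Int.gcd g b := by
          apply Int.dvd_gcd
          · exact Int.gcd_dvd_left ..
          · have := Int.gcd_dvd_right g a
            rw [hbdef]
            push_cast
            exact Dvd.dvd.mul_right this _
        rw [hco] at h2
        exact Nat.dvd_one.1 h2
      have h2 := h1.dvd_of_dvd_mul_left h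
      have h3 : (a : ℤ) ^ (s + k) ≤ u := Int.le_of_dvd (by exact_mod_cast hu) h2
      have h4 : (a : ℝ) ^ (s + k) ≤ u := by exact_mod_cast h3
      have h5 := Real.logb_le_logb_of_le hbR (by positivity) h4
      rw [Real.logb_pow] at h5
      push_cast at h5
      have h6 : ((s : ℝ) + k) ≤ U / Ta := by
        rw [le_div_iff₀ hTa0]; exact h5
      have h7 : M ≤ k := by
        apply max_le (by linarith)
        have h8 : k * Tc ≤ k * 1 := mul_le_mul_of_nonneg_left (by linarith) hk0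
        have h9 : 0 ≤ s * Ta := by positivity
        linarith
      linarith
    · apply max_le
      · have h1 := hWH _ hH0 h
        have h2 := Real.logb_le_logb_of_le hbR hL10 (h1.trans hH)
        linarith
      · have h1 : (c : ℝ) ^ k ≤ 2 * Z * (a : ℝ) ^ s := by
          refine h'.trans ?_
          apply mul_le_mul_of_nonneg_right _ (by positivity)
          linarith
        have h2 := Real.logb_le_logb_of_le hbR (by positivity) h1
        rw [Real.logb_mul (by positivity) (by positivity), Real.logb_mul (by norm_num) hZ0.ne',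
          Real.logb_pow, Real.logb_pow] at h2
        linarith
  rw [abs_le]
  constructor <;> linarith

/-- the size depends on the first letters only -/
lemma size_congr {b n : ℕ} {c c' : ℕ → ℤ} (h : ∀ i < n, c i = c' i) : size b n c = size b n c' := by
  have e : ∑ i ∈ range n, c i * (b : ℤ) ^ i = ∑ i ∈ range n, c' i * (b : ℤ) ^ i :=
    sum_congr rfl fun i hi => by rw [h i (mem_range.1 hi)]
  unfold size
  rw [e]

lemma le_k {b : ℕ} (hb : 2 ≤ b) (N s k : ℕ) : adicComplexity b k (window b N s) ≤ k := by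
  have hbR : (1 : ℝ) < b := by exact_mod_cast (by omega : 1 < b)
  have h1 : size b k (window b N s) ≤ b ^ k := by
    apply Nat.sInf_le
    refine ⟨((N / b ^ s % b ^ k : ℕ) : ℤ), 1, one_pos, by simp, ?_, ?_, ?_⟩
    · rw [value, one_mul, sub_self]
      exact dvd_zero _
    · rw [abs_of_nonneg (by positivity)]
      exact_mod_cast (Nat.mod_lt _ (by positivity)).le
    · exact_mod_cast Nat.one_le_pow _ _ (by omega)
  have h2 : 1 ≤ size b k (window b N s) := Pool.Agent.X2.AdicJoint.size_pos k _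
  unfold adicComplexity
  have h3 : (size b k (window b N s) : ℝ) ≤ (b : ℝ) ^ k := by exact_mod_cast h1
  have h4 : (0 : ℝ) < size b k (window b N s) := by exact_mod_cast h2
  calc Real.logb b (size b k (window b N s)) ≤ Real.logb b ((b : ℝ) ^ k) :=
        Real.logb_le_logb_of_le hbR h4 h3
    _ = k := by rw [Real.logb_pow, Real.logb_self_eq_one hbR, mul_one]

lemma nonneg {b : ℕ} (hb : 2 ≤ b) (k : ℕ) (c : ℕ → ℤ) : 0 ≤ adicComplexity b k c := by
  have hbR : (1 : ℝ) < b := by exact_mod_cast (by omega : 1 < b)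
  have h2 : 1 ≤ size b k c := Pool.Agent.X2.AdicJoint.size_pos k _
  exact Real.logb_nonneg hbR (by exact_mod_cast h2)

/-- the complexity of the windows of `u c ^ i` in base `a c`, all windows -/
theorem mixed' {a c : ℕ} (ha : 2 ≤ a) (hc : 2 ≤ c) (hac : a.Coprime c) (u : ℕ) (hu : 1 ≤ u)
    (ε : ℝ) (hε : 0 < ε) :
    ∃ C : ℝ, ∀ i s k : ℕ, (a * c) ^ (s + k) ≤ u * c ^ i →
      |adicComplexity (a * c) k (window (a * c) (u * c ^ i) s) -
        max ((k : ℝ) / 2) (k * Real.logb (a * c) c - s * Real.logb (a * c) a)| ≤ ε * i + C := by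
  obtain ⟨C, hC⟩ := mixed ha hc hac u hu ε hε
  have hb4 : 4 ≤ a * c := by nlinarith
  refine ⟨|C| + u, ?_⟩
  intro i s k hk
  have hu0 : (0 : ℝ) ≤ u := Nat.cast_nonneg u
  have hεi : 0 ≤ ε * (i : ℝ) := by positivity
  rcases le_or_gt (s + k) i with h | h
  · have h1 := hC i s k h hk
    have h2 := le_abs_self C
    linarith
  · have h1 : a ^ (s + k) ≤ u := by
      have h2 : (a * c) ^ (s + k) ≤ u * c ^ (s + k) :=
        hk.trans (Nat.mul_le_mul_left _ (Nat.pow_le_pow_right (by omega) h.le))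
      rw [mul_pow] at h2
      exact Nat.le_of_mul_le_mul_right h2 (by positivity)
    have h2 : s + k ≤ u := by
      have h3 : s + k < a ^ (s + k) := Nat.lt_pow_self (by omega)
      omega
    have h3 : (k : ℝ) ≤ u := by exact_mod_cast (by omega : k ≤ u)
    have h4 := le_k (b := a * c) (by omega) (u * c ^ i) s k
    have h5 := nonneg (b := a * c) (by omega) k (window (a * c) (u * c ^ i) s)
    have hk0 : (0 : ℝ) ≤ k := Nat.cast_nonneg k
    have hs0 : (0 : ℝ) ≤ s := Nat.cast_nonneg s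
    have haR : (1 : ℝ) < a := by exact_mod_cast (by omega : 1 < a)
    have hcR : (1 : ℝ) < c := by exact_mod_cast (by omega : 1 < c)
    have hbR : (1 : ℝ) < (a : ℝ) * c := by nlinarith
    have h6 : Real.logb ((a : ℝ) * c) c ≤ 1 := by
      rw [Real.logb_le_iff_le_rpow hbR (by linarith), Real.rpow_one]
      nlinarith
    have h7 : 0 ≤ Real.logb ((a : ℝ) * c) a := Real.logb_nonneg hbR haR.le
    have h8 : max ((k : ℝ) / 2) (k * Real.logb (a * c) c - s * Real.logb (a * c) a) ≤ k := by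
      apply max_le (by linarith)
      have h9 : (k : ℝ) * Real.logb ((a : ℝ) * c) c ≤ k * 1 := mul_le_mul_of_nonneg_left h6 hk0
      have h10 : 0 ≤ (s : ℝ) * Real.logb ((a : ℝ) * c) a := by positivity
      linarith
    have h9 : (k : ℝ) / 2 ≤ max ((k : ℝ) / 2) (k * Real.logb (a * c) c - s * Real.logb (a * c) a) :=
      le_max_left _ _
    have h10 := abs_nonneg C
    rw [abs_le]
    constructor <;> linarith

end Pool.Agent.X2.AdicMixed
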