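import Mathlib
import Pool.Agent.X2.AdicDigits

/-!
# The `b`-adic complexity of reversed prefixes and irrationality measures
-/

set_option autoImplicit false

namespace Pool.Agent.X2.AdicMeasure

open Finset
open Pool.Agent.X2.AdicDigits

/-- approximation of `x` from a representation of the reversed prefix -/
lemma approx0 {b : ℕ} (hb : 2 ≤ b) (x : ℝ) (n : ℕ) (f g : ℤ) (hg : 0 < g)
    (h : (b : ℤ) ^ n ∣ g * (∑ i ∈ range n, backwards b x 0 n i * (b : ℤ) ^ i) - f) :
    ∃ k : ℤ, |((g.toNat : ℕ) : ℝ) * x - k| ≤ 2 * ((max |f| |g| : ℤ) : ℝ) / (b : ℝ) ^ n := by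
  obtain ⟨k, hk⟩ := approx hb x 0 n f g hg h
  rw [pow_zero, mul_one] at hk
  have hgt : ((g.toNat : ℕ) : ℝ) = (g : ℝ) := by
    have : ((g.toNat : ℕ) : ℤ) = g := Int.toNat_of_nonneg hg.le
    exact_mod_cast this
  rw [hgt]
  exact ⟨k, hk⟩

lemma size_facts {f g : ℤ} (hg : 0 < g) :
    ((g.toNat : ℕ) : ℝ) ≤ ((max |f| |g| : ℤ) : ℝ) ∧ (1 : ℝ) ≤ ((g.toNat : ℕ) : ℝ) := by
  have hgt : ((g.toNat : ℕ) : ℤ) = g := Int.toNat_of_nonneg hg.le
  constructor
  · have h1 : ((g.toNat : ℕ) : ℤ) ≤ max |f| |g| := by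
      rw [hgt]; exact le_max_of_le_right (le_abs_self g)
    exact_mod_cast h1
  · have h1 : 1 ≤ g.toNat := by omega
    exact_mod_cast h1

/-- numbers of type `q (log q)^A` -/
theorem logtype (x A c : ℝ) (hA : 0 ≤ A) (hc : 0 < c)
    (hx : ∀ q : ℕ, 1 ≤ q → ∀ p : ℤ, c ≤ (q : ℝ) * (1 + Real.log q) ^ A * |q * x - p|) :
    ∃ C : ℝ, ∀ b : ℕ, 2 ≤ b → ∀ n : ℕ,
      |adicComplexity b n (backwards b x 0 n) - n / 2| ≤ C * Real.log (n + 2) := by
  set c' : ℝ := min c 1 / 2 with hc'
  have hc'0 : 0 < c' := by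
    have := lt_min hc one_pos
    positivity
  have hc'1 : c' ≤ 1 / 2 := by
    have := min_le_right c 1
    linarith
  have hl2 : 0 < Real.log 2 := Real.log_pos (by norm_num)
  set K : ℝ := 2 + |Real.log c'| / (2 * Real.log 2) + A / 2 with hK
  have hK0 : 0 ≤ K := by positivity
  refine ⟨K / Real.log 2 + A / (2 * Real.log 2), ?_⟩
  intro b hb n
  have hbR : (1 : ℝ) < b := by exact_mod_cast (by omega : 1 < b)
  have hb0 : (0 : ℝ) < b := by linarith
  have hlb : Real.log 2 ≤ Real.log b := Real.log_le_log (by norm_num) (by exact_mod_cast hb)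
  have hlb0 : 0 < Real.log b := by linarith
  have hn0 : (0 : ℝ) ≤ n := Nat.cast_nonneg n
  set D : ℝ := 1 + n * Real.log b with hD
  have hD1 : 1 ≤ D := by rw [hD]; nlinarith
  have hDA : 1 ≤ D ^ A := Real.one_le_rpow hD1 hA
  have hDA0 : 0 < D ^ A := by linarith
  have hbn : (1 : ℝ) ≤ (b : ℝ) ^ n := one_le_pow₀ hbR.le
  have hbn0 : (0 : ℝ) < (b : ℝ) ^ n := by positivity
  set W : ℝ := c' * (b : ℝ) ^ n / D ^ A with hW
  have hW0 : 0 < W := by positivity
  have hWb : W ≤ (b : ℝ) ^ n := by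
    rw [hW, div_le_iff₀ hDA0]; nlinarith
  set L : ℝ := Real.sqrt W with hL
  have hL0 : 0 < L := Real.sqrt_pos.2 hW0
  have hLb : L ≤ (b : ℝ) ^ n := by
    rw [hL, Real.sqrt_le_left (by positivity)]
    nlinarith
  have hlow : ∀ f g : ℤ, 0 < g →
      (b : ℤ) ^ n ∣ g * (∑ i ∈ range n, backwards b x 0 n i * (b : ℤ) ^ i) - f →
      L ≤ (max |f| |g| : ℤ) := by
    intro f g hg hdv
    obtain ⟨k, hk⟩ := approx0 hb x n f g hg hdv
    obtain ⟨hgH, hg1⟩ := size_facts (f := f) hg
    have h1 := hx g.toNat (by omega) k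
    set H : ℝ := ((max |f| |g| : ℤ) : ℝ) with hH
    have hH1 : 1 ≤ H := hg1.trans hgH
    have hH0 : 0 < H := by linarith
    rcases le_or_gt ((b : ℝ) ^ n) H with hbig | hsmall
    · exact hLb.trans hbig
    have hlg : Real.log ((g.toNat : ℕ) : ℝ) ≤ n * Real.log b := by
      rw [← Real.log_pow]
      exact Real.log_le_log (by linarith) (hgH.trans hsmall.le)
    have hlg0 : 0 ≤ Real.log ((g.toNat : ℕ) : ℝ) := Real.log_nonneg hg1
    have h2 : c ≤ H * D ^ A * (2 * H / (b : ℝ) ^ n) := by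
      refine h1.trans ?_
      apply mul_le_mul _ hk (abs_nonneg _) (by positivity)
      apply mul_le_mul hgH _ (by positivity) hH0.le
      exact Real.rpow_le_rpow (by linarith) (by rw [hD]; linarith) hA
    have h3 : H * D ^ A * (2 * H / (b : ℝ) ^ n) = 2 * H ^ 2 * D ^ A / (b : ℝ) ^ n := by ring
    rw [h3, le_div_iff₀ hbn0] at h2
    rw [hL]
    apply Real.sqrt_le_iff.2 ⟨hH0.le, ?_⟩
    rw [hW, div_le_iff₀ hDA0]
    have h4 : c' ≤ c / 2 := by
      have := min_le_left c 1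
      rw [hc']; linarith
    nlinarith
  obtain ⟨h1, h2⟩ := bounds hb n _ L hL0 hLb hlow
  have h3 : Real.logb b L = n / 2 + Real.logb b c' / 2 - A / 2 * Real.logb b D := by
    rw [hL, Real.sqrt_eq_rpow, Real.logb_rpow_eq_mul_logb_of_pos hW0, hW,
      Real.logb_div (by positivity) hDA0.ne', Real.logb_mul hc'0.ne' (by positivity),
      Real.logb_pow, Real.logb_self_eq_one hbR, Real.logb_rpow_eq_mul_logb_of_pos (by linarith)]
    ring
  have h4 : |Real.logb b c' / 2| ≤ |Real.log c'| / (2 * Real.log 2) := by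
    unfold Real.logb
    rw [abs_div, abs_div, abs_of_pos hlb0, abs_of_pos (by norm_num : (0 : ℝ) < 2), div_div]
    apply div_le_div_of_nonneg_left (abs_nonneg _) (by positivity)
    linarith
  have hln : Real.log 2 ≤ Real.log (n + 2) := Real.log_le_log (by norm_num) (by linarith)
  have h5 : Real.logb b D ≤ 1 + Real.log (n + 2) / Real.log 2 := by
    have h6 : Real.log D ≤ Real.log (n + 2) + Real.log b := by
      rw [← Real.log_mul (by linarith) (by linarith)]
      apply Real.log_le_log (by linarith)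
      have h7 : 1 + Real.log b ≤ b := by
        have := Real.log_le_sub_one_of_pos hb0
        linarith
      rw [hD]
      nlinarith
    unfold Real.logb
    rw [div_le_iff₀ hlb0]
    have h8 : Real.log (n + 2) ≤ Real.log (n + 2) / Real.log 2 * Real.log b := by
      rw [div_mul_eq_mul_div, le_div_iff₀ hl2]
      apply mul_le_mul_of_nonneg_left hlb (by linarith)
    linarith
  have h6 : 0 ≤ Real.logb b D := Real.logb_nonneg hbR hD1
  have h7 : |adicComplexity b n (backwards b x 0 n) - n / 2| ≤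
      K + A / 2 * (Real.log (n + 2) / Real.log 2) := by
    have h8 : A / 2 * Real.logb b D ≤ A / 2 * (1 + Real.log (n + 2) / Real.log 2) :=
      mul_le_mul_of_nonneg_left h5 (by positivity)
    rw [h3] at h1 h2
    rw [abs_le] at h4 ⊢
    constructor
    · linarith [h4.1, h4.2]
    · linarith [h4.1, h4.2]
  refine h7.trans ?_
  have h8 : K ≤ K / Real.log 2 * Real.log (n + 2) := by
    rw [div_mul_eq_mul_div, le_div_iff₀ hl2]
    exact mul_le_mul_of_nonneg_left hln hK0
  have h9 : A / 2 * (Real.log (n + 2) / Real.log 2) = A / (2 * Real.log 2) * Real.log (n + 2) := by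
    field_simp
  rw [h9, add_mul]
  linarith

/-- numbers with a power measure -/
theorem powtype (x κ c : ℝ) (hκ : 0 ≤ κ) (hc : 0 < c)
    (hx : ∀ q : ℕ, 1 ≤ q → ∀ p : ℤ, c ≤ (q : ℝ) ^ κ * |q * x - p|) :
    ∃ C : ℝ, ∀ b : ℕ, 2 ≤ b → ∀ n : ℕ,
      n / (κ + 1) - C ≤ adicComplexity b n (backwards b x 0 n) ∧
      adicComplexity b n (backwards b x 0 n) ≤ n - n / (κ + 1) + C := by
  set c' : ℝ := min c 1 / 2 with hc'
  have hc'0 : 0 < c' := by
    have := lt_min hc one_pos
    positivity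
  have hc'1 : c' ≤ 1 / 2 := by
    have := min_le_right c 1
    linarith
  have hl2 : 0 < Real.log 2 := Real.log_pos (by norm_num)
  refine ⟨2 + |Real.log c'| / Real.log 2, ?_⟩
  intro b hb n
  have hbR : (1 : ℝ) < b := by exact_mod_cast (by omega : 1 < b)
  have hb0 : (0 : ℝ) < b := by linarith
  have hlb : Real.log 2 ≤ Real.log b := Real.log_le_log (by norm_num) (by exact_mod_cast hb)
  have hlb0 : 0 < Real.log b := by linarith
  have hbn : (1 : ℝ) ≤ (b : ℝ) ^ n := one_le_pow₀ hbR.le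
  have hbn0 : (0 : ℝ) < (b : ℝ) ^ n := by positivity
  set W : ℝ := c' * (b : ℝ) ^ n with hW
  have hW0 : 0 < W := by positivity
  have hWb : W ≤ (b : ℝ) ^ n := by
    rw [hW]; nlinarith
  set L : ℝ := W ^ (1 / (κ + 1)) with hL
  have hL0 : 0 < L := Real.rpow_pos_of_pos hW0 _
  have hLb : L ≤ (b : ℝ) ^ n := by
    calc L ≤ ((b : ℝ) ^ n) ^ (1 / (κ + 1)) := Real.rpow_le_rpow hW0.le hWb (by positivity)
      _ ≤ ((b : ℝ) ^ n) ^ (1 : ℝ) := by
          apply Real.rpow_le_rpow_of_exponent_le hbn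
          rw [div_le_one (by positivity)]
          linarith
      _ = (b : ℝ) ^ n := Real.rpow_one _
  have hlow : ∀ f g : ℤ, 0 < g →
      (b : ℤ) ^ n ∣ g * (∑ i ∈ range n, backwards b x 0 n i * (b : ℤ) ^ i) - f →
      L ≤ (max |f| |g| : ℤ) := by
    intro f g hg hdv
    obtain ⟨k, hk⟩ := approx0 hb x n f g hg hdv
    obtain ⟨hgH, hg1⟩ := size_facts (f := f) hg
    have h1 := hx g.toNat (by omega) k
    set H : ℝ := ((max |f| |g| : ℤ) : ℝ) with hH
    have hH1 : 1 ≤ H := hg1.trans hgH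
    have hH0 : 0 < H := by linarith
    have h2 : c ≤ H ^ κ * (2 * H / (b : ℝ) ^ n) := by
      refine h1.trans ?_
      apply mul_le_mul _ hk (abs_nonneg _) (by positivity)
      exact Real.rpow_le_rpow (by linarith) hgH hκ
    have h3 : H ^ κ * (2 * H / (b : ℝ) ^ n) = 2 * (H ^ κ * H) / (b : ℝ) ^ n := by ring
    have h4 : H ^ κ * H = H ^ (κ + 1) := by
      rw [Real.rpow_add hH0, Real.rpow_one]
    rw [h3, h4, le_div_iff₀ hbn0] at h2
    have h5 : W ≤ H ^ (κ + 1) := by
      rw [hW]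
      have h4 : c' ≤ c / 2 := by
        have := min_le_left c 1
        rw [hc']; linarith
      nlinarith
    calc L ≤ (H ^ (κ + 1)) ^ (1 / (κ + 1)) := Real.rpow_le_rpow hW0.le h5 (by positivity)
      _ = H := by
          rw [← Real.rpow_mul hH0.le, mul_one_div_cancel (by positivity), Real.rpow_one]
  obtain ⟨h1, h2⟩ := bounds hb n _ L hL0 hLb hlow
  have h3 : Real.logb b L = n / (κ + 1) + Real.logb b c' / (κ + 1) := by
    rw [hL, Real.logb_rpow_eq_mul_logb_of_pos hW0, hW,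
      Real.logb_mul hc'0.ne' (by positivity), Real.logb_pow, Real.logb_self_eq_one hbR]
    ring
  have h4 : |Real.logb b c' / (κ + 1)| ≤ |Real.log c'| / Real.log 2 := by
    unfold Real.logb
    rw [abs_div, abs_div, abs_of_pos hlb0, abs_of_pos (by positivity : 0 < κ + 1), div_div]
    apply div_le_div_of_nonneg_left (abs_nonneg _) (by positivity)
    nlinarith
  rw [h3] at h1 h2
  rw [abs_le] at h4
  constructor <;> linarith [h4.1, h4.2]

end Pool.Agent.X2.AdicMeasure
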