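import Mathlib

/-!
# Zero positions of generalized Baum–Sweet sequences are not regular
-/

namespace Pool.Agent.X2.BaumSweet

open Finset

/-- The length of every block of zeros in the binary expansion of `n` is a multiple of `r`.
A block of zeros is given by its lowest bit position `i` and its length `L`: the bits
`i, …, i+L-1` are `0`, the bit `i+L` is `1`, and either `i = 0` or the bit `i-1` is `1`.
(For `L = 0` the condition `r ∣ 0` holds trivially; for `n = 0` there is no block.) -/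
def Valid (r n : ℕ) : Prop :=
  ∀ i L : ℕ, (∀ t < L, n.testBit (i + t) = false) → n.testBit (i + L) = true →
    (i = 0 ∨ n.testBit (i - 1) = true) → r ∣ L

open Classical in
/-- the generalized Baum–Sweet sequence `b^{(r)}` -/
noncomputable def b (r n : ℕ) : ℕ := if Valid r n then 1 else 0

/-- the increasing enumeration of the zeros of `b^{(r)}` -/
noncomputable def h (r : ℕ) : ℕ → ℕ := Nat.nth fun m => b r m = 0

/-- the `k`-kernel of an integer sequence -/
def kernel (k : ℕ) (u : ℕ → ℤ) : Set (ℕ → ℤ) :=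
  {v | ∃ i j : ℕ, j < k ^ i ∧ v = fun n => u (k ^ i * n + j)}

/-- `u` is `k`-regular: the `ℤ`-module generated by its `k`-kernel is finitely generated -/
def Regular (k : ℕ) (u : ℕ → ℤ) : Prop := (Submodule.span ℤ (kernel k u)).FG

/-! ### bounded sequences in finitely generated modules -/

/-- in a finitely generated module of sequences there are only finitely many sequences with
values in `{1,2,3,4}` -/
lemma finite_bounded (N : Submodule ℤ (ℕ → ℤ)) (hN : N.FG) :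
    {x : ℕ → ℤ | x ∈ N ∧ ∀ n, 1 ≤ x n ∧ x n ≤ 4}.Finite := by
  obtain ⟨S, hS⟩ := hN
  let red : (ℕ → ℤ) → (ℕ → ZMod 5) := fun x n => (x n : ZMod 5)
  have hinj : Set.InjOn red {x : ℕ → ℤ | x ∈ N ∧ ∀ n, 1 ≤ x n ∧ x n ≤ 4} := by
    rintro x ⟨-, hx⟩ y ⟨-, hy⟩ hxy
    funext n
    have h1 : ((x n : ℤ) : ZMod 5) = ((y n : ℤ) : ZMod 5) := congrFun hxy n
    rw [ZMod.intCast_eq_intCast_iff_dvd_sub] at h1
    have h2 := hx n
    have h3 := hy n
    obtain ⟨c, hc⟩ := h1
    push_cast at hc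
    omega
  apply Set.Finite.of_finite_image _ hinj
  -- the image lies in the range of a map from a finite type
  have hsub : red '' {x : ℕ → ℤ | x ∈ N ∧ ∀ n, 1 ≤ x n ∧ x n ≤ 4} ⊆
      Set.range (fun c : S → ZMod 5 => fun n => ∑ g : S, c g * red g.1 n) := by
    rintro _ ⟨x, ⟨hx, -⟩, rfl⟩
    rw [← hS] at hx
    obtain ⟨c, hc⟩ := (Submodule.mem_span_finset).mp hx
    obtain ⟨-, hc⟩ := hc
    refine ⟨fun g => (c g.1 : ZMod 5), ?_⟩
    funext n
    show ∑ g : S, ((c g.1 : ℤ) : ZMod 5) * ((g.1 n : ℤ) : ZMod 5) = ((x n : ℤ) : ZMod 5)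
    rw [← hc]
    simp only [Finset.sum_apply, Pi.smul_apply, smul_eq_mul]
    push_cast
    rw [← Finset.sum_coe_sort S (fun g => ((c g : ℤ) : ZMod 5) * ((g n : ℤ) : ZMod 5))]
  exact (Set.finite_range _).subset hsub

/-- the difference sequence of a regular sequence has a finite kernel if it takes values in
`{1,2,3,4}` -/
lemma finite_kernel {k : ℕ} {u : ℕ → ℤ} (hu : Regular k u)
    (hd : ∀ n, 1 ≤ u (n + 1) - u n ∧ u (n + 1) - u n ≤ 4) :
    (kernel k fun n => u (n + 1) - u n).Finite := by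
  let S : (ℕ → ℤ) →ₗ[ℤ] (ℕ → ℤ) :=
    { toFun := fun x n => x (n + 1)
      map_add' := fun x y => rfl
      map_smul' := fun c x => rfl }
  have hN : (Submodule.span ℤ (kernel k u) ⊔ (Submodule.span ℤ (kernel k u)).map S).FG :=
    Submodule.FG.sup hu (Submodule.FG.map S hu)
  apply (finite_bounded _ hN).subset
  rintro v ⟨i, j, hj, rfl⟩
  refine ⟨?_, fun n => ?_⟩
  · have h1 : (fun n => u (k ^ i * n + j)) ∈ Submodule.span ℤ (kernel k u) :=
      Submodule.subset_span ⟨i, j, hj, rfl⟩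
    have h2 : (fun n => u (k ^ i * n + j + 1)) ∈
        Submodule.span ℤ (kernel k u) ⊔ (Submodule.span ℤ (kernel k u)).map S := by
      rcases Nat.lt_or_ge (j + 1) (k ^ i) with h | h
      · apply Submodule.mem_sup_left
        exact Submodule.subset_span ⟨i, j + 1, h, rfl⟩
      · apply Submodule.mem_sup_right
        refine ⟨fun n => u (k ^ i * n + 0), Submodule.subset_span ⟨i, 0, by omega, rfl⟩, ?_⟩
        funext n
        show u (k ^ i * (n + 1) + 0) = u (k ^ i * n + j + 1)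
        congr 1
        have : k ^ i * (n + 1) = k ^ i * n + k ^ i := by ring
        omega
    exact Submodule.sub_mem _ h2 (Submodule.mem_sup_left h1)
  · exact hd _

/-- eventual periodicity of the levels of a finite kernel -/
lemma periodic_levels {k : ℕ} (hk : 2 ≤ k) {d : ℕ → ℤ} (hd : (kernel k d).Finite) :
    ∃ i₀ p : ℕ, 1 ≤ p ∧ ∀ t a : ℕ,
      (∃ n, k ^ i₀ * a ≤ n ∧ n < k ^ i₀ * (a + 1) ∧ 2 ≤ d n) ↔
      (∃ n, k ^ (i₀ + p * t) * a ≤ n ∧ n < k ^ (i₀ + p * t) * (a + 1) ∧ 2 ≤ d n) := by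
  let G : ℕ → Set (ℕ → ℤ) := fun i => {v | ∃ j < k ^ i, v = fun n => d (k ^ i * n + j)}
  have hG : ∀ i, G i ⊆ kernel k d := fun i v ⟨j, hj, hv⟩ => ⟨i, j, hj, hv⟩
  let Φ : Set (ℕ → ℤ) → Set (ℕ → ℤ) := fun A => {v | ∃ e ∈ A, ∃ c < k, v = fun n => e (k * n + c)}
  have hstep : ∀ i, G (i + 1) = Φ (G i) := by
    intro i
    ext v
    constructor
    · rintro ⟨j, hj, rfl⟩
      have hpos : 0 < k ^ i := by positivity
      refine ⟨fun n => d (k ^ i * n + j % k ^ i), ⟨j % k ^ i, Nat.mod_lt _ hpos, rfl⟩,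
        j / k ^ i, ?_, ?_⟩
      · rw [Nat.div_lt_iff_lt_mul hpos, mul_comm, ← pow_succ]; exact hj
      · funext n
        show d (k ^ (i + 1) * n + j) = d (k ^ i * (k * n + j / k ^ i) + j % k ^ i)
        congr 1
        have := Nat.div_add_mod j (k ^ i)
        rw [pow_succ]
        calc k ^ i * k * n + j = k ^ i * k * n + (k ^ i * (j / k ^ i) + j % k ^ i) := by rw [this]
          _ = k ^ i * (k * n + j / k ^ i) + j % k ^ i := by ring
    · rintro ⟨e, ⟨j, hj, rfl⟩, c, hc, rfl⟩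
      refine ⟨k ^ i * c + j, ?_, ?_⟩
      · have : k ^ i * (c + 1) ≤ k ^ i * k := Nat.mul_le_mul_left _ hc
        rw [pow_succ]
        have e1 : k ^ i * (c + 1) = k ^ i * c + k ^ i := by ring
        omega
      · funext n
        show d (k ^ i * (k * n + c) + j) = d (k ^ (i + 1) * n + (k ^ i * c + j))
        congr 1
        ring
  -- pigeonhole
  have hfin : {A : Set (ℕ → ℤ) | A ⊆ kernel k d}.Finite := hd.finite_subsets
  obtain ⟨i₀, i₁, hne, heq⟩ : ∃ i₀ i₁ : ℕ, i₀ < i₁ ∧ G i₀ = G i₁ := by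
    have := Set.infinite_univ.exists_ne_map_eq_of_mapsTo (f := G) (s := Set.univ)
      (t := {A : Set (ℕ → ℤ) | A ⊆ kernel k d}) (fun i _ => hG i) hfin
    obtain ⟨x, -, y, -, hxy, hG'⟩ := this
    rcases lt_or_gt_of_ne hxy with h | h
    · exact ⟨x, y, h, hG'⟩
    · exact ⟨y, x, h, hG'.symm⟩
  obtain ⟨p, hp⟩ : ∃ p, i₁ = i₀ + p := ⟨i₁ - i₀, by omega⟩
  have hshift : ∀ s, G (i₀ + s) = G (i₀ + p + s) := by
    intro s
    induction s with
    | zero => rw [add_zero, add_zero, ← hp]; exact heq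
    | succ s ih => rw [← add_assoc, ← add_assoc, hstep, hstep, ih]
  have hper : ∀ t, G (i₀ + p * t) = G i₀ := by
    intro t
    induction t with
    | zero => rw [mul_zero, add_zero]
    | succ t ih =>
      rw [← ih, mul_add, mul_one, add_comm (p * t) p, ← add_assoc]
      exact (hshift (p * t)).symm
  refine ⟨i₀, p, by omega, fun t a => ?_⟩
  have key : ∀ i, (∃ n, k ^ i * a ≤ n ∧ n < k ^ i * (a + 1) ∧ 2 ≤ d n) ↔
      ∃ e ∈ G i, 2 ≤ e a := by
    intro i
    constructor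
    · rintro ⟨n, h1, h2, h3⟩
      refine ⟨_, ⟨n - k ^ i * a, ?_, rfl⟩, ?_⟩
      · have : k ^ i * (a + 1) = k ^ i * a + k ^ i := by ring
        omega
      · show 2 ≤ d (k ^ i * a + (n - k ^ i * a))
        rw [show k ^ i * a + (n - k ^ i * a) = n by omega]
        exact h3
    · rintro ⟨_, ⟨j, hj, rfl⟩, h⟩
      refine ⟨k ^ i * a + j, by omega, ?_, h⟩
      have : k ^ i * (a + 1) = k ^ i * a + k ^ i := by ring
      omega
  rw [key, key, hper]

/-! ### valid numbers -/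

lemma b_eq_zero {r n : ℕ} : b r n = 0 ↔ ¬ Valid r n := by
  unfold b; split_ifs with h <;> simp [h]

lemma valid_zero (r : ℕ) : Valid r 0 := by
  intro i L _ h _
  simp at h

/-- a number whose only block of zeros is `[β, β + s)` with `r ∣ s` -/
lemma valid_block {r N s β : ℕ} (hs : r ∣ s) (h : β + s < N) :
    Valid r (2 ^ N - ((2 ^ s - 1) * 2 ^ β + 1)) := by
  have hlt : (2 ^ s - 1) * 2 ^ β < 2 ^ N := by
    have h1 : (2 ^ s - 1) * 2 ^ β ≤ 2 ^ s * 2 ^ β := Nat.mul_le_mul_right _ (Nat.sub_le _ _)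
    have h2 : 2 ^ s * 2 ^ β < 2 ^ N := by
      rw [← pow_add]
      exact Nat.pow_lt_pow_right (by norm_num) (by omega)
    omega
  have hbit : ∀ i, (2 ^ N - ((2 ^ s - 1) * 2 ^ β + 1)).testBit i = true ↔
      i < N ∧ ¬ (β ≤ i ∧ i < β + s) := by
    intro i
    rw [Nat.testBit_two_pow_sub_succ hlt]
    rw [Nat.testBit_mul_two_pow, Nat.testBit_two_pow_sub_one]
    simp only [Bool.and_eq_true, decide_eq_true_eq, Bool.not_eq_true', Bool.and_eq_false_iff,
      decide_eq_false_iff_not]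
    constructor
    · rintro ⟨h1, h2⟩
      refine ⟨h1, fun h3 => ?_⟩
      rcases h2 with h2 | h2 <;> omega
    · rintro ⟨h1, h2⟩
      refine ⟨h1, ?_⟩
      by_cases h3 : β ≤ i
      · right; omega
      · left; exact h3
  intro i L hz ht hb
  rcases Nat.eq_zero_or_pos L with h0 | h0
  · rw [h0]; exact dvd_zero r
  have h1 := hz 0 h0
  rw [add_zero] at h1
  rw [hbit] at ht
  have h2 : ¬ (i < N ∧ ¬ (β ≤ i ∧ i < β + s)) := by
    rw [← hbit, h1]; simp
  have h3 : β ≤ i ∧ i < β + s := by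
    by_contra hcon
    exact h2 ⟨by omega, hcon⟩
  have h4 : i + L = β + s := by
    have h5 := hz (L - 1) (by omega)
    have h6 : ¬ (i + (L - 1) < N ∧ ¬ (β ≤ i + (L - 1) ∧ i + (L - 1) < β + s)) := by
      rw [← hbit, h5]; simp
    have h7 : β ≤ i + (L - 1) ∧ i + (L - 1) < β + s := by
      by_contra hcon
      exact h6 ⟨by omega, hcon⟩
    omega
  have h5 : i = β := by
    rcases hb with hb | hb
    · omega
    · rw [hbit] at hb
      omega
  have : L = s := by omega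
  rw [this]; exact hs

lemma invalid_mod {r n : ℕ} (hr : 2 ≤ r) (h : n % 4 = 2) : ¬ Valid r n := by
  intro hv
  have h0 : n.testBit 0 = false := by
    rw [Nat.testBit_zero]; simp; omega
  have h1 : n.testBit 1 = true := by
    rw [Nat.testBit_succ, Nat.testBit_zero]; simp; omega
  have := Nat.le_of_dvd (by norm_num) (hv 0 1 (by
    intro t ht
    have : t = 0 := by omega
    subst this; exact h0) h1 (Or.inl rfl))
  omega

/-- binary expansion starting with `101` -/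
lemma invalid_five {r m n : ℕ} (hr : 2 ≤ r) (h1 : 5 * 2 ^ m ≤ n) (h2 : n < 6 * 2 ^ m) :
    ¬ Valid r n := by
  intro hv
  have hdiv : n / 2 ^ m = 5 := by
    apply Nat.div_eq_of_lt_le
    · exact h1
    · exact h2
  have e0 : n.testBit m = true := by
    have := Nat.testBit_div_two_pow (n := m) n 0
    rw [hdiv, zero_add] at this
    rw [← this]; decide
  have e1 : n.testBit (m + 1) = false := by
    have := Nat.testBit_div_two_pow (n := m) n 1
    rw [hdiv, add_comm 1 m] at this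
    rw [← this]; decide
  have e2 : n.testBit (m + 1 + 1) = true := by
    have := Nat.testBit_div_two_pow (n := m) n 2
    rw [hdiv, show 2 + m = m + 1 + 1 by ring] at this
    rw [← this]; decide
  have := Nat.le_of_dvd (by norm_num) (hv (m + 1) 1 (by
    intro t ht
    have : t = 0 := by omega
    subst this; exact e1) e2 (Or.inr (by simpa using e0)))
  omega

/-- octal digits of a valid number differ from `5` -/
lemma octal {r n j : ℕ} (hr : 2 ≤ r) (hv : Valid r n) : n / 8 ^ j % 8 ≠ 5 := by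
  intro h
  have h8 : (8 : ℕ) ^ j = 2 ^ (3 * j) := by
    rw [pow_mul]; norm_num
  have key : ∀ c, c < 3 → n.testBit (3 * j + c) = (5 : ℕ).testBit c := by
    intro c hc
    have e1 := Nat.testBit_div_two_pow (n := 3 * j) n c
    rw [← h8] at e1
    rw [add_comm, ← e1]
    have e2 : (n / 8 ^ j % 2 ^ 3).testBit c = (n / 8 ^ j).testBit c := by
      rw [Nat.testBit_mod_two_pow]; simp [hc]
    rw [← e2, show (2 : ℕ) ^ 3 = 8 by norm_num, h]
  have := Nat.le_of_dvd (by norm_num) (hv (3 * j + 1) 1 (by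
    intro t ht
    have : t = 0 := by omega
    subst this
    rw [add_zero, key 1 (by norm_num)]; decide) (by
      rw [add_assoc, key 2 (by norm_num)]; decide) (Or.inr (by
        rw [Nat.add_sub_cancel]
        have := key 0 (by norm_num)
        rw [add_zero] at this
        rw [this]; decide)))
  omega

/-- numbers below `8^m` without octal digit `5` -/
def W : ℕ → Finset ℕ
  | 0 => {0}
  | m + 1 => ((W m) ×ˢ ((range 8).erase 5)).image fun q => 8 * q.1 + q.2

lemma card_W (m : ℕ) : (W m).card ≤ 7 ^ m := by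
  induction m with
  | zero => simp [W]
  | succ m ih =>
    refine Finset.card_image_le.trans ?_
    rw [Finset.card_product]
    have : ((range 8).erase 5).card = 7 := by decide
    rw [this, pow_succ]
    exact Nat.mul_le_mul_right _ ih

lemma mem_W (m : ℕ) : ∀ n, n < 8 ^ m → (∀ j, n / 8 ^ j % 8 ≠ 5) → n ∈ W m := by
  induction m with
  | zero => intro n hn _; simp at hn; simp [W, hn]
  | succ m ih =>
    intro n hn h
    simp only [W, mem_image, mem_product, Prod.exists]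
    refine ⟨n / 8, n % 8, ⟨ih _ ?_ ?_, ?_⟩, by omega⟩
    · rw [pow_succ] at hn; omega
    · intro j
      have := h (j + 1)
      rwa [pow_succ, mul_comm (8 ^ j), ← Nat.div_div_eq_div_mul] at this
    · rw [mem_erase, mem_range]
      have := h 0
      rw [pow_zero, Nat.div_one] at this
      exact ⟨this, Nat.mod_lt _ (by norm_num)⟩

open Classical in
/-- number of valid numbers below `x` -/
noncomputable def v (r x : ℕ) : ℕ := Nat.count (Valid r) x

open Classical in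
/-- number of invalid numbers below `x` -/
noncomputable def w (r x : ℕ) : ℕ := Nat.count (fun m => b r m = 0) x

lemma v_add_w (r x : ℕ) : v r x + w r x = x := by
  classical
  unfold v w
  induction x with
  | zero => simp
  | succ x ih =>
    rw [Nat.count_succ, Nat.count_succ]
    by_cases h : Valid r x
    · rw [if_pos h, if_neg (by rw [b_eq_zero]; exact not_not.mpr h)]; omega
    · rw [if_neg h, if_pos (b_eq_zero.mpr h)]; omega

lemma v_mono (r : ℕ) : Monotone (v r) := by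
  classical
  exact Nat.count_monotone _

lemma w_mono (r : ℕ) : Monotone (w r) := by
  classical
  exact Nat.count_monotone _

lemma v_eight {r : ℕ} (hr : 2 ≤ r) (m : ℕ) : v r (8 ^ m) ≤ 7 ^ m := by
  classical
  unfold v
  rw [Nat.count_eq_card_filter_range]
  refine le_trans (Finset.card_le_card ?_) (card_W m)
  intro n hn
  rw [mem_filter, mem_range] at hn
  exact mem_W m n hn.1 fun j => octal hr hn.2

lemma seven_eight (q : ℕ) : (7 + q) * 7 ^ q ≤ 7 * 8 ^ q := by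
  induction q with
  | zero => simp
  | succ q ih =>
    rw [pow_succ, pow_succ]
    nlinarith [Nat.zero_le (7 ^ q), Nat.zero_le (8 ^ q), Nat.zero_le (q * 7 ^ q)]

/-- valid numbers are sparse -/
lemma v_small {r : ℕ} (hr : 2 ≤ r) (C : ℕ) : ∃ m₀, ∀ m ≥ m₀, C * v r (2 ^ m) ≤ 2 ^ m := by
  refine ⟨3 * (49 * C), fun m hm => ?_⟩
  obtain ⟨q, s, hs, rfl⟩ : ∃ q s, s < 3 ∧ m = 3 * q + s := ⟨m / 3, m % 3, by omega, by omega⟩
  have h1 : v r (2 ^ (3 * q + s)) ≤ 7 ^ (q + 1) := by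
    refine (v_mono r ?_).trans (v_eight hr (q + 1))
    rw [show (8 : ℕ) = 2 ^ 3 by norm_num, ← pow_mul]
    exact Nat.pow_le_pow_right (by norm_num) (by omega)
  have h2 : 8 ^ q ≤ 2 ^ (3 * q + s) := by
    rw [show (8 : ℕ) = 2 ^ 3 by norm_num, ← pow_mul]
    exact Nat.pow_le_pow_right (by norm_num) (by omega)
  have h3 := seven_eight q
  have h4 : 49 * C ≤ q := by omega
  have h5 : 49 * C * 7 ^ q ≤ (7 + q) * 7 ^ q := Nat.mul_le_mul_right _ (by omega)
  have h6 : C * v r (2 ^ (3 * q + s)) ≤ C * 7 ^ (q + 1) := Nat.mul_le_mul_left _ h1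
  rw [pow_succ] at h6
  have h7 : 49 * C * 7 ^ q = 7 * (C * (7 ^ q * 7)) := by ring
  omega

/-! ### the enumeration `h` and the set `A` -/

lemma invalid_infinite {r : ℕ} (hr : 2 ≤ r) : (Set.ofPred fun m => b r m = 0).Infinite := by
  apply Set.infinite_of_injective_forall_mem (f := fun n : ℕ => 4 * n + 2)
  · intro x y hxy; simp only at hxy; omega
  · intro n
    exact b_eq_zero.mpr (invalid_mod hr (by omega))

lemma h_strictMono {r : ℕ} (hr : 2 ≤ r) : StrictMono (h r) :=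
  Nat.nth_strictMono (invalid_infinite hr)

lemma h_range {r : ℕ} (hr : 2 ≤ r) : Set.range (h r) = {m | b r m = 0} :=
  Nat.range_nth_of_infinite (invalid_infinite hr)

lemma h_invalid {r : ℕ} (hr : 2 ≤ r) (n : ℕ) : ¬ Valid r (h r n) := by
  have : h r n ∈ Set.range (h r) := ⟨n, rfl⟩
  rw [h_range hr] at this
  exact b_eq_zero.mp this

lemma w_h {r : ℕ} (hr : 2 ≤ r) (n : ℕ) : w r (h r n) = n := by
  classical
  unfold w h
  exact Nat.count_nth_of_infinite (invalid_infinite hr) n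

lemma h_w {r x : ℕ} (hx : ¬ Valid r x) : h r (w r x) = x := by
  classical
  unfold w h
  exact Nat.nth_count (p := fun m => b r m = 0) (b_eq_zero.mpr hx)

/-- values of the difference sequence -/
lemma d_bounds {r : ℕ} (hr : 2 ≤ r) (n : ℕ) :
    1 ≤ (h r (n + 1) : ℤ) - h r n ∧ (h r (n + 1) : ℤ) - h r n ≤ 4 := by
  have h1 := h_strictMono hr (Nat.lt_succ_self n)
  refine ⟨by simp only [Nat.succ_eq_add_one] at h1; omega, ?_⟩
  by_contra hcon
  push Not at hcon
  -- some `z ≡ 2 mod 4` lies strictly between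
  obtain ⟨z, hz1, hz2, hz3⟩ : ∃ z, h r n < z ∧ z < h r (n + 1) ∧ z % 4 = 2 := by
    refine ⟨h r n + 1 + (5 - h r n % 4) % 4, by omega, by omega, by omega⟩
  have h2 := h_w (invalid_mod hr hz3)
  rw [← h2] at hz1 hz2
  have h3 := (h_strictMono hr).lt_iff_lt.mp hz1
  have h4 := (h_strictMono hr).lt_iff_lt.mp hz2
  omega

/-- `2 ≤ d n` forces a valid number right after `h n` -/
lemma of_two_le {r n : ℕ} (hr : 2 ≤ r) (hn : 2 ≤ (h r (n + 1) : ℤ) - h r n) :
    ∃ l, Valid r l ∧ l = n + 1 + v r l ∧ w r l = n + 1 := by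
  have hv : Valid r (h r n + 1) := by
    by_contra hcon
    have h1 := h_w hcon
    have h2 : h r n < h r (w r (h r n + 1)) := by rw [h1]; omega
    have h3 : h r (w r (h r n + 1)) < h r (n + 1) := by rw [h1]; omega
    have h4 := (h_strictMono hr).lt_iff_lt.mp h2
    have h5 := (h_strictMono hr).lt_iff_lt.mp h3
    omega
  have hw : w r (h r n + 1) = n + 1 := by
    classical
    have h1 := w_h hr n
    have h2 : w r (h r n + 1) = w r (h r n) + 1 := by
      unfold w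
      rw [Nat.count_succ, if_pos (b_eq_zero.mpr (h_invalid hr n))]
    rw [h2, h1]
  refine ⟨h r n + 1, hv, ?_, hw⟩
  have := v_add_w r (h r n + 1)
  omega

/-- a valid `l ≡ 3 mod 4` gives an element of `A` -/
lemma two_le_of {r l : ℕ} (hr : 2 ≤ r) (hl : Valid r l) (hl4 : l % 4 = 3) :
    ∃ n, l = n + 1 + v r l ∧ 2 ≤ (h r (n + 1) : ℤ) - h r n := by
  classical
  have hinv : ¬ Valid r (l - 1) := invalid_mod hr (by omega)
  have h1 := h_w hinv
  refine ⟨w r (l - 1), ?_, ?_⟩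
  · have h2 : v r l = v r (l - 1) := by
      unfold v
      obtain ⟨x, rfl⟩ : ∃ x, l = x + 1 := ⟨l - 1, by omega⟩
      rw [Nat.count_succ]
      simp only [Nat.add_sub_cancel] at hinv ⊢
      rw [if_neg hinv, add_zero]
    have := v_add_w r (l - 1)
    omega
  · rw [h1]
    have h3 := h_strictMono hr (Nat.lt_succ_self (w r (l - 1)))
    rw [h1, Nat.succ_eq_add_one] at h3
    have h4 := h_invalid hr (w r (l - 1) + 1)
    have h5 : h r (w r (l - 1) + 1) ≠ l := fun hh => h4 (by rw [hh]; exact hl)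
    omega

/-! ### `k` a power of two -/

lemma v_pos (r m : ℕ) : 1 ≤ v r (2 ^ m) := by
  classical
  have h1 : v r 1 ≤ v r (2 ^ m) := v_mono r Nat.one_le_two_pow
  have h2 : v r 1 = 1 := by
    unfold v
    rw [Nat.count_succ, if_pos (valid_zero r)]
    simp
  omega

/-- removing the leading `1` keeps validity -/
lemma valid_remove {r m y : ℕ} (hy : y < 2 ^ m) (hv : Valid r (2 ^ m + y)) : Valid r y := by
  intro i L hz ht hb
  have hiL : i + L < m := by
    by_contra hcon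
    push Not at hcon
    have : y < 2 ^ (i + L) := lt_of_lt_of_le hy (Nat.pow_le_pow_right (by norm_num) hcon)
    rw [Nat.testBit_lt_two_pow this] at ht
    exact absurd ht (by simp)
  apply hv i L
  · intro t ht'
    rw [Nat.testBit_two_pow_add_gt (by omega)]
    exact hz t ht'
  · rw [Nat.testBit_two_pow_add_gt hiL]
    exact ht
  · rcases hb with hb | hb
    · left; exact hb
    · right
      rw [Nat.testBit_two_pow_add_gt (by omega)]
      exact hb

lemma v_double (r m : ℕ) : v r (2 ^ (m + 1)) ≤ 2 * v r (2 ^ m) := by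
  classical
  unfold v
  have e : 2 ^ (m + 1) = 2 ^ m + 2 ^ m := by rw [pow_succ]; ring
  rw [e, Nat.count_add]
  have h1 : Nat.count (fun k => Valid r (2 ^ m + k)) (2 ^ m) ≤ Nat.count (Valid r) (2 ^ m) := by
    rw [Nat.count_eq_card_filter_range, Nat.count_eq_card_filter_range]
    apply Finset.card_le_card
    intro y hy
    rw [mem_filter, mem_range] at hy ⊢
    exact ⟨hy.1, valid_remove hy.1 hy.2⟩
  omega

/-- many valid numbers starting with `11` -/
lemma v_gap {r m T : ℕ} (hm : T + r + 1 ≤ m) (hr : 2 ≤ r) :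
    v r (3 * 2 ^ (m - 1)) + T ≤ v r (2 ^ (m + 1)) := by
  classical
  have hle : 3 * 2 ^ (m - 1) ≤ 2 ^ (m + 1) := by
    obtain ⟨m', rfl⟩ : ∃ m', m = m' + 1 := ⟨m - 1, by omega⟩
    rw [Nat.add_sub_cancel, pow_succ, pow_succ]; omega
  unfold v
  obtain ⟨D, hD⟩ := Nat.exists_eq_add_of_le hle
  rw [hD, Nat.count_add]
  apply Nat.add_le_add_left
  rw [Nat.count_eq_card_filter_range]
  -- the injection
  have hval : ∀ β < T, 3 * 2 ^ (m - 1) ≤ 2 ^ (m + 1) - ((2 ^ r - 1) * 2 ^ β + 1) := by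
    intro β hβ
    have h1 : (2 ^ r - 1) * 2 ^ β + 1 ≤ 2 ^ (m - 1) := by
      have h2 : (2 ^ r - 1) * 2 ^ β + 2 ^ β = 2 ^ (r + β) := by
        rw [pow_add, Nat.sub_mul, one_mul]
        have : 2 ^ β ≤ 2 ^ r * 2 ^ β := Nat.le_mul_of_pos_left _ (by positivity)
        omega
      have h3 : 2 ^ (r + β) ≤ 2 ^ (m - 1) := Nat.pow_le_pow_right (by norm_num) (by omega)
      have h4 : 1 ≤ 2 ^ β := Nat.one_le_two_pow
      omega
    have h5 : 2 ^ (m + 1) = 4 * 2 ^ (m - 1) := by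
      obtain ⟨m', rfl⟩ : ∃ m', m = m' + 1 := ⟨m - 1, by omega⟩
      rw [Nat.add_sub_cancel, pow_succ, pow_succ]; omega
    omega
  have hcard : T = (range T).card := by simp
  rw [hcard]
  apply Finset.card_le_card_of_injOn
    (fun β => 2 ^ (m + 1) - ((2 ^ r - 1) * 2 ^ β + 1) - 3 * 2 ^ (m - 1))
  · intro β hβ
    have hβ' : β < T := by simpa using hβ
    have h1 := hval β hβ'
    simp only [coe_filter, mem_range, Set.mem_ofPred_eq]
    have h2 : 3 * 2 ^ (m - 1) + (2 ^ (m + 1) - ((2 ^ r - 1) * 2 ^ β + 1) - 3 * 2 ^ (m - 1))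
        = 2 ^ (m + 1) - ((2 ^ r - 1) * 2 ^ β + 1) := by omega
    constructor
    · have : 0 < (2 : ℕ) ^ (m + 1) := by positivity
      omega
    · rw [h2]
      exact valid_block (dvd_refl r) (by omega)
  · intro β hβ β' hβ' heq
    have hβ1 : β < T := by simpa using hβ
    have hβ2 : β' < T := by simpa using hβ'
    have h1 := hval β hβ1
    have h2 := hval β' hβ2
    simp only at heq
    have h0 : 0 < 2 ^ (m - 1) := by positivity
    have h3 : (2 ^ r - 1) * 2 ^ β = (2 ^ r - 1) * 2 ^ β' := by omega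
    have h4 : 0 < 2 ^ r - 1 := by
      have : 2 ^ 2 ≤ 2 ^ r := Nat.pow_le_pow_right (by norm_num) hr
      omega
    have h5 := Nat.eq_of_mul_eq_mul_left h4 h3
    exact Nat.pow_right_injective (le_refl 2) h5

/-- the bit length of `v (2^m)` -/
noncomputable def B (r m : ℕ) : ℕ := Nat.size (v r (2 ^ m))

lemma B_le (r m c : ℕ) : B r m ≤ m - c ↔ v r (2 ^ m) < 2 ^ (m - c) := Nat.size_le

/-- for every large `c` there is `m` with `m - B m = c` and `B (m+1) = B m` -/
lemma exists_level {r : ℕ} (hr : 2 ≤ r) (c : ℕ) : ∃ m ≥ c, B r m + c = m ∧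
    B r (m + 1) = B r m := by
  have hB : ∀ c, ∃ m₀, ∀ m ≥ m₀, B r m + c ≤ m := by
    intro c
    obtain ⟨m₀, hm₀⟩ := v_small hr (2 ^ (c + 1))
    refine ⟨m₀ + (c + 1), fun m hm => ?_⟩
    have h1 := hm₀ m (by omega)
    have h2 : v r (2 ^ m) < 2 ^ (m - c) := by
      have h3 : 2 ^ m = 2 ^ (c + 1) * 2 ^ (m - (c + 1)) := by
        rw [← pow_add]; congr 1; omega
      rw [h3] at h1
      have h4 := Nat.le_of_mul_le_mul_left h1 (by positivity)
      rw [← h3] at h4
      have h5 : 2 ^ (m - (c + 1)) < 2 ^ (m - c) := Nat.pow_lt_pow_right (by norm_num) (by omega)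
      omega
    have h3 := (B_le r m c).mpr h2
    omega
  have hstep : ∀ m, B r (m + 1) ≤ B r m + 1 := by
    intro m
    unfold B
    rw [Nat.size_le, pow_succ 2 (Nat.size _)]
    have h1 := v_double r m
    have h2 : v r (2 ^ m) < 2 ^ Nat.size (v r (2 ^ m)) := Nat.lt_size_self _
    omega
  have hmonoB : ∀ m, B r m ≤ B r (m + 1) := fun m =>
    Nat.size_le_size (v_mono r (Nat.pow_le_pow_right (by norm_num) (by omega)))
  -- the first `m` with `B (m+1) + (c+1) ≤ m + 1`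
  obtain ⟨m₀, hm₀⟩ := hB (c + 1)
  classical
  have hex : ∃ m, B r (m + 1) + (c + 1) ≤ m + 1 := ⟨m₀, hm₀ (m₀ + 1) (by omega)⟩
  have hmin : ∀ m, m < Nat.find hex → ¬ (B r (m + 1) + (c + 1) ≤ m + 1) :=
    fun m hm => Nat.find_min hex hm
  have hspec := Nat.find_spec hex
  obtain ⟨m, hm⟩ : ∃ m, m = Nat.find hex := ⟨_, rfl⟩
  rw [← hm] at hspec hmin
  refine ⟨m, by omega, ?_⟩
  have h1 := hstep m
  have h2 := hmonoB m
  have h3 : ¬ B r m + (c + 1) ≤ m := by
    rcases Nat.eq_zero_or_pos m with h0 | h0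
    · omega
    · have := hmin (m - 1) (by omega)
      rwa [Nat.sub_add_cancel h0] at this
  omega

/-- the powers-of-two case: contradiction -/
lemma case_two {r : ℕ} (hr : 2 ≤ r) (Q P : ℕ) (hP : 1 ≤ P)
    (H : ∀ t a : ℕ, (∃ n, 2 ^ Q * a ≤ n ∧ n < 2 ^ Q * (a + 1) ∧
        2 ≤ (h r (n + 1) : ℤ) - h r n) ↔
      (∃ n, 2 ^ (Q + P * t) * a ≤ n ∧ n < 2 ^ (Q + P * t) * (a + 1) ∧
        2 ≤ (h r (n + 1) : ℤ) - h r n)) : False := by
  -- choose `c`
  obtain ⟨m₁, hm₁⟩ := v_small hr 8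
  obtain ⟨c, hc⟩ : ∃ c, c = r * (m₁ + 2 ^ Q + Q + r + 10) + 1 := ⟨_, rfl⟩
  have hcr : ¬ r ∣ c := by
    rw [hc]
    intro hd
    have := (Nat.dvd_add_right (Dvd.intro _ rfl)).mp hd
    have := Nat.le_of_dvd (by norm_num) this
    omega
  have hcbig : m₁ + 2 ^ Q + Q + r + 10 ≤ c := by
    rw [hc]
    have : 1 * (m₁ + 2 ^ Q + Q + r + 10) ≤ r * (m₁ + 2 ^ Q + Q + r + 10) :=
      Nat.mul_le_mul_right _ (by omega)
    omega
  obtain ⟨m, hmc, hBm, hBm1⟩ := exists_level hr c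
  have hQpos : 0 < 2 ^ Q := by positivity
  have hB1 : 1 ≤ B r m := by
    unfold B
    have := v_pos r m
    rw [Nat.one_le_iff_ne_zero, Ne, Nat.size_eq_zero]
    omega
  -- bounds for `v`
  have hv1 : v r (2 ^ (m + 1)) < 2 ^ B r m := by
    rw [← hBm1]; exact Nat.lt_size_self _
  have hv0 : 2 ^ (B r m - 1) ≤ v r (2 ^ m) := by
    have : B r m - 1 < Nat.size (v r (2 ^ m)) := by
      show B r m - 1 < B r m
      omega
    exact Nat.lt_size.mp this
  have hgap := v_gap (r := r) (m := m) (T := 2 ^ Q) (by omega) hr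
  have hsm := hm₁ (m + 1) (by omega)
  have hQm : 2 ^ Q * 8 ≤ 2 ^ m := by
    rw [show (8 : ℕ) = 2 ^ 3 by norm_num, ← pow_add]
    exact Nat.pow_le_pow_right (by norm_num) (by omega)
  -- `A` misses `[2^m, 2^m + 2^Q)`
  have hmiss : ¬ ∃ n, 2 ^ Q * 2 ^ (m - Q) ≤ n ∧ n < 2 ^ Q * (2 ^ (m - Q) + 1) ∧
      2 ≤ (h r (n + 1) : ℤ) - h r n := by
    rintro ⟨n, hn1, hn2, hn3⟩
    have e1 : 2 ^ Q * 2 ^ (m - Q) = 2 ^ m := by
      rw [← pow_add]; congr 1; omega
    rw [mul_add, mul_one, e1] at hn2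
    rw [e1] at hn1
    obtain ⟨l, hl, hln, hwl⟩ := of_two_le hr hn3
    have e2 : 2 ^ m = 2 * 2 ^ (m - 1) := by
      obtain ⟨m', rfl⟩ : ∃ m', m = m' + 1 := ⟨m - 1, by omega⟩
      rw [Nat.add_sub_cancel, pow_succ]; ring
    have e3 : 2 ^ (m + 1) = 2 * 2 ^ m := by rw [pow_succ]; ring
    have hl3 : l ≤ 3 * 2 ^ (m - 1) := by
      by_contra hcon
      push Not at hcon
      have h1 := w_mono r hcon.le
      have h2 := v_add_w r (3 * 2 ^ (m - 1))
      omega
    have h1 : v r l ≤ v r (3 * 2 ^ (m - 1)) := v_mono r hl3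
    have h2 : v r (2 ^ m) ≤ v r l := v_mono r (by omega)
    obtain ⟨y, hy⟩ : ∃ y, l = 2 ^ m + y := ⟨l - 2 ^ m, by omega⟩
    have hy1 : y < 2 ^ B r m := by omega
    have hy2 : 2 ^ (B r m - 1) ≤ y := by omega
    have hyB : 2 ^ B r m < 2 ^ m := Nat.pow_lt_pow_right (by norm_num) (by omega)
    apply hcr
    rw [hy] at hl
    apply hl (B r m) c
    · intro t ht
      rw [Nat.testBit_two_pow_add_gt (by omega)]
      apply Nat.testBit_lt_two_pow
      exact lt_of_lt_of_le hy1 (Nat.pow_le_pow_right (by norm_num) (by omega))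
    · rw [hBm, Nat.testBit_two_pow_add_eq, Nat.testBit_lt_two_pow (by omega)]
      rfl
    · right
      rw [Nat.testBit_two_pow_add_gt (by omega)]
      apply Nat.testBit_of_two_pow_le_and_two_pow_add_one_gt hy2
      rw [Nat.sub_add_cancel hB1]
      exact hy1
  -- but `A` meets `[2^M, 2^M + 2^(M - (m - Q)))` for large `M`
  obtain ⟨m₂, hm₂⟩ := v_small hr (2 ^ (r * (m - Q) + 3))
  obtain ⟨t, ht⟩ : ∃ t, t = m₂ + r * (m - Q) + 3 := ⟨_, rfl⟩
  obtain ⟨N, hN⟩ : ∃ N, N = m + P * t := ⟨_, rfl⟩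
  have hPt : t ≤ P * t := Nat.le_mul_of_pos_left _ hP
  have hNbig : m₂ + r * (m - Q) + 3 ≤ N := by omega
  apply hmiss
  rw [H t]
  obtain ⟨s, hs⟩ : ∃ s, s = r * (m - Q) := ⟨_, rfl⟩
  rw [← hs] at hNbig hm₂ 
  have hsm' : m - Q ≤ s := by rw [hs]; exact Nat.le_mul_of_pos_left _ (by omega)
  have hval := valid_block (r := r) (N := N + 1) (s := s) (β := N - s) (by rw [hs]; exact Dvd.intro _ rfl)
    (by omega)
  obtain ⟨l, hl⟩ : ∃ l, l = 2 ^ (N + 1) - ((2 ^ s - 1) * 2 ^ (N - s) + 1) := ⟨_, rfl⟩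
  rw [← hl] at hval
  have e1 : (2 ^ s - 1) * 2 ^ (N - s) + 2 ^ (N - s) = 2 ^ N := by
    rw [Nat.sub_mul, one_mul, ← pow_add, show s + (N - s) = N by omega]
    have : 2 ^ (N - s) ≤ 2 ^ N := Nat.pow_le_pow_right (by norm_num) (by omega)
    omega
  have e2 : 2 ^ (N + 1) = 2 * 2 ^ N := by rw [pow_succ]; ring
  have e3 : 2 ^ (N - s) = 8 * 2 ^ (N - s - 3) := by
    rw [show (8 : ℕ) = 2 ^ 3 by norm_num, ← pow_add]; congr 1; omega
  have e4 : 1 ≤ 2 ^ (N - s - 3) := Nat.one_le_two_pow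
  have hl' : l = 2 ^ N + 2 ^ (N - s) - 1 := by omega
  have hl4 : l % 4 = 3 := by
    have e5 : 2 ^ N = 4 * 2 ^ (N - 2) := by
      rw [show (4 : ℕ) = 2 ^ 2 by norm_num, ← pow_add]; congr 1; omega
    omega
  obtain ⟨n, hn, hn2⟩ := two_le_of hr hval hl4
  have hvl : v r l ≤ 2 ^ (N - s - 2) := by
    have h1 : v r l ≤ v r (2 ^ (N + 1)) := v_mono r (by omega)
    have h2 := hm₂ (N + 1) (by omega)
    have h3 : 2 ^ (N + 1) = 2 ^ (s + 3) * 2 ^ (N - s - 2) := by
      rw [← pow_add]; congr 1; omega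
    rw [h3] at h2
    have h4 := Nat.le_of_mul_le_mul_left h2 (by positivity)
    rw [← h3] at h4
    omega
  have e6 : 2 ^ (N - s - 2) = 2 * 2 ^ (N - s - 3) := by
    rw [mul_comm, ← pow_succ]; congr 1; omega
  refine ⟨n, ?_, ?_, hn2⟩
  · have e7 : 2 ^ (Q + P * t) * 2 ^ (m - Q) = 2 ^ N := by
      rw [← pow_add]; congr 1; omega
    rw [e7]
    omega
  · have e7 : 2 ^ (Q + P * t) * 2 ^ (m - Q) = 2 ^ N := by
      rw [← pow_add]; congr 1; omega
    rw [mul_add, mul_one, e7]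
    have e8 : 2 ^ (N - s) ≤ 2 ^ (Q + P * t) := Nat.pow_le_pow_right (by norm_num) (by omega)
    omega

/-! ### `k` not a power of two -/

lemma rotation {K : ℕ} (hK : 2 ≤ K) (hne : ∀ q j : ℕ, 1 ≤ q → K ^ q ≠ 2 ^ j) (x : ℕ)
    (hx : 1 ≤ x) (m₀ : ℕ) :
    ∃ t m, m₀ ≤ m ∧ 51 * 2 ^ m < 10 * (x * K ^ t) ∧ 10 * (x * K ^ t) < 58 * 2 ^ m := by
  obtain ⟨ξ, hξ⟩ : ∃ ξ, ξ = Real.logb 2 K := ⟨_, rfl⟩
  have hKr : (2 : ℝ) ≤ K := by exact_mod_cast hK
  have hxr : (1 : ℝ) ≤ x := by exact_mod_cast hx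
  have hξ1 : 1 ≤ ξ := by
    rw [hξ, Real.le_logb_iff_rpow_le (by norm_num) (by linarith), Real.rpow_one]
    exact hKr
  obtain ⟨u, hu⟩ : ∃ u, u = Real.logb 2 (51 / 10) := ⟨_, rfl⟩
  obtain ⟨z, hz⟩ : ∃ z, z = Real.logb 2 (58 / 10) := ⟨_, rfl⟩
  have huz : u < z := by
    rw [hu, hz]; exact Real.logb_lt_logb (by norm_num) (by norm_num) (by norm_num)
  have hz3 : z < 3 := by
    rw [hz, Real.logb_lt_iff_lt_rpow (by norm_num) (by norm_num)]
    norm_num
  obtain ⟨N, hN⟩ := exists_nat_one_div_lt (sub_pos.mpr huz)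
  obtain ⟨j, q', hq0, -, hδ⟩ := Real.exists_int_int_abs_mul_sub_le ξ (n := N + 1) (by omega)
  obtain ⟨q, rfl⟩ := Int.eq_ofNat_of_zero_le hq0.le
  have hq1 : 1 ≤ q := by exact_mod_cast hq0
  obtain ⟨δ, hδdef⟩ : ∃ δ, δ = (q : ℝ) * ξ - j := ⟨_, rfl⟩
  have hδ1 : |δ| < z - u := by
    have h1 : |δ| ≤ 1 / ((N + 1 : ℕ) + 1 : ℝ) := by
      rw [hδdef]; exact_mod_cast hδ
    have h2 : 1 / ((N + 1 : ℕ) + 1 : ℝ) ≤ 1 / ((N : ℝ) + 1) := by
      apply one_div_le_one_div_of_le
      · positivity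
      · push_cast; linarith
    linarith
  have hδ0 : δ ≠ 0 := by
    intro h0
    rw [h0] at hδdef
    have h1 : (q : ℝ) * ξ = j := by linarith
    have hjpos : 0 ≤ j := by
      have h2 : (0 : ℝ) ≤ (j : ℝ) := by
        rw [← h1]
        exact mul_nonneg (by positivity) (by linarith)
      exact_mod_cast h2
    obtain ⟨j', rfl⟩ := Int.eq_ofNat_of_zero_le hjpos
    have h3 : Real.logb 2 ((K : ℝ) ^ q) = Real.logb 2 ((2 : ℝ) ^ j') := by
      rw [Real.logb_pow, Real.logb_pow, ← hξ, h1, Real.logb_self_eq_one (by norm_num)]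
      push_cast; ring
    have h4 := Real.logb_injOn_pos (by norm_num : (1 : ℝ) < 2)
      (Set.mem_Ioi.mpr (by positivity)) (Set.mem_Ioi.mpr (by positivity)) h3
    exact hne q j' hq1 (by exact_mod_cast h4)
  -- the walk
  obtain ⟨X, hX⟩ : ∃ X, X = Real.logb 2 x + ((m₀ + 3 : ℕ) : ℝ) * ξ := ⟨_, rfl⟩
  obtain ⟨s, m', hs1, hs2⟩ : ∃ (s : ℕ) (m' : ℤ), u < X + s * δ - m' ∧ X + s * δ - m' < z := by
    rcases lt_or_gt_of_ne hδ0 with hneg | hpos
    · rw [abs_of_neg hneg] at hδ1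
      have hδ' : 0 < -δ := by linarith
      obtain ⟨m', hm'⟩ : ∃ m' : ℤ, m' = ⌊X - z⌋ := ⟨_, rfl⟩
      have hm1 : (m' : ℝ) ≤ X - z := by rw [hm']; exact Int.floor_le _
      have hy : 0 ≤ (X - z - m') / (-δ) := div_nonneg (by linarith) hδ'.le
      refine ⟨⌊(X - z - m') / (-δ)⌋₊ + 1, m', ?_, ?_⟩
      · have h1 := Nat.floor_le hy
        rw [le_div_iff₀ hδ'] at h1
        push_cast
        linarith
      · have h1 := Nat.lt_floor_add_one ((X - z - m') / (-δ))
        rw [div_lt_iff₀ hδ'] at h1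
        push_cast
        linarith
    · rw [abs_of_pos hpos] at hδ1
      obtain ⟨m', hm'⟩ : ∃ m' : ℤ, m' = ⌈X - u⌉ := ⟨_, rfl⟩
      have hm1 : X - u ≤ (m' : ℝ) := by rw [hm']; exact Int.le_ceil _
      have hy : 0 ≤ (u + m' - X) / δ := div_nonneg (by linarith) hpos.le
      refine ⟨⌊(u + m' - X) / δ⌋₊ + 1, m', ?_, ?_⟩
      · have h1 := Nat.lt_floor_add_one ((u + m' - X) / δ)
        rw [div_lt_iff₀ hpos] at h1
        push_cast
        linarith
      · have h1 := Nat.floor_le hy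
        rw [le_div_iff₀ hpos] at h1
        push_cast
        linarith
  obtain ⟨t, ht⟩ : ∃ t, t = m₀ + 3 + s * q := ⟨_, rfl⟩
  obtain ⟨M, hM⟩ : ∃ M : ℤ, M = m' + s * j := ⟨_, rfl⟩
  have hlog : Real.logb 2 ((x : ℝ) * (K : ℝ) ^ t) = Real.logb 2 x + t * ξ := by
    rw [Real.logb_mul (by positivity) (by positivity), Real.logb_pow, hξ]
  have hlog2 : Real.logb 2 x + t * ξ = X + s * δ - m' + M := by
    rw [ht, hM, hX, hδdef]
    push_cast
    ring
  have hMbig : (m₀ : ℤ) ≤ M := by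
    have h1 : (0 : ℝ) ≤ Real.logb 2 x := Real.logb_nonneg (by norm_num) hxr
    have h2 : (t : ℝ) * 1 ≤ t * ξ := mul_le_mul_of_nonneg_left hξ1 (by positivity)
    have h3 : ((m₀ + 3 : ℕ) : ℝ) ≤ t := by
      rw [ht]; exact_mod_cast Nat.le_add_right _ _
    have h4 : (m₀ : ℝ) < M := by
      push_cast at h3
      linarith
    exact_mod_cast h4.le
  obtain ⟨m, rfl⟩ := Int.eq_ofNat_of_zero_le (le_trans (by positivity) hMbig)
  refine ⟨t, m, by exact_mod_cast hMbig, ?_, ?_⟩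
  · have h1 : Real.logb 2 (51 / 10 * 2 ^ m) < Real.logb 2 ((x : ℝ) * (K : ℝ) ^ t) := by
      rw [hlog, hlog2, Real.logb_mul (by norm_num) (by positivity), Real.logb_pow,
        Real.logb_self_eq_one (by norm_num), ← hu]
      push_cast
      linarith
    have h2 := (Real.logb_lt_logb_iff (by norm_num) (by positivity) (by positivity)).mp h1
    have h3 : (51 : ℝ) * 2 ^ m < 10 * (x * K ^ t) := by linarith
    exact_mod_cast h3
  · have h1 : Real.logb 2 ((x : ℝ) * (K : ℝ) ^ t) < Real.logb 2 (58 / 10 * 2 ^ m) := by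
      rw [hlog, hlog2, Real.logb_mul (by norm_num) (by positivity), Real.logb_pow,
        Real.logb_self_eq_one (by norm_num), ← hz]
      push_cast
      linarith
    have h2 := (Real.logb_lt_logb_iff (by norm_num) (by positivity) (by positivity)).mp h1
    have h3 : (10 : ℝ) * (x * K ^ t) < 58 * 2 ^ m := by linarith
    exact_mod_cast h3

lemma case_one {r : ℕ} (hr : 2 ≤ r) {k : ℕ} (hk : 2 ≤ k)
    (hne : ∀ q j : ℕ, 1 ≤ q → k ^ q ≠ 2 ^ j) (i₀ p : ℕ) (hp : 1 ≤ p)
    (H : ∀ t a : ℕ, (∃ n, k ^ i₀ * a ≤ n ∧ n < k ^ i₀ * (a + 1) ∧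
        2 ≤ (h r (n + 1) : ℤ) - h r n) ↔
      (∃ n, k ^ (i₀ + p * t) * a ≤ n ∧ n < k ^ (i₀ + p * t) * (a + 1) ∧
        2 ≤ (h r (n + 1) : ℤ) - h r n)) : False := by
  -- a large element of `A`
  obtain ⟨m₁, hm₁⟩ := v_small hr 2
  obtain ⟨N, hN⟩ : ∃ N, N = m₁ + 400 * k ^ i₀ + 10 := ⟨_, rfl⟩
  have hval := valid_block (r := r) (N := N) (s := 0) (β := 0) (dvd_zero r) (by omega)
  simp only [pow_zero, Nat.sub_self, zero_mul, zero_add] at hval
  have h2N : N < 2 ^ N := Nat.lt_two_pow_self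
  have h4 : 2 ^ N = 4 * 2 ^ (N - 2) := by
    rw [show (4 : ℕ) = 2 ^ 2 by norm_num, ← pow_add]; congr 1; omega
  obtain ⟨n, hn1, hn2⟩ := two_le_of hr hval (by omega)
  have hv1 := hm₁ N (by omega)
  have hv2 : v r (2 ^ N - 1) ≤ v r (2 ^ N) := v_mono r (by omega)
  have hkpos : 0 < k ^ i₀ := by positivity
  have hnbig : 100 * k ^ i₀ ≤ n := by omega
  obtain ⟨a, ha⟩ : ∃ a, a = n / k ^ i₀ := ⟨_, rfl⟩
  have ha100 : 100 ≤ a := by
    rw [ha, Nat.le_div_iff_mul_le hkpos]; exact hnbig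
  have hmeet : ∃ n, k ^ i₀ * a ≤ n ∧ n < k ^ i₀ * (a + 1) ∧
      2 ≤ (h r (n + 1) : ℤ) - h r n := by
    refine ⟨n, ?_, ?_, hn2⟩
    · rw [ha]; exact Nat.mul_div_le _ _
    · rw [ha]; exact Nat.lt_mul_div_succ n hkpos
  obtain ⟨m₀, hm₀⟩ := v_small hr 160
  obtain ⟨t, m, hm, h51, h58⟩ := rotation (K := k ^ p) (by
      calc 2 ≤ k := hk
        _ = k ^ 1 := (pow_one k).symm
        _ ≤ k ^ p := Nat.pow_le_pow_right (by omega) hp)
    (fun q j hq => by rw [← pow_mul]; exact hne (p * q) j (Nat.mul_pos hp hq))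
    (k ^ i₀ * a) (Nat.mul_pos hkpos (by omega)) (m₀ + 5)
  obtain ⟨n', hn1', hn2', hn3'⟩ := (H t a).mp hmeet
  have e1 : k ^ i₀ * a * (k ^ p) ^ t = k ^ (i₀ + p * t) * a := by
    rw [← pow_mul, pow_add]; ring
  rw [e1] at h51 h58
  have e2 : k ^ (i₀ + p * t) * (a + 1) = k ^ (i₀ + p * t) * a + k ^ (i₀ + p * t) := by ring
  have e3 : k ^ (i₀ + p * t) * 100 ≤ k ^ (i₀ + p * t) * a := Nat.mul_le_mul_left _ ha100
  obtain ⟨l, hl, hln, hwl⟩ := of_two_le hr hn3'
  have h32 : 32 ≤ 2 ^ m := by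
    calc 32 = 2 ^ 5 := by norm_num
      _ ≤ 2 ^ m := Nat.pow_le_pow_right (by norm_num) (by omega)
  have hlow : 5 * 2 ^ m ≤ l := by omega
  have hhigh : l < 6 * 2 ^ m := by
    by_contra hcon
    push Not at hcon
    have h1 := w_mono r hcon
    have h2 := v_add_w r (6 * 2 ^ m)
    have h3 : 2 ^ (m + 3) = 8 * 2 ^ m := by rw [pow_add]; ring
    have h4 : v r (6 * 2 ^ m) ≤ v r (2 ^ (m + 3)) := v_mono r (by omega)
    have h5 := hm₀ (m + 3) (by omega)
    omega
  exact invalid_five hr hlow hhigh hl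

/-- the sequence `h^{(r)}` is not `k`-regular for any `k ≥ 2` -/
theorem not_regular {r : ℕ} (hr : 2 ≤ r) {k : ℕ} (hk : 2 ≤ k) :
    ¬ Regular k (fun n => (h r n : ℤ)) := by
  intro hreg
  have hfin := finite_kernel hreg (d_bounds hr)
  obtain ⟨i₀, p, hp, H⟩ := periodic_levels hk hfin
  by_cases hpow : ∃ u, k = 2 ^ u
  · obtain ⟨u, rfl⟩ := hpow
    have hu : 1 ≤ u := by
      rcases Nat.eq_zero_or_pos u with h0 | h0
      · rw [h0] at hk; omega
      · exact h0
    apply case_two hr (u * i₀) (u * p) (Nat.mul_pos hu hp)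
    intro t a
    have := H t a
    rw [← pow_mul, ← pow_mul, show u * (i₀ + p * t) = u * i₀ + u * p * t by ring] at this
    exact this
  · apply case_one hr hk _ i₀ p hp H
    intro q j hq h
    apply hpow
    have h1 : k ∣ 2 ^ j := by
      rw [← h]; exact dvd_pow_self k (by omega)
    obtain ⟨u, -, hu⟩ := (Nat.dvd_prime_pow Nat.prime_two).mp h1
    exact ⟨u, hu⟩

end Pool.Agent.X2.BaumSweet
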