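import Mathlib
import Pool.Agent.X1.MobD

/-!
# Large values of exponential sums with bounded coefficients: the points of a grid and the dimension
-/

set_option autoImplicit false

namespace Pool.Agent.X2.MobDim

open Finset Filter Topology Pool.Agent.X1.SchP
open scoped ENNReal

/-- orthogonality on a translated grid -/
lemma grid_zero (Q k : ℕ) (hk : 0 < k) (hkQ : k < Q) (t : ℝ) :
    ∑ a ∈ range Q, E (k * (t + (a : ℝ) / Q)) = 0 := by
  have hQ0 : (Q : ℝ) ≠ 0 := by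
    have : 0 < Q := by omega
    positivity
  have h1 : ∀ a ∈ range Q, E (k * (t + (a : ℝ) / Q)) = E (k * t) * E ((k : ℝ) / Q) ^ a := by
    intro a _
    rw [← E_nat_mul, ← E_add]
    congr 1
    ring
  rw [Finset.sum_congr rfl h1, ← Finset.mul_sum]
  have hw : E ((k : ℝ) / Q) ≠ 1 := by
    unfold E
    intro h
    rw [Complex.exp_eq_one_iff] at h
    obtain ⟨n, hn⟩ := h
    have h2 : ((2 * Real.pi * ((k : ℝ) / Q) : ℝ) : ℂ) = ((n * (2 * Real.pi) : ℝ) : ℂ) := by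
      have hI : Complex.I ≠ 0 := Complex.I_ne_zero
      apply mul_left_cancel₀ hI
      rw [hn]
      push_cast
      ring
    have h3 : 2 * Real.pi * ((k : ℝ) / Q) = n * (2 * Real.pi) := by exact_mod_cast h2
    have h4 : (k : ℝ) / Q = n := by
      have hpi := Real.pi_pos
      have : 2 * Real.pi * ((k : ℝ) / Q - n) = 0 := by linarith
      rcases mul_eq_zero.1 this with h5 | h5
      · exfalso; linarith
      · linarith
    have h5 : (k : ℝ) = n * Q := by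
      rw [← h4]; field_simp
    have h6 : (k : ℤ) = n * Q := by exact_mod_cast h5
    have h7 : (0 : ℤ) < k := by exact_mod_cast hk
    have h8 : (k : ℤ) < Q := by exact_mod_cast hkQ
    have h9 : 0 < n := by
      by_contra hcon
      push Not at hcon
      have : n * (Q : ℤ) ≤ 0 := mul_nonpos_of_nonpos_of_nonneg hcon (by positivity)
      omega
    nlinarith
  have hQ1 : E ((k : ℝ) / Q) ^ Q = 1 := by
    rw [← E_nat_mul]
    have : (Q : ℝ) * ((k : ℝ) / Q) = k := by field_simp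
    rw [this]
    unfold E
    rw [Complex.exp_eq_one_iff]
    exact ⟨k, by push_cast; ring⟩
  have h3 := geom_sum_mul (E ((k : ℝ) / Q)) Q
  rw [hQ1, sub_self] at h3
  rcases mul_eq_zero.1 h3 with h4 | h4
  · rw [h4, mul_zero]
  · exact absurd (sub_eq_zero.1 h4) hw

/-- the second moment of a block on a grid -/
lemma second_grid (c : ℕ → ℂ) (hc : ∀ n, ‖c n‖ ≤ 1) (Q L u : ℕ) (hL : L ≤ Q) (t : ℝ) :
    ∑ a ∈ range Q, ‖blk c u (u + L) (t + (a : ℝ) / Q)‖ ^ 2 ≤ (Q : ℝ) * L := by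
  classical
  set x : ℕ → ℝ := fun a => t + (a : ℝ) / Q with hx
  have hsq : ∀ a, ((‖blk c u (u + L) (x a)‖ ^ 2 : ℝ) : ℂ) =
      ∑ m ∈ Ico u (u + L), ∑ n ∈ Ico u (u + L), (c m * (starRingEnd ℂ) (c n)) *
        (E (m * x a) * (starRingEnd ℂ) (E (n * x a))) := by
    intro a
    rw [Complex.ofReal_pow, ← Complex.mul_conj', blk, map_sum, Finset.sum_mul_sum]
    apply Finset.sum_congr rfl
    intro m _
    apply Finset.sum_congr rfl
    intro n _
    rw [map_mul]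
    ring
  have hoff : ∀ m ∈ Ico u (u + L), ∀ n ∈ Ico u (u + L),
      ∑ a ∈ range Q, (E (m * x a) * (starRingEnd ℂ) (E (n * x a))) = if m = n then (Q : ℂ) else 0 := by
    intro m hm n hn
    rw [mem_Ico] at hm hn
    have hpos : ∀ m n : ℕ, n < m → m - n < Q →
        ∑ a ∈ range Q, (E (m * x a) * (starRingEnd ℂ) (E (n * x a))) = 0 := by
      intro m n hnm hQ
      have h1 : ∀ a ∈ range Q, E (m * x a) * (starRingEnd ℂ) (E (n * x a)) =
          E ((m - n : ℕ) * (t + (a : ℝ) / Q)) := by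
        intro a _
        rw [← E_neg, ← E_add, Nat.cast_sub hnm.le]
        congr 1
        ring
      rw [Finset.sum_congr rfl h1]
      exact grid_zero Q (m - n) (by omega) hQ t
    split_ifs with h
    · subst h
      have : ∀ a ∈ range Q, (E (m * x a) * (starRingEnd ℂ) (E (m * x a))) = 1 := by
        intro a _
        rw [Complex.mul_conj', norm_E]
        norm_num
      rw [Finset.sum_congr rfl this, Finset.sum_const, card_range, nsmul_eq_mul, mul_one]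
    · rcases Nat.lt_or_gt_of_ne h with h' | h'
      · have h2 := hpos n m h' (by omega)
        have h3 : (starRingEnd ℂ) (∑ a ∈ range Q, (E (n * x a) * (starRingEnd ℂ) (E (m * x a)))) = 0 := by
          rw [h2, map_zero]
        rw [map_sum] at h3
        rw [← h3]
        apply Finset.sum_congr rfl
        intro a _
        rw [map_mul, Complex.conj_conj, mul_comm]
      · exact hpos m n h' (by omega)
  have h1 : ((∑ a ∈ range Q, ‖blk c u (u + L) (x a)‖ ^ 2 : ℝ) : ℂ) =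
      ((∑ m ∈ Ico u (u + L), ‖c m‖ ^ 2 * Q : ℝ) : ℂ) := by
    rw [Complex.ofReal_sum, Finset.sum_congr rfl fun a _ => hsq a, Finset.sum_comm, Complex.ofReal_sum]
    apply Finset.sum_congr rfl
    intro m hm
    rw [Finset.sum_comm]
    have h2 : ∀ n ∈ Ico u (u + L), ∑ a ∈ range Q, (c m * (starRingEnd ℂ) (c n)) *
        (E (m * x a) * (starRingEnd ℂ) (E (n * x a))) =
        if m = n then (c m * (starRingEnd ℂ) (c n)) * Q else 0 := by
      intro n hn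
      rw [← Finset.mul_sum, hoff m hm n hn]
      split_ifs <;> simp
    rw [Finset.sum_congr rfl h2, Finset.sum_ite_eq, if_pos hm, Complex.mul_conj']
    push_cast
    ring
  have h2 : ∑ a ∈ range Q, ‖blk c u (u + L) (x a)‖ ^ 2 = ∑ m ∈ Ico u (u + L), ‖c m‖ ^ 2 * Q := by
    exact_mod_cast h1
  rw [h2, ← Finset.sum_mul]
  have h3 : ∑ m ∈ Ico u (u + L), ‖c m‖ ^ 2 ≤ (L : ℝ) := by
    calc ∑ n ∈ Ico u (u + L), ‖c n‖ ^ 2 ≤ ∑ n ∈ Ico u (u + L), (1 : ℝ) :=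
          Finset.sum_le_sum fun n _ => pow_le_one₀ (norm_nonneg _) (hc n)
      _ = L := by simp
  calc (∑ m ∈ Ico u (u + L), ‖c m‖ ^ 2) * (Q : ℝ) ≤ L * Q :=
        mul_le_mul_of_nonneg_right h3 (Nat.cast_nonneg Q)
    _ = Q * L := mul_comm _ _

/-- the dyadic majorant on the grid -/
lemma Vs_grid (c : ℕ → ℂ) (hc : ∀ n, ‖c n‖ ≤ 1) (J : ℕ) (t : ℝ) :
    ∑ a ∈ range (2 ^ J), Vs c J (t + (a : ℝ) / (2 ^ J : ℕ)) ≤ (J : ℝ) ^ 2 * 4 ^ J := by
  unfold Vs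
  rw [← Finset.mul_sum, Finset.sum_comm]
  have h1 : ∀ i ∈ range J, ∑ a ∈ range (2 ^ J), ∑ j ∈ range (2 ^ (J - i)),
      ‖blk c (j * 2 ^ i) (j * 2 ^ i + 2 ^ i) (t + (a : ℝ) / (2 ^ J : ℕ))‖ ^ 2 ≤ 4 ^ J := by
    intro i hi
    rw [mem_range] at hi
    rw [Finset.sum_comm]
    have h2 : ∀ j ∈ range (2 ^ (J - i)), ∑ a ∈ range (2 ^ J),
        ‖blk c (j * 2 ^ i) (j * 2 ^ i + 2 ^ i) (t + (a : ℝ) / (2 ^ J : ℕ))‖ ^ 2 ≤
        (2 : ℝ) ^ J * 2 ^ i := by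
      intro j _
      have h3 := second_grid c hc (2 ^ J) (2 ^ i) (j * 2 ^ i)
        (Nat.pow_le_pow_right (by norm_num) hi.le) t
      refine h3.trans (le_of_eq ?_)
      push_cast
      ring
    refine (Finset.sum_le_sum h2).trans (le_of_eq ?_)
    rw [Finset.sum_const, card_range, nsmul_eq_mul]
    push_cast
    have h5 : (2 : ℝ) ^ (J - i) * 2 ^ i = 2 ^ J := by
      rw [← pow_add]; congr 1; omega
    calc (2 : ℝ) ^ (J - i) * (2 ^ J * 2 ^ i) = 2 ^ J * (2 ^ (J - i) * 2 ^ i) := by ring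
      _ = 2 ^ J * 2 ^ J := by rw [h5]
      _ = 4 ^ J := by rw [← mul_pow]; norm_num
  have h2 := Finset.sum_le_sum h1
  rw [Finset.sum_const, card_range, nsmul_eq_mul] at h2
  calc (J : ℝ) * _ ≤ (J : ℝ) * (J * 4 ^ J) := mul_le_mul_of_nonneg_left h2 (Nat.cast_nonneg J)
    _ = (J : ℝ) ^ 2 * 4 ^ J := by ring

open Classical in
/-- the bad points of the grid of level `J` for the exponent `β` -/
noncomputable def Bad (c : ℕ → ℂ) (β : ℝ) (J : ℕ) : Finset ℕ :=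
  (range (2 ^ J)).filter fun a => ∃ r : ℕ, r + 1 < 2 ^ J ∧
    ((2 : ℝ) ^ J) ^ β / 32 ≤ ‖Fs c r ((a : ℝ) / (2 ^ J : ℕ))‖

open Classical in
lemma mem_Bad (c : ℕ → ℂ) (β : ℝ) (J a : ℕ) : a ∈ Bad c β J ↔ a < 2 ^ J ∧ ∃ r : ℕ, r + 1 < 2 ^ J ∧
    ((2 : ℝ) ^ J) ^ β / 32 ≤ ‖Fs c r ((a : ℝ) / (2 ^ J : ℕ))‖ := by
  unfold Bad
  rw [mem_filter, mem_range]

lemma Bad_card (c : ℕ → ℂ) (hc : ∀ n, ‖c n‖ ≤ 1) (β : ℝ) (J : ℕ) :
    ((Bad c β J).card : ℝ) ≤ 1024 * (J : ℝ) ^ 2 * ((2 : ℝ) ^ (2 - 2 * β)) ^ J := by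
  have h1 := Vs_grid c hc J 0
  simp only [zero_add] at h1
  set lam : ℝ := ((2 : ℝ) ^ J) ^ β / 32 with hlam
  have hlam0 : 0 < lam := by positivity
  have h2 : ((Bad c β J).card : ℝ) * lam ^ 2 ≤
      ∑ a ∈ range (2 ^ J), Vs c J ((a : ℝ) / (2 ^ J : ℕ)) := by
    calc ((Bad c β J).card : ℝ) * lam ^ 2 = ∑ _a ∈ Bad c β J, lam ^ 2 := by
          rw [Finset.sum_const, nsmul_eq_mul]
      _ ≤ ∑ a ∈ Bad c β J, Vs c J ((a : ℝ) / (2 ^ J : ℕ)) := by
          apply Finset.sum_le_sum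
          intro a ha
          rw [mem_Bad] at ha
          obtain ⟨-, r, hr, hr2⟩ := ha
          exact (pow_le_pow_left₀ hlam0.le hr2 2).trans (Fs_le c J r _ hr)
      _ ≤ _ := by
          apply Finset.sum_le_sum_of_subset_of_nonneg
          · intro a ha
            rw [mem_Bad] at ha
            exact mem_range.2 ha.1
          · intro a _ _
            unfold Vs
            positivity
  have h3 := h2.trans h1
  have h4 : lam ^ 2 = ((2 : ℝ) ^ (2 * β)) ^ J / 1024 := by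
    rw [hlam, div_pow]
    congr 1
    · rw [← Real.rpow_natCast ((2 : ℝ) ^ (2 * β)) J, ← Real.rpow_mul (by norm_num),
        ← Real.rpow_natCast (2 : ℝ) J, ← Real.rpow_mul (by norm_num),
        ← Real.rpow_natCast _ 2, ← Real.rpow_mul (by norm_num)]
      congr 1
      push_cast
      ring
    · norm_num
  have h5 : ((2 : ℝ) ^ (2 - 2 * β)) ^ J * ((2 : ℝ) ^ (2 * β)) ^ J = 4 ^ J := by
    rw [← mul_pow, ← Real.rpow_add (by norm_num)]
    norm_num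
  have h6 : (0 : ℝ) < ((2 : ℝ) ^ (2 * β)) ^ J := by positivity
  rw [h4] at h3
  have h7 : ((Bad c β J).card : ℝ) * ((2 : ℝ) ^ (2 * β)) ^ J ≤ 1024 * (J : ℝ) ^ 2 * 4 ^ J := by
    have := h3
    rw [mul_div_assoc', div_le_iff₀ (by norm_num)] at this
    linarith
  rw [← h5] at h7
  have h8 : ((Bad c β J).card : ℝ) * ((2 : ℝ) ^ (2 * β)) ^ J ≤
      (1024 * (J : ℝ) ^ 2 * ((2 : ℝ) ^ (2 - 2 * β)) ^ J) * ((2 : ℝ) ^ (2 * β)) ^ J := by
    calc _ ≤ _ := h7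
      _ = _ := by ring
  exact le_of_mul_le_mul_right h8 h6

/-- the cell `[a/2^J, (a+1)/2^J]` -/
def cell (J a : ℕ) : Set ℝ := Set.Icc ((a : ℝ) / 2 ^ J) ((a + 1 : ℝ) / 2 ^ J)

/-- a large value at `x` in `[0,1)` puts `x` in a bad cell -/
lemma mem_cell (c : ℕ → ℂ) (β : ℝ) (hβ0 : 0 ≤ β) (hβ1 : β ≤ 1) (x : ℝ) (hx0 : 0 ≤ x) (hx1 : x < 1) (J R : ℕ)
    (hR1 : 2 ^ J ≤ R) (hR2 : R < 2 ^ (J + 1)) (hlarge : (R : ℝ) ^ β ≤ ‖Fs c R x‖) :
    ∃ a ∈ Bad c β (J + 2), x ∈ cell (J + 2) a := by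
  have hQ : (0 : ℝ) < 2 ^ (J + 2) := by positivity
  set a : ℕ := ⌊x * 2 ^ (J + 2)⌋₊ with ha
  have ha1 : (a : ℝ) ≤ x * 2 ^ (J + 2) := Nat.floor_le (by positivity)
  have ha2 : x * 2 ^ (J + 2) < a + 1 := Nat.lt_floor_add_one _
  have ha3 : a < 2 ^ (J + 2) := by
    have : (a : ℝ) < 2 ^ (J + 2) := by nlinarith
    exact_mod_cast this
  have hcell : x ∈ cell (J + 2) a := by
    refine ⟨?_, ?_⟩
    · rw [div_le_iff₀ hQ]; exact ha1
    · rw [le_div_iff₀ hQ]; exact ha2.le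
  refine ⟨a, ?_, hcell⟩
  have hR0 : 1 ≤ R := (Nat.one_le_two_pow).trans hR1
  have hR0' : (0 : ℝ) < R := by exact_mod_cast hR0
  have hnd : nd (x - (a : ℝ) / (2 ^ (J + 2) : ℕ)) ≤ 1 / R := by
    have h1 := nd_le (x - (a : ℝ) / (2 ^ (J + 2) : ℕ)) 0
    refine h1.trans ?_
    have h2 : |x - (a : ℝ) / (2 ^ (J + 2) : ℕ) - (0 : ℤ)| ≤ 1 / 2 ^ (J + 2) := by
      push_cast
      rw [sub_zero, abs_le]
      constructor
      · have := hcell.1
        have h3 : (0 : ℝ) ≤ 1 / 2 ^ (J + 2) := by positivity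
        linarith
      · have := hcell.2
        rw [add_div] at this
        linarith
    refine h2.trans ?_
    apply one_div_le_one_div_of_le hR0'
    have h4 : R ≤ 2 ^ (J + 2) := by
      have : 2 ^ (J + 2) = 2 * 2 ^ (J + 1) := by ring
      omega
    exact_mod_cast h4
  obtain ⟨r, hr, hle⟩ := transfer c R hR0 x ((a : ℝ) / (2 ^ (J + 2) : ℕ)) hnd
  rw [mem_Bad]
  refine ⟨ha3, r, ?_, ?_⟩
  · have : 2 ^ (J + 2) = 2 * 2 ^ (J + 1) := by ring
    omega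
  · have h1 : ((2 : ℝ) ^ (J + 2)) ^ β ≤ 4 * (R : ℝ) ^ β := by
      have h2 : (2 : ℝ) ^ (J + 2) ≤ 4 * R := by
        have h3 : (2 : ℝ) ^ J ≤ R := by exact_mod_cast hR1
        have h4 : (2 : ℝ) ^ (J + 2) = 4 * 2 ^ J := by ring
        rw [h4]; linarith
      calc ((2 : ℝ) ^ (J + 2)) ^ β ≤ (4 * (R : ℝ)) ^ β :=
            Real.rpow_le_rpow (by positivity) h2 hβ0
        _ = 4 ^ β * (R : ℝ) ^ β := Real.mul_rpow (by norm_num) hR0'.le
        _ ≤ 4 * (R : ℝ) ^ β := by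
            apply mul_le_mul_of_nonneg_right _ (by positivity)
            calc (4 : ℝ) ^ β ≤ 4 ^ (1 : ℝ) := Real.rpow_le_rpow_of_exponent_le (by norm_num) hβ1
              _ = 4 := Real.rpow_one 4
    have h5 : (R : ℝ) ^ β ≤ 8 * ‖Fs c r ((a : ℝ) / (2 ^ (J + 2) : ℕ))‖ := hlarge.trans hle
    linarith

/-- infinitely many large values: infinitely many bad cells -/
lemma frequently_cell (c : ℕ → ℂ) (β : ℝ) (hβ0 : 0 ≤ β) (hβ1 : β ≤ 1) (x : ℝ) (hx0 : 0 ≤ x) (hx1 : x < 1)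
    (hfr : ∃ᶠ R : ℕ in atTop, (R : ℝ) ^ β ≤ ‖Fs c R x‖) (N : ℕ) :
    ∃ J, N ≤ J ∧ ∃ a ∈ Bad c β J, x ∈ cell J a := by
  obtain ⟨R, hR, hlarge⟩ := (Filter.frequently_atTop.1 hfr) (2 ^ N)
  have hR0 : R ≠ 0 := by
    have : 0 < 2 ^ N := by positivity
    omega
  obtain ⟨a, ha, hxa⟩ := mem_cell c β hβ0 hβ1 x hx0 hx1 (Nat.log 2 R) R
    (Nat.pow_log_le_self 2 hR0) (Nat.lt_pow_succ_log_self (by norm_num) R) hlarge
  refine ⟨Nat.log 2 R + 2, ?_, a, ha, hxa⟩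
  have : N ≤ Nat.log 2 R := Nat.le_log_of_pow_le (by norm_num) hR
  omega

/-- summability -/
lemma summ (c : ℕ → ℂ) (hc : ∀ n, ‖c n‖ ≤ 1) (β d : ℝ) (hd : 2 - 2 * β < d) :
    Summable fun J : ℕ => ((Bad c β J).card : ℝ) * (((2 : ℝ) ^ J)⁻¹) ^ d := by
  have hr : ‖(2 : ℝ) ^ (2 - 2 * β - d)‖ < 1 := by
    rw [Real.norm_of_nonneg (by positivity)]
    exact Real.rpow_lt_one_of_one_lt_of_neg (by norm_num) (by linarith)
  have h1 := (summable_pow_mul_geometric_of_norm_lt_one 2 hr).mul_left 1024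
  refine Summable.of_nonneg_of_le (fun J => by positivity) (fun J => ?_) h1
  have h2 := Bad_card c hc β J
  have h3 : (((2 : ℝ) ^ J)⁻¹) ^ d = ((2 : ℝ) ^ (-d)) ^ J := by
    rw [← Real.rpow_natCast, ← Real.rpow_natCast, ← Real.rpow_mul (by norm_num),
      ← Real.rpow_neg (by norm_num), ← Real.rpow_mul (by norm_num)]
    congr 1
    ring
  calc ((Bad c β J).card : ℝ) * (((2 : ℝ) ^ J)⁻¹) ^ d
      ≤ (1024 * (J : ℝ) ^ 2 * ((2 : ℝ) ^ (2 - 2 * β)) ^ J) * (((2 : ℝ) ^ J)⁻¹) ^ d :=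
        mul_le_mul_of_nonneg_right h2 (by positivity)
    _ = 1024 * ((J : ℝ) ^ 2 * ((2 : ℝ) ^ (2 - 2 * β - d)) ^ J) := by
        rw [h3]
        have : (2 : ℝ) ^ (2 - 2 * β - d) = 2 ^ (2 - 2 * β) * 2 ^ (-d) := by
          rw [← Real.rpow_add (by norm_num)]
          congr 1
        rw [this, mul_pow]
        ring

end Pool.Agent.X2.MobDim
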