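import Mathlib
import Pool.Agent.X2.MobDim

/-!
# Large values of exponential sums with bounded coefficients: Hausdorff dimension and Frostman measures
-/

set_option autoImplicit false

namespace Pool.Agent.X2.MobDim

open Finset Filter Topology Pool.Agent.X1.SchP MeasureTheory
open scoped ENNReal NNReal

/-- the set of the points with infinitely many large values -/
def Large (c : ℕ → ℂ) (β : ℝ) : Set ℝ :=
  {x : ℝ | x ∈ Set.Ico (0 : ℝ) 1 ∧ ∃ᶠ R : ℕ in atTop, (R : ℝ) ^ β ≤ ‖Fs c R x‖}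

lemma ediam_cell (J a : ℕ) : Metric.ediam (cell J a) = ENNReal.ofReal (((2 : ℝ) ^ J)⁻¹) := by
  rw [cell, Real.ediam_Icc]
  congr 1
  rw [← sub_div, add_sub_cancel_left, one_div]

open Classical in
/-- the covers -/
noncomputable def cov (c : ℕ → ℂ) (β : ℝ) (n : ℕ) (p : ℕ × ℕ) : Set ℝ :=
  if p.2 ∈ Bad c β (p.1 + n) then cell (p.1 + n) p.2 else ∅

lemma tsum_cov (c : ℕ → ℂ) (β d : ℝ) (hd : 0 < d) (n : ℕ) :
    ∑' p : ℕ × ℕ, Metric.ediam (cov c β n p) ^ d =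
      ∑' j : ℕ, ENNReal.ofReal (((Bad c β (j + n)).card : ℝ) * (((2 : ℝ) ^ (j + n))⁻¹) ^ d) := by
  classical
  rw [ENNReal.tsum_prod (f := fun j a => Metric.ediam (cov c β n (j, a)) ^ d)]
  congr 1
  ext j
  rw [tsum_eq_sum (s := Bad c β (j + n))]
  · have h1 : ∀ a ∈ Bad c β (j + n), Metric.ediam (cov c β n (j, a)) ^ d =
        ENNReal.ofReal ((((2 : ℝ) ^ (j + n))⁻¹) ^ d) := by
      intro a ha
      unfold cov
      rw [if_pos ha, ediam_cell, ENNReal.ofReal_rpow_of_pos (by positivity)]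
    rw [Finset.sum_congr rfl h1, Finset.sum_const, nsmul_eq_mul, ENNReal.ofReal_mul (by positivity),
      ENNReal.ofReal_natCast]
  · intro a ha
    unfold cov
    rw [if_neg ha, Metric.ediam_empty, ENNReal.zero_rpow_of_pos hd]

theorem hausdorff_zero (c : ℕ → ℂ) (hc : ∀ n, ‖c n‖ ≤ 1) (β : ℝ) (hβ0 : 0 ≤ β) (hβ1 : β ≤ 1)
    (d : ℝ) (hd0 : 0 < d) (hd : 2 - 2 * β < d) : μH[d] (Large c β) = 0 := by
  have hr : Tendsto (fun n : ℕ => ENNReal.ofReal (((2 : ℝ) ^ n)⁻¹)) atTop (𝓝 0) := by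
    rw [← ENNReal.ofReal_zero]
    apply ENNReal.tendsto_ofReal
    have := tendsto_pow_atTop_nhds_zero_of_lt_one (r := (2 : ℝ)⁻¹) (by norm_num) (by norm_num)
    simpa [inv_pow] using this
  have h1 := Measure.hausdorffMeasure_le_liminf_tsum (ι := fun _ : ℕ => ℕ × ℕ) d (Large c β)
    (l := atTop) (fun n : ℕ => ENNReal.ofReal (((2 : ℝ) ^ n)⁻¹)) hr (fun n p => cov c β n p)
    (Eventually.of_forall fun n p => by
      classical
      unfold cov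
      split_ifs
      · rw [ediam_cell]
        apply ENNReal.ofReal_le_ofReal
        apply inv_anti₀ (by positivity)
        exact pow_le_pow_right₀ (by norm_num) (by omega)
      · rw [Metric.ediam_empty]; exact zero_le)
    (Eventually.of_forall fun n x hx => by
      classical
      obtain ⟨J, hJ, a, ha, hxa⟩ := frequently_cell c β hβ0 hβ1 x hx.1.1 hx.1.2 hx.2 n
      rw [Set.mem_iUnion]
      refine ⟨(J - n, a), ?_⟩
      unfold cov
      rw [show (J - n, a).1 + n = J by simp; omega]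
      rw [if_pos ha]
      exact hxa)
  have hs := summ c hc β d hd
  have h2 : Tendsto (fun n : ℕ => ∑' p : ℕ × ℕ, Metric.ediam (cov c β n p) ^ d) atTop (𝓝 0) := by
    have h3 := ENNReal.tendsto_sum_nat_add (fun J : ℕ =>
      ENNReal.ofReal (((Bad c β J).card : ℝ) * (((2 : ℝ) ^ J)⁻¹) ^ d)) hs.tsum_ofReal_ne_top
    refine h3.congr fun n => ?_
    rw [tsum_cov c β d hd0 n]
  rw [h2.liminf_eq] at h1
  exact le_antisymm h1 zero_le

theorem dim_le (c : ℕ → ℂ) (hc : ∀ n, ‖c n‖ ≤ 1) (β : ℝ) (hβ0 : 0 ≤ β) (hβ1 : β ≤ 1) :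
    dimH (Large c β) ≤ ENNReal.ofReal (2 - 2 * β) := by
  apply le_of_forall_gt_imp_ge_of_dense
  intro b hb
  obtain ⟨d, hd1, hd2⟩ := ENNReal.lt_iff_exists_nnreal_btwn.1 hb
  have h0 : 0 ≤ 2 - 2 * β := by linarith
  have h1 : 2 - 2 * β < (d : ℝ) := by
    rw [ENNReal.ofReal_lt_coe_iff h0] at hd1
    exact hd1
  have h2 : (0 : ℝ) < d := lt_of_le_of_lt h0 h1
  have h3 := hausdorff_zero c hc β hβ0 hβ1 d h2 h1
  have h4 : dimH (Large c β) ≤ d := dimH_le_of_hausdorffMeasure_ne_top (by rw [h3]; simp)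
  exact h4.trans hd2.le

theorem ae_small (c : ℕ → ℂ) (hc : ∀ n, ‖c n‖ ≤ 1) (β : ℝ) (hβ0 : 0 ≤ β) (hβ1 : β ≤ 1)
    (ν : Measure ℝ) (K s : ℝ)
    (hν : ∀ x r : ℝ, 0 < r → r ≤ 1 → ν (Metric.closedBall x r) ≤ ENNReal.ofReal (K * r ^ s))
    (hs : 2 - 2 * β < s) :
    ∀ᵐ x ∂ν, x ∈ Set.Ico (0 : ℝ) 1 → ∀ᶠ R : ℕ in atTop, ‖Fs c R x‖ < (R : ℝ) ^ β := by
  have h1 : ∀ J : ℕ, ν (⋃ a ∈ Bad c β J, cell J a) ≤
      ENNReal.ofReal (K * (((Bad c β J).card : ℝ) * (((2 : ℝ) ^ J)⁻¹) ^ s)) := by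
    intro J
    refine (measure_biUnion_finset_le _ _).trans ?_
    have h2 : ∀ a ∈ Bad c β J, ν (cell J a) ≤ ENNReal.ofReal (K * (((2 : ℝ) ^ J)⁻¹) ^ s) := by
      intro a _
      refine (measure_mono ?_).trans (hν ((a : ℝ) / 2 ^ J) (((2 : ℝ) ^ J)⁻¹) (by positivity) ?_)
      · intro x hx
        rw [Metric.mem_closedBall, Real.dist_eq, abs_le]
        have h3 : ((a : ℝ) + 1) / 2 ^ J = (a : ℝ) / 2 ^ J + ((2 : ℝ) ^ J)⁻¹ := by
          rw [add_div, one_div]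
        have h4 : (0 : ℝ) < ((2 : ℝ) ^ J)⁻¹ := by positivity
        constructor
        · have := hx.1; linarith
        · have := hx.2; rw [h3] at this; linarith
      · exact inv_le_one_of_one_le₀ (one_le_pow₀ (by norm_num))
    refine (Finset.sum_le_sum h2).trans (le_of_eq ?_)
    rw [Finset.sum_const, nsmul_eq_mul, ← ENNReal.ofReal_natCast, ← ENNReal.ofReal_mul (by positivity)]
    congr 1
    ring
  have h2 : ∑' J, ν (⋃ a ∈ Bad c β J, cell J a) ≠ ∞ :=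
    ne_top_of_le_ne_top ((summ c hc β s hs).mul_left K).tsum_ofReal_ne_top (ENNReal.tsum_le_tsum h1)
  filter_upwards [ae_eventually_notMem h2] with x hx hx01
  by_contra hcon
  rw [Filter.not_eventually] at hcon
  have h3 : ∃ᶠ R : ℕ in atTop, (R : ℝ) ^ β ≤ ‖Fs c R x‖ := hcon.mono fun R hR => not_lt.1 hR
  obtain ⟨N, hN⟩ := Filter.eventually_atTop.1 hx
  obtain ⟨J, hJ, a, ha, hxa⟩ := frequently_cell c β hβ0 hβ1 x hx01.1 hx01.2 h3 N
  exact hN J hJ (Set.mem_biUnion ha hxa)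

/-- from `eventually` to a constant -/
lemma bound_of_eventually (c : ℕ → ℂ) (x β : ℝ)
    (h : ∀ᶠ R : ℕ in atTop, ‖Fs c R x‖ < (R : ℝ) ^ β) :
    ∃ C : ℝ, ∀ R : ℕ, 1 ≤ R → ‖Fs c R x‖ ≤ C * (R : ℝ) ^ β := by
  obtain ⟨N, hN⟩ := Filter.eventually_atTop.1 h
  refine ⟨1 + ∑ R ∈ range (N + 1), ‖Fs c R x‖ / (R : ℝ) ^ β, fun R hR => ?_⟩
  have hR0 : (0 : ℝ) < R := by exact_mod_cast hR
  have hRβ : (0 : ℝ) < (R : ℝ) ^ β := by positivity
  have hsum : 0 ≤ ∑ R ∈ range (N + 1), ‖Fs c R x‖ / (R : ℝ) ^ β :=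
    Finset.sum_nonneg fun R _ => by positivity
  rcases Nat.lt_or_ge R N with h1 | h1
  · have h2 : ‖Fs c R x‖ / (R : ℝ) ^ β ≤ ∑ R ∈ range (N + 1), ‖Fs c R x‖ / (R : ℝ) ^ β :=
      Finset.single_le_sum (f := fun R : ℕ => ‖Fs c R x‖ / (R : ℝ) ^ β)
        (fun R _ => by positivity) (mem_range.2 (by omega))
    have h3 : ‖Fs c R x‖ = ‖Fs c R x‖ / (R : ℝ) ^ β * (R : ℝ) ^ β := by field_simp
    rw [h3]
    apply mul_le_mul_of_nonneg_right _ hRβ.le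
    linarith
  · have h2 := (hN R h1).le
    calc ‖Fs c R x‖ ≤ 1 * (R : ℝ) ^ β := by rw [one_mul]; exact h2
      _ ≤ _ := mul_le_mul_of_nonneg_right (by linarith) hRβ.le

end Pool.Agent.X2.MobDim
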