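import Mathlib

/-! Palindromes, complete return words and the sequence `T_u` of an infinite word. -/

namespace Pool.Agent.X2.PalDefect

variable {A : Type*}

/-- The factor of length `n` of the infinite word `u` starting at position `i`. -/
def fac (u : ℕ → A) (i n : ℕ) : List A := (List.range n).map fun t => u (i + t)

/-- The language of `u`: the set of its finite factors. -/
def Lang (u : ℕ → A) : Set (List A) := {w | ∃ i n, w = fac u i n}

/-- Number of factors of length `n`. -/
noncomputable def facComplexity (u : ℕ → A) (n : ℕ) : ℕ :=
  Set.ncard {w | w ∈ Lang u ∧ w.length = n}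

/-- Number of palindromic factors of length `n`. -/
noncomputable def palComplexity (u : ℕ → A) (n : ℕ) : ℕ :=
  Set.ncard {w | w ∈ Lang u ∧ w.length = n ∧ w.reverse = w}

/-- `T_u(n) = C(n+1) - C(n) + 2 - P(n+1) - P(n)`. -/
noncomputable def T (u : ℕ → A) (n : ℕ) : ℤ :=
  (facComplexity u (n + 1) : ℤ) - facComplexity u n + 2 - palComplexity u (n + 1)
    - palComplexity u n

/-- The word `w` occurs in the finite word `v` at position `i`. -/
def OccursAt (w v : List A) (i : ℕ) : Prop :=
  i + w.length ≤ v.length ∧ (v.drop i).take w.length = w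

/-- The factor `v` of `u` is a complete return word of `w`: it is longer than `w`, has `w` as a
beginning and as an ending and contains exactly two occurrences of `w`. -/
def IsCompleteReturn (u : ℕ → A) (v w : List A) : Prop :=
  v ∈ Lang u ∧ w.length < v.length ∧ w <+: v ∧ w <:+ v ∧ {i | OccursAt w v i}.ncard = 2

section basic

@[simp] lemma length_fac (u : ℕ → A) (i n : ℕ) : (fac u i n).length = n := by simp [fac]

lemma getElem_fac (u : ℕ → A) (i n t : ℕ) (h : t < (fac u i n).length) :
    (fac u i n)[t] = u (i + t) := by simp [fac]

lemma fac_eq_iff {u : ℕ → A} {i j n : ℕ} :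
    fac u i n = fac u j n ↔ ∀ t < n, u (i + t) = u (j + t) := by
  constructor
  · intro h t ht
    have h1 := getElem_fac u i n t (by simpa using ht)
    have h2 := getElem_fac u j n t (by simpa using ht)
    rw [← h1, ← h2]
    simp [h]
  · intro h
    apply List.ext_getElem (by simp)
    intro t h1 h2
    rw [getElem_fac, getElem_fac]
    exact h t (by simpa using h1)

lemma fac_reverse_iff {u : ℕ → A} {i j n : ℕ} :
    (fac u i n).reverse = fac u j n ↔ ∀ t < n, u (i + (n - 1 - t)) = u (j + t) := by
  constructor
  · intro h t ht
    have h2 := getElem_fac u j n t (by simpa using ht)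
    have h3 : (fac u i n).reverse[t]'(by simpa using ht) = u (i + (n - 1 - t)) := by
      rw [List.getElem_reverse, getElem_fac]
      simp
    rw [← h3, ← h2]
    simp [h]
  · intro h
    apply List.ext_getElem (by simp)
    intro t h1 h2
    rw [List.getElem_reverse, getElem_fac, getElem_fac]
    simpa using h t (by simpa using h2)

lemma fac_add (u : ℕ → A) (i m n : ℕ) : fac u i (m + n) = fac u i m ++ fac u (i + m) n := by
  apply List.ext_getElem (by simp)
  intro t h1 h2
  rw [getElem_fac, List.getElem_append]
  split_ifs with h
  · rw [getElem_fac]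
  · rw [getElem_fac]
    simp only [length_fac] at *
    congr 1
    omega

lemma fac_infix (u : ℕ → A) {i n j m : ℕ} (h1 : j ≤ i) (h2 : i + n ≤ j + m) :
    fac u i n <:+: fac u j m := by
  obtain ⟨a, rfl⟩ := Nat.exists_eq_add_of_le h1
  obtain ⟨b, hb⟩ := Nat.exists_eq_add_of_le h2
  refine ⟨fac u j a, fac u (j + a + n) b, ?_⟩
  have : m = a + n + b := by omega
  rw [this, fac_add, fac_add, ← add_assoc]

lemma eq_fac_of_infix (u : ℕ → A) {v : List A} {j m : ℕ} (h : v <:+: fac u j m) :
    ∃ i, j ≤ i ∧ i + v.length ≤ j + m ∧ v = fac u i v.length := by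
  obtain ⟨s, t, hst⟩ := h
  have hl : s.length + v.length + t.length = m := by
    have := congrArg List.length hst
    simp only [List.length_append, length_fac] at this
    exact this
  refine ⟨j + s.length, by omega, by omega, ?_⟩
  have h1 : fac u j m = fac u j s.length ++ fac u (j + s.length) v.length
      ++ fac u (j + (s.length + v.length)) t.length := by
    rw [← hl, fac_add, fac_add]
  rw [h1] at hst
  have h2 := List.append_inj hst (by simp)
  have h3 := List.append_inj h2.1 (by simp)
  exact h3.2

end basic

section finite

open Classical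

/-- The finite set of factors of a finite word. -/
noncomputable def facs (w : List A) : Finset (List A) := (w.tails.flatMap List.inits).toFinset

lemma mem_facs {v w : List A} : v ∈ facs w ↔ v <:+: w := by
  unfold facs
  simp only [List.mem_toFinset, List.mem_flatMap, List.mem_tails, List.mem_inits]
  rw [List.infix_iff_prefix_suffix]
  constructor
  · rintro ⟨a, h1, h2⟩
    exact ⟨a, h2, h1⟩
  · rintro ⟨a, h1, h2⟩
    exact ⟨a, h2, h1⟩

/-- factors of length `k` -/
noncomputable def facK (w : List A) (k : ℕ) : Finset (List A) :=
  (facs w).filter fun v => v.length = k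

/-- palindromic factors -/
noncomputable def pals (w : List A) : Finset (List A) := (facs w).filter fun v => v.reverse = v

/-- palindromic factors of length `k` -/
noncomputable def palK (w : List A) (k : ℕ) : Finset (List A) :=
  (facK w k).filter fun v => v.reverse = v

lemma mem_facK {v w : List A} {k : ℕ} : v ∈ facK w k ↔ v <:+: w ∧ v.length = k := by
  simp [facK, mem_facs]

lemma mem_pals {v w : List A} : v ∈ pals w ↔ v <:+: w ∧ v.reverse = v := by
  simp [pals, mem_facs]

lemma mem_palK {v w : List A} {k : ℕ} :
    v ∈ palK w k ↔ (v <:+: w ∧ v.length = k) ∧ v.reverse = v := by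
  simp [palK, mem_facK]

/-- infixes of `w ++ [a]` -/
lemma infix_concat_iff {v w : List A} {a : A} :
    v <:+: w ++ [a] ↔ v <:+: w ∨ v <:+ w ++ [a] := by
  constructor
  · rintro ⟨s, t, h⟩
    rcases List.eq_nil_or_concat t with rfl | ⟨t', b, rfl⟩
    · right
      exact ⟨s, by simpa using h⟩
    · left
      refine ⟨s, t', ?_⟩
      have : (s ++ v ++ t') ++ [b] = w ++ [a] := by simpa using h
      exact (List.append_inj' this rfl).1
  · rintro (h | h)
    · exact h.trans (List.prefix_append w [a]).isInfix
    · exact h.isInfix

lemma card_pals_concat (w : List A) (a : A) : (pals (w ++ [a])).card ≤ (pals w).card + 1 := by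
  have h1 : pals w ⊆ pals (w ++ [a]) := by
    intro v hv
    rw [mem_pals] at hv ⊢
    exact ⟨infix_concat_iff.2 (Or.inl hv.1), hv.2⟩
  have h2 : (pals (w ++ [a]) \ pals w).card ≤ 1 := by
    rw [Finset.card_le_one]
    intro x hx y hy
    rw [Finset.mem_sdiff, mem_pals, mem_pals] at hx hy
    obtain ⟨⟨hx1, hx2⟩, hx3⟩ := hx
    obtain ⟨⟨hy1, hy2⟩, hy3⟩ := hy
    have hx4 : ¬ x <:+: w := fun h => hx3 ⟨h, hx2⟩
    have hy4 : ¬ y <:+: w := fun h => hy3 ⟨h, hy2⟩
    have hx5 : x <:+ w ++ [a] := (infix_concat_iff.1 hx1).resolve_left hx4
    have hy5 : y <:+ w ++ [a] := (infix_concat_iff.1 hy1).resolve_left hy4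
    have key : ∀ p q : List A, p <:+ w ++ [a] → q <:+ w ++ [a] → p.length < q.length →
        p.reverse = p → q.reverse = q → p <:+: w := by
      intro p q hp hq hpq hp2 hq2
      have h3 : p <:+ q := List.suffix_of_suffix_length_le hp hq hpq.le
      have h4 : p <+: q := by
        have := List.reverse_prefix.2 h3
        rwa [hp2, hq2] at this
      obtain ⟨s, hs⟩ := h4
      obtain ⟨r, hr⟩ := hq
      rcases List.eq_nil_or_concat s with rfl | ⟨s', b, rfl⟩
      · exfalso
        have := congrArg List.length hs
        simp at this
        omega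
      · refine ⟨r, s', ?_⟩
        have : (r ++ p ++ s') ++ [b] = w ++ [a] := by
          rw [← hr, ← hs]
          simp
        exact (List.append_inj' this rfl).1
    rcases lt_trichotomy x.length y.length with h | h | h
    · exact absurd (key x y hx5 hy5 h hx2 hy2) hx4
    · have := List.suffix_of_suffix_length_le hx5 hy5 h.le
      exact this.eq_of_length h
    · exact absurd (key y x hy5 hx5 h hy2 hx2) hy4
  have h3 := Finset.card_sdiff_add_card_eq_card h1
  omega

lemma pals_reverse (w : List A) : pals w.reverse = pals w := by
  ext v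
  rw [mem_pals, mem_pals]
  constructor
  · rintro ⟨h, h2⟩
    refine ⟨?_, h2⟩
    have := List.reverse_infix.2 h
    rwa [List.reverse_reverse, h2] at this
  · rintro ⟨h, h2⟩
    refine ⟨?_, h2⟩
    have := List.reverse_infix.2 h
    rwa [h2] at this

lemma card_pals_cons (w : List A) (a : A) : (pals (a :: w)).card ≤ (pals w).card + 1 := by
  have h := card_pals_concat w.reverse a
  have h2 : (w.reverse ++ [a]) = (a :: w).reverse := by simp
  rw [h2, pals_reverse, pals_reverse] at h
  exact h

lemma card_pals_append_left (x w : List A) :
    (pals (x ++ w)).card ≤ (pals w).card + x.length := by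
  induction x with
  | nil => simp
  | cons a x ih =>
    have := card_pals_cons (x ++ w) a
    simp only [List.cons_append, List.length_cons]
    omega

/-- The closure under reversal. -/
noncomputable def clo (F : Finset (List A)) : Finset (List A) := F ∪ F.image List.reverse

lemma mem_clo {F : Finset (List A)} {v : List A} : v ∈ clo F ↔ v ∈ F ∨ v.reverse ∈ F := by
  unfold clo
  simp only [Finset.mem_union, Finset.mem_image]
  constructor
  · rintro (h | ⟨a, h, rfl⟩)
    · exact Or.inl h
    · right
      simpa using h
  · rintro (h | h)
    · exact Or.inl h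
    · exact Or.inr ⟨_, h, by simp⟩

lemma clo_insert (F : Finset (List A)) (y : List A) :
    clo (insert y F) = insert y (insert y.reverse (clo F)) := by
  ext v
  simp only [mem_clo, Finset.mem_insert]
  constructor
  · rintro ((h | h) | (h | h))
    · tauto
    · tauto
    · right; left
      rw [← h]; simp
    · tauto
  · rintro (h | h | h | h)
    · tauto
    · right; left
      rw [h]; simp
    · tauto
    · tauto

lemma clo_insert_of_mem {F : Finset (List A)} {y : List A} (h : y ∈ clo F) :
    clo (insert y F) = clo F := by
  rw [clo_insert, Finset.insert_eq_of_mem, Finset.insert_eq_of_mem]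
  · rw [mem_clo] at h ⊢
    rw [List.reverse_reverse]
    tauto
  · rw [Finset.mem_insert]
    exact Or.inr h

/-- number of elements plus number of palindromes -/
noncomputable def wA (F : Finset (List A)) : ℕ :=
  F.card + (F.filter fun v => v.reverse = v).card

/-- number of non-palindromes -/
noncomputable def wB (F : Finset (List A)) : ℕ := (F.filter fun v => ¬ v.reverse = v).card

lemma wA_clo_insert {F : Finset (List A)} {y : List A} (h : y ∉ clo F) :
    wA (clo (insert y F)) = wA (clo F) + 2 := by
  have h' : y.reverse ∉ clo F := by
    rw [mem_clo] at h ⊢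
    rw [List.reverse_reverse]
    tauto
  rw [clo_insert]
  unfold wA
  by_cases hy : y.reverse = y
  · rw [hy, Finset.insert_idem, Finset.card_insert_of_notMem h, Finset.filter_insert, if_pos hy,
      Finset.card_insert_of_notMem]
    · omega
    · intro h2
      exact h (Finset.mem_filter.1 h2).1
  · have h3 : y ∉ insert y.reverse (clo F) := by
      rw [Finset.mem_insert]
      rintro (h4 | h4)
      · exact hy h4.symm
      · exact h h4
    have hy' : ¬ y.reverse.reverse = y.reverse := by
      rw [List.reverse_reverse]
      exact fun h => hy h.symm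
    rw [Finset.card_insert_of_notMem h3, Finset.card_insert_of_notMem h', Finset.filter_insert,
      if_neg hy, Finset.filter_insert, if_neg hy']
    omega

lemma wB_clo_insert {F : Finset (List A)} {y : List A} (h : y ∉ clo F) (hy : ¬ y.reverse = y) :
    wB (clo (insert y F)) = wB (clo F) + 2 := by
  have h' : y.reverse ∉ clo F := by
    rw [mem_clo] at h ⊢
    rw [List.reverse_reverse]
    tauto
  have hy' : ¬ y.reverse.reverse = y.reverse := by
    rw [List.reverse_reverse]
    exact fun h => hy h.symm
  rw [clo_insert]
  unfold wB
  rw [Finset.filter_insert, if_pos hy, Finset.filter_insert, if_pos hy',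
    Finset.card_insert_of_notMem, Finset.card_insert_of_notMem]
  · intro h2
    exact h' (Finset.mem_filter.1 h2).1
  · rw [Finset.mem_insert]
    rintro (h4 | h4)
    · exact hy h4.symm
    · exact h (Finset.mem_filter.1 h4).1

lemma wB_mono {F G : Finset (List A)} (h : F ⊆ G) : wB F ≤ wB G :=
  Finset.card_le_card (Finset.filter_subset_filter _ h)

lemma facK_concat {w : List A} {a : A} {k : ℕ} (hk : k ≤ w.length + 1) :
    facK (w ++ [a]) k = insert ((w ++ [a]).drop (w.length + 1 - k)) (facK w k) := by
  ext v
  rw [mem_facK, Finset.mem_insert, mem_facK, infix_concat_iff]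
  constructor
  · rintro ⟨h | h, h2⟩
    · exact Or.inr ⟨h, h2⟩
    · left
      rw [List.suffix_iff_eq_drop] at h
      rw [h]
      congr 1
      simp
      omega
  · rintro (h | ⟨h, h2⟩)
    · rw [h]
      refine ⟨Or.inr (List.drop_suffix _ _), ?_⟩
      simp
      omega
    · exact ⟨Or.inl h, h2⟩

/-- The key inequality: the classes of factors of length `k` are linked by the non-palindromic
classes of factors of length `k+1`. -/
lemma key_ineq (k : ℕ) (w : List A) (hk : k ≤ w.length) :
    wA (clo (facK w k)) ≤ wB (clo (facK w (k + 1))) + 2 := by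
  induction w using List.reverseRecOn with
  | nil =>
    have hk0 : k = 0 := by simpa using hk
    subst hk0
    have h1 : facK ([] : List A) 0 = {[]} := by
      ext v
      rw [mem_facK, Finset.mem_singleton]
      constructor
      · rintro ⟨h, h2⟩
        exact List.length_eq_zero_iff.1 h2
      · rintro rfl
        simp
    rw [h1]
    have h2 : clo ({[]} : Finset (List A)) = {[]} := by
      ext v
      simp [mem_clo]
    rw [h2]
    have h3 : wA ({[]} : Finset (List A)) ≤ 2 := by
      unfold wA
      have := Finset.card_filter_le ({[]} : Finset (List A)) (fun v => v.reverse = v)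
      simp only [Finset.card_singleton] at this ⊢
      omega
    omega
  | append_singleton w a ih =>
    rcases Nat.lt_or_ge w.length k with hlt | hge
    · -- `k = |w| + 1`
      have hk' : k = w.length + 1 := by
        simp at hk
        omega
      have h1 : facK w k = ∅ := by
        ext v
        rw [mem_facK]
        simp only [Finset.notMem_empty, iff_false, not_and]
        intro h h2
        have := h.length_le
        omega
      have h2 := facK_concat (w := w) (a := a) (k := k) (by omega)
      rw [h1] at h2
      rw [h2]
      have h3 : ((w ++ [a]).drop (w.length + 1 - k)) ∉ clo (∅ : Finset (List A)) := by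
        simp [mem_clo]
      rw [wA_clo_insert h3]
      have h4 : wA (clo (∅ : Finset (List A))) = 0 := by
        simp [wA, clo]
      omega
    · have ih' := ih hge
      rw [facK_concat (w := w) (a := a) (k := k) (by omega),
        facK_concat (w := w) (a := a) (k := k + 1) (by omega)]
      set y := (w ++ [a]).drop (w.length + 1 - k) with hy
      set e := (w ++ [a]).drop (w.length + 1 - (k + 1)) with he
      have hmono : wB (clo (facK w (k + 1))) ≤ wB (clo (insert e (facK w (k + 1)))) := by
        apply wB_mono
        intro v hv
        rw [mem_clo] at hv ⊢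
        simp only [Finset.mem_insert]
        tauto
      by_cases hyV : y ∈ clo (facK w k)
      · rw [clo_insert_of_mem hyV]
        omega
      · rw [wA_clo_insert hyV]
        -- e = x ++ [a], x = drop (|w| - k) w
        have he1 : e = w.drop (w.length - k) ++ [a] := by
          rw [he, List.drop_append_of_le_length (by omega)]
          congr 2
          omega
        have hx : w.drop (w.length - k) ∈ facK w k := by
          rw [mem_facK]
          refine ⟨(List.drop_suffix _ _).isInfix, ?_⟩
          simp
          omega
        have hey : ∃ b, e = b :: y := by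
          have hlen : w.length - k < (w ++ [a]).length := by simp
          refine ⟨(w ++ [a])[w.length - k], ?_⟩
          rw [he, hy]
          have h5 : w.length + 1 - (k + 1) = w.length - k := by omega
          have h6 : w.length + 1 - k = w.length - k + 1 := by omega
          rw [h5, h6]
          exact List.drop_eq_getElem_cons hlen
        obtain ⟨b, hb⟩ := hey
        have hylen : y.length = k := by
          rw [hy]
          simp
          omega
        have hnp : ¬ e.reverse = e := by
          intro h
          apply hyV
          rw [mem_clo]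
          right
          have h7 : e.reverse = y.reverse ++ [b] := by rw [hb]; simp
          have h8 : y.reverse ++ [b] = w.drop (w.length - k) ++ [a] := by
            rw [← h7, h, he1]
          have h9 := (List.append_inj' h8 rfl).1
          rw [h9]
          exact hx
        have hnew : e ∉ clo (facK w (k + 1)) := by
          intro h
          apply hyV
          rw [mem_clo, mem_facK, mem_facK] at h ⊢
          rcases h with h | h
          · left
            refine ⟨?_, hylen⟩
            refine List.IsInfix.trans ?_ h.1
            rw [hb]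
            exact (List.suffix_cons b y).isInfix
          · right
            refine ⟨?_, by simpa using hylen⟩
            refine List.IsInfix.trans ?_ h.1
            rw [hb]
            simp only [List.reverse_cons]
            exact (List.prefix_append _ _).isInfix
        rw [wB_clo_insert hnew hnp]
        omega

/-- For a palindrome `w` the sequence `T_w` is nonnegative. -/
lemma T_nonneg {w : List A} (hw : w.reverse = w) {k : ℕ} (hk : k ≤ w.length) :
    (facK w k).card + (palK w k).card + (palK w (k + 1)).card
      ≤ (facK w (k + 1)).card + 2 := by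
  have hcl : ∀ k, clo (facK w k) = facK w k := by
    intro k
    ext v
    rw [mem_clo, mem_facK, mem_facK]
    constructor
    · rintro (h | ⟨h, h2⟩)
      · exact h
      · refine ⟨?_, by simpa using h2⟩
        have := List.reverse_infix.2 h
        rwa [List.reverse_reverse, hw] at this
    · intro h
      exact Or.inl h
  have h := key_ineq k w hk
  rw [hcl, hcl] at h
  unfold wA wB at h
  have h2 := Finset.card_filter_add_card_filter_not (s := facK w (k + 1))
    (fun v : List A => v.reverse = v)
  unfold palK
  omega

/-- The telescoping identity. -/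
lemma sum_T (w : List A) :
    ∑ k ∈ Finset.range (w.length + 1),
      (((facK w (k + 1)).card : ℤ) - (facK w k).card + 2 - (palK w (k + 1)).card
        - (palK w k).card) = 2 * (w.length + 1) - 2 * (pals w).card := by
  have h0 : (facK w 0).card = 1 := by
    rw [Finset.card_eq_one]
    refine ⟨[], ?_⟩
    ext v
    rw [mem_facK, Finset.mem_singleton]
    constructor
    · rintro ⟨-, h⟩
      exact List.length_eq_zero_iff.1 h
    · rintro rfl
      exact ⟨List.nil_infix, rfl⟩
  have h0' : (palK w 0).card = 1 := by
    rw [Finset.card_eq_one]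
    refine ⟨[], ?_⟩
    ext v
    rw [mem_palK, Finset.mem_singleton]
    constructor
    · rintro ⟨⟨-, h⟩, -⟩
      exact List.length_eq_zero_iff.1 h
    · rintro rfl
      exact ⟨⟨List.nil_infix, rfl⟩, rfl⟩
  have h1 : (facK w (w.length + 1)).card = 0 := by
    rw [Finset.card_eq_zero]
    ext v
    rw [mem_facK]
    simp only [Finset.notMem_empty, iff_false, not_and]
    intro h h2
    have := h.length_le
    omega
  have h1' : (palK w (w.length + 1)).card = 0 := by
    rw [Finset.card_eq_zero]
    ext v
    rw [mem_palK]
    simp only [Finset.notMem_empty, iff_false, not_and]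
    rintro ⟨h, h2⟩
    have := h.length_le
    omega
  have h2 : ∑ k ∈ Finset.range (w.length + 1), ((palK w k).card : ℤ) = (pals w).card := by
    rw [← Nat.cast_sum]
    congr 1
    rw [Finset.card_eq_sum_card_fiberwise (s := pals w) (f := List.length)
      (t := Finset.range (w.length + 1))]
    · apply Finset.sum_congr rfl
      intro k _
      congr 1
      ext v
      simp only [mem_palK, Finset.mem_filter, mem_pals]
      tauto
    · intro v hv
      rw [Finset.mem_coe, mem_pals] at hv
      have := hv.1.length_le
      simp
      omega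
  have h3 : ∑ k ∈ Finset.range (w.length + 1), ((palK w (k + 1)).card : ℤ)
      = (pals w).card - 1 := by
    have h4 := Finset.sum_range_succ' (fun k => ((palK w k).card : ℤ)) (w.length + 1)
    rw [Finset.sum_range_succ, h2, h1', h0'] at h4
    push_cast at h4
    linarith
  have h5 : ∑ k ∈ Finset.range (w.length + 1),
      (((facK w (k + 1)).card : ℤ) - (facK w k).card) = -1 := by
    rw [Finset.sum_range_sub (fun k => ((facK w k).card : ℤ)), h1, h0]
    simp
  have h6 : ∑ k ∈ Finset.range (w.length + 1),
      (((facK w (k + 1)).card : ℤ) - (facK w k).card + 2 - (palK w (k + 1)).card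
        - (palK w k).card)
      = ∑ k ∈ Finset.range (w.length + 1),
          (((facK w (k + 1)).card : ℤ) - (facK w k).card)
        + ∑ k ∈ Finset.range (w.length + 1), (2 : ℤ)
        - ∑ k ∈ Finset.range (w.length + 1), ((palK w (k + 1)).card : ℤ)
        - ∑ k ∈ Finset.range (w.length + 1), ((palK w k).card : ℤ) := by
    rw [← Finset.sum_add_distrib, ← Finset.sum_sub_distrib, ← Finset.sum_sub_distrib]
  rw [h6, h5, h3, h2]
  simp only [Finset.sum_const, Finset.card_range, nsmul_eq_mul]
  push_cast
  ring

end finite

section infinite

open Classical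

/-- All factors of `u` of length at most `m` occur in one prefix. -/
lemma exists_prefix [Finite A] (u : ℕ → A) (m : ℕ) :
    ∃ B, ∀ v ∈ Lang u, v.length ≤ m → v <:+: fac u 0 B := by
  have hfin : {v : List A | v.length ≤ m}.Finite := List.finite_length_le A m
  have h : ∀ v : List A, ∃ B, v ∈ Lang u → v <:+: fac u 0 B := by
    intro v
    by_cases hv : v ∈ Lang u
    · obtain ⟨i, n, rfl⟩ := hv
      exact ⟨i + n, fun _ => fac_infix u (by omega) (by omega)⟩
    · exact ⟨0, fun h => absurd h hv⟩
  choose g hg using h
  obtain ⟨B, hB⟩ := (hfin.image g).bddAbove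
  refine ⟨B, fun v hv hvm => ?_⟩
  have h1 : g v ≤ B := hB ⟨v, hvm, rfl⟩
  exact (hg v hv).trans (fac_infix u (by omega) (by omega))

lemma T_eq {u : ℕ → A} {w : List A} (hw : w ∈ Lang u) {k : ℕ}
    (h : ∀ v ∈ Lang u, v.length ≤ k + 1 → v <:+: w) :
    T u k = ((facK w (k + 1)).card : ℤ) - (facK w k).card + 2 - (palK w (k + 1)).card
        - (palK w k).card := by
  have hL : ∀ v, v <:+: w → v ∈ Lang u := by
    intro v hv
    obtain ⟨i, n, rfl⟩ := hw
    obtain ⟨j, -, -, h⟩ := eq_fac_of_infix u hv
    exact ⟨j, _, h⟩
  have h1 : ∀ n ≤ k + 1, facComplexity u n = (facK w n).card := by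
    intro n hn
    unfold facComplexity
    rw [← Set.ncard_coe_finset]
    congr 1
    ext v
    rw [Finset.mem_coe, mem_facK]
    constructor
    · rintro ⟨h2, h3⟩
      exact ⟨h v h2 (by omega), h3⟩
    · rintro ⟨h2, h3⟩
      exact ⟨hL v h2, h3⟩
  have h2 : ∀ n ≤ k + 1, palComplexity u n = (palK w n).card := by
    intro n hn
    unfold palComplexity
    rw [← Set.ncard_coe_finset]
    congr 1
    ext v
    rw [Finset.mem_coe, mem_palK]
    constructor
    · rintro ⟨h2, h3, h4⟩
      exact ⟨⟨h v h2 (by omega), h3⟩, h4⟩
    · rintro ⟨⟨h2, h3⟩, h4⟩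
      exact ⟨hL v h2, h3, h4⟩
  unfold T
  rw [h1 _ le_rfl, h1 _ (by omega), h2 _ le_rfl, h2 _ (by omega)]

/-- A nonnegative integer sequence with bounded partial sums is eventually zero. -/
lemma eventually_zero {f : ℕ → ℤ} (h0 : ∀ n, 0 ≤ f n) {C : ℤ}
    (hC : ∀ m, ∑ k ∈ Finset.range m, f k ≤ C) : ∃ N, ∀ n ≥ N, f n = 0 := by
  have hmono : Monotone fun m => ∑ k ∈ Finset.range m, f k := by
    apply monotone_nat_of_le_succ
    intro n
    rw [Finset.sum_range_succ]
    linarith [h0 n]
  obtain ⟨N, hN⟩ : ∃ N, ∀ m, ∑ k ∈ Finset.range m, f k ≤ ∑ k ∈ Finset.range N, f k := by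
    by_contra hcon
    push Not at hcon
    have : ∀ j : ℕ, ∃ m, (j : ℤ) ≤ ∑ k ∈ Finset.range m, f k := by
      intro j
      induction j with
      | zero => exact ⟨0, by simp⟩
      | succ j ih =>
        obtain ⟨m, hm⟩ := ih
        obtain ⟨m', hm'⟩ := hcon m
        exact ⟨m', by push_cast; linarith⟩
    obtain ⟨m, hm⟩ := this (C.toNat + 1)
    have h1 := hC m
    have h2 := Int.self_le_toNat C
    push_cast at hm
    linarith
  refine ⟨N, fun n hn => ?_⟩
  have h1 := hN (n + 1)
  have h2 : ∑ k ∈ Finset.range N, f k ≤ ∑ k ∈ Finset.range n, f k := hmono hn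
  rw [Finset.sum_range_succ] at h1
  linarith [h0 n]

/-- If arbitrarily rich palindromic factors have bounded defect then `T_u` vanishes eventually. -/
theorem eventually_T_zero {u : ℕ → A} (C : ℕ)
    (h : ∀ m, ∃ w, w ∈ Lang u ∧ w.reverse = w ∧ (∀ v ∈ Lang u, v.length ≤ m → v <:+: w) ∧
      w.length ≤ (pals w).card + C) : ∃ N, ∀ n ≥ N, T u n = 0 := by
  have hlen : ∀ m, (fac u 0 m) ∈ Lang u := fun m => ⟨0, m, rfl⟩
  have hTn : ∀ n, 0 ≤ T u n := by
    intro n
    obtain ⟨w, hw1, hw2, hw3, -⟩ := h (n + 1)
    rw [T_eq hw1 hw3]
    have h1 : n + 1 ≤ w.length := by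
      have := (hw3 _ (hlen (n + 1)) (by simp)).length_le
      simpa using this
    have := T_nonneg hw2 (k := n) (by omega)
    omega
  apply eventually_zero hTn (C := 2 * (C + 1))
  intro m
  obtain ⟨w, hw1, hw2, hw3, hw4⟩ := h (m + 1)
  have h1 : m + 1 ≤ w.length := by
    have := (hw3 _ (hlen (m + 1)) (by simp)).length_le
    simpa using this
  have h2 : ∑ k ∈ Finset.range m, T u k = ∑ k ∈ Finset.range m,
      (((facK w (k + 1)).card : ℤ) - (facK w k).card + 2 - (palK w (k + 1)).card
        - (palK w k).card) := by
    apply Finset.sum_congr rfl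
    intro k hk
    rw [Finset.mem_range] at hk
    exact T_eq hw1 (fun v hv hvl => hw3 v hv (by omega))
  have h3 : ∑ k ∈ Finset.range m,
      (((facK w (k + 1)).card : ℤ) - (facK w k).card + 2 - (palK w (k + 1)).card
        - (palK w k).card) ≤ ∑ k ∈ Finset.range (w.length + 1),
      (((facK w (k + 1)).card : ℤ) - (facK w k).card + 2 - (palK w (k + 1)).card
        - (palK w k).card) := by
    apply Finset.sum_le_sum_of_subset_of_nonneg
    · intro x hx
      rw [Finset.mem_range] at hx ⊢
      omega
    · intro k hk _
      rw [Finset.mem_range] at hk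
      have := T_nonneg hw2 (k := k) (by omega)
      omega
  rw [h2]
  refine h3.trans ?_
  rw [sum_T]
  have : (w.length : ℤ) ≤ (pals w).card + C := by exact_mod_cast hw4
  linarith

end infinite

end Pool.Agent.X2.PalDefect
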