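import Pool.Agent.X2.PalDefect

/-! Palindromic complete return words of long palindromes force finite defect. -/

namespace Pool.Agent.X2.PalDefect

variable {A : Type*}

/-- The language is closed under reversal. -/
def ClosedRev (u : ℕ → A) : Prop := ∀ w ∈ Lang u, w.reverse ∈ Lang u

/-- `u[i, i+n)` is a palindrome. -/
def PalAt (u : ℕ → A) (i n : ℕ) : Prop := ∀ t < n, u (i + t) = u (i + (n - 1 - t))

lemma palAt_iff {u : ℕ → A} {i n : ℕ} : PalAt u i n ↔ (fac u i n).reverse = fac u i n := by
  rw [fac_reverse_iff]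
  constructor
  · intro h t ht
    exact (h t ht).symm
  · intro h t ht
    exact (h t ht).symm

lemma PalAt.central {u : ℕ → A} {i n c : ℕ} (h : PalAt u i n) (hc : 2 * c ≤ n) :
    PalAt u (i + c) (n - 2 * c) := by
  intro t ht
  have := h (c + t) (by omega)
  rw [show i + c + t = i + (c + t) by ring, this]
  congr 1
  omega

lemma PalAt.congr {u : ℕ → A} {i j n : ℕ} (h : PalAt u i n)
    (he : ∀ t < n, u (i + t) = u (j + t)) : PalAt u j n := by
  intro t ht
  rw [← he t ht, ← he (n - 1 - t) (by omega)]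
  exact h t ht

/-- A word whose language is closed under reversal is recurrent. -/
lemma recurrent_aux {u : ℕ → A} (hu : ClosedRev u) (n : ℕ) :
    ∃ t, 1 ≤ t ∧ ∀ s < n, u (t + s) = u s := by
  by_contra hcon
  push Not at hcon
  -- the reversal of the prefix
  obtain ⟨s, n', hs⟩ := hu (fac u 0 n) ⟨0, n, rfl⟩
  have hn : n' = n := by
    have := congrArg List.length hs
    simpa using this.symm
  subst hn
  rw [fac_reverse_iff] at hs
  -- v = prefix of length s + n
  have hv : ∀ m, s + n' ≤ m → ∀ r k, (fac u 0 (s + n')).reverse = fac u r k → r = 0 := by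
    intro m hm r k hrk
    have hk : k = s + n' := by
      have := congrArg List.length hrk
      simpa using this.symm
    subst hk
    rw [fac_reverse_iff] at hrk
    by_contra hr
    obtain ⟨q, hq, hq2⟩ := hcon r (by omega)
    apply hq2
    have h1 := hrk q (by omega)
    rw [← h1]
    have h2 := hs (n' - 1 - q) (by omega)
    rw [show 0 + (s + n' - 1 - q) = s + (n' - 1 - q) by omega, ← h2]
    congr 1
    omega
  obtain ⟨r, k, hrk⟩ := hu (fac u 0 (s + n')) ⟨0, _, rfl⟩
  have hr0 := hv _ le_rfl r k hrk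
  subst hr0
  have hk : k = s + n' := by
    have := congrArg List.length hrk
    simpa using this.symm
  subst hk
  rw [fac_reverse_iff] at hrk
  obtain ⟨r', k', hrk'⟩ := hu (fac u 0 (s + n' + 1)) ⟨0, _, rfl⟩
  have hk' : k' = s + n' + 1 := by
    have := congrArg List.length hrk'
    simpa using this.symm
  subst hk'
  rw [fac_reverse_iff] at hrk'
  obtain ⟨q, hq, hq2⟩ := hcon (r' + 1) (by omega)
  apply hq2
  have h1 := hrk' (q + 1) (by omega)
  rw [show r' + 1 + q = r' + (q + 1) by ring, ← h1]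
  have h2 := hrk q (by omega)
  rw [show 0 + (s + n' + 1 - 1 - (q + 1)) = 0 + (s + n' - 1 - q) by omega, h2]
  simp

lemma recurrent_prefix {u : ℕ → A} (hu : ClosedRev u) (n N : ℕ) :
    ∃ t, N ≤ t ∧ ∀ s < n, u (t + s) = u s := by
  induction N with
  | zero => exact ⟨0, le_rfl, fun s _ => by simp⟩
  | succ N ih =>
    obtain ⟨t, ht, h⟩ := ih
    obtain ⟨t', ht', h'⟩ := recurrent_aux hu (t + n)
    refine ⟨t' + t, by omega, fun s hs => ?_⟩
    rw [add_assoc, h' (t + s) (by omega), h s hs]

lemma recurrent {u : ℕ → A} (hu : ClosedRev u) (i n N : ℕ) :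
    ∃ t, N ≤ t ∧ ∀ s < n, u (t + s) = u (i + s) := by
  obtain ⟨t, ht, h⟩ := recurrent_prefix hu (i + n) N
  refine ⟨t + i, by omega, fun s hs => ?_⟩
  rw [add_assoc, h (i + s) (by omega)]

/-- The hypothesis: all complete return words of palindromic factors of length at least `K`
are palindromes. -/
def PalReturns (u : ℕ → A) (K : ℕ) : Prop :=
  ∀ w ∈ Lang u, w.reverse = w → K ≤ w.length → ∀ v, IsCompleteReturn u v w → v.reverse = v

lemma occursAt_fac {u : ℕ → A} {i n j m t : ℕ} :
    OccursAt (fac u i n) (fac u j m) t ↔ t + n ≤ m ∧ ∀ s < n, u (j + t + s) = u (i + s) := by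
  unfold OccursAt
  simp only [length_fac]
  constructor
  · rintro ⟨h1, h2⟩
    refine ⟨h1, fun s hs => ?_⟩
    have h3 : ((fac u j m).drop t).take n = fac u (j + t) n := by
      apply List.ext_getElem
      · simp; omega
      · intro a ha hb
        rw [List.getElem_take, List.getElem_drop, getElem_fac, getElem_fac]
        rw [add_assoc]
    rw [h3, fac_eq_iff] at h2
    exact h2 s hs
  · rintro ⟨h1, h2⟩
    refine ⟨h1, ?_⟩
    have h3 : ((fac u j m).drop t).take n = fac u (j + t) n := by
      apply List.ext_getElem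
      · simp; omega
      · intro a ha hb
        rw [List.getElem_take, List.getElem_drop, getElem_fac, getElem_fac]
        rw [add_assoc]
    rw [h3, fac_eq_iff]
    exact h2

lemma PalReturns.index {u : ℕ → A} {K : ℕ} (h : PalReturns u K) {i j n : ℕ} (hK : K ≤ n)
    (hp : PalAt u i n) (hij : i < j) (he : ∀ s < n, u (i + s) = u (j + s))
    (hno : ∀ t, i < t → t < j → ¬ ∀ s < n, u (i + s) = u (t + s)) : PalAt u i (j - i + n) := by
  rw [palAt_iff]
  apply h (fac u i n) ⟨i, n, rfl⟩ (palAt_iff.1 hp) (by simpa using hK)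
  refine ⟨⟨i, _, rfl⟩, by simp; omega, ?_, ?_, ?_⟩
  · refine ⟨fac u (i + n) (j - i), ?_⟩
    rw [← fac_add]
    congr 1
    omega
  · refine ⟨fac u i (j - i), ?_⟩
    have h1 : fac u i n = fac u (i + (j - i)) n := by
      rw [fac_eq_iff]
      intro t ht
      rw [he t ht]
      congr 1
      omega
    rw [h1, ← fac_add]
  · have : {t | OccursAt (fac u i n) (fac u i (j - i + n)) t} = {0, j - i} := by
      ext t
      rw [Set.mem_ofPred_eq, occursAt_fac]
      simp only [Set.mem_insert_iff, Set.mem_singleton_iff]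
      constructor
      · rintro ⟨h1, h2⟩
        by_contra hc
        push Not at hc
        apply hno (i + t) (by omega) (by omega)
        intro s hs
        exact (h2 s hs).symm
      · rintro (rfl | rfl)
        · exact ⟨by omega, fun s hs => by simp⟩
        · refine ⟨by omega, fun s hs => ?_⟩
          rw [he s hs]
          congr 1
          omega
    rw [this]
    exact Set.ncard_pair (by omega)

/-- last occurrence before `j` -/
lemma exists_last {P : ℕ → Prop} {i j : ℕ} (hij : i < j) (hi : P i) :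
    ∃ k, i ≤ k ∧ k < j ∧ P k ∧ ∀ t, k < t → t < j → ¬ P t := by
  classical
  have hne : ((Finset.range j).filter P).Nonempty := ⟨i, by simp [hij, hi]⟩
  have hmax := Finset.max'_mem _ hne
  set k := ((Finset.range j).filter P).max' hne with hk
  rw [Finset.mem_filter, Finset.mem_range] at hmax
  refine ⟨k, ?_, hmax.1, hmax.2, ?_⟩
  · exact Finset.le_max' _ _ (by simp [hij, hi])
  · intro t h1 h2 h3
    have : t ≤ k := Finset.le_max' _ _ (by simp [h2, h3])
    omega

/-- Long palindromic suffixes of long prefixes. -/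
lemma long_suffix [Finite A] {u : ℕ → A} {K : ℕ} (hu : ClosedRev u) (h : PalReturns u K)
    (hpal : ∃ i n, K ≤ n ∧ PalAt u i n) :
    ∃ H, ∀ m ≥ H, ∃ n, K ≤ n ∧ n ≤ m ∧ PalAt u (m - n) n := by
  classical
  obtain ⟨B, hB⟩ := exists_prefix u (K + 1)
  refine ⟨B, fun m hm => ?_⟩
  -- a palindrome of length K or K + 1 occurs
  obtain ⟨i0, n0, hn0, hp0, hn0'⟩ : ∃ i n, K ≤ n ∧ PalAt u i n ∧ n ≤ K + 1 := by
    obtain ⟨i, n, hn, hp⟩ := hpal
    have h1 := hp.central (c := (n - K) / 2) (by omega)
    exact ⟨_, _, by omega, h1, by omega⟩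
  -- first good end
  have hex : ∃ m', m ≤ m' ∧ ∃ n, K ≤ n ∧ n ≤ K + 1 ∧ n ≤ m' ∧ PalAt u (m' - n) n := by
    obtain ⟨t, ht, h2⟩ := recurrent hu i0 n0 m
    refine ⟨t + n0, by omega, n0, hn0, hn0', by omega, ?_⟩
    rw [Nat.add_sub_cancel]
    exact hp0.congr (fun s hs => (h2 s hs).symm)
  set m' := Nat.find hex with hm'
  obtain ⟨hmm', hspec⟩ := Nat.find_spec hex
  rw [← hm'] at hmm' hspec
  have hmin : ∀ k, m ≤ k → k < m' → ∀ n, K ≤ n → n ≤ K + 1 → n ≤ k → ¬ PalAt u (k - n) n := by
    intro k h1 h2 n h3 h4 h5 h6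
    exact Nat.find_min hex h2 ⟨h1, n, h3, h4, h5, h6⟩
  -- the longest
  obtain ⟨n, hn1, hn2, hn3, hn4, hlong⟩ : ∃ n, K ≤ n ∧ n ≤ K + 1 ∧ n ≤ m' ∧
      PalAt u (m' - n) n ∧ (n = K → K + 1 ≤ m' → ¬ PalAt u (m' - (K + 1)) (K + 1)) := by
    by_cases hc : K + 1 ≤ m' ∧ PalAt u (m' - (K + 1)) (K + 1)
    · exact ⟨K + 1, by omega, le_rfl, hc.1, hc.2, fun h => by omega⟩
    · obtain ⟨n, h1, h2, h3, h4⟩ := hspec
      exact ⟨n, h1, h2, h3, h4, fun _ h5 h6 => hc ⟨h5, h6⟩⟩
  rcases Nat.eq_or_lt_of_le hmm' with heq | hlt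
  · refine ⟨n, hn1, by omega, ?_⟩
    rw [heq]
    exact hn4
  · -- earlier occurrence
    obtain ⟨i1, -, hi1, hi2⟩ := eq_fac_of_infix u
      (hB (fac u (m' - n) n) ⟨_, _, rfl⟩ (by simpa using hn2))
    rw [length_fac] at hi1 hi2
    rw [fac_eq_iff] at hi2
    obtain ⟨i, -, hi3, hi4, hi5⟩ := exists_last
      (P := fun t => ∀ s < n, u (m' - n + s) = u (t + s)) (i := i1) (j := m' - n)
      (by omega) hi2
    have hR : PalAt u i (m' - n - i + n) := by
      apply h.index hn1 (hn4.congr hi4) hi3 (fun s hs => (hi4 s hs).symm)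
      intro t h1 h2 h3
      apply hi5 t h1 h2
      intro s hs
      rw [hi4 s hs, h3 s hs]
    have hRn : m' - n - i + n = m' - i := by omega
    rw [hRn] at hR
    -- the centre
    set R := m' - i with hRdef
    obtain ⟨c, n1, hc1, hc2, hc3, hc4⟩ : ∃ c n1, R = n1 + 2 * c ∧ K ≤ n1 ∧ n1 ≤ K + 1 ∧
        1 ≤ c := by
      have hRgt : n + 1 ≤ R := by omega
      by_cases hpar : (R - K) % 2 = 0
      · exact ⟨(R - K) / 2, K, by omega, le_rfl, by omega, by omega⟩
      · refine ⟨(R - K) / 2, K + 1, by omega, by omega, le_rfl, ?_⟩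
        by_contra hc
        have hRK : R = K + 1 := by omega
        apply hlong (by omega) (by omega)
        rw [hRK] at hR
        have : m' - (K + 1) = i := by omega
        rw [this]
        exact hR
    have hcent := hR.central (c := c) (by omega)
    have hlt' : m' - c < m := by
      by_contra hge
      apply hmin (m' - c) (by omega) (by omega) n1 hc2 hc3 (by omega)
      have h1 : m' - c - n1 = i + c := by omega
      have h2 : R - 2 * c = n1 := by omega
      rw [h1]
      rw [h2] at hcent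
      exact hcent
    have hfin := hR.central (c := m' - m) (by omega)
    refine ⟨R - 2 * (m' - m), by omega, by omega, ?_⟩
    have : m - (R - 2 * (m' - m)) = i + (m' - m) := by omega
    rw [this]
    exact hfin

open Classical in
/-- Under the hypotheses the defects of all factors are bounded. -/
lemma bounded_defect [Finite A] {u : ℕ → A} {K : ℕ} (hu : ClosedRev u) (h : PalReturns u K)
    (hpal : ∃ i n, K ≤ n ∧ PalAt u i n) :
    ∃ H, ∀ w ∈ Lang u, w.length ≤ (pals w).card + H := by
  obtain ⟨H, hH⟩ := long_suffix hu h hpal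
  refine ⟨H, ?_⟩
  have hpre : ∀ m, m ≤ (pals (fac u 0 m)).card + H := by
    intro m
    induction m with
    | zero => simp
    | succ m ih =>
      rcases Nat.lt_or_ge m H with hlt | hge
      · omega
      · -- longest palindromic suffix of the prefix of length m + 1
        obtain ⟨n0, hn0⟩ := hH (m + 1) (by omega)
        obtain ⟨n, hn1, hn2, hn3, hn4⟩ : ∃ n, K ≤ n ∧ n ≤ m + 1 ∧ PalAt u (m + 1 - n) n ∧
            ∀ k, n < k → k ≤ m + 1 → ¬ PalAt u (m + 1 - k) k := by
          obtain ⟨k, h1, h2, h3, h4⟩ := exists_last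
            (P := fun n => K ≤ n ∧ PalAt u (m + 1 - n) n) (i := n0) (j := m + 2)
            (by omega) ⟨hn0.1, hn0.2.2⟩
          refine ⟨k, h3.1, by omega, h3.2, fun q hq1 hq2 hq3 => ?_⟩
          exact h4 q hq1 (by omega) ⟨by omega, hq3⟩
        have hnot : ¬ fac u (m + 1 - n) n <:+: fac u 0 m := by
          intro hin
          obtain ⟨i1, -, hi1, hi2⟩ := eq_fac_of_infix u hin
          rw [length_fac] at hi1 hi2
          rw [fac_eq_iff] at hi2
          obtain ⟨i, -, hi3, hi4, hi5⟩ := exists_last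
            (P := fun t => ∀ s < n, u (m + 1 - n + s) = u (t + s)) (i := i1) (j := m + 1 - n)
            (by omega) hi2
          have hR : PalAt u i (m + 1 - n - i + n) := by
            apply h.index hn1 (hn3.congr hi4) hi3 (fun s hs => (hi4 s hs).symm)
            intro t h1 h2 h3
            apply hi5 t h1 h2
            intro s hs
            rw [hi4 s hs, h3 s hs]
          apply hn4 (m + 1 - n - i + n) (by omega) (by omega)
          have : m + 1 - (m + 1 - n - i + n) = i := by omega
          rw [this]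
          exact hR
        have hlt : (pals (fac u 0 m)).card < (pals (fac u 0 (m + 1))).card := by
          apply Finset.card_lt_card
          rw [Finset.ssubset_iff_of_subset]
          · refine ⟨fac u (m + 1 - n) n, ?_, ?_⟩
            · rw [mem_pals]
              exact ⟨fac_infix u (by omega) (by omega), palAt_iff.1 hn3⟩
            · rw [mem_pals]
              exact fun h => hnot h.1
          · intro v hv
            rw [mem_pals] at hv ⊢
            exact ⟨hv.1.trans (fac_infix u (by omega) (by omega)), hv.2⟩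
        omega
  rintro w ⟨i, n, rfl⟩
  have h1 := hpre (i + n)
  rw [fac_add] at h1
  have h2 := card_pals_append_left (fac u 0 i) (fac u (0 + i) n)
  rw [length_fac] at h2
  rw [Nat.zero_add] at h1 h2
  rw [length_fac]
  omega

/-- Every factor lies in a palindromic factor. -/
lemma exists_pal_containing {u : ℕ → A} {K : ℕ} (hu : ClosedRev u) (h : PalReturns u K)
    (hpal : ∀ N, ∃ i n, N ≤ n ∧ PalAt u i n) (B : ℕ) :
    ∃ w ∈ Lang u, w.reverse = w ∧ fac u 0 B <:+: w := by
  obtain ⟨i, n, hn, hp⟩ := hpal (max K (B + 1))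
  have hn1 : K ≤ n := le_trans (le_max_left _ _) hn
  have hn2 : B + 1 ≤ n := le_trans (le_max_right _ _) hn
  obtain ⟨a, ha, ha2⟩ := recurrent hu 0 B (i + 1)
  obtain ⟨i1, hi1, hi2, hi3, hi4⟩ := exists_last
    (P := fun t => ∀ s < n, u (i + s) = u (t + s)) (i := i) (j := a + 1)
    (by omega) (fun s _ => rfl)
  classical
  have hex : ∃ t, a + 1 ≤ t ∧ ∀ s < n, u (i + s) = u (t + s) := by
    obtain ⟨t, ht, h2⟩ := recurrent hu i n (a + 1)
    exact ⟨t, ht, fun s hs => (h2 s hs).symm⟩
  obtain ⟨h5, h6⟩ := Nat.find_spec hex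
  set i2 := Nat.find hex with hi2def
  have hR : PalAt u i1 (i2 - i1 + n) := by
    apply h.index hn1 (hp.congr hi3) (by omega)
    · intro s hs
      rw [← hi3 s hs, h6 s hs]
    · intro t h1 h2 h3
      rcases Nat.lt_or_ge t (a + 1) with hc | hc
      · apply hi4 t h1 hc
        intro s hs
        rw [hi3 s hs, h3 s hs]
      · apply Nat.find_min hex h2
        refine ⟨hc, fun s hs => ?_⟩
        rw [hi3 s hs, h3 s hs]
  refine ⟨fac u i1 (i2 - i1 + n), ⟨_, _, rfl⟩, palAt_iff.1 hR, ?_⟩
  have h7 : fac u 0 B = fac u a B := by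
    rw [fac_eq_iff]
    intro t ht
    rw [ha2 t ht]
  rw [h7]
  exact fac_infix u (by omega) (by omega)

lemma exists_long_pal [Finite A] {u : ℕ → A}
    (hinf : {w | w ∈ Lang u ∧ w.reverse = w}.Infinite) (N : ℕ) :
    ∃ i n, N ≤ n ∧ PalAt u i n := by
  by_contra hcon
  push Not at hcon
  apply hinf
  apply (List.finite_length_le A N).subset
  rintro w ⟨⟨i, n, rfl⟩, h2⟩
  simp only [Set.mem_ofPred_eq, length_fac]
  by_contra hc
  exact hcon i n (by omega) (palAt_iff.2 h2)

/-- Main theorem: eventually palindromic complete return words force `T_u` to vanish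
eventually. -/
theorem eventually_zero_of_palReturns [Finite A] {u : ℕ → A} (hu : ClosedRev u)
    (hinf : {w | w ∈ Lang u ∧ w.reverse = w}.Infinite) {K : ℕ} (h : PalReturns u K) :
    ∃ N, ∀ n ≥ N, T u n = 0 := by
  obtain ⟨H, hH⟩ := bounded_defect hu h (exists_long_pal hinf K)
  apply eventually_T_zero H
  intro m
  obtain ⟨B, hB⟩ := exists_prefix u m
  obtain ⟨w, hw1, hw2, hw3⟩ := exists_pal_containing hu h (exists_long_pal hinf) B
  exact ⟨w, hw1, hw2, fun v hv hvl => (hB v hv hvl).trans hw3, hH w hw1⟩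

end Pool.Agent.X2.PalDefect
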