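import Mathlib

/-! Parameterized squares in strings. -/

namespace Pool.Agent.X2.ParamSquare

/-- Two strings are parameterized equivalent if some bijection of the alphabet maps the first
letter by letter to the second. -/
def ParamEquiv {α : Type*} (x y : List α) : Prop := ∃ f : Equiv.Perm α, x.map f = y

/-- Parameterized equivalence as an equivalence relation. -/
def paramSetoid (α : Type*) : Setoid (List α) where
  r := ParamEquiv
  iseqv :=
    { refl := fun x => ⟨1, by simp⟩
      symm := by
        rintro x y ⟨f, rfl⟩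
        exact ⟨f⁻¹, by simp [Function.comp_def]⟩
      trans := by
        rintro x y z ⟨f, rfl⟩ ⟨g, rfl⟩
        exact ⟨g * f, by simp [Function.comp_def]⟩ }

/-- A parameterized square: a nonempty string `x ++ y` with `x` and `y` parameterized
equivalent. -/
def IsParamSquare {α : Type*} (w : List α) : Prop :=
  w ≠ [] ∧ ∃ x y, w = x ++ y ∧ ParamEquiv x y

/-- `PS s`: the number of classes of parameterized squares occurring in `s`. -/
noncomputable def PS {α : Type*} (s : List α) : ℕ :=
  Set.ncard ((Quotient.mk (paramSetoid α)) '' {w | w <:+: s ∧ IsParamSquare w})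

/-- `PS' s`: the number of classes of parameterized squares occurring in `s` that are not
ordinary squares. -/
noncomputable def PS' {α : Type*} (s : List α) : ℕ :=
  Set.ncard ((Quotient.mk (paramSetoid α)) ''
    {w | w <:+: s ∧ ∃ x y, w = x ++ y ∧ ParamEquiv x y ∧ x ≠ y})

lemma finite_infixes {α : Type*} (s : List α) : {w | w <:+: s}.Finite := by
  classical
  apply (s.tails.flatMap List.inits).toFinset.finite_toSet.subset
  intro v hv
  simp only [Finset.mem_coe, List.mem_toFinset, List.mem_flatMap, List.mem_tails, List.mem_inits]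
  obtain ⟨a, h1, h2⟩ := List.infix_iff_prefix_suffix.1 hv
  exact ⟨a, h2, h1⟩

lemma PS'_le_PS {α : Type*} (s : List α) : PS' s ≤ PS s := by
  apply Set.ncard_le_ncard
  · apply Set.image_mono
    rintro w ⟨h1, x, y, h2, h3, h4⟩
    refine ⟨h1, ?_, x, y, h2, h3⟩
    rintro rfl
    obtain ⟨hx, hy⟩ := List.append_eq_nil_iff.1 h2.symm
    exact h4 (by rw [hx, hy])
  · exact ((finite_infixes s).subset fun w hw => hw.1).image _

lemma paramEquiv_of_injective {α : Type*} [Fintype α] {k : ℕ} {p q : Fin k → α}
    (hp : Function.Injective p) (hq : Function.Injective q) :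
    ParamEquiv (List.ofFn p) (List.ofFn q) := by
  classical
  let e : {a // a ∈ Set.range p} ≃ {a // a ∈ Set.range q} :=
    (Equiv.ofInjective p hp).symm.trans (Equiv.ofInjective q hq)
  refine ⟨e.extendSubtype, ?_⟩
  rw [List.map_ofFn]
  congr 1
  funext i
  rw [Function.comp_apply, Equiv.extendSubtype_apply_of_mem e (p i) ⟨i, rfl⟩]
  have : e ⟨p i, ⟨i, rfl⟩⟩ = ⟨q i, ⟨i, rfl⟩⟩ := by
    simp only [e, Equiv.trans_apply]
    have h2 : (Equiv.ofInjective p hp).symm ⟨p i, ⟨i, rfl⟩⟩ = i :=
      Equiv.ofInjective_symm_apply hp i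
    rw [h2]
    rfl
  rw [this]

end Pool.Agent.X2.ParamSquare
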